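import Pool.Agent.V7H21.MP.Mom

/-!
# Almost all coefficients
-/

set_option autoImplicit false

namespace Pool.Agent.V7H21.MP

open MeasureTheory Complex Filter FourierTransform
open scoped Topology ENNReal

/-- a form of the Borel–Cantelli lemma -/
lemma bc {Ω : Type*} [MeasurableSpace Ω] (μ : Measure Ω) (f : ℕ → Ω → ℂ) (hf : ∀ j, Measurable (f j))
    (ε : ℕ → ℝ) (C : ℝ) (h : ∀ᶠ j : ℕ in atTop, 0 < ε j ∧
      ∫⁻ ω, ‖f j ω‖ₑ ^ 2 ∂μ ≤ ENNReal.ofReal (C * (ε j) ^ 2 / (j : ℝ) ^ 2)) :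
    ∀ᵐ ω ∂μ, ∀ᶠ j in atTop, ‖f j ω‖ ≤ ε j := by
  obtain ⟨J, hJ⟩ := eventually_atTop.1 h
  set s : ℕ → Set Ω := fun j => if J ≤ j then {ω | ε j < ‖f j ω‖} else ∅ with hs
  have h1 : ∀ j, μ (s j) ≤ ENNReal.ofReal (C * (1 / (j : ℝ) ^ 2)) := by
    intro j
    by_cases hj : J ≤ j
    · obtain ⟨he, hi⟩ := hJ j hj
      simp only [hs, if_pos hj]
      have he2 : ENNReal.ofReal ((ε j) ^ 2) ≠ 0 := by
        simpa using he.ne'
      have h2 : {ω | ε j < ‖f j ω‖} ⊆ {ω | ENNReal.ofReal ((ε j) ^ 2) ≤ ‖f j ω‖ₑ ^ 2} := by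
        intro ω hω
        have hω' : ε j < ‖f j ω‖ := hω
        show ENNReal.ofReal ((ε j) ^ 2) ≤ ‖f j ω‖ₑ ^ 2
        rw [← ofReal_norm, ← ENNReal.ofReal_pow (norm_nonneg _)]
        apply ENNReal.ofReal_le_ofReal
        nlinarith
      refine (measure_mono h2).trans ((meas_ge_le_lintegral_div
        ((hf j).enorm.pow_const 2).aemeasurable he2 ENNReal.ofReal_ne_top).trans ?_)
      rw [ENNReal.div_le_iff he2 ENNReal.ofReal_ne_top]
      refine hi.trans (le_of_eq ?_)
      rw [← ENNReal.ofReal_mul' (by positivity)]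
      congr 1
      ring
    · simp [hs, hj]
  have h2 : ∑' j, μ (s j) ≠ ∞ := by
    refine ne_top_of_le_ne_top ?_ (ENNReal.tsum_le_tsum h1)
    have h3 : Summable fun j : ℕ => C * (1 / (j : ℝ) ^ 2) :=
      (Real.summable_one_div_nat_pow.2 (by norm_num)).mul_left C
    exact h3.tsum_ofReal_ne_top
  filter_upwards [ae_eventually_notMem h2] with ω hω
  filter_upwards [hω, eventually_ge_atTop J] with j h3 h4
  simp only [hs, if_pos h4, Set.mem_ofPred_eq, not_lt] at h3
  exact h3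

/-- the logarithms of the sampling points -/
noncomputable def tj (K j : ℕ) : ℝ := (j : ℝ) ^ ((1 : ℝ) / (K + 1 : ℕ))

lemma tj_nonneg (K j : ℕ) : 0 ≤ tj K j := by
  unfold tj
  positivity

lemma tj_pow (K j : ℕ) : tj K j ^ (K + 1) = j := by
  unfold tj
  rw [← Real.rpow_natCast, ← Real.rpow_mul (by positivity)]
  rw [one_div, inv_mul_cancel₀ (by positivity), Real.rpow_one]

lemma tj_mono (K j : ℕ) : tj K j ≤ tj K (j + 1) := by
  unfold tj
  apply Real.rpow_le_rpow (by positivity) _ (by positivity)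
  push_cast
  linarith

lemma tj_tendsto (K : ℕ) : Tendsto (tj K) atTop atTop :=
  (tendsto_rpow_atTop (by positivity)).comp tendsto_natCast_atTop_atTop

lemma tj_step (K j : ℕ) : (tj K (j + 1) - tj K j) * tj K j ^ K ≤ 1 := by
  have h1 := tj_pow K j
  have h2 := tj_pow K (j + 1)
  have h3 : tj K (j + 1) * tj K j ^ K ≤ tj K (j + 1) * tj K (j + 1) ^ K := by
    have := pow_le_pow_left₀ (tj_nonneg K j) (tj_mono K j) K
    exact mul_le_mul_of_nonneg_left this (tj_nonneg _ _)
  rw [pow_succ] at h1 h2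
  push_cast at h2
  nlinarith

/-- the sampling points -/
noncomputable def nj (K j : ℕ) : ℕ := ⌊Real.exp (tj K j)⌋₊

lemma nj_lo (K j : ℕ) : Real.exp (tj K j) - 1 ≤ nj K j := by
  unfold nj
  linarith [Nat.lt_floor_add_one (Real.exp (tj K j))]

lemma nj_hi (K j : ℕ) : (nj K j : ℝ) ≤ Real.exp (tj K j) := Nat.floor_le (Real.exp_pos _).le

lemma nj_log (K : ℕ) {j : ℕ} (h : 1 ≤ tj K j) : tj K j - 1 ≤ Real.log (nj K j) := by
  have h1 := nj_lo K j
  have h2 : (2 : ℝ) ≤ Real.exp (tj K j) := by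
    have := Real.add_one_le_exp (tj K j)
    linarith
  have h3 : Real.exp (tj K j) * (1 / 2) ≤ nj K j := by linarith
  have h4 := Real.log_le_log (by positivity) h3
  rw [Real.log_mul (Real.exp_pos _).ne' (by norm_num), Real.log_exp] at h4
  have h5 : Real.log (1 / 2) = - Real.log 2 := by
    rw [one_div, Real.log_inv]
  have h6 : Real.log 2 ≤ 1 := by
    have := Real.log_two_lt_d9
    linarith
  linarith

lemma nj_tendsto (K : ℕ) : Tendsto (nj K) atTop atTop :=
  tendsto_nat_floor_atTop.comp (Real.tendsto_exp_atTop.comp (tj_tendsto K))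

/-- the second moments at the sampling points are summable -/
lemma sample {Ω : Type*} [MeasurableSpace Ω] (μ : Measure Ω) (f : ℕ → Ω → ℂ)
    (hf : ∀ N, Measurable (f N)) (K : ℕ)
    (h : ∀ᶠ N : ℕ in atTop, ∫⁻ ω, ‖f N ω‖ₑ ^ 2 ∂μ ≤
      ENNReal.ofReal ((N : ℝ) ^ 2 / (Real.log N) ^ (2 * K + 2 * (K + 1)))) :
    ∀ᵐ ω ∂μ, ∀ᶠ j in atTop, ‖f (nj K j) ω‖ ≤ nj K j / (Real.log (nj K j)) ^ K := by
  apply bc μ (fun j => f (nj K j)) (fun j => hf _) _ ((2 ^ (K + 1)) ^ 2)
  filter_upwards [(nj_tendsto K).eventually h, (tj_tendsto K).eventually_ge_atTop 2,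
    eventually_ge_atTop 1] with j h1 h2 h3
  have hl := nj_log K (j := j) (by linarith)
  set L := Real.log (nj K j) with hL
  have hL0 : 0 < L := by linarith
  have hN0 : (0 : ℝ) < nj K j := by
    by_contra hc
    have : (nj K j : ℝ) = 0 := le_antisymm (not_lt.1 hc) (by positivity)
    rw [hL, this, Real.log_zero] at hL0
    exact lt_irrefl _ hL0
  refine ⟨by positivity, h1.trans ?_⟩
  apply ENNReal.ofReal_le_ofReal
  have hj0 : (0 : ℝ) < j := by exact_mod_cast h3
  have hj : (j : ℝ) ≤ 2 ^ (K + 1) * L ^ (K + 1) := by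
    rw [← tj_pow K j, ← mul_pow]
    apply pow_le_pow_left₀ (tj_nonneg _ _)
    linarith
  have hj2 : (j : ℝ) ^ 2 ≤ (2 ^ (K + 1) * L ^ (K + 1)) ^ 2 := by gcongr
  rw [div_pow, div_le_div_iff₀ (by positivity) (by positivity)]
  calc (nj K j : ℝ) ^ 2 * (j : ℝ) ^ 2 ≤ (nj K j : ℝ) ^ 2 * (2 ^ (K + 1) * L ^ (K + 1)) ^ 2 := by gcongr
    _ = _ := by
      field_simp
      ring

/-- interpolation between the sampling points -/
lemma interp (T : ℕ → ℝ) (hT : Monotone T) (K : ℕ) {C : ℝ} (hC : 0 ≤ C)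
    (h : ∀ᶠ j in atTop, |T (nj K j) - nj K j| ≤ C * (nj K j / (Real.log (nj K j)) ^ K)) :
    ∃ C' : ℝ, ∀ᶠ x : ℕ in atTop, |T x - x| ≤ C' * (x / (Real.log x) ^ K) := by
  obtain ⟨J, hJ⟩ := eventually_atTop.1 h
  refine ⟨2 * 2 ^ K * (1 + C) + C + C * 2 ^ K + 2 ^ K + 1, ?_⟩
  filter_upwards [ev_log (J + 1), ev_log 4, ev_pow K (c := 1) one_pos, eventually_ge_atTop 1,
    ev_log (2 * 2 ^ K)] with x l1 l2 h1 hx l3
  rw [Real.rpow_one] at h1
  have hx0 : (0 : ℝ) < x := by exact_mod_cast hx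
  set l := Real.log x with hl
  have hl0 : 0 < l := by linarith
  have hexpl : Real.exp l = x := Real.exp_log hx0
  set j := ⌊l ^ (K + 1)⌋₊ with hj
  have hlp : l ≤ l ^ (K + 1) := le_self_pow₀ (by linarith) (by omega)
  have hjJ : J ≤ j := by
    apply Nat.le_floor
    linarith
  have hj1 : (j : ℝ) ≤ l ^ (K + 1) := Nat.floor_le (by positivity)
  have hj2 : l ^ (K + 1) < (j + 1 : ℕ) := by
    push_cast
    exact Nat.lt_floor_add_one _
  have ht1 : tj K j ≤ l := by
    rw [← tj_pow K j] at hj1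
    exact le_of_pow_le_pow_left₀ (by omega) hl0.le hj1
  have ht2 : l < tj K (j + 1) := by
    rw [← tj_pow K (j + 1)] at hj2
    exact lt_of_pow_lt_pow_left₀ (K + 1) (tj_nonneg _ _) hj2
  have ht3 : 1 ≤ tj K j := by
    unfold tj
    apply Real.one_le_rpow _ (by positivity)
    have : 1 ≤ j := by
      apply Nat.le_floor
      push_cast
      linarith
    exact_mod_cast this
  have hstep := tj_step K j
  have ht4 : tj K (j + 1) - tj K j ≤ 1 := by
    have h5 : 1 ≤ tj K j ^ K := one_le_pow₀ ht3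
    have h6 := tj_mono K j
    nlinarith
  have ht5 : l / 2 ≤ tj K j := by linarith
  set δ : ℝ := 1 / tj K j ^ K with hδ
  have htK : 0 < tj K j ^ K := by positivity
  have hδ0 : 0 ≤ δ := by positivity
  have hδ1 : δ ≤ 2 ^ K / l ^ K := by
    have e : (2 : ℝ) ^ K / l ^ K = 1 / (l / 2) ^ K := by
      rw [div_pow]
      field_simp
    rw [hδ, e]
    apply one_div_le_one_div_of_le (by positivity)
    gcongr
  have hδ2 : tj K (j + 1) - tj K j ≤ δ := by
    rw [hδ, le_div_iff₀ htK]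
    exact hstep
  have hδ3 : δ ≤ 1 := by
    rw [hδ, div_le_one htK]
    exact one_le_pow₀ ht3
  have hE : 0 < x / l ^ K := by positivity
  have h1' : 1 ≤ x / l ^ K := by
    rw [le_div_iff₀ (by positivity)]
    linarith
  have hδx : x * δ ≤ 2 ^ K * (x / l ^ K) := by
    calc x * δ ≤ x * (2 ^ K / l ^ K) := by gcongr
      _ = _ := by ring
  -- the upper bound
  have up : T x - x ≤ (2 * 2 ^ K * (1 + C) + C) * (x / l ^ K) := by
    set M := nj K (j + 1) with hM
    have a1 : x ≤ M := by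
      apply Nat.le_floor
      rw [← hexpl]
      exact Real.exp_le_exp.2 ht2.le
    have a2 : (M : ℝ) ≤ x * (1 + 2 * δ) := by
      calc (M : ℝ) ≤ Real.exp (tj K (j + 1)) := nj_hi _ _
        _ ≤ Real.exp (l + δ) := Real.exp_le_exp.2 (by linarith)
        _ = x * Real.exp δ := by rw [Real.exp_add, hexpl]
        _ ≤ _ := by
          have := Real.abs_exp_sub_one_le (x := δ) (by rwa [abs_of_nonneg hδ0])
          rw [abs_of_nonneg hδ0] at this
          have h7 := (abs_le.1 this).2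
          gcongr
          linarith
    have a3 : l ≤ Real.log M := Real.log_le_log hx0 (by exact_mod_cast a1)
    have a4 := (abs_le.1 (hJ (j + 1) (by omega))).2
    rw [← hM] at a4
    have a5 : C * ((M : ℝ) / (Real.log M) ^ K) ≤ C * (x * (1 + 2 * δ) / l ^ K) := by gcongr
    have a6 : T x ≤ T M := hT a1
    have a7 : x * (1 + 2 * δ) / l ^ K = x / l ^ K + 2 * (x * δ) / l ^ K := by ring
    have a8 : (x * δ) / l ^ K ≤ 2 ^ K * (x / l ^ K) := by
      have : (x * δ) / l ^ K ≤ x * δ := by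
        apply div_le_self (by positivity)
        exact one_le_pow₀ (by linarith)
      linarith
    have a9 : C * (x * (1 + 2 * δ) / l ^ K) ≤ C * (x / l ^ K + 2 * (2 ^ K * (x / l ^ K))) := by
      rw [a7]
      gcongr
      rw [mul_div_assoc]
      linarith
    calc T x - x ≤ (T M - M) + (M - x) := by linarith
      _ ≤ C * (x / l ^ K + 2 * (2 ^ K * (x / l ^ K))) + 2 * (2 ^ K * (x / l ^ K)) := by
          have : (M : ℝ) - x ≤ 2 * (x * δ) := by linarith
          linarith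
      _ = _ := by ring
  have lo : -((2 ^ K + 1 + C * 2 ^ K) * (x / l ^ K)) ≤ T x - x := by
    set M := nj K j with hM
    have a1 : M ≤ x := by
      apply Nat.floor_le_of_le
      rw [← hexpl]
      exact Real.exp_le_exp.2 ht1
    have a2 : x * (1 - δ) - 1 ≤ (M : ℝ) := by
      calc x * (1 - δ) - 1 ≤ x * Real.exp (-δ) - 1 := by
            have := Real.add_one_le_exp (-δ)
            gcongr
            linarith
        _ = Real.exp (l - δ) - 1 := by rw [sub_eq_add_neg l, Real.exp_add, hexpl]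
        _ ≤ Real.exp (tj K j) - 1 := by
            have : Real.exp (l - δ) ≤ Real.exp (tj K j) := Real.exp_le_exp.2 (by linarith)
            linarith
        _ ≤ M := nj_lo _ _
    have a3 : l / 2 ≤ Real.log M := by
      have := nj_log K ht3
      linarith
    have a4 := (abs_le.1 (hJ j hjJ)).1
    rw [← hM] at a4
    have hMx : (M : ℝ) ≤ x := by exact_mod_cast a1
    have a5 : C * ((M : ℝ) / (Real.log M) ^ K) ≤ C * (x / (l / 2) ^ K) := by gcongr
    have a6 : T M ≤ T x := hT a1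
    have a7 : x / (l / 2) ^ K = 2 ^ K * (x / l ^ K) := by
      rw [div_pow]
      field_simp
    rw [a7] at a5
    calc -((2 ^ K + 1 + C * 2 ^ K) * (x / l ^ K)) =
        -(2 ^ K * (x / l ^ K)) - x / l ^ K - C * (2 ^ K * (x / l ^ K)) := by ring
      _ ≤ -(x * δ) - 1 - C * (2 ^ K * (x / l ^ K)) := by linarith
      _ ≤ T x - x := by linarith
  have p1 : 0 ≤ 2 ^ K * (x / l ^ K) := by positivity
  have p2 : 0 ≤ C * (x / l ^ K) := by positivity
  have p3 : 0 ≤ C * (2 ^ K * (x / l ^ K)) := by positivity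
  rw [abs_le]
  constructor
  · nlinarith
  · nlinarith

end Pool.Agent.V7H21.MP
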