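import Pool.Agent.V7H21.MP.Main

/-!
# From weighted sums to counts
-/

set_option autoImplicit false

namespace Pool.Agent.V7H21.MP

open MeasureTheory Filter
open scoped Topology

lemma loglog_small : Tendsto (fun x : ℕ => Real.log (Real.log x) / Real.log x) atTop (𝓝 0) := by
  have h1 := Real.isLittleO_log_id_atTop.tendsto_div_nhds_zero
  have h2 := h1.comp (Real.tendsto_log_atTop.comp tendsto_natCast_atTop_atTop)
  exact h2

lemma inv_log_small : Tendsto (fun x : ℕ => (Real.log x)⁻¹) atTop (𝓝 0) :=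
  tendsto_inv_atTop_zero.comp (Real.tendsto_log_atTop.comp tendsto_natCast_atTop_atTop)

/-- `log y0 ~ log x` -/
lemma log_y0 (K : ℕ) : Tendsto (fun x : ℕ => Real.log x / Real.log (y0 K x)) atTop (𝓝 1) := by
  have h1 : Tendsto (fun x : ℕ => Real.log (y0 K x) / Real.log x) atTop (𝓝 1) := by
    have hlow : Tendsto (fun x : ℕ => 1 - K * (Real.log (Real.log x) / Real.log x) -
        Real.log 2 * (Real.log x)⁻¹) atTop (𝓝 1) := by
      have := (tendsto_const_nhds (x := (1 : ℝ))).sub (loglog_small.const_mul (K : ℝ)) |>.sub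
        (inv_log_small.const_mul (Real.log 2))
      simpa using this
    refine tendsto_of_tendsto_of_tendsto_of_le_of_le' hlow tendsto_const_nhds ?_ ?_
    · filter_upwards [ev_log 1, y0_ge K, eventually_ge_atTop 4] with x l1 h2 h3
      have hx4 : (4 : ℝ) ≤ x := by exact_mod_cast h3
      have hl : 0 < Real.log x := by linarith
      have hy2 : (2 : ℝ) ≤ y0 K x := by
        have h1 : √(4 : ℝ) ≤ √(x : ℝ) := Real.sqrt_le_sqrt hx4
        have h2' : √(4 : ℝ) = 2 := by
          rw [show (4 : ℝ) = 2 ^ 2 by norm_num, Real.sqrt_sq (by norm_num)]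
        linarith
      have hy3 : (x : ℝ) / (Real.log x) ^ K ≤ 2 * y0 K x := by
        have : (x : ℝ) / (Real.log x) ^ K < y0 K x + 1 := Nat.lt_floor_add_one _
        linarith
      have h4 := Real.log_le_log (by positivity) hy3
      rw [Real.log_div (by positivity) (by positivity), Real.log_mul (by norm_num) (by positivity),
        Real.log_pow] at h4
      rw [le_div_iff₀ hl]
      have e : (1 - K * (Real.log (Real.log x) / Real.log x) - Real.log 2 * (Real.log x)⁻¹) * Real.log x =
          Real.log x - K * Real.log (Real.log x) - Real.log 2 := by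
        field_simp
      rw [e]
      linarith
    · filter_upwards [ev_log 1, y0_le K, y0_ge K, eventually_ge_atTop 1] with x l1 h1 h2 h3
      have hx0 : (0 : ℝ) < x := by exact_mod_cast h3
      have hl : 0 < Real.log x := by linarith
      rw [div_le_one hl]
      apply Real.log_le_log (lt_of_lt_of_le (Real.sqrt_pos.2 hx0) h2)
      exact_mod_cast h1
  have h2 := h1.inv₀ one_ne_zero
  simp only [inv_div, inv_one] at h2
  exact h2

/-- from weighted sums to counts -/
theorem cnt (S : ℕ → Prop) [DecidablePred S] (ρ : ℕ → ℝ) {κ : ℝ} (hκ : 0 < κ) (s : ℕ)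
    (hρ0 : ∀ m, 0 ≤ ρ m)
    (hρ : Tendsto (fun m : ℕ => ρ m / (Real.log m) ^ s) atTop (𝓝 κ))
    (hT : Tendsto (fun x : ℕ => (∑ m ∈ Finset.Icc 1 x with S m, ρ m) / x) atTop (𝓝 1)) :
    Tendsto (fun x : ℕ => ((Finset.Icc 1 x).filter S).card * (Real.log x) ^ s / x) atTop (𝓝 (1 / κ)) := by
  rw [tendsto_order]
  constructor
  · -- lower bound
    intro l hl
    obtain ⟨l', hl1, hl2⟩ := exists_between (max_lt hl (by positivity : 0 < 1 / κ))
    have hl0 : 0 < l' := (le_max_right _ _).trans_lt hl1
    have hll : l < l' := (le_max_left _ _).trans_lt hl1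
    have hκ1 : κ < 1 / l' := by
      rw [lt_one_div hκ hl0]
      exact hl2
    obtain ⟨m0, hm0⟩ := eventually_atTop.1 ((hρ.eventually_lt_const hκ1).and (ev_log 1))
    set D : ℝ := ∑ m ∈ Finset.Icc 1 m0, ρ m with hD
    have hlim : Tendsto (fun x : ℕ => ((∑ m ∈ Finset.Icc 1 x with S m, ρ m) / x - D / x) * l') atTop
        (𝓝 ((1 - 0) * l')) :=
      (hT.sub (tendsto_const_div_atTop_nhds_zero_nat D)).mul_const l'
    rw [sub_zero, one_mul] at hlim
    filter_upwards [hlim.eventually_const_lt hll, eventually_ge_atTop 1] with x h1 h2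
    refine h1.trans_le ?_
    have hx0 : (0 : ℝ) < x := by exact_mod_cast h2
    have hlx : 0 ≤ Real.log x := Real.log_natCast_nonneg x
    have h3 : ∑ m ∈ Finset.Icc 1 x with S m, ρ m ≤ D + ((Finset.Icc 1 x).filter S).card *
        (1 / l' * (Real.log x) ^ s) := by
      have h4 : ∀ m ∈ (Finset.Icc 1 x).filter S, ρ m ≤ (if m ∈ Finset.Icc 1 m0 then ρ m else 0) +
          1 / l' * (Real.log x) ^ s := by
        intro m hm
        rw [Finset.mem_filter, Finset.mem_Icc] at hm
        have h5 : 0 ≤ 1 / l' * (Real.log x) ^ s := by positivity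
        split_ifs with h6
        · linarith
        · rw [zero_add]
          rw [Finset.mem_Icc, not_and, not_le] at h6
          have h7 := h6 hm.1.1
          obtain ⟨h8, h9⟩ := hm0 m h7.le
          rw [div_lt_iff₀ (by positivity)] at h8
          refine h8.le.trans ?_
          have h10 : Real.log m ≤ Real.log x :=
            Real.log_le_log (by exact_mod_cast hm.1.1) (by exact_mod_cast hm.1.2)
          gcongr
      refine (Finset.sum_le_sum h4).trans ?_
      rw [Finset.sum_add_distrib, Finset.sum_const, nsmul_eq_mul]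
      gcongr
      rw [← Finset.sum_filter]
      apply Finset.sum_le_sum_of_subset_of_nonneg
      · intro m hm
        rw [Finset.mem_filter] at hm
        exact hm.2
      · intro m _ _
        exact hρ0 m
    rw [← sub_div, div_mul_eq_mul_div, div_le_div_iff_of_pos_right hx0]
    have h5 : (∑ m ∈ Finset.Icc 1 x with S m, ρ m) - D ≤ ((Finset.Icc 1 x).filter S).card *
        (1 / l' * (Real.log x) ^ s) := by linarith
    calc ((∑ m ∈ Finset.Icc 1 x with S m, ρ m) - D) * l' ≤ (((Finset.Icc 1 x).filter S).card *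
        (1 / l' * (Real.log x) ^ s)) * l' := by gcongr
      _ = _ := by
        field_simp
  · -- upper bound
    intro u hu
    obtain ⟨u', hu1, hu2⟩ := exists_between hu
    have hu0 : 0 < u' := lt_trans (by positivity) hu1
    have hκ1 : 1 / u' < κ := by
      rw [one_div_lt hu0 hκ]
      exact hu1
    obtain ⟨m0, hm0⟩ := eventually_atTop.1 ((hρ.eventually_const_lt hκ1).and (ev_log 1))
    have hlim : Tendsto (fun x : ℕ => (∑ m ∈ Finset.Icc 1 x with S m, ρ m) / x *
        (Real.log x / Real.log (y0 (s + 1) x)) ^ s * u' + (Real.log x)⁻¹) atTop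
        (𝓝 (1 * 1 ^ s * u' + 0)) :=
      ((hT.mul ((log_y0 (s + 1)).pow s)).mul_const u').add inv_log_small
    rw [one_pow, one_mul, one_mul, add_zero] at hlim
    have hyt : Tendsto (fun x : ℕ => y0 (s + 1) x) atTop atTop := by
      have h1 : Tendsto (fun x : ℕ => √(x : ℝ)) atTop atTop :=
        Real.tendsto_sqrt_atTop.comp tendsto_natCast_atTop_atTop
      have h2 : Tendsto (fun x : ℕ => (y0 (s + 1) x : ℝ)) atTop atTop :=
        tendsto_atTop_mono' _ (y0_ge (s + 1)) h1
      exact tendsto_natCast_atTop_iff.1 h2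
    filter_upwards [hlim.eventually_lt_const hu2, eventually_ge_atTop 1, y0_le (s + 1),
      hyt.eventually_ge_atTop m0, hyt.eventually_ge_atTop 3, ev_log 1] with x h1 h2 h3 h4 h5 l1
    refine lt_of_le_of_lt ?_ h1
    have hx0 : (0 : ℝ) < x := by exact_mod_cast h2
    set y := y0 (s + 1) x with hy
    have hly : 0 < Real.log y := Real.log_pos (by exact_mod_cast (by omega : 1 < y))
    have hlx : 0 < Real.log x := by linarith
    have hc : (((Finset.Icc 1 x).filter S).card : ℝ) ≤ y +
        (∑ m ∈ Finset.Icc 1 x with S m, ρ m) * (u' / (Real.log y) ^ s) := by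
      have h6 : ∀ m ∈ (Finset.Icc 1 x).filter S, (1 : ℝ) ≤ (if m ∈ Finset.Icc 1 y then 1 else 0) +
          ρ m * (u' / (Real.log y) ^ s) := by
        intro m hm
        rw [Finset.mem_filter, Finset.mem_Icc] at hm
        have h7 : 0 ≤ ρ m * (u' / (Real.log y) ^ s) := mul_nonneg (hρ0 m) (by positivity)
        split_ifs with h6
        · linarith
        · rw [zero_add]
          rw [Finset.mem_Icc, not_and, not_le] at h6
          have h8 := h6 hm.1.1
          obtain ⟨h9, h10⟩ := hm0 m (by omega)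
          have h11 : Real.log y ≤ Real.log m :=
            Real.log_le_log (by exact_mod_cast (by omega : 0 < y)) (by exact_mod_cast h8.le)
          rw [lt_div_iff₀ (by positivity), one_div, inv_mul_lt_iff₀ hu0] at h9
          rw [← mul_div_assoc, le_div_iff₀ (by positivity), one_mul]
          calc (Real.log y) ^ s ≤ (Real.log m) ^ s := by gcongr
            _ ≤ u' * ρ m := h9.le
            _ = _ := by ring
      calc (((Finset.Icc 1 x).filter S).card : ℝ) = ∑ m ∈ (Finset.Icc 1 x).filter S, (1 : ℝ) := by simp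
        _ ≤ ∑ m ∈ (Finset.Icc 1 x).filter S, ((if m ∈ Finset.Icc 1 y then 1 else 0) +
          ρ m * (u' / (Real.log y) ^ s)) := Finset.sum_le_sum h6
        _ ≤ _ := by
          rw [Finset.sum_add_distrib, ← Finset.sum_mul]
          gcongr
          rw [← Finset.sum_filter, Finset.sum_const, nsmul_eq_mul, mul_one]
          have : (((Finset.Icc 1 x).filter S).filter fun m => m ∈ Finset.Icc 1 y) ⊆ Finset.Icc 1 y := by
            intro m hm
            rw [Finset.mem_filter] at hm
            exact hm.2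
          have h12 := Finset.card_le_card this
          rw [Nat.card_Icc, add_tsub_cancel_right] at h12
          exact_mod_cast h12
    have hyx : (y : ℝ) * (Real.log x) ^ s / x ≤ (Real.log x)⁻¹ := by
      have h13 := y0_le' (s + 1) x
      rw [← hy] at h13
      rw [div_le_iff₀ hx0]
      calc (y : ℝ) * (Real.log x) ^ s ≤ (x / (Real.log x) ^ (s + 1)) * (Real.log x) ^ s := by gcongr
        _ = _ := by
          field_simp
          ring
    calc (((Finset.Icc 1 x).filter S).card : ℝ) * (Real.log x) ^ s / x ≤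
        (y + (∑ m ∈ Finset.Icc 1 x with S m, ρ m) * (u' / (Real.log y) ^ s)) * (Real.log x) ^ s / x := by
          gcongr
      _ = (∑ m ∈ Finset.Icc 1 x with S m, ρ m) / x * (Real.log x / Real.log y) ^ s * u' +
          y * (Real.log x) ^ s / x := by
          rw [div_pow]
          field_simp
          ring
      _ ≤ _ := by linarith

/-- the logarithm of the values -/
lemma vl_log {α c : ℝ} (hα : 0 < α) (hc : 0 < c) (b : ℤ) :
    Tendsto (fun m : ℕ => Real.log (vl α c b m) / Real.log m) atTop (𝓝 c) := by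
  have hpow : Tendsto (fun m : ℕ => α * (m : ℝ) ^ c) atTop atTop :=
    ((tendsto_rpow_atTop hc).comp tendsto_natCast_atTop_atTop).const_mul_atTop hα
  have hlow : Tendsto (fun m : ℕ => c + Real.log (α / 2) * (Real.log m)⁻¹) atTop (𝓝 c) := by
    simpa using (inv_log_small.const_mul (Real.log (α / 2))).const_add c
  have hup : Tendsto (fun m : ℕ => c + Real.log (2 * α) * (Real.log m)⁻¹) atTop (𝓝 c) := by
    simpa using (inv_log_small.const_mul (Real.log (2 * α))).const_add c
  have key : ∀ᶠ m : ℕ in atTop, α * (m : ℝ) ^ c / 2 ≤ vl α c b m ∧ (vl α c b m : ℝ) ≤ 2 * (α * (m : ℝ) ^ c) := by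
    filter_upwards [hpow.eventually_ge_atTop (2 * (b.natAbs + 1))] with m h1
    set y := α * (m : ℝ) ^ c with hy
    have hy0 : 0 ≤ y := by
      have : (0 : ℝ) ≤ b.natAbs := by positivity
      linarith
    have h2 := Nat.floor_le hy0
    have h3 := Nat.lt_floor_add_one y
    have hv : vl α c b m = ((⌊y⌋₊ : ℤ) + b).toNat := rfl
    have h4 : (⌊y⌋₊ : ℤ) - b.natAbs ≤ vl α c b m := by
      rw [hv]
      omega
    have h5 : ((vl α c b m : ℕ) : ℤ) ≤ (⌊y⌋₊ : ℤ) + b.natAbs := by
      rw [hv]
      omega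
    have h4' : (⌊y⌋₊ : ℝ) - b.natAbs ≤ vl α c b m := by exact_mod_cast h4
    have h5' : (vl α c b m : ℝ) ≤ (⌊y⌋₊ : ℝ) + b.natAbs := by exact_mod_cast h5
    have h6 : (0 : ℝ) ≤ b.natAbs := by positivity
    constructor <;> linarith
  refine tendsto_of_tendsto_of_tendsto_of_le_of_le' hlow hup ?_ ?_
  · filter_upwards [key, ev_log 1, eventually_ge_atTop 1] with m h1 l1 h2
    have hm0 : (0 : ℝ) < m := by exact_mod_cast h2
    have hl : 0 < Real.log m := by linarith
    have h3 := Real.log_le_log (by positivity) h1.1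
    rw [show α * (m : ℝ) ^ c / 2 = (α / 2) * (m : ℝ) ^ c by ring, Real.log_mul (by positivity) (by positivity),
      Real.log_rpow hm0] at h3
    rw [le_div_iff₀ hl]
    have e : (c + Real.log (α / 2) * (Real.log m)⁻¹) * Real.log m = c * Real.log m + Real.log (α / 2) := by
      field_simp
    rw [e]
    linarith
  · filter_upwards [key, ev_log 1, eventually_ge_atTop 1] with m h1 l1 h2
    have hm0 : (0 : ℝ) < m := by exact_mod_cast h2
    have hl : 0 < Real.log m := by linarith
    have hv : (0 : ℝ) < vl α c b m := lt_of_lt_of_le (by positivity) h1.1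
    have h3 := Real.log_le_log hv h1.2
    rw [show 2 * (α * (m : ℝ) ^ c) = (2 * α) * (m : ℝ) ^ c by ring, Real.log_mul (by positivity) (by positivity),
      Real.log_rpow hm0] at h3
    rw [div_le_iff₀ hl]
    have e : (c + Real.log (2 * α) * (Real.log m)⁻¹) * Real.log m = c * Real.log m + Real.log (2 * α) := by
      field_simp
    rw [e]
    linarith

lemma prod_log {r : ℕ} {c : Fin r → ℝ} (hc : ∀ i, 0 < c i) (b : Fin r → ℤ) {α : Fin r → ℝ}
    (hα : ∀ i, 0 < α i) : Tendsto (fun m : ℕ => (∏ i, Real.log (vl (α i) (c i) (b i) m)) / (Real.log m) ^ r)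
    atTop (𝓝 (∏ i, c i)) := by
  have h1 : Tendsto (fun m : ℕ => ∏ i, (Real.log (vl (α i) (c i) (b i) m) / Real.log m)) atTop
      (𝓝 (∏ i, c i)) := tendsto_finsetProd _ fun i _ => vl_log (hα i) (hc i) (b i)
  refine h1.congr fun m => ?_
  rw [Finset.prod_div_distrib, Finset.prod_const, Finset.card_univ, Fintype.card_fin]

lemma prod_th {r : ℕ} (v : Fin r → ℕ) :
    ∏ i, th (v i) = if (∀ i, (v i).Prime) then ∏ i, Real.log (v i) else 0 := by
  split_ifs with h
  · exact Finset.prod_congr rfl fun i _ => if_pos (h i)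
  · push Not at h
    obtain ⟨i, hi⟩ := h
    exact Finset.prod_eq_zero (Finset.mem_univ i) (if_neg hi)

/-- the error term gives the limit -/
lemma lim_of {T : ℕ → ℝ} (h : ∃ C : ℝ, ∀ᶠ x : ℕ in atTop, |T x - x| ≤ C * (x / (Real.log x) ^ 1)) :
    Tendsto (fun x : ℕ => T x / x) atTop (𝓝 1) := by
  obtain ⟨C, hC⟩ := h
  rw [tendsto_iff_norm_sub_tendsto_zero]
  have h1 : Tendsto (fun x : ℕ => C * (Real.log x)⁻¹) atTop (𝓝 0) := by
    simpa using inv_log_small.const_mul C
  refine squeeze_zero' (Eventually.of_forall fun _ => norm_nonneg _) ?_ h1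
  filter_upwards [hC, eventually_ge_atTop 1] with x h2 h3
  have hx0 : (0 : ℝ) < x := by exact_mod_cast h3
  rw [Real.norm_eq_abs, div_sub_one hx0.ne', abs_div, abs_of_pos hx0, div_le_iff₀ hx0]
  refine h2.trans (le_of_eq ?_)
  rw [pow_one]
  ring

/-- integers `m` -/
theorem count_one {r : ℕ} {c : Fin r → ℝ} (hc : ∀ i, 0 < c i) (b : Fin r → ℤ) {α : Fin r → ℝ}
    (hα : ∀ i, 0 < α i) (h : ∃ C : ℝ, ∀ᶠ x : ℕ in atTop,
      |TT (fun _ => 1) c b α x - x| ≤ C * (x / (Real.log x) ^ 1)) :
    Tendsto (fun x : ℕ => (((Finset.Icc 1 x).filter fun m => ∀ i, (vl (α i) (c i) (b i) m).Prime).card : ℝ) *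
      (Real.log x) ^ r / x) atTop (𝓝 (1 / ∏ i, c i)) := by
  apply cnt _ (fun m => ∏ i, Real.log (vl (α i) (c i) (b i) m)) (Finset.prod_pos fun i _ => hc i) r
    (fun m => Finset.prod_nonneg fun i _ => Real.log_natCast_nonneg _) (prod_log hc b hα)
  refine (lim_of h).congr fun x => ?_
  congr 1
  unfold TT
  rw [Finset.sum_filter]
  refine Finset.sum_congr rfl fun m _ => ?_
  rw [one_mul, prod_th]

/-- primes `m` -/
theorem count_th {r : ℕ} {c : Fin r → ℝ} (hc : ∀ i, 0 < c i) (b : Fin r → ℤ) {α : Fin r → ℝ}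
    (hα : ∀ i, 0 < α i) (h : ∃ C : ℝ, ∀ᶠ x : ℕ in atTop,
      |TT th c b α x - x| ≤ C * (x / (Real.log x) ^ 1)) :
    Tendsto (fun x : ℕ => (((Finset.Icc 1 x).filter fun m => m.Prime ∧
      ∀ i, (vl (α i) (c i) (b i) m).Prime).card : ℝ) * (Real.log x) ^ (r + 1) / x) atTop
      (𝓝 (1 / ∏ i, c i)) := by
  apply cnt _ (fun m => Real.log m * ∏ i, Real.log (vl (α i) (c i) (b i) m))
    (Finset.prod_pos fun i _ => hc i) (r + 1)
    (fun m => mul_nonneg (Real.log_natCast_nonneg _)
      (Finset.prod_nonneg fun i _ => Real.log_natCast_nonneg _))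
  · refine (prod_log hc b hα).congr' ?_
    filter_upwards [ev_log 1] with m l1
    have hl : 0 < Real.log m := by linarith
    rw [pow_succ]
    field_simp
  · refine (lim_of h).congr fun x => ?_
    congr 1
    unfold TT
    rw [Finset.sum_filter]
    refine Finset.sum_congr rfl fun m _ => ?_
    rw [prod_th]
    unfold th
    by_cases h1 : m.Prime
    · by_cases h2 : ∀ i, (vl (α i) (c i) (b i) m).Prime
      · rw [if_pos h1, if_pos h2, if_pos (And.intro h1 h2)]
      · rw [if_neg h2, if_neg (fun h3 : m.Prime ∧ ∀ i, (vl (α i) (c i) (b i) m).Prime => h2 h3.2), mul_zero]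
    · rw [if_neg h1, if_neg (fun h3 : m.Prime ∧ ∀ i, (vl (α i) (c i) (b i) m).Prime => h1 h3.1), zero_mul]

end Pool.Agent.V7H21.MP
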