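import Pool.Agent.V7H21.MP.BC

/-!
# The asymptotic formula for almost all coefficients
-/

set_option autoImplicit false

namespace Pool.Agent.V7H21.MP

open MeasureTheory Complex Filter FourierTransform
open scoped Topology ENNReal

/-- the values -/
noncomputable def vl (α c : ℝ) (b : ℤ) (m : ℕ) : ℕ := ((⌊α * (m : ℝ) ^ c⌋₊ : ℤ) + b).toNat

/-- the sum over the values -/
noncomputable def TT (w : ℕ → ℝ) {r : ℕ} (c : Fin r → ℝ) (b : Fin r → ℤ) (α : Fin r → ℝ) (x : ℕ) : ℝ :=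
  ∑ m ∈ Finset.Icc 1 x, w m * ∏ i, th (vl (α i) (c i) (b i) m)

lemma TT_term {w : ℕ → ℝ} (hw' : Wt w) {r : ℕ} (c : Fin r → ℝ) (b : Fin r → ℤ) (α : Fin r → ℝ) (m : ℕ) :
    0 ≤ w m * ∏ i, th (vl (α i) (c i) (b i) m) :=
  mul_nonneg (hw'.nn m) (Finset.prod_nonneg fun _ _ => th_nonneg _)

lemma TT_mono {w : ℕ → ℝ} (hw' : Wt w) {r : ℕ} (c : Fin r → ℝ) (b : Fin r → ℤ) (α : Fin r → ℝ) :
    Monotone (TT w c b α) := by
  intro x y hxy
  unfold TT
  exact Finset.sum_le_sum_of_subset_of_nonneg (Finset.Icc_subset_Icc_right hxy)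
    fun m _ _ => TT_term hw' c b α m

lemma hw_val {c A : ℝ} (hc : 0 < c) (b : ℤ) (K1 N : ℕ) {a : ℝ} (ha : a ∈ Set.Icc (-A) A) {m : ℕ}
    (hm : m ∈ Finset.Ioc (y0 K1 N) N) :
    1 + hw b c A K1 N (a + c * Real.log m) = ((th (vl (Real.exp a) c b m) : ℝ) : ℂ) := by
  rw [Finset.mem_Ioc] at hm
  have hm0 : (0 : ℝ) < m := by exact_mod_cast (by omega : 0 < m)
  have e1 : Real.exp (a + c * Real.log m) = Real.exp a * (m : ℝ) ^ c := by
    rw [Real.exp_add, Real.rpow_def_of_pos hm0]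
    congr 2
    ring
  unfold hw st gw
  rw [e1]
  have h1 : PP c A K1 N ≤ ⌊Real.exp a * (m : ℝ) ^ c⌋₊ := by
    unfold PP
    apply Nat.floor_le_floor
    have h2 : (y0 K1 N : ℝ) ≤ m := by exact_mod_cast hm.1.le
    have h3 := ha.1
    gcongr
  have h2 : ⌊Real.exp a * (m : ℝ) ^ c⌋₊ < QQ c A N := by
    unfold QQ
    apply Nat.lt_succ_of_le
    apply Nat.floor_le_floor
    have h2 : (m : ℝ) ≤ N := by exact_mod_cast hm.2
    have h3 := ha.2
    gcongr
  rw [if_pos ⟨h1, h2⟩]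
  unfold vl
  ring

lemma SS_val (w : ℕ → ℝ) {r : ℕ} (c : Fin r → ℝ) (hc : ∀ i, 0 < c i) (b : Fin r → ℤ) (A : ℝ) (K1 N : ℕ)
    (a : Fin r → ℝ) (ha : ∀ i, a i ∈ Set.Icc (-A) A) :
    SS w r c b A K1 N 0 a = ((∑ m ∈ Finset.Ioc (y0 K1 N) N,
      w m * ∏ i, th (vl (Real.exp (a i)) (c i) (b i) m) : ℝ) : ℂ) := by
  unfold SS U
  rw [Complex.ofReal_sum]
  refine Finset.sum_congr rfl fun m hm => ?_
  rw [zero_mul, er_zero, mul_one, Complex.ofReal_mul, Complex.ofReal_prod, mul_comm]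
  congr 1
  exact Finset.prod_congr rfl fun i _ => hw_val (hc i) (b i) K1 N (ha i) hm

lemma th_val {c A : ℝ} (hc : 0 < c) (hA : 0 ≤ A) (b : ℤ) : ∀ᶠ N : ℕ in atTop, ∀ a ∈ Set.Icc (-A) A,
    ∀ m ≤ N, th (vl (Real.exp a) c b m) ≤ (Real.log N) ^ 2 := by
  filter_upwards [logQ hc hA, ev_P (A := A) hc 0 (b.natAbs + 1), PQ hc hA 0] with N h1 h2 h3 a ha m hm
  have h4 : ⌊Real.exp a * (m : ℝ) ^ c⌋₊ < QQ c A N := by
    unfold QQ
    apply Nat.lt_succ_of_le
    apply Nat.floor_le_floor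
    have h2 : (m : ℝ) ≤ N := by exact_mod_cast hm
    have h3 := ha.2
    gcongr
  have h5 : vl (Real.exp a) c b m ≤ 2 * QQ c A N := by
    unfold vl
    omega
  have h6 : Real.log (vl (Real.exp a) c b m) ≤ Real.log (2 * QQ c A N : ℕ) := by
    rcases Nat.eq_zero_or_pos (vl (Real.exp a) c b m) with h0 | h0
    · rw [h0]
      simpa using Real.log_natCast_nonneg (2 * QQ c A N)
    · apply Real.log_le_log (by exact_mod_cast h0)
      exact_mod_cast h5
  have := th_le_log (vl (Real.exp a) c b m)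
  linarith

/-- the part `m ≤ y0` is small -/
lemma TT_small {w : ℕ → ℝ} (hw' : Wt w) {r : ℕ} (c : Fin r → ℝ) (hc : ∀ i, 0 < c i) (b : Fin r → ℤ) {A : ℝ}
    (hA : 0 ≤ A) (K : ℕ) : ∀ᶠ N : ℕ in atTop, ∀ a : Fin r → ℝ, (∀ i, a i ∈ Set.Icc (-A) A) →
    TT w c b (fun i => Real.exp (a i)) (y0 (K + 2 * r + 2) N) ≤ N / (Real.log N) ^ K := by
  have h1 : ∀ᶠ N : ℕ in atTop, ∀ i, ∀ a ∈ Set.Icc (-A) A,
      ∀ m ≤ N, th (vl (Real.exp a) (c i) (b i) m) ≤ (Real.log N) ^ 2 :=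
    eventually_all.2 fun i => th_val (hc i) hA (b i)
  filter_upwards [h1, ev_log 2, y0_le (K + 2 * r + 2)] with N h2 l1 h3 a ha
  set L := Real.log N with hL
  have hL0 : 0 < L := by linarith
  unfold TT
  calc ∑ m ∈ Finset.Icc 1 (y0 (K + 2 * r + 2) N), w m * ∏ i, th (vl (Real.exp (a i)) (c i) (b i) m) ≤
      ∑ m ∈ Finset.Icc 1 (y0 (K + 2 * r + 2) N), L ^ 2 * (L ^ 2) ^ r := by
        refine Finset.sum_le_sum fun m hm => ?_
        rw [Finset.mem_Icc] at hm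
        have hmN : m ≤ N := hm.2.trans h3
        have h4 : w m ≤ L ^ 2 := by
          have h5 : Real.log m ≤ L := Real.log_le_log (by exact_mod_cast (by omega : 0 < m)) (by exact_mod_cast hmN)
          have h6 := hw'.le m
          nlinarith
        have h5 : ∏ i, th (vl (Real.exp (a i)) (c i) (b i) m) ≤ (L ^ 2) ^ r := by
          calc _ ≤ ∏ _i : Fin r, L ^ 2 :=
                Finset.prod_le_prod (fun i _ => th_nonneg _) fun i _ => h2 i (a i) (ha i) m hmN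
            _ = _ := by
                rw [Finset.prod_const, Finset.card_univ, Fintype.card_fin]
        exact mul_le_mul h4 h5 (Finset.prod_nonneg fun _ _ => th_nonneg _) (by positivity)
    _ = (y0 (K + 2 * r + 2) N : ℝ) * L ^ (2 * r + 2) := by
        rw [Finset.sum_const, Nat.card_Icc, add_tsub_cancel_right, nsmul_eq_mul]
        ring
    _ ≤ (N / L ^ (K + 2 * r + 2)) * L ^ (2 * r + 2) := by
        gcongr
        exact y0_le' _ _
    _ = _ := by
        field_simp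
        ring

lemma TT_split (w : ℕ → ℝ) {r : ℕ} (c : Fin r → ℝ) (b : Fin r → ℤ) (α : Fin r → ℝ) {y x : ℕ} (h : y ≤ x) :
    TT w c b α x = TT w c b α y + ∑ m ∈ Finset.Ioc y x, w m * ∏ i, th (vl (α i) (c i) (b i) m) := by
  unfold TT
  rw [show Finset.Icc 1 x = Finset.Ioc 0 x by rfl, show Finset.Icc 1 y = Finset.Ioc 0 y by rfl,
    Finset.sum_Ioc_consecutive _ (Nat.zero_le _) h]

lemma bx_ae (A : ℝ) (r : ℕ) : ∀ᵐ a ∂(bx A r), ∀ i, a i ∈ Set.Icc (-A) A := by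
  have h1 : bx A r = (volume : Measure (Fin r → ℝ)).restrict (Set.pi Set.univ fun _ => Set.Icc (-A) A) := by
    unfold bx
    rw [volume_pi, Measure.restrict_pi_pi]
  rw [h1]
  filter_upwards [ae_restrict_mem (MeasurableSet.univ_pi fun _ => measurableSet_Icc)] with a ha i
  exact ha i (Set.mem_univ i)

/-- the theorem on a cube -/
theorem box_ae {w : ℕ → ℝ} (hw' : Wt w) {r : ℕ} (c : Fin r → ℝ) (hc : ∀ i, 0 < c i) (b : Fin r → ℤ) {A : ℝ}
    (hA : 0 ≤ A) (K : ℕ) : ∀ᵐ a ∂(bx A r), ∃ C : ℝ, ∀ᶠ x : ℕ in atTop,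
    |TT w c b (fun i => Real.exp (a i)) x - x| ≤ C * (x / (Real.log x) ^ K) := by
  set K1 := K + 2 * r + 2 with hK1
  have h1 := sample (bx A r) (fun N a => SS w r c b A K1 N 0 a - W w K1 N 0)
    (fun N => (SS_measurable w r c b A K1 N 0).sub_const _) K (by
      filter_upwards [mom hw' hA K1 r c hc b 0 (2 * K + 2 * (K + 1))] with N hN
      exact hN 0 (by simp))
  filter_upwards [h1, bx_ae A r] with a h2 ha
  apply interp _ (TT_mono hw' c b _) K (C := 4) (by norm_num)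
  have h3 : ∀ᶠ N : ℕ in atTop, TT w c b (fun i => Real.exp (a i)) (y0 K1 N) ≤ N / (Real.log N) ^ K := by
    filter_upwards [TT_small hw' c hc b hA K] with N hN
    exact hN a ha
  have h4 : ∀ᶠ N : ℕ in atTop, (y0 K1 N : ℝ) ≤ N / (Real.log N) ^ K := by
    filter_upwards [ev_log 1] with N l1
    refine (y0_le' K1 N).trans ?_
    gcongr (N : ℝ) / ?_
    exact pow_le_pow_right₀ l1 (by omega)
  filter_upwards [h2, (nj_tendsto K).eventually h3, (nj_tendsto K).eventually h4,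
    (nj_tendsto K).eventually (hw'.sum K K1), (nj_tendsto K).eventually (y0_le K1)] with j g1 g2 g3 g4 g5
  set N := nj K j with hN
  rw [TT_split w c b _ g5]
  set T1 := TT w c b (fun i => Real.exp (a i)) (y0 K1 N) with hT1
  set T2 := ∑ m ∈ Finset.Ioc (y0 K1 N) N, w m * ∏ i, th (vl (Real.exp (a i)) (c i) (b i) m) with hT2
  have e1 : SS w r c b A K1 N 0 a - W w K1 N 0 = ((T2 - ∑ m ∈ Finset.Ioc (y0 K1 N) N, w m : ℝ) : ℂ) := by
    rw [SS_val w c hc b A K1 N a ha, Complex.ofReal_sub]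
    congr 1
    unfold W
    rw [Complex.ofReal_sum]
    refine Finset.sum_congr rfl fun m _ => ?_
    rw [zero_mul, er_zero, mul_one]
  rw [e1, Complex.norm_real, Real.norm_eq_abs] at g1
  have hT10 : 0 ≤ T1 := Finset.sum_nonneg fun m _ => TT_term hw' c b _ m
  have hy : (0 : ℝ) ≤ y0 K1 N := by positivity
  have k1 := abs_le.1 g1
  have k2 := abs_le.1 g4
  rw [abs_le]
  constructor
  · linarith [k1.1, k2.1]
  · linarith [k1.2, k2.2]

/-- the theorem for the logarithms of the coefficients -/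
theorem log_ae {w : ℕ → ℝ} (hw' : Wt w) {r : ℕ} (c : Fin r → ℝ) (hc : ∀ i, 0 < c i) :
    ∀ᵐ a : Fin r → ℝ, ∀ (b : Fin r → ℤ) (K : ℕ), ∃ C : ℝ, ∀ᶠ x : ℕ in atTop,
    |TT w c b (fun i => Real.exp (a i)) x - x| ≤ C * (x / (Real.log x) ^ K) := by
  rw [ae_all_iff]
  intro b
  rw [ae_all_iff]
  intro K
  have h1 : ∀ᵐ a : Fin r → ℝ, ∀ A : ℕ, (∀ i, a i ∈ Set.Icc (-(A : ℝ)) A) → ∃ C : ℝ, ∀ᶠ x : ℕ in atTop,
      |TT w c b (fun i => Real.exp (a i)) x - x| ≤ C * (x / (Real.log x) ^ K) := by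
    rw [ae_all_iff]
    intro A
    have h2 := box_ae hw' c hc b (A := (A : ℝ)) (by positivity) K
    have h3 : bx A r = (volume : Measure (Fin r → ℝ)).restrict
        (Set.pi Set.univ fun _ => Set.Icc (-(A : ℝ)) A) := by
      unfold bx
      rw [volume_pi, Measure.restrict_pi_pi]
    rw [h3, ae_restrict_iff' (MeasurableSet.univ_pi fun _ => measurableSet_Icc)] at h2
    filter_upwards [h2] with a ha hA
    exact ha fun i _ => hA i
  filter_upwards [h1] with a ha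
  apply ha ⌈∑ i, |a i|⌉₊
  intro i
  have h2 : |a i| ≤ (⌈∑ i, |a i|⌉₊ : ℝ) :=
    (Finset.single_le_sum (f := fun i => |a i|) (fun _ _ => abs_nonneg _) (Finset.mem_univ i)).trans
      (Nat.le_ceil _)
  exact abs_le.1 h2

/-- **The main theorem.** -/
theorem main_ae {w : ℕ → ℝ} (hw' : Wt w) {r : ℕ} (c : Fin r → ℝ) (hc : ∀ i, 0 < c i) :
    ∀ᵐ α : Fin r → ℝ, (∀ i, 0 < α i) → ∀ (b : Fin r → ℤ) (K : ℕ), ∃ C : ℝ, ∀ᶠ x : ℕ in atTop,
    |TT w c b α x - x| ≤ C * (x / (Real.log x) ^ K) := by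
  have h1 := log_ae hw' c hc
  rw [ae_iff] at h1 ⊢
  set f : (Fin r → ℝ) → (Fin r → ℝ) := fun a i => Real.exp (a i) with hf
  have hfd : Differentiable ℝ f := by
    rw [differentiable_pi]
    intro i
    exact (differentiable_apply i).exp
  refine measure_mono_null ?_ (addHaar_image_eq_zero_of_differentiableOn_of_addHaar_eq_zero volume
    hfd.differentiableOn h1)
  intro α hα
  simp only [Set.mem_ofPred_eq, Classical.not_imp] at hα
  refine ⟨fun i => Real.log (α i), ?_, ?_⟩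
  · have : (fun i => Real.exp (Real.log (α i))) = α := by
      ext i
      exact Real.exp_log (hα.1 i)
    simp only [Set.mem_ofPred_eq]
    simp only [this]
    exact hα.2
  · ext i
    exact Real.exp_log (hα.1 i)

end Pool.Agent.V7H21.MP
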