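import Pool.Agent.V7H21.MP.Mom2
import Pool.Agent.V7H21.MP.Main

/-!
# Arbitrary weights
-/

set_option autoImplicit false

namespace Pool.Agent.V7H21.MP

open MeasureTheory Complex Filter FourierTransform
open scoped Topology ENNReal

/-- interpolation between the sampling points -/
lemma interp2 (T V : ℕ → ℝ) (hT : Monotone T) (hV : Monotone V) (B : ℕ)
    (hVd : ∀ x y : ℕ, x ≤ y → V y - V x ≤ (y - x) * (1 + Real.log y) ^ B) (K : ℕ) {C : ℝ} (hC : 0 ≤ C)
    (h : ∀ᶠ j in atTop, |T (nj (K + B) j) - V (nj (K + B) j)| ≤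
      C * (nj (K + B) j / (Real.log (nj (K + B) j)) ^ (K + B))) :
    ∃ C' : ℝ, ∀ᶠ x : ℕ in atTop, |T x - V x| ≤ C' * (x / (Real.log x) ^ K) := by
  set K' := K + B with hK'
  obtain ⟨J, hJ⟩ := eventually_atTop.1 h
  refine ⟨3 * C * 2 ^ K' + (3 * 2 ^ K' + 1) * 2 ^ B, ?_⟩
  filter_upwards [ev_log (J + 1), ev_log 4, ev_pow K' (c := 1) one_pos, eventually_ge_atTop 1] with
    x l1 l2 h1 hx
  rw [Real.rpow_one] at h1
  have hx0 : (0 : ℝ) < x := by exact_mod_cast hx
  set l := Real.log x with hl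
  have hl0 : 0 < l := by linarith
  have hexpl : Real.exp l = x := Real.exp_log hx0
  set j := ⌊l ^ (K' + 1)⌋₊ with hj
  have hlp : l ≤ l ^ (K' + 1) := le_self_pow₀ (by linarith) (by omega)
  have hjJ : J ≤ j := by
    apply Nat.le_floor
    linarith
  have hj1 : (j : ℝ) ≤ l ^ (K' + 1) := Nat.floor_le (by positivity)
  have hj2 : l ^ (K' + 1) < (j + 1 : ℕ) := by
    push_cast
    exact Nat.lt_floor_add_one _
  have ht1 : tj K' j ≤ l := by
    rw [← tj_pow K' j] at hj1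
    exact le_of_pow_le_pow_left₀ (by omega) hl0.le hj1
  have ht2 : l < tj K' (j + 1) := by
    rw [← tj_pow K' (j + 1)] at hj2
    exact lt_of_pow_lt_pow_left₀ (K' + 1) (tj_nonneg _ _) hj2
  have ht3 : 1 ≤ tj K' j := by
    unfold tj
    apply Real.one_le_rpow _ (by positivity)
    have : 1 ≤ j := by
      apply Nat.le_floor
      push_cast
      linarith
    exact_mod_cast this
  have hstep := tj_step K' j
  have ht4 : tj K' (j + 1) - tj K' j ≤ 1 := by
    have h5 : 1 ≤ tj K' j ^ K' := one_le_pow₀ ht3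
    have h6 := tj_mono K' j
    nlinarith
  have ht5 : l / 2 ≤ tj K' j := by linarith
  set δ : ℝ := 1 / tj K' j ^ K' with hδ
  have htK : 0 < tj K' j ^ K' := by positivity
  have hδ0 : 0 ≤ δ := by positivity
  have hδ1 : δ ≤ 2 ^ K' / l ^ K' := by
    have e : (2 : ℝ) ^ K' / l ^ K' = 1 / (l / 2) ^ K' := by
      rw [div_pow]
      field_simp
    rw [hδ, e]
    apply one_div_le_one_div_of_le (by positivity)
    gcongr
  have hδ2 : tj K' (j + 1) - tj K' j ≤ δ := by
    rw [hδ, le_div_iff₀ htK]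
    exact hstep
  have hδ3 : δ ≤ 1 := by
    rw [hδ, div_le_one htK]
    exact one_le_pow₀ ht3
  have h1' : 1 ≤ x / l ^ K' := by
    rw [le_div_iff₀ (by positivity)]
    linarith
  have hδx : x * δ ≤ 2 ^ K' * (x / l ^ K') := by
    calc x * δ ≤ x * (2 ^ K' / l ^ K') := by gcongr
      _ = _ := by ring
  have hKK : x / l ^ K' ≤ x / l ^ K := by
    gcongr (x : ℝ) / ?_
    exact pow_le_pow_right₀ (by linarith) (by omega)
  set M := nj K' j with hM
  set M' := nj K' (j + 1) with hM'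
  have a1 : x ≤ M' := by
    apply Nat.le_floor
    rw [← hexpl]
    exact Real.exp_le_exp.2 ht2.le
  have a2 : (M' : ℝ) ≤ x * (1 + 2 * δ) := by
    calc (M' : ℝ) ≤ Real.exp (tj K' (j + 1)) := nj_hi _ _
      _ ≤ Real.exp (l + δ) := Real.exp_le_exp.2 (by linarith)
      _ = x * Real.exp δ := by rw [Real.exp_add, hexpl]
      _ ≤ _ := by
        have := Real.abs_exp_sub_one_le (x := δ) (by rwa [abs_of_nonneg hδ0])
        rw [abs_of_nonneg hδ0] at this
        have h7 := (abs_le.1 this).2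
        gcongr
        linarith
  have a3 : l ≤ Real.log M' := Real.log_le_log hx0 (by exact_mod_cast a1)
  have b1 : M ≤ x := by
    apply Nat.floor_le_of_le
    rw [← hexpl]
    exact Real.exp_le_exp.2 ht1
  have b2 : x * (1 - δ) - 1 ≤ (M : ℝ) := by
    calc x * (1 - δ) - 1 ≤ x * Real.exp (-δ) - 1 := by
          have := Real.add_one_le_exp (-δ)
          gcongr
          linarith
      _ = Real.exp (l - δ) - 1 := by rw [sub_eq_add_neg l, Real.exp_add, hexpl]
      _ ≤ Real.exp (tj K' j) - 1 := by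
          have : Real.exp (l - δ) ≤ Real.exp (tj K' j) := Real.exp_le_exp.2 (by linarith)
          linarith
      _ ≤ M := nj_lo _ _
  have b3 : l / 2 ≤ Real.log M := by
    have := nj_log K' ht3
    linarith
  have hMM : M ≤ M' := b1.trans a1
  have hM'3 : (M' : ℝ) ≤ 3 * x := by nlinarith
  have hM3 : (M : ℝ) ≤ 3 * x := by
    have : (M : ℝ) ≤ x := by exact_mod_cast b1
    linarith
  have hM'0 : (0 : ℝ) < M' := lt_of_lt_of_le hx0 (by exact_mod_cast a1)
  have hlogM' : 1 + Real.log M' ≤ 2 * l := by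
    have : Real.log M' ≤ tj K' (j + 1) := by
      rw [Real.log_le_iff_le_exp hM'0]
      exact nj_hi _ _
    linarith
  have c1 : |T M' - V M'| ≤ 3 * C * 2 ^ K' * (x / l ^ K) := by
    refine (hJ (j + 1) (by omega)).trans ?_
    rw [← hM']
    calc C * ((M' : ℝ) / (Real.log M') ^ K') ≤ C * (3 * x / (l / 2) ^ K') := by
          gcongr
          linarith
      _ = 3 * C * 2 ^ K' * (x / l ^ K') := by
          rw [div_pow]
          field_simp
      _ ≤ _ := by gcongr
  have c2 : |T M - V M| ≤ 3 * C * 2 ^ K' * (x / l ^ K) := by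
    refine (hJ j hjJ).trans ?_
    rw [← hM]
    calc C * ((M : ℝ) / (Real.log M) ^ K') ≤ C * (3 * x / (l / 2) ^ K') := by
          gcongr
      _ = 3 * C * 2 ^ K' * (x / l ^ K') := by
          rw [div_pow]
          field_simp
      _ ≤ _ := by gcongr
  have c3 : V M' - V M ≤ (3 * 2 ^ K' + 1) * 2 ^ B * (x / l ^ K) := by
    refine (hVd M M' hMM).trans ?_
    have d1 : (M' : ℝ) - M ≤ (3 * 2 ^ K' + 1) * (x / l ^ K') := by
      have : (M' : ℝ) - M ≤ 3 * (x * δ) + 1 := by linarith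
      linarith
    have d2 : 0 ≤ 1 + Real.log M' := by linarith
    calc ((M' : ℝ) - M) * (1 + Real.log M') ^ B ≤ ((3 * 2 ^ K' + 1) * (x / l ^ K')) * (2 * l) ^ B := by
          gcongr
      _ = _ := by
          have e : (x : ℝ) / l ^ (K + B) * l ^ B = x / l ^ K := by
            rw [pow_add]
            field_simp
          rw [hK', mul_pow, ← e]
          ring
  have e1 : T x ≤ T M' := hT a1
  have e2 : T M ≤ T x := hT b1
  have e3 : V x ≤ V M' := hV a1
  have e4 : V M ≤ V x := hV b1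
  have k1 := abs_le.1 c1
  have k2 := abs_le.1 c2
  rw [abs_le, add_mul]
  constructor
  · linarith [k2.1]
  · linarith [k1.2]

/-- nonnegative weights with a logarithmic bound -/
structure Wu (B : ℕ) (u : ℕ → ℝ) : Prop where
  nn : ∀ m, 0 ≤ u m
  le : ∀ m, u m ≤ (1 + Real.log m) ^ B

/-- the sum of the weights -/
noncomputable def VV (u : ℕ → ℝ) (x : ℕ) : ℝ := ∑ m ∈ Finset.Icc 1 x, u m

lemma VV_mono {B : ℕ} {u : ℕ → ℝ} (hu : Wu B u) : Monotone (VV u) := by
  intro x y hxy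
  unfold VV
  exact Finset.sum_le_sum_of_subset_of_nonneg (Finset.Icc_subset_Icc_right hxy) fun m _ _ => hu.nn m

lemma VV_split (u : ℕ → ℝ) {y x : ℕ} (h : y ≤ x) : VV u x = VV u y + ∑ m ∈ Finset.Ioc y x, u m := by
  unfold VV
  rw [show Finset.Icc 1 x = Finset.Ioc 0 x by rfl, show Finset.Icc 1 y = Finset.Ioc 0 y by rfl,
    Finset.sum_Ioc_consecutive _ (Nat.zero_le _) h]

lemma VV_diff {B : ℕ} {u : ℕ → ℝ} (hu : Wu B u) (x y : ℕ) (h : x ≤ y) :
    VV u y - VV u x ≤ (y - x) * (1 + Real.log y) ^ B := by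
  rw [VV_split u h, add_sub_cancel_left]
  calc ∑ m ∈ Finset.Ioc x y, u m ≤ ∑ m ∈ Finset.Ioc x y, (1 + Real.log y) ^ B := by
        refine Finset.sum_le_sum fun m hm => (hu.le m).trans ?_
        rw [Finset.mem_Ioc] at hm
        have h1 : Real.log m ≤ Real.log y :=
          Real.log_le_log (by exact_mod_cast (by omega : 0 < m)) (by exact_mod_cast hm.2)
        have h2 := Real.log_natCast_nonneg m
        gcongr
    _ = _ := by
        rw [Finset.sum_const, Nat.card_Ioc, nsmul_eq_mul, Nat.cast_sub h]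

lemma TU_mono {B : ℕ} {u : ℕ → ℝ} (hu : Wu B u) {r : ℕ} (c : Fin r → ℝ) (b : Fin r → ℤ) (α : Fin r → ℝ) :
    Monotone (TT u c b α) := by
  intro x y hxy
  unfold TT
  exact Finset.sum_le_sum_of_subset_of_nonneg (Finset.Icc_subset_Icc_right hxy)
    fun m _ _ => mul_nonneg (hu.nn m) (Finset.prod_nonneg fun _ _ => th_nonneg _)

lemma SU_val (u : ℕ → ℝ) {r : ℕ} (c : Fin r → ℝ) (hc : ∀ i, 0 < c i) (b : Fin r → ℤ) (A : ℝ) (K1 N : ℕ)
    (a : Fin r → ℝ) (ha : ∀ i, a i ∈ Set.Icc (-A) A) :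
    SU (fun m => (u m : ℂ)) r c b A K1 N a = ((∑ m ∈ Finset.Ioc (y0 K1 N) N,
      u m * ∏ i, th (vl (Real.exp (a i)) (c i) (b i) m) : ℝ) : ℂ) := by
  unfold SU U
  rw [Complex.ofReal_sum]
  refine Finset.sum_congr rfl fun m hm => ?_
  rw [Complex.ofReal_mul, Complex.ofReal_prod]
  congr 1
  exact Finset.prod_congr rfl fun i _ => hw_val (hc i) (b i) K1 N (ha i) hm

/-- the part `m ≤ y0` is small -/
lemma TU_small {B : ℕ} {u : ℕ → ℝ} (hu : Wu B u) {r : ℕ} (c : Fin r → ℝ) (hc : ∀ i, 0 < c i)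
    (b : Fin r → ℤ) {A : ℝ} (hA : 0 ≤ A) (K : ℕ) : ∀ᶠ N : ℕ in atTop, ∀ a : Fin r → ℝ,
    (∀ i, a i ∈ Set.Icc (-A) A) →
    TT u c b (fun i => Real.exp (a i)) (y0 (K + 2 * r + 2 * B) N) ≤ N / (Real.log N) ^ K ∧
    VV u (y0 (K + 2 * r + 2 * B) N) ≤ N / (Real.log N) ^ K := by
  have h1 : ∀ᶠ N : ℕ in atTop, ∀ i, ∀ a ∈ Set.Icc (-A) A,
      ∀ m ≤ N, th (vl (Real.exp a) (c i) (b i) m) ≤ (Real.log N) ^ 2 :=
    eventually_all.2 fun i => th_val (hc i) hA (b i)
  filter_upwards [h1, ev_log 2, y0_le (K + 2 * r + 2 * B)] with N h2 l1 h3 a ha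
  set L := Real.log N with hL
  have hL0 : 0 < L := by linarith
  have hL1 : 1 ≤ L := by linarith
  have hub : ∀ m ∈ Finset.Icc 1 (y0 (K + 2 * r + 2 * B) N), u m ≤ L ^ (2 * B) := by
    intro m hm
    rw [Finset.mem_Icc] at hm
    have hmN : m ≤ N := hm.2.trans h3
    have h5 : Real.log m ≤ L := Real.log_le_log (by exact_mod_cast (by omega : 0 < m)) (by exact_mod_cast hmN)
    refine (hu.le m).trans ?_
    rw [pow_mul]
    have h6 := Real.log_natCast_nonneg m
    have h7 : 1 + Real.log m ≤ L ^ 2 := by nlinarith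
    gcongr
  constructor
  · unfold TT
    calc ∑ m ∈ Finset.Icc 1 (y0 (K + 2 * r + 2 * B) N),
        u m * ∏ i, th (vl (Real.exp (a i)) (c i) (b i) m) ≤
        ∑ m ∈ Finset.Icc 1 (y0 (K + 2 * r + 2 * B) N), L ^ (2 * B) * (L ^ 2) ^ r := by
          refine Finset.sum_le_sum fun m hm => ?_
          have h4 := hub m hm
          rw [Finset.mem_Icc] at hm
          have hmN : m ≤ N := hm.2.trans h3
          have h5 : ∏ i, th (vl (Real.exp (a i)) (c i) (b i) m) ≤ (L ^ 2) ^ r := by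
            calc _ ≤ ∏ _i : Fin r, L ^ 2 :=
                  Finset.prod_le_prod (fun i _ => th_nonneg _) fun i _ => h2 i (a i) (ha i) m hmN
              _ = _ := by
                  rw [Finset.prod_const, Finset.card_univ, Fintype.card_fin]
          exact mul_le_mul h4 h5 (Finset.prod_nonneg fun _ _ => th_nonneg _) (by positivity)
      _ = (y0 (K + 2 * r + 2 * B) N : ℝ) * L ^ (2 * r + 2 * B) := by
          rw [Finset.sum_const, Nat.card_Icc, add_tsub_cancel_right, nsmul_eq_mul]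
          ring
      _ ≤ (N / L ^ (K + 2 * r + 2 * B)) * L ^ (2 * r + 2 * B) := by
          gcongr
          exact y0_le' _ _
      _ = _ := by
          field_simp
          ring
  · unfold VV
    calc ∑ m ∈ Finset.Icc 1 (y0 (K + 2 * r + 2 * B) N), u m ≤
        ∑ m ∈ Finset.Icc 1 (y0 (K + 2 * r + 2 * B) N), L ^ (2 * B) := Finset.sum_le_sum hub
      _ = (y0 (K + 2 * r + 2 * B) N : ℝ) * L ^ (2 * B) := by
          rw [Finset.sum_const, Nat.card_Icc, add_tsub_cancel_right, nsmul_eq_mul]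
      _ ≤ (N / L ^ (K + 2 * r + 2 * B)) * L ^ (2 * r + 2 * B) := by
          have := y0_le' (K + 2 * r + 2 * B) N
          have h8 : L ^ (2 * B) ≤ L ^ (2 * r + 2 * B) := pow_le_pow_right₀ hL1 (by omega)
          gcongr
      _ = _ := by
          field_simp
          ring

/-- the theorem on a cube -/
theorem box_ae2 {B : ℕ} {u : ℕ → ℝ} (hu : Wu B u) {r : ℕ} (c : Fin r → ℝ) (hc : ∀ i, 0 < c i)
    (b : Fin r → ℤ) {A : ℝ} (hA : 0 ≤ A) (K : ℕ) : ∀ᵐ a ∂(bx A r), ∃ C : ℝ, ∀ᶠ x : ℕ in atTop,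
    |TT u c b (fun i => Real.exp (a i)) x - VV u x| ≤ C * (x / (Real.log x) ^ K) := by
  set K' := K + B with hK'
  set K1 := K' + 2 * r + 2 * B with hK1
  have h1 := sample (bx A r)
    (fun N a => SU (fun m => (u m : ℂ)) r c b A K1 N a - ∑ m ∈ Finset.Ioc (y0 K1 N) N, (u m : ℂ))
    (fun N => (SU_measurable _ r c b A K1 N).sub_const _) K' (by
      filter_upwards [mom2 hA K1 r c hc b (2 * B) (2 * K' + 2 * (K' + 1)), ev_log 2] with N hN l1
      apply hN
      intro m hm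
      rw [Finset.mem_Ioc] at hm
      rw [Complex.norm_real, Real.norm_of_nonneg (hu.nn m)]
      refine (hu.le m).trans ?_
      have h5 : Real.log m ≤ Real.log N :=
        Real.log_le_log (by exact_mod_cast (by omega : 0 < m)) (by exact_mod_cast hm.2)
      rw [pow_mul]
      have h6 := Real.log_natCast_nonneg m
      have h7 : 1 + Real.log m ≤ Real.log N ^ 2 := by nlinarith
      gcongr)
  filter_upwards [h1, bx_ae A r] with a h2 ha
  apply interp2 _ _ (TU_mono hu c b _) (VV_mono hu) B (VV_diff hu) K (C := 3) (by norm_num)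
  have h3 : ∀ᶠ N : ℕ in atTop, TT u c b (fun i => Real.exp (a i)) (y0 K1 N) ≤ N / (Real.log N) ^ K' ∧
      VV u (y0 K1 N) ≤ N / (Real.log N) ^ K' := by
    filter_upwards [TU_small hu c hc b hA K'] with N hN
    exact hN a ha
  filter_upwards [h2, (nj_tendsto K').eventually h3, (nj_tendsto K').eventually (y0_le K1)] with j g1 g2 g5
  set N := nj K' j with hN
  rw [TT_split u c b _ g5, VV_split u g5]
  set T1 := TT u c b (fun i => Real.exp (a i)) (y0 K1 N) with hT1
  set T2 := ∑ m ∈ Finset.Ioc (y0 K1 N) N, u m * ∏ i, th (vl (Real.exp (a i)) (c i) (b i) m) with hT2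
  have e1 : SU (fun m => (u m : ℂ)) r c b A K1 N a - ∑ m ∈ Finset.Ioc (y0 K1 N) N, (u m : ℂ) =
      ((T2 - ∑ m ∈ Finset.Ioc (y0 K1 N) N, u m : ℝ) : ℂ) := by
    rw [SU_val u c hc b A K1 N a ha, Complex.ofReal_sub]
    congr 1
    rw [Complex.ofReal_sum]
  rw [e1, Complex.norm_real, Real.norm_eq_abs] at g1
  have hT10 : 0 ≤ T1 := Finset.sum_nonneg fun m _ =>
    mul_nonneg (hu.nn m) (Finset.prod_nonneg fun _ _ => th_nonneg _)
  have hV10 : 0 ≤ VV u (y0 K1 N) := Finset.sum_nonneg fun m _ => hu.nn m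
  have k1 := abs_le.1 g1
  rw [abs_le]
  constructor
  · linarith [k1.1, g2.2]
  · linarith [k1.2, g2.1]

/-- the theorem for the logarithms of the coefficients -/
theorem log_ae2 {B : ℕ} {u : ℕ → ℝ} (hu : Wu B u) {r : ℕ} (c : Fin r → ℝ) (hc : ∀ i, 0 < c i) :
    ∀ᵐ a : Fin r → ℝ, ∀ (b : Fin r → ℤ) (K : ℕ), ∃ C : ℝ, ∀ᶠ x : ℕ in atTop,
    |TT u c b (fun i => Real.exp (a i)) x - VV u x| ≤ C * (x / (Real.log x) ^ K) := by
  rw [ae_all_iff]
  intro b
  rw [ae_all_iff]
  intro K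
  have h1 : ∀ᵐ a : Fin r → ℝ, ∀ A : ℕ, (∀ i, a i ∈ Set.Icc (-(A : ℝ)) A) → ∃ C : ℝ, ∀ᶠ x : ℕ in atTop,
      |TT u c b (fun i => Real.exp (a i)) x - VV u x| ≤ C * (x / (Real.log x) ^ K) := by
    rw [ae_all_iff]
    intro A
    have h2 := box_ae2 hu c hc b (A := (A : ℝ)) (by positivity) K
    have h3 : bx A r = (volume : Measure (Fin r → ℝ)).restrict
        (Set.pi Set.univ fun _ => Set.Icc (-(A : ℝ)) A) := by
      unfold bx
      rw [volume_pi, Measure.restrict_pi_pi]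
    rw [h3, ae_restrict_iff' (MeasurableSet.univ_pi fun _ => measurableSet_Icc)] at h2
    filter_upwards [h2] with a ha hA
    exact ha fun i _ => hA i
  filter_upwards [h1] with a ha
  apply ha ⌈∑ i, |a i|⌉₊
  intro i
  have h2 : |a i| ≤ (⌈∑ i, |a i|⌉₊ : ℝ) :=
    (Finset.single_le_sum (f := fun i => |a i|) (fun _ _ => abs_nonneg _) (Finset.mem_univ i)).trans
      (Nat.le_ceil _)
  exact abs_le.1 h2

theorem pos_ae2 {B : ℕ} {u : ℕ → ℝ} (hu : Wu B u) {r : ℕ} (c : Fin r → ℝ) (hc : ∀ i, 0 < c i) :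
    ∀ᵐ α : Fin r → ℝ, (∀ i, 0 < α i) → ∀ (b : Fin r → ℤ) (K : ℕ), ∃ C : ℝ, ∀ᶠ x : ℕ in atTop,
    |TT u c b α x - VV u x| ≤ C * (x / (Real.log x) ^ K) := by
  have h1 := log_ae2 hu c hc
  rw [ae_iff] at h1 ⊢
  set f : (Fin r → ℝ) → (Fin r → ℝ) := fun a i => Real.exp (a i) with hf
  have hfd : Differentiable ℝ f := by
    rw [differentiable_pi]
    intro i
    exact (differentiable_apply i).exp
  refine measure_mono_null ?_ (addHaar_image_eq_zero_of_differentiableOn_of_addHaar_eq_zero volume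
    hfd.differentiableOn h1)
  intro α hα
  simp only [Set.mem_ofPred_eq, Classical.not_imp] at hα
  refine ⟨fun i => Real.log (α i), ?_, ?_⟩
  · have : (fun i => Real.exp (Real.log (α i))) = α := by
      ext i
      exact Real.exp_log (hα.1 i)
    simp only [Set.mem_ofPred_eq]
    simp only [this]
    exact hα.2
  · ext i
    exact Real.exp_log (hα.1 i)

/-- **The main theorem**: arbitrary real weights with a logarithmic bound. -/
theorem main_ae2 (u : ℕ → ℝ) (B : ℕ) (hu : ∀ m, |u m| ≤ (1 + Real.log m) ^ B) {r : ℕ} (c : Fin r → ℝ)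
    (hc : ∀ i, 0 < c i) :
    ∀ᵐ α : Fin r → ℝ, (∀ i, 0 < α i) → ∀ (b : Fin r → ℤ) (K : ℕ), ∃ C : ℝ, ∀ᶠ x : ℕ in atTop,
    |TT u c b α x - ∑ m ∈ Finset.Icc 1 x, u m| ≤ C * (x / (Real.log x) ^ K) := by
  have hp : Wu B (fun m => max (u m) 0) :=
    ⟨fun m => le_max_right _ _, fun m => max_le ((le_abs_self _).trans (hu m))
      ((abs_nonneg _).trans (hu m))⟩
  have hn : Wu B (fun m => max (-u m) 0) :=
    ⟨fun m => le_max_right _ _, fun m => max_le ((neg_le_abs _).trans (hu m))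
      ((abs_nonneg _).trans (hu m))⟩
  have hsub : ∀ m, u m = max (u m) 0 - max (-u m) 0 := by
    intro m
    rcases le_total 0 (u m) with h | h
    · rw [max_eq_left h, max_eq_right (by linarith)]
      ring
    · rw [max_eq_right h, max_eq_left (by linarith)]
      ring
  filter_upwards [pos_ae2 hp c hc, pos_ae2 hn c hc] with α h1 h2 hα b K
  obtain ⟨C1, h3⟩ := h1 hα b K
  obtain ⟨C2, h4⟩ := h2 hα b K
  refine ⟨C1 + C2, ?_⟩
  filter_upwards [h3, h4] with x h5 h6
  have e : TT u c b α x - ∑ m ∈ Finset.Icc 1 x, u m =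
      (TT (fun m => max (u m) 0) c b α x - VV (fun m => max (u m) 0) x) -
      (TT (fun m => max (-u m) 0) c b α x - VV (fun m => max (-u m) 0) x) := by
    unfold TT VV
    have e1 : ∑ m ∈ Finset.Icc 1 x, u m * ∏ i, th (vl (α i) (c i) (b i) m) =
        ∑ m ∈ Finset.Icc 1 x, max (u m) 0 * ∏ i, th (vl (α i) (c i) (b i) m) -
        ∑ m ∈ Finset.Icc 1 x, max (-u m) 0 * ∏ i, th (vl (α i) (c i) (b i) m) := by
      rw [← Finset.sum_sub_distrib]
      refine Finset.sum_congr rfl fun m _ => ?_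
      rw [← sub_mul, ← hsub]
    have e2 : ∑ m ∈ Finset.Icc 1 x, u m =
        ∑ m ∈ Finset.Icc 1 x, max (u m) 0 - ∑ m ∈ Finset.Icc 1 x, max (-u m) 0 := by
      rw [← Finset.sum_sub_distrib]
      exact Finset.sum_congr rfl fun m _ => hsub m
    rw [e1, e2]
    ring
  rw [e]
  refine (abs_sub _ _).trans ?_
  rw [add_mul]
  exact add_le_add h5 h6

end Pool.Agent.V7H21.MP
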