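import Pool.Agent.V7H21.MP.Cnt
import Pool.Agent.V7H21.MP.Main2

/-!
# Counts in a given set of integers
-/

set_option autoImplicit false

namespace Pool.Agent.V7H21.MP

open MeasureTheory Filter
open scoped Topology

lemma logpow_div (B : ℕ) (D : ℝ) : Tendsto (fun x : ℕ => D * ((Real.log x) ^ B / x)) atTop (𝓝 0) := by
  have h1 : Tendsto (fun x : ℕ => (Real.log x) ^ B / x) atTop (𝓝 0) := by
    refine squeeze_zero' (Eventually.of_forall fun x =>
      div_nonneg (pow_nonneg (Real.log_natCast_nonneg x) _) (by positivity)) ?_ inv_log_small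
    filter_upwards [ev_pow (B + 1) (c := 1) one_pos, ev_log 1, eventually_ge_atTop 1] with x h1 h2 h3
    rw [Real.rpow_one] at h1
    have hx0 : (0 : ℝ) < x := by exact_mod_cast h3
    have hl : 0 < Real.log x := by linarith
    rw [div_le_iff₀ hx0, inv_mul_eq_div, le_div_iff₀ hl, ← pow_succ]
    exact h1
  simpa using h1.const_mul D

/-- from weighted sums to counts, relative to a given counting function -/
theorem cnt2 (S : ℕ → Prop) [DecidablePred S] (ρ : ℕ → ℝ) {κ : ℝ} (hκ : 0 < κ) (s : ℕ) (V : ℕ → ℝ)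
    (B : ℕ) (hV : ∀ᶠ x : ℕ in atTop, x / (Real.log x) ^ B ≤ V x)
    (hρ0 : ∀ m, 0 ≤ ρ m)
    (hρ : Tendsto (fun m : ℕ => ρ m / (Real.log m) ^ s) atTop (𝓝 κ))
    (hT : Tendsto (fun x : ℕ => (∑ m ∈ Finset.Icc 1 x with S m, ρ m) / V x) atTop (𝓝 1)) :
    Tendsto (fun x : ℕ => ((Finset.Icc 1 x).filter S).card * (Real.log x) ^ s / V x) atTop
      (𝓝 (1 / κ)) := by
  rw [tendsto_order]
  constructor
  · -- lower bound
    intro l hl
    obtain ⟨l', hl1, hl2⟩ := exists_between (max_lt hl (by positivity : 0 < 1 / κ))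
    have hl0 : 0 < l' := (le_max_right _ _).trans_lt hl1
    have hll : l < l' := (le_max_left _ _).trans_lt hl1
    have hκ1 : κ < 1 / l' := by
      rw [lt_one_div hκ hl0]
      exact hl2
    obtain ⟨m0, hm0⟩ := eventually_atTop.1 ((hρ.eventually_lt_const hκ1).and (ev_log 1))
    set D : ℝ := ∑ m ∈ Finset.Icc 1 m0, ρ m with hD
    have hD0 : 0 ≤ D := Finset.sum_nonneg fun m _ => hρ0 m
    have hlim : Tendsto (fun x : ℕ => ((∑ m ∈ Finset.Icc 1 x with S m, ρ m) / V x -
        D * ((Real.log x) ^ B / x)) * l') atTop (𝓝 ((1 - 0) * l')) :=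
      (hT.sub (logpow_div B D)).mul_const l'
    rw [sub_zero, one_mul] at hlim
    filter_upwards [hlim.eventually_const_lt hll, eventually_ge_atTop 1, hV, ev_log 1] with x h1 h2 hVx l1
    refine h1.trans_le ?_
    have hx0 : (0 : ℝ) < x := by exact_mod_cast h2
    have hlx : 0 < Real.log x := by linarith
    have hV0 : 0 < V x := lt_of_lt_of_le (by positivity) hVx
    have h3 : ∑ m ∈ Finset.Icc 1 x with S m, ρ m ≤ D + ((Finset.Icc 1 x).filter S).card *
        (1 / l' * (Real.log x) ^ s) := by
      have h4 : ∀ m ∈ (Finset.Icc 1 x).filter S, ρ m ≤ (if m ∈ Finset.Icc 1 m0 then ρ m else 0) +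
          1 / l' * (Real.log x) ^ s := by
        intro m hm
        rw [Finset.mem_filter, Finset.mem_Icc] at hm
        have h5 : 0 ≤ 1 / l' * (Real.log x) ^ s := by positivity
        split_ifs with h6
        · linarith
        · rw [zero_add]
          rw [Finset.mem_Icc, not_and, not_le] at h6
          have h7 := h6 hm.1.1
          obtain ⟨h8, h9⟩ := hm0 m h7.le
          rw [div_lt_iff₀ (by positivity)] at h8
          refine h8.le.trans ?_
          have h10 : Real.log m ≤ Real.log x :=
            Real.log_le_log (by exact_mod_cast hm.1.1) (by exact_mod_cast hm.1.2)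
          gcongr
      refine (Finset.sum_le_sum h4).trans ?_
      rw [Finset.sum_add_distrib, Finset.sum_const, nsmul_eq_mul]
      gcongr
      rw [← Finset.sum_filter]
      apply Finset.sum_le_sum_of_subset_of_nonneg
      · intro m hm
        rw [Finset.mem_filter] at hm
        exact hm.2
      · intro m _ _
        exact hρ0 m
    have hDV : D / V x ≤ D * ((Real.log x) ^ B / x) := by
      rw [div_eq_mul_inv]
      apply mul_le_mul_of_nonneg_left _ hD0
      rw [← inv_div]
      exact inv_anti₀ (by positivity) hVx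
    have h6 : ((∑ m ∈ Finset.Icc 1 x with S m, ρ m) / V x - D * ((Real.log x) ^ B / x)) * l' ≤
        ((∑ m ∈ Finset.Icc 1 x with S m, ρ m) / V x - D / V x) * l' := by
      apply mul_le_mul_of_nonneg_right _ hl0.le
      linarith
    refine h6.trans ?_
    rw [← sub_div, div_mul_eq_mul_div, div_le_div_iff_of_pos_right hV0]
    have h5 : (∑ m ∈ Finset.Icc 1 x with S m, ρ m) - D ≤ ((Finset.Icc 1 x).filter S).card *
        (1 / l' * (Real.log x) ^ s) := by linarith
    calc ((∑ m ∈ Finset.Icc 1 x with S m, ρ m) - D) * l' ≤ (((Finset.Icc 1 x).filter S).card *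
        (1 / l' * (Real.log x) ^ s)) * l' := by gcongr
      _ = _ := by
        field_simp
  · -- upper bound
    intro u hu
    obtain ⟨u', hu1, hu2⟩ := exists_between hu
    have hu0 : 0 < u' := lt_trans (by positivity) hu1
    have hκ1 : 1 / u' < κ := by
      rw [one_div_lt hu0 hκ]
      exact hu1
    obtain ⟨m0, hm0⟩ := eventually_atTop.1 ((hρ.eventually_const_lt hκ1).and (ev_log 1))
    have hlim : Tendsto (fun x : ℕ => (∑ m ∈ Finset.Icc 1 x with S m, ρ m) / V x *
        (Real.log x / Real.log (y0 (s + B + 1) x)) ^ s * u' + (Real.log x)⁻¹) atTop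
        (𝓝 (1 * 1 ^ s * u' + 0)) :=
      ((hT.mul ((log_y0 (s + B + 1)).pow s)).mul_const u').add inv_log_small
    rw [one_pow, one_mul, one_mul, add_zero] at hlim
    have hyt : Tendsto (fun x : ℕ => y0 (s + B + 1) x) atTop atTop := by
      have h1 : Tendsto (fun x : ℕ => √(x : ℝ)) atTop atTop :=
        Real.tendsto_sqrt_atTop.comp tendsto_natCast_atTop_atTop
      have h2 : Tendsto (fun x : ℕ => (y0 (s + B + 1) x : ℝ)) atTop atTop :=
        tendsto_atTop_mono' _ (y0_ge (s + B + 1)) h1
      exact tendsto_natCast_atTop_iff.1 h2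
    filter_upwards [hlim.eventually_lt_const hu2, eventually_ge_atTop 1, y0_le (s + B + 1),
      hyt.eventually_ge_atTop m0, hyt.eventually_ge_atTop 3, ev_log 1, hV] with x h1 h2 h3 h4 h5 l1 hVx
    refine lt_of_le_of_lt ?_ h1
    have hx0 : (0 : ℝ) < x := by exact_mod_cast h2
    set y := y0 (s + B + 1) x with hy
    have hly : 0 < Real.log y := Real.log_pos (by exact_mod_cast (by omega : 1 < y))
    have hlx : 0 < Real.log x := by linarith
    have hV0 : 0 < V x := lt_of_lt_of_le (by positivity) hVx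
    have hc : (((Finset.Icc 1 x).filter S).card : ℝ) ≤ y +
        (∑ m ∈ Finset.Icc 1 x with S m, ρ m) * (u' / (Real.log y) ^ s) := by
      have h6 : ∀ m ∈ (Finset.Icc 1 x).filter S, (1 : ℝ) ≤ (if m ∈ Finset.Icc 1 y then 1 else 0) +
          ρ m * (u' / (Real.log y) ^ s) := by
        intro m hm
        rw [Finset.mem_filter, Finset.mem_Icc] at hm
        have h7 : 0 ≤ ρ m * (u' / (Real.log y) ^ s) := mul_nonneg (hρ0 m) (by positivity)
        split_ifs with h6
        · linarith
        · rw [zero_add]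
          rw [Finset.mem_Icc, not_and, not_le] at h6
          have h8 := h6 hm.1.1
          obtain ⟨h9, h10⟩ := hm0 m (by omega)
          have h11 : Real.log y ≤ Real.log m :=
            Real.log_le_log (by exact_mod_cast (by omega : 0 < y)) (by exact_mod_cast h8.le)
          rw [lt_div_iff₀ (by positivity), one_div, inv_mul_lt_iff₀ hu0] at h9
          rw [← mul_div_assoc, le_div_iff₀ (by positivity), one_mul]
          calc (Real.log y) ^ s ≤ (Real.log m) ^ s := by gcongr
            _ ≤ u' * ρ m := h9.le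
            _ = _ := by ring
      calc (((Finset.Icc 1 x).filter S).card : ℝ) = ∑ m ∈ (Finset.Icc 1 x).filter S, (1 : ℝ) := by simp
        _ ≤ ∑ m ∈ (Finset.Icc 1 x).filter S, ((if m ∈ Finset.Icc 1 y then 1 else 0) +
          ρ m * (u' / (Real.log y) ^ s)) := Finset.sum_le_sum h6
        _ ≤ _ := by
          rw [Finset.sum_add_distrib, ← Finset.sum_mul]
          gcongr
          rw [← Finset.sum_filter, Finset.sum_const, nsmul_eq_mul, mul_one]
          have : (((Finset.Icc 1 x).filter S).filter fun m => m ∈ Finset.Icc 1 y) ⊆ Finset.Icc 1 y := by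
            intro m hm
            rw [Finset.mem_filter] at hm
            exact hm.2
          have h12 := Finset.card_le_card this
          rw [Nat.card_Icc, add_tsub_cancel_right] at h12
          exact_mod_cast h12
    have hyx : (y : ℝ) * (Real.log x) ^ s / V x ≤ (Real.log x)⁻¹ := by
      have h13 := y0_le' (s + B + 1) x
      rw [← hy] at h13
      rw [div_le_iff₀ hV0]
      calc (y : ℝ) * (Real.log x) ^ s ≤ (x / (Real.log x) ^ (s + B + 1)) * (Real.log x) ^ s := by gcongr
        _ = (Real.log x)⁻¹ * (x / (Real.log x) ^ B) := by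
          field_simp
          ring
        _ ≤ _ := by gcongr
    calc (((Finset.Icc 1 x).filter S).card : ℝ) * (Real.log x) ^ s / V x ≤
        (y + (∑ m ∈ Finset.Icc 1 x with S m, ρ m) * (u' / (Real.log y) ^ s)) * (Real.log x) ^ s / V x := by
          gcongr
      _ = (∑ m ∈ Finset.Icc 1 x with S m, ρ m) / V x * (Real.log x / Real.log y) ^ s * u' +
          y * (Real.log x) ^ s / V x := by
          rw [div_pow]
          field_simp
          ring
      _ ≤ _ := by linarith

/-- the asymptotic count in a given set `M` of at least `x / (log x) ^ B` integers up to `x` -/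
theorem cnt_ae (M : ℕ → Prop) [DecidablePred M] (B : ℕ)
    (hM : ∀ᶠ x : ℕ in atTop, x / (Real.log x) ^ B ≤ (((Finset.Icc 1 x).filter M).card : ℝ))
    {r : ℕ} (c : Fin r → ℝ) (hc : ∀ i, 0 < c i) :
    ∀ᵐ α : Fin r → ℝ, (∀ i, 0 < α i) → ∀ b : Fin r → ℤ,
    Tendsto (fun x : ℕ => (((Finset.Icc 1 x).filter fun m => M m ∧
      ∀ i, (vl (α i) (c i) (b i) m).Prime).card : ℝ) * (Real.log x) ^ r /
      (((Finset.Icc 1 x).filter M).card : ℝ)) atTop (𝓝 (1 / ∏ i, c i)) := by
  have h1 := main_ae2 (fun m => if M m then 1 else 0) 0 (fun m => by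
    rw [pow_zero]
    split_ifs <;> norm_num) c hc
  filter_upwards [h1] with α h2 hα b
  obtain ⟨C, hC⟩ := h2 hα b (B + 1)
  apply cnt2 _ (fun m => ∏ i, Real.log (vl (α i) (c i) (b i) m)) (Finset.prod_pos fun i _ => hc i) r _ B hM
    (fun m => Finset.prod_nonneg fun i _ => Real.log_natCast_nonneg _) (prod_log hc b hα)
  rw [tendsto_iff_norm_sub_tendsto_zero]
  have h3 : Tendsto (fun x : ℕ => |C| * (Real.log x)⁻¹) atTop (𝓝 0) := by
    simpa using inv_log_small.const_mul |C|
  refine squeeze_zero' (Eventually.of_forall fun _ => norm_nonneg _) ?_ h3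
  filter_upwards [hC, hM, ev_log 1, eventually_ge_atTop 1] with x h4 h5 l1 h6
  have hx0 : (0 : ℝ) < x := by exact_mod_cast h6
  have hl : 0 < Real.log x := by linarith
  set V : ℝ := (((Finset.Icc 1 x).filter M).card : ℝ) with hV
  have hV0 : 0 < V := lt_of_lt_of_le (by positivity) h5
  have e1 : ∑ m ∈ Finset.Icc 1 x, (if M m then (1 : ℝ) else 0) = V := by
    rw [← Finset.sum_filter, Finset.sum_const, nsmul_eq_mul, mul_one]
  have e2 : TT (fun m => if M m then 1 else 0) c b α x = ∑ m ∈ Finset.Icc 1 x with (M m ∧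
      ∀ i, (vl (α i) (c i) (b i) m).Prime), ∏ i, Real.log (vl (α i) (c i) (b i) m) := by
    unfold TT
    rw [Finset.sum_filter]
    refine Finset.sum_congr rfl fun m _ => ?_
    rw [prod_th]
    show (if M m then (1 : ℝ) else 0) * _ = _
    by_cases g1 : M m
    · by_cases g2 : ∀ i, (vl (α i) (c i) (b i) m).Prime
      · rw [if_pos g1, if_pos g2, if_pos (And.intro g1 g2), one_mul]
      · rw [if_neg g2, if_neg (fun h : M m ∧ ∀ i, (vl (α i) (c i) (b i) m).Prime => g2 h.2), mul_zero]
    · rw [if_neg g1, if_neg (fun h : M m ∧ ∀ i, (vl (α i) (c i) (b i) m).Prime => g1 h.1), zero_mul]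
  rw [e1, e2] at h4
  rw [Real.norm_eq_abs, div_sub_one hV0.ne', abs_div, abs_of_pos hV0, div_le_iff₀ hV0]
  refine h4.trans ?_
  calc C * (x / (Real.log x) ^ (B + 1)) ≤ |C| * (x / (Real.log x) ^ (B + 1)) := by
        gcongr
        exact le_abs_self C
    _ = |C| * (Real.log x)⁻¹ * (x / (Real.log x) ^ B) := by
        field_simp
        ring
    _ ≤ _ := by gcongr

end Pool.Agent.V7H21.MP
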