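import Pool.Agent.V7H21.MP.Tr5

/-!
# Means of a function and of its values along a power sequence
-/

set_option autoImplicit false

namespace Pool.Agent.V7H21.MP

open MeasureTheory Filter
open scoped Topology ENNReal

/-- a monotone function with regular increments -/
lemma reg {F : ℝ → ℝ} (hF : MonotoneOn F (Set.Ici 0)) (h0 : ∀ s, 0 ≤ s → 0 ≤ F s) {S : ℝ}
    (h : ∀ η : ℝ, 0 < η → ∃ ρ s0 : ℝ, 1 < ρ ∧ 0 < s0 ∧ ∀ s, s0 ≤ s →
      (S - η) * (ρ - 1) * s ≤ F (ρ * s) - F s ∧ F (ρ * s) - F s ≤ (S + η) * (ρ - 1) * s) :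
    Tendsto (fun s : ℝ => F s / s) atTop (𝓝 S) := by
  rw [Metric.tendsto_atTop]
  intro ε hε
  obtain ⟨ρ, s0, hρ, hs0, h1⟩ := h (ε / 2) (by positivity)
  have hρ0 : 0 < ρ := by linarith
  have hup : ∀ n : ℕ, ∀ s, s0 ≤ s → s ≤ ρ ^ n * (ρ * s0) → F s ≤ F (ρ * s0) + (|S| + ε / 2 + (S + ε / 2)) * 0 +
      (S + ε / 2) * s + |S + ε / 2| * (ρ * s0) := by
    intro n
    induction n with
    | zero =>
      intro s hs1 hs2
      rw [pow_zero, one_mul] at hs2
      have hs : 0 ≤ s := by linarith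
      have a1 : F s ≤ F (ρ * s0) := hF hs (by simp only [Set.mem_Ici]; positivity) hs2
      have a2 : -(|S + ε / 2| * (ρ * s0)) ≤ (S + ε / 2) * s := by
        have b1 : -|S + ε / 2| ≤ S + ε / 2 := neg_abs_le _
        have b2 : |S + ε / 2| * s ≤ |S + ε / 2| * (ρ * s0) := by gcongr
        nlinarith
      linarith
    | succ n ih =>
      intro s hs1 hs2
      by_cases hc : s ≤ ρ * s0
      · have hs : 0 ≤ s := by linarith
        have a1 : F s ≤ F (ρ * s0) := hF hs (by simp only [Set.mem_Ici]; positivity) hc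
        have a2 : -(|S + ε / 2| * (ρ * s0)) ≤ (S + ε / 2) * s := by
          have b1 : -|S + ε / 2| ≤ S + ε / 2 := neg_abs_le _
          have b2 : |S + ε / 2| * s ≤ |S + ε / 2| * (ρ * s0) := by gcongr
          nlinarith
        linarith
      · push Not at hc
        have k1 : s0 ≤ s / ρ := by
          rw [le_div_iff₀ hρ0]
          linarith
        have k2 : s / ρ ≤ ρ ^ n * (ρ * s0) := by
          rw [div_le_iff₀ hρ0]
          calc s ≤ ρ ^ (n + 1) * (ρ * s0) := hs2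
            _ = _ := by ring
        have k3 := ih (s / ρ) k1 k2
        have k4 := (h1 (s / ρ) k1).2
        have e : ρ * (s / ρ) = s := by field_simp
        rw [e] at k4
        have e2 : (S + ε / 2) * (ρ - 1) * (s / ρ) + (S + ε / 2) * (s / ρ) = (S + ε / 2) * s := by
          field_simp
          ring
        linarith
  have hlo : ∀ n : ℕ, ∀ s, s0 ≤ s → s ≤ ρ ^ n * (ρ * s0) →
      (S - ε / 2) * s - |S - ε / 2| * (ρ * s0) ≤ F s := by
    intro n
    induction n with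
    | zero =>
      intro s hs1 hs2
      rw [pow_zero, one_mul] at hs2
      have hs : 0 ≤ s := by linarith
      have a1 := h0 s hs
      have a2 : (S - ε / 2) * s ≤ |S - ε / 2| * (ρ * s0) := by
        have b1 : S - ε / 2 ≤ |S - ε / 2| := le_abs_self _
        have b2 : |S - ε / 2| * s ≤ |S - ε / 2| * (ρ * s0) := by gcongr
        nlinarith
      linarith
    | succ n ih =>
      intro s hs1 hs2
      by_cases hc : s ≤ ρ * s0
      · have hs : 0 ≤ s := by linarith
        have a1 := h0 s hs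
        have a2 : (S - ε / 2) * s ≤ |S - ε / 2| * (ρ * s0) := by
          have b1 : S - ε / 2 ≤ |S - ε / 2| := le_abs_self _
          have b2 : |S - ε / 2| * s ≤ |S - ε / 2| * (ρ * s0) := by gcongr
          nlinarith
        linarith
      · push Not at hc
        have k1 : s0 ≤ s / ρ := by
          rw [le_div_iff₀ hρ0]
          linarith
        have k2 : s / ρ ≤ ρ ^ n * (ρ * s0) := by
          rw [div_le_iff₀ hρ0]
          calc s ≤ ρ ^ (n + 1) * (ρ * s0) := hs2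
            _ = _ := by ring
        have k3 := ih (s / ρ) k1 k2
        have k4 := (h1 (s / ρ) k1).1
        have e : ρ * (s / ρ) = s := by field_simp
        rw [e] at k4
        have e2 : (S - ε / 2) * (ρ - 1) * (s / ρ) + (S - ε / 2) * (s / ρ) = (S - ε / 2) * s := by
          field_simp
          ring
        linarith
  set C : ℝ := F (ρ * s0) + |S + ε / 2| * (ρ * s0) + |S - ε / 2| * (ρ * s0) with hC
  have hF0 : 0 ≤ F (ρ * s0) := h0 _ (by positivity)
  have hC0 : 0 ≤ C := by positivity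
  refine ⟨max s0 (2 * C / ε + 1), fun s hs => ?_⟩
  have hs1 : s0 ≤ s := (le_max_left _ _).trans hs
  have hs2 : 2 * C / ε + 1 ≤ s := (le_max_right _ _).trans hs
  have hs0' : 0 < s := by linarith
  obtain ⟨n, hn⟩ := pow_unbounded_of_one_lt (s / (ρ * s0)) hρ
  have hn' : s ≤ ρ ^ n * (ρ * s0) := by
    rw [div_lt_iff₀ (by positivity)] at hn
    exact hn.le
  have u1 := hup n s hs1 hn'
  have u2 := hlo n s hs1 hn'
  have hCs : C < ε / 2 * s := by
    have : 2 * C / ε < s := by linarith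
    rw [div_lt_iff₀ hε] at this
    linarith
  have p1 : 0 ≤ |S + ε / 2| * (ρ * s0) := by positivity
  have p2 : 0 ≤ |S - ε / 2| * (ρ * s0) := by positivity
  rw [Real.dist_eq, abs_lt]
  constructor
  · rw [lt_sub_iff_add_lt, lt_div_iff₀ hs0']
    nlinarith
  · rw [sub_lt_iff_lt_add, div_lt_iff₀ hs0']
    nlinarith

/-- from the integers to the reals -/
lemma nat_real {F : ℝ → ℝ} (hF : MonotoneOn F (Set.Ici 0)) {S : ℝ}
    (h : Tendsto (fun n : ℕ => F n / n) atTop (𝓝 S)) : Tendsto (fun s : ℝ => F s / s) atTop (𝓝 S) := by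
  have h1 : Tendsto (fun s : ℝ => F (⌊s⌋₊ : ℕ) / (⌊s⌋₊ : ℕ) * ((⌊s⌋₊ : ℕ) / s)) atTop (𝓝 (S * 1)) :=
    (h.comp tendsto_nat_floor_atTop).mul tendsto_nat_floor_div_atTop
  have h2 : Tendsto (fun s : ℝ => F ((⌊s⌋₊ + 1 : ℕ) : ℝ) / ((⌊s⌋₊ + 1 : ℕ) : ℝ) *
      ((⌊s⌋₊ : ℕ) / s + 1 / s)) atTop (𝓝 (S * (1 + 0))) := by
    have h3 : Tendsto (fun n : ℕ => F ((n + 1 : ℕ) : ℝ) / ((n + 1 : ℕ) : ℝ)) atTop (𝓝 S) :=
      h.comp (tendsto_add_atTop_nat 1)
    refine (h3.comp tendsto_nat_floor_atTop).mul (tendsto_nat_floor_div_atTop.add ?_)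
    exact tendsto_const_nhds.div_atTop tendsto_id
  rw [mul_one] at h1
  rw [add_zero, mul_one] at h2
  refine tendsto_of_tendsto_of_tendsto_of_le_of_le' h1 h2 ?_ ?_
  · filter_upwards [eventually_ge_atTop (1 : ℝ)] with s hs
    have hs0 : 0 < s := by linarith
    have hf : 1 ≤ ⌊s⌋₊ := (Nat.one_le_floor_iff _).2 hs
    have hf0 : (0 : ℝ) < (⌊s⌋₊ : ℕ) := by exact_mod_cast hf
    rw [div_mul_div_cancel₀ hf0.ne']
    gcongr
    exact hF hf0.le hs0.le (Nat.floor_le hs0.le)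
  · filter_upwards [eventually_ge_atTop (1 : ℝ)] with s hs
    have hs0 : 0 < s := by linarith
    have e : ((⌊s⌋₊ : ℕ) : ℝ) / s + 1 / s = ((⌊s⌋₊ + 1 : ℕ) : ℝ) / s := by
      push_cast
      ring
    rw [e, div_mul_div_cancel₀ (by positivity)]
    gcongr
    refine hF hs0.le (by simp only [Set.mem_Ici]; positivity) ?_
    push_cast
    exact (Nat.lt_floor_add_one s).le

/-- the change of variables -/
lemma change_eq (g : ℕ → ℝ) {c α : ℝ} (hc : 0 < c) (hα : 0 < α) {s x : ℝ}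
    (hs : 0 < s) (hsx : s ≤ x) :
    ∫ u in (α * s ^ c)..(α * x ^ c), g ⌊u⌋₊ =
      ∫ t in s..x, (α * (c * t ^ (c - 1))) * g ⌊α * t ^ c⌋₊ := by
  have hx : 0 < x := by linarith
  have hmono : StrictMonoOn (fun t : ℝ => α * t ^ c) (Set.Ici 0) := by
    intro a ha b _ hab
    simp only
    have := Real.rpow_lt_rpow ha hab hc
    gcongr
  have hle : α * s ^ c ≤ α * x ^ c := by gcongr
  have himg : (fun t : ℝ => α * t ^ c) '' Set.Icc s x = Set.Icc (α * s ^ c) (α * x ^ c) := by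
    ext u
    constructor
    · rintro ⟨t, ht, rfl⟩
      have ht0 : 0 < t := lt_of_lt_of_le hs ht.1
      simp only
      constructor
      · have := ht.1
        gcongr
      · have := ht.2
        gcongr
    · intro hu
      have hu0 : 0 < u := lt_of_lt_of_le (by positivity) hu.1
      refine ⟨(u / α) ^ (1 / c), ⟨?_, ?_⟩, ?_⟩
      · calc s = (s ^ c) ^ (1 / c) := by
              rw [← Real.rpow_mul hs.le, mul_one_div_cancel hc.ne', Real.rpow_one]
          _ ≤ (u / α) ^ (1 / c) := by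
              apply Real.rpow_le_rpow (by positivity) _ (by positivity)
              rw [le_div_iff₀ hα]
              linarith [hu.1]
      · calc (u / α) ^ (1 / c) ≤ (x ^ c) ^ (1 / c) := by
              apply Real.rpow_le_rpow (by positivity) _ (by positivity)
              rw [div_le_iff₀ hα]
              linarith [hu.2]
          _ = x := by
              rw [← Real.rpow_mul hx.le, mul_one_div_cancel hc.ne', Real.rpow_one]
      · simp only
        rw [← Real.rpow_mul (by positivity), one_div_mul_cancel hc.ne', Real.rpow_one]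
        field_simp
  have hder : ∀ t ∈ Set.Icc s x, HasDerivWithinAt (fun t : ℝ => α * t ^ c) (α * (c * t ^ (c - 1)))
      (Set.Icc s x) t := by
    intro t ht
    have ht0 : 0 < t := lt_of_lt_of_le hs ht.1
    exact ((Real.hasDerivAt_rpow_const (Or.inl ht0.ne')).const_mul α).hasDerivWithinAt
  have hinj : Set.InjOn (fun t : ℝ => α * t ^ c) (Set.Icc s x) :=
    hmono.injOn.mono fun t ht => hs.le.trans ht.1
  rw [intervalIntegral.integral_of_le hle, intervalIntegral.integral_of_le hsx,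
    ← integral_Icc_eq_integral_Ioc, ← integral_Icc_eq_integral_Ioc, ← himg,
    integral_image_eq_integral_abs_deriv_smul measurableSet_Icc hder hinj]
  refine setIntegral_congr_fun measurableSet_Icc fun t ht => ?_
  have ht0 : 0 < t := lt_of_lt_of_le hs ht.1
  simp only [smul_eq_mul]
  rw [abs_of_nonneg (by positivity)]

lemma change_two {B : ℕ} {g : ℕ → ℝ} (hg : Wu B g) {c α : ℝ} (hc : 1 ≤ c) (hα : 0 < α) {s x : ℝ}
    (hs : 0 < s) (hsx : s ≤ x) :
    α * (c * s ^ (c - 1)) * (∫ t in s..x, g ⌊α * t ^ c⌋₊) ≤ ∫ u in (α * s ^ c)..(α * x ^ c), g ⌊u⌋₊ ∧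
    ∫ u in (α * s ^ c)..(α * x ^ c), g ⌊u⌋₊ ≤ α * (c * x ^ (c - 1)) * ∫ t in s..x, g ⌊α * t ^ c⌋₊ := by
  have hc0 : 0 < c := by linarith
  have hx : 0 < x := by linarith
  rw [change_eq g hc0 hα hs hsx]
  have hint : IntervalIntegrable (fun t : ℝ => g ⌊α * t ^ c⌋₊) volume s x := gfun_int hg hc0 hα hs.le hx.le
  have hcont : ContinuousOn (fun t : ℝ => α * (c * t ^ (c - 1))) (Set.uIcc s x) := by
    rw [Set.uIcc_of_le hsx]
    refine ContinuousOn.mul continuousOn_const (ContinuousOn.mul continuousOn_const ?_)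
    exact fun t ht => (Real.continuousAt_rpow_const _ _ (Or.inl (lt_of_lt_of_le hs ht.1).ne')).continuousWithinAt
  have hint2 : IntervalIntegrable (fun t : ℝ => (α * (c * t ^ (c - 1))) * g ⌊α * t ^ c⌋₊) volume s x :=
    hint.continuousOn_mul hcont
  rw [← intervalIntegral.integral_const_mul, ← intervalIntegral.integral_const_mul]
  constructor
  · refine intervalIntegral.integral_mono_on hsx (hint.const_mul _) hint2 fun t ht => ?_
    have h5 : s ^ (c - 1) ≤ t ^ (c - 1) := Real.rpow_le_rpow hs.le ht.1 (by linarith)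
    have h6 := hg.nn ⌊α * t ^ c⌋₊
    gcongr
  · refine intervalIntegral.integral_mono_on hsx hint2 (hint.const_mul _) fun t ht => ?_
    have ht0 : 0 < t := lt_of_lt_of_le hs ht.1
    have h5 : t ^ (c - 1) ≤ x ^ (c - 1) := Real.rpow_le_rpow ht0.le ht.2 (by linarith)
    have h6 := hg.nn ⌊α * t ^ c⌋₊
    gcongr

/-- the integral function of a nonnegative function -/
lemma prim_mono {f : ℝ → ℝ} (h0 : ∀ t, 0 ≤ f t) (hf : ∀ x y : ℝ, 0 ≤ x → 0 ≤ y → IntervalIntegrable f volume x y) :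
    MonotoneOn (fun s : ℝ => ∫ t in (0 : ℝ)..s, f t) (Set.Ici 0) := by
  intro x hx y hy hxy
  simp only
  rw [← intervalIntegral.integral_add_adjacent_intervals (hf 0 x le_rfl hx) (hf x y hx hy)]
  have := intervalIntegral.integral_nonneg (μ := volume) hxy fun t _ => h0 t
  linarith

lemma rho_bounds {c ρ : ℝ} (hc : 1 ≤ c) (hρ : 1 < ρ) :
    c * (ρ - 1) ≤ ρ ^ c - 1 ∧ ρ ^ c - 1 ≤ c * ρ ^ (c - 1) * (ρ - 1) := by
  have hρ0 : 0 < ρ := by linarith
  constructor
  · have h1 := one_add_mul_self_le_rpow_one_add (s := ρ - 1) (by linarith) hc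
    rw [show 1 + (ρ - 1) = ρ by ring] at h1
    linarith
  · have h1 := one_add_mul_self_le_rpow_one_add (s := ρ⁻¹ - 1) (by
      have := inv_pos.2 hρ0
      linarith) hc
    rw [show 1 + (ρ⁻¹ - 1) = ρ⁻¹ by ring, Real.inv_rpow hρ0.le] at h1
    have h2 : 0 < ρ ^ c := by positivity
    have h3 : (1 + c * (ρ⁻¹ - 1)) * ρ ^ c ≤ 1 := by
      calc (1 + c * (ρ⁻¹ - 1)) * ρ ^ c ≤ (ρ ^ c)⁻¹ * ρ ^ c := by gcongr
        _ = 1 := inv_mul_cancel₀ h2.ne'
    have h4 : ρ ^ (c - 1) = ρ ^ c / ρ := by rw [Real.rpow_sub hρ0, Real.rpow_one]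
    rw [h4]
    have h5 : (1 + c * (ρ⁻¹ - 1)) * ρ ^ c = ρ ^ c - c * (ρ ^ c / ρ) * (ρ - 1) := by
      field_simp
      ring
    linarith

lemma choose_rho (c S : ℝ) (hS : 0 ≤ S) {η : ℝ} (hη : 0 < η) : ∃ ρ : ℝ, 1 < ρ ∧ S * ρ ^ (c - 1) ≤ S + η := by
  have h1 : Tendsto (fun ρ : ℝ => S * ρ ^ (c - 1)) (𝓝[>] 1) (𝓝 (S * 1 ^ (c - 1))) :=
    ((Real.continuousAt_rpow_const 1 (c - 1) (Or.inl one_ne_zero)).tendsto.mono_left
      nhdsWithin_le_nhds).const_mul S
  rw [Real.one_rpow, mul_one] at h1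
  have h2 : ∀ᶠ ρ : ℝ in 𝓝[>] 1, S * ρ ^ (c - 1) < S + η := h1.eventually (gt_mem_nhds (by linarith))
  obtain ⟨ρ, hρ1, hρ2⟩ := (h2.and self_mem_nhdsWithin).exists
  exact ⟨ρ, hρ2, hρ1.le⟩

/-- the increments, both ways -/
lemma incr {B : ℕ} {g : ℕ → ℝ} (hg : Wu B g) {c α : ℝ} (hc : 1 ≤ c) (hα : 0 < α) {ρ s : ℝ} (hρ : 1 < ρ)
    (hs : 0 < s) :
    c * ((∫ t in (0 : ℝ)..(ρ * s), g ⌊α * t ^ c⌋₊) - ∫ t in (0 : ℝ)..s, g ⌊α * t ^ c⌋₊) * (α * s ^ c) ≤
      s * ((∫ u in (0 : ℝ)..(ρ ^ c * (α * s ^ c)), g ⌊u⌋₊) - ∫ u in (0 : ℝ)..(α * s ^ c), g ⌊u⌋₊) ∧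
    s * ((∫ u in (0 : ℝ)..(ρ ^ c * (α * s ^ c)), g ⌊u⌋₊) - ∫ u in (0 : ℝ)..(α * s ^ c), g ⌊u⌋₊) ≤
      ρ ^ (c - 1) * (c * ((∫ t in (0 : ℝ)..(ρ * s), g ⌊α * t ^ c⌋₊) - ∫ t in (0 : ℝ)..s, g ⌊α * t ^ c⌋₊) *
        (α * s ^ c)) := by
  have hc0 : 0 < c := by linarith
  have hρ0 : 0 < ρ := by linarith
  have hsx : s ≤ ρ * s := by nlinarith
  obtain ⟨h1, h2⟩ := change_two hg hc hα hs hsx
  have e0 : α * (ρ * s) ^ c = ρ ^ c * (α * s ^ c) := by
    rw [Real.mul_rpow hρ0.le hs.le]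
    ring
  have e1 : (∫ t in (0 : ℝ)..(ρ * s), g ⌊α * t ^ c⌋₊) - ∫ t in (0 : ℝ)..s, g ⌊α * t ^ c⌋₊ =
      ∫ t in s..(ρ * s), g ⌊α * t ^ c⌋₊ :=
    intervalIntegral.integral_interval_sub_left (gfun_int hg hc0 hα le_rfl (by positivity))
      (gfun_int hg hc0 hα le_rfl hs.le)
  have e2 : (∫ u in (0 : ℝ)..(ρ ^ c * (α * s ^ c)), g ⌊u⌋₊) - ∫ u in (0 : ℝ)..(α * s ^ c), g ⌊u⌋₊ =
      ∫ u in (α * s ^ c)..(ρ ^ c * (α * s ^ c)), g ⌊u⌋₊ :=
    intervalIntegral.integral_interval_sub_left (floor_int hg le_rfl (by positivity))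
      (floor_int hg le_rfl (by positivity))
  rw [e1, e2]
  rw [e0] at h1 h2
  set A := ∫ t in s..(ρ * s), g ⌊α * t ^ c⌋₊ with hA
  set W := ∫ u in (α * s ^ c)..(ρ ^ c * (α * s ^ c)), g ⌊u⌋₊ with hW
  have e3 : s ^ c = s ^ (c - 1) * s := by
    rw [← Real.rpow_add_one hs.ne']
    congr 1
    ring
  have e4 : (ρ * s) ^ (c - 1) = ρ ^ (c - 1) * s ^ (c - 1) := Real.mul_rpow hρ0.le hs.le
  rw [e4] at h2
  constructor
  · calc c * A * (α * s ^ c) = s * (α * (c * s ^ (c - 1)) * A) := by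
          rw [e3]
          ring
      _ ≤ s * W := by gcongr
  · calc s * W ≤ s * (α * (c * (ρ ^ (c - 1) * s ^ (c - 1))) * A) := by gcongr
      _ = _ := by
          rw [e3]
          ring

/-- **Means and means along power sequences.** -/
theorem mean_iff {B : ℕ} {g : ℕ → ℝ} (hg : Wu B g) {c α : ℝ} (hc : 1 ≤ c) (hα : 0 < α) (S : ℝ) :
    Tendsto (fun u : ℝ => (∫ v in (0 : ℝ)..u, g ⌊v⌋₊) / u) atTop (𝓝 S) ↔
    Tendsto (fun s : ℝ => (∫ t in (0 : ℝ)..s, g ⌊α * t ^ c⌋₊) / s) atTop (𝓝 S) := by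
  have hc0 : 0 < c := by linarith
  have hG0 : ∀ u : ℝ, 0 ≤ u → 0 ≤ ∫ v in (0 : ℝ)..u, g ⌊v⌋₊ := fun u hu =>
    intervalIntegral.integral_nonneg hu fun t _ => hg.nn _
  have hP0 : ∀ u : ℝ, 0 ≤ u → 0 ≤ ∫ t in (0 : ℝ)..u, g ⌊α * t ^ c⌋₊ := fun u hu =>
    intervalIntegral.integral_nonneg hu fun t _ => hg.nn _
  constructor
  · intro h
    have hS : 0 ≤ S := by
      refine ge_of_tendsto h ?_
      filter_upwards [eventually_ge_atTop (0 : ℝ)] with u hu
      exact div_nonneg (hG0 u hu) hu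
    refine reg (prim_mono (fun t => hg.nn _) fun x y hx hy => gfun_int hg hc0 hα hx hy) hP0 fun η hη => ?_
    obtain ⟨ρ, hρ, hq⟩ := choose_rho c S hS (half_pos hη)
    have hρ0 : 0 < ρ := by linarith
    obtain ⟨hb1, hb2⟩ := rho_bounds hc hρ
    set q : ℝ := ρ ^ (c - 1) with hqdef
    set σ : ℝ := ρ ^ c with hσ
    have hq1 : 1 ≤ q := Real.one_le_rpow hρ.le (by linarith)
    have hσ1 : 0 < σ := by positivity
    set ε : ℝ := η / 2 * (c * (ρ - 1)) / (σ + 1) with hε
    have hρ1 : 0 < ρ - 1 := by linarith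
    have hε0 : 0 < ε := by positivity
    have hε1 : ε * (σ + 1) = η / 2 * (c * (ρ - 1)) := by
      rw [hε]
      field_simp
    rw [Metric.tendsto_atTop] at h
    obtain ⟨u0, hu0⟩ := h ε hε0
    refine ⟨ρ, max 1 (u0 / α), hρ, lt_of_lt_of_le one_pos (le_max_left _ _), fun s hs => ?_⟩
    have hs1 : 1 ≤ s := (le_max_left _ _).trans hs
    have hs2 : u0 / α ≤ s := (le_max_right _ _).trans hs
    have hs0 : 0 < s := by linarith
    have hsc : s ≤ s ^ c := by
      calc s = s ^ (1 : ℝ) := (Real.rpow_one s).symm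
        _ ≤ s ^ c := Real.rpow_le_rpow_of_exponent_le hs1 hc
    set u : ℝ := α * s ^ c with hu
    have hupos : 0 < u := by positivity
    have huu : u0 ≤ u := by
      rw [div_le_iff₀ hα] at hs2
      calc u0 ≤ s * α := hs2
        _ ≤ s ^ c * α := by gcongr
        _ = u := by rw [hu]; ring
    have hσ11 : 1 ≤ σ := Real.one_le_rpow hρ.le hc0.le
    have huσ : u0 ≤ σ * u := huu.trans (le_mul_of_one_le_left hupos.le hσ11)
    have g1 := hu0 u huu
    have g2 := hu0 (σ * u) huσ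
    rw [Real.dist_eq, abs_lt] at g1 g2
    obtain ⟨i1, i2⟩ := incr hg hc hα hρ hs0
    rw [← hu, ← hσ] at i1 i2
    rw [← hqdef] at i2
    set A := (∫ t in (0 : ℝ)..(ρ * s), g ⌊α * t ^ c⌋₊) - ∫ t in (0 : ℝ)..s, g ⌊α * t ^ c⌋₊ with hA
    set G1 := ∫ v in (0 : ℝ)..u, g ⌊v⌋₊ with hG1
    set G2 := ∫ v in (0 : ℝ)..(σ * u), g ⌊v⌋₊ with hG2
    have j1 : (S - ε) * u ≤ G1 := by
      have := g1.1
      rw [lt_sub_iff_add_lt, lt_div_iff₀ hupos] at this
      linarith
    have j2 : G1 ≤ (S + ε) * u := by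
      have := g1.2
      rw [sub_lt_iff_lt_add, div_lt_iff₀ hupos] at this
      linarith
    have hσu : 0 < σ * u := by positivity
    have j3 : (S - ε) * (σ * u) ≤ G2 := by
      have := g2.1
      rw [lt_sub_iff_add_lt, lt_div_iff₀ hσu] at this
      linarith
    have j4 : G2 ≤ (S + ε) * (σ * u) := by
      have := g2.2
      rw [sub_lt_iff_lt_add, div_lt_iff₀ hσu] at this
      linarith
    have k1 : G2 - G1 ≤ u * (S * (σ - 1) + ε * (σ + 1)) := by nlinarith
    have k2 : u * (S * (σ - 1) - ε * (σ + 1)) ≤ G2 - G1 := by nlinarith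
    rw [hε1] at k1 k2
    constructor
    · -- lower bound
      have m1 : u * (c * (ρ - 1) * (S - η / 2)) ≤ G2 - G1 := by
        refine le_trans ?_ k2
        have : S * (c * (ρ - 1)) ≤ S * (σ - 1) := by gcongr
        have h9 : c * (ρ - 1) * (S - η / 2) ≤ S * (σ - 1) - η / 2 * (c * (ρ - 1)) := by linarith
        exact mul_le_mul_of_nonneg_left h9 hupos.le
      have m2 : s * (u * (c * (ρ - 1) * (S - η / 2))) ≤ q * (c * A * u) :=
        (mul_le_mul_of_nonneg_left m1 hs0.le).trans i2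
      have hcu : 0 < c * u := by positivity
      have m3 : s * ((ρ - 1) * (S - η / 2)) ≤ q * A := by
        have e : s * (u * (c * (ρ - 1) * (S - η / 2))) = (c * u) * (s * ((ρ - 1) * (S - η / 2))) := by ring
        have e' : q * (c * A * u) = (c * u) * (q * A) := by ring
        rw [e, e'] at m2
        exact le_of_mul_le_mul_left m2 hcu
      have m4 : q * ((S - η) * (ρ - 1) * s) ≤ s * ((ρ - 1) * (S - η / 2)) := by
        have hsr : 0 ≤ s * (ρ - 1) := by positivity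
        have h9 : q * (S - η) ≤ S - η / 2 := by nlinarith
        nlinarith [mul_le_mul_of_nonneg_left h9 hsr]
      exact le_of_mul_le_mul_left (m4.trans m3) (by linarith)
    · have m1 : G2 - G1 ≤ u * (c * (ρ - 1) * (S + η)) := by
        refine k1.trans ?_
        have h8 : S * (σ - 1) ≤ S * (c * q * (ρ - 1)) := by gcongr
        have h7 : S * (c * q * (ρ - 1)) ≤ c * (ρ - 1) * (S + η / 2) := by
          have : c * (ρ - 1) * (S * q) ≤ c * (ρ - 1) * (S + η / 2) := by gcongr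
          linarith
        have h9 : S * (σ - 1) + η / 2 * (c * (ρ - 1)) ≤ c * (ρ - 1) * (S + η) := by linarith
        exact mul_le_mul_of_nonneg_left h9 hupos.le
      have m2 : c * A * u ≤ s * (u * (c * (ρ - 1) * (S + η))) :=
        i1.trans (mul_le_mul_of_nonneg_left m1 hs0.le)
      have hcu : 0 < c * u := by positivity
      have e : s * (u * (c * (ρ - 1) * (S + η))) = (c * u) * ((S + η) * (ρ - 1) * s) := by ring
      have e' : c * A * u = (c * u) * A := by ring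
      rw [e, e'] at m2
      exact le_of_mul_le_mul_left m2 hcu
  · intro h
    have hS : 0 ≤ S := by
      refine ge_of_tendsto h ?_
      filter_upwards [eventually_ge_atTop (0 : ℝ)] with u hu
      exact div_nonneg (hP0 u hu) hu
    refine reg (prim_mono (fun t => hg.nn _) fun x y hx hy => floor_int hg hx hy) hG0 fun η hη => ?_
    obtain ⟨ρ, hρ, hq⟩ := choose_rho c S hS (half_pos hη)
    have hρ0 : 0 < ρ := by linarith
    obtain ⟨hb1, hb2⟩ := rho_bounds hc hρ
    set q : ℝ := ρ ^ (c - 1) with hqdef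
    set σ : ℝ := ρ ^ c with hσ
    have hq1 : 1 ≤ q := Real.one_le_rpow hρ.le (by linarith)
    have hρ1 : 0 < ρ - 1 := by linarith
    have hσ1 : 0 < σ - 1 := by
      have : 0 < c * (ρ - 1) := by positivity
      linarith
    have hσ11 : 1 < σ := by linarith
    set ε : ℝ := η / 2 * (σ - 1) / (c * q * (ρ + 1)) with hε
    have hε0 : 0 < ε := by positivity
    have hε1 : c * q * (ε * (ρ + 1)) = η / 2 * (σ - 1) := by
      rw [hε]
      field_simp
    rw [Metric.tendsto_atTop] at h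
    obtain ⟨s1, hs1⟩ := h ε hε0
    refine ⟨σ, α * (max 1 s1) ^ c, hσ11, by positivity, fun u hu => ?_⟩
    have hmax : 0 < max 1 s1 := lt_of_lt_of_le one_pos (le_max_left _ _)
    set s : ℝ := (u / α) ^ (1 / c) with hs
    have hu0 : 0 < u := lt_of_lt_of_le (by positivity) hu
    have hsm : max 1 s1 ≤ s := by
      calc max 1 s1 = ((max 1 s1) ^ c) ^ (1 / c) := by
            rw [← Real.rpow_mul hmax.le, mul_one_div_cancel hc0.ne', Real.rpow_one]
        _ ≤ s := by
            apply Real.rpow_le_rpow (by positivity) _ (by positivity)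
            rw [le_div_iff₀ hα]
            linarith
    have hs0 : 0 < s := lt_of_lt_of_le hmax hsm
    have hsu : α * s ^ c = u := by
      rw [hs, ← Real.rpow_mul (by positivity), one_div_mul_cancel hc0.ne', Real.rpow_one]
      field_simp
    have hss : s1 ≤ s := (le_max_right _ _).trans hsm
    have hρs : s1 ≤ ρ * s := hss.trans (le_mul_of_one_le_left hs0.le hρ.le)
    have g1 := hs1 s hss
    have g2 := hs1 (ρ * s) hρs
    rw [Real.dist_eq, abs_lt] at g1 g2
    obtain ⟨i1, i2⟩ := incr hg hc hα hρ hs0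
    rw [hsu, ← hσ] at i1 i2
    rw [← hqdef] at i2
    set P1 := ∫ t in (0 : ℝ)..s, g ⌊α * t ^ c⌋₊ with hP1
    set P2 := ∫ t in (0 : ℝ)..(ρ * s), g ⌊α * t ^ c⌋₊ with hP2
    set W := (∫ v in (0 : ℝ)..(σ * u), g ⌊v⌋₊) - ∫ v in (0 : ℝ)..u, g ⌊v⌋₊ with hW
    have j1 : (S - ε) * s ≤ P1 := by
      have := g1.1
      rw [lt_sub_iff_add_lt, lt_div_iff₀ hs0] at this
      linarith
    have j2 : P1 ≤ (S + ε) * s := by
      have := g1.2
      rw [sub_lt_iff_lt_add, div_lt_iff₀ hs0] at this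
      linarith
    have hρs0 : 0 < ρ * s := by positivity
    have j3 : (S - ε) * (ρ * s) ≤ P2 := by
      have := g2.1
      rw [lt_sub_iff_add_lt, lt_div_iff₀ hρs0] at this
      linarith
    have j4 : P2 ≤ (S + ε) * (ρ * s) := by
      have := g2.2
      rw [sub_lt_iff_lt_add, div_lt_iff₀ hρs0] at this
      linarith
    have k1 : P2 - P1 ≤ s * (S * (ρ - 1) + ε * (ρ + 1)) := by nlinarith
    have k2 : s * (S * (ρ - 1) - ε * (ρ + 1)) ≤ P2 - P1 := by nlinarith
    constructor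
    · have m1 : s * (c * u * (S * (ρ - 1) - ε * (ρ + 1))) ≤ s * W := by
        refine le_trans ?_ i1
        have hcu : 0 ≤ c * u := by positivity
        nlinarith [mul_le_mul_of_nonneg_left k2 hcu]
      have m2 : c * u * (S * (ρ - 1) - ε * (ρ + 1)) ≤ W := le_of_mul_le_mul_left m1 hs0
      have m3 : q * ((S - η) * (σ - 1) * u) ≤ q * (c * u * (S * (ρ - 1) - ε * (ρ + 1))) := by
        have e : q * (c * u * (S * (ρ - 1) - ε * (ρ + 1))) = u * (S * (c * q * (ρ - 1)) - c * q * (ε * (ρ + 1))) := by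
          ring
        rw [e, hε1]
        have h8 : S * (σ - 1) ≤ S * (c * q * (ρ - 1)) := by gcongr
        have h9 : q * (S - η) ≤ S - η / 2 := by nlinarith
        have h10 : (σ - 1) * (q * (S - η)) ≤ (σ - 1) * (S - η / 2) := by gcongr
        have h11 : q * ((S - η) * (σ - 1)) ≤ S * (c * q * (ρ - 1)) - η / 2 * (σ - 1) := by linarith
        calc q * ((S - η) * (σ - 1) * u) = u * (q * ((S - η) * (σ - 1))) := by ring
          _ ≤ _ := by gcongr
      exact (le_of_mul_le_mul_left m3 (by linarith)).trans m2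
    · have m1 : s * W ≤ s * (u * ((S + η) * (σ - 1))) := by
        refine i2.trans ?_
        have h1' : q * (c * (P2 - P1) * u) ≤ q * (c * (s * (S * (ρ - 1) + ε * (ρ + 1))) * u) := by gcongr
        refine h1'.trans ?_
        have e : q * (c * (s * (S * (ρ - 1) + ε * (ρ + 1))) * u) =
            s * (u * (S * q * (c * (ρ - 1)) + c * q * (ε * (ρ + 1)))) := by ring
        rw [e, hε1]
        have h8 : S * q * (c * (ρ - 1)) ≤ (S + η / 2) * (σ - 1) := by gcongr
        have h9 : S * q * (c * (ρ - 1)) + η / 2 * (σ - 1) ≤ (S + η) * (σ - 1) := by linarith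
        gcongr
      have m2 := le_of_mul_le_mul_left m1 hs0
      linarith

end Pool.Agent.V7H21.MP
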