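import Pool.Agent.V7H21.MP.Par

/-!
# A Hilbert–Schmidt bound
-/

set_option autoImplicit false

namespace Pool.Agent.V7H21.MP

open MeasureTheory Complex Filter FourierTransform
open scoped Topology ENNReal ComplexConjugate

lemma norm_sq_eq (z : ℂ) : ((‖z‖ ^ 2 : ℝ) : ℂ) = z * conj z := by
  rw [Complex.mul_conj, Complex.normSq_eq_norm_sq]

lemma hs {X : Type*} [MeasurableSpace X] (μ : Measure X) [SFinite μ] (s : Finset ℕ) (f : ℕ → X → ℂ)
    (hf : ∀ m, MemLp (f m) 2 μ) (u : ℕ → ℂ) :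
    (∫ x, ‖∑ m ∈ s, u m * f m x‖ ^ 2 ∂μ) ^ 2 ≤
      (∑ m ∈ s, ‖u m‖ ^ 2) ^ 2 * ∫ z, ‖∑ m ∈ s, f m z.1 * conj (f m z.2)‖ ^ 2 ∂(μ.prod μ) := by
  set g : ℕ → ℕ → ℂ := fun m k => ∫ x, f m x * conj (f k x) ∂μ with hg
  have hint : ∀ m k, Integrable (fun x => f m x * conj (f k x)) μ := by
    intro m k
    have h1 : MemLp (fun x => conj (f k x)) 2 μ := (hf k).star
    exact (hf m).integrable_mul h1
  have h1 : ((∫ x, ‖∑ m ∈ s, u m * f m x‖ ^ 2 ∂μ : ℝ) : ℂ) =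
      ∑ p ∈ s ×ˢ s, u p.1 * conj (u p.2) * g p.1 p.2 := by
    rw [← integral_complex_ofReal]
    have e : ∀ x, ((‖∑ m ∈ s, u m * f m x‖ ^ 2 : ℝ) : ℂ) =
        ∑ p ∈ s ×ˢ s, u p.1 * conj (u p.2) * (f p.1 x * conj (f p.2 x)) := by
      intro x
      rw [norm_sq_eq, map_sum, Finset.sum_mul_sum, ← Finset.sum_product']
      refine Finset.sum_congr rfl fun p _ => ?_
      rw [map_mul]
      ring
    simp only [e]
    rw [integral_finsetSum _ fun p _ => (hint _ _).const_mul _]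
    refine Finset.sum_congr rfl fun p _ => ?_
    rw [integral_const_mul]
  have hgc : ∀ m k, ∫ x, conj (f m x) * f k x ∂μ = conj (g m k) := by
    intro m k
    simp only [hg]
    rw [← integral_conj]
    refine integral_congr_ae (Eventually.of_forall fun x => ?_)
    simp
  have h2 : ((∫ z, ‖∑ m ∈ s, f m z.1 * conj (f m z.2)‖ ^ 2 ∂(μ.prod μ) : ℝ) : ℂ) =
      ∑ p ∈ s ×ˢ s, ((‖g p.1 p.2‖ ^ 2 : ℝ) : ℂ) := by
    rw [← integral_complex_ofReal]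
    have e : ∀ z : X × X, ((‖∑ m ∈ s, f m z.1 * conj (f m z.2)‖ ^ 2 : ℝ) : ℂ) =
        ∑ p ∈ s ×ˢ s, (fun x => f p.1 x * conj (f p.2 x)) z.1 * (fun x => conj (f p.1 x) * f p.2 x) z.2 := by
      intro z
      rw [norm_sq_eq, map_sum, Finset.sum_mul_sum, ← Finset.sum_product']
      refine Finset.sum_congr rfl fun p _ => ?_
      rw [map_mul, Complex.conj_conj]
      ring
    simp only [e]
    rw [integral_finsetSum]
    · refine Finset.sum_congr rfl fun p _ => ?_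
      rw [integral_prod_mul (fun x => f p.1 x * conj (f p.2 x)) (fun x => conj (f p.1 x) * f p.2 x),
        hgc, norm_sq_eq]
    · intro p _
      have hh : Integrable (fun x => conj (f p.1 x) * f p.2 x) μ := by
        have h := hint p.2 p.1
        refine h.congr (Eventually.of_forall fun x => ?_)
        exact mul_comm _ _
      exact (hint p.1 p.2).mul_prod hh
  have h2' : ∫ z, ‖∑ m ∈ s, f m z.1 * conj (f m z.2)‖ ^ 2 ∂(μ.prod μ) =
      ∑ p ∈ s ×ˢ s, ‖g p.1 p.2‖ ^ 2 := by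
    exact_mod_cast h2
  have h3 : |∫ x, ‖∑ m ∈ s, u m * f m x‖ ^ 2 ∂μ| ≤ ∑ p ∈ s ×ˢ s, (‖u p.1‖ * ‖u p.2‖) * ‖g p.1 p.2‖ := by
    rw [← Real.norm_eq_abs, ← Complex.norm_real, h1]
    refine norm_sum_le_of_le _ fun p _ => ?_
    rw [norm_mul, norm_mul, RCLike.norm_conj]
  have h4 := Finset.sum_mul_sq_le_sq_mul_sq (s ×ˢ s) (fun p => ‖u p.1‖ * ‖u p.2‖) (fun p => ‖g p.1 p.2‖)
  have h5 : ∑ p ∈ s ×ˢ s, (‖u p.1‖ * ‖u p.2‖) ^ 2 = (∑ m ∈ s, ‖u m‖ ^ 2) ^ 2 := by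
    rw [sq (∑ m ∈ s, ‖u m‖ ^ 2), Finset.sum_mul_sum, ← Finset.sum_product']
    refine Finset.sum_congr rfl fun p _ => ?_
    ring
  rw [h2', ← h5]
  refine le_trans ?_ h4
  rw [← sq_abs]
  gcongr

end Pool.Agent.V7H21.MP
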