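import Pool.Agent.V7H21.MP.Pl
import Pool.Agent.Y751.VK.Lam
import Pool.Agent.Y957.VK.Fin1

/-!
# Twisted sums over integers and primes
-/

set_option autoImplicit false

namespace Pool.Agent.V7H21.MP

open MeasureTheory Complex Filter
open scoped Topology

lemma er_eq (τ : ℝ) {n : ℕ} (hn : 0 < n) :
    (n : ℂ) ^ (-((-τ : ℝ) : ℂ) * I) = er (τ * Real.log n) := by
  have hn0 : (n : ℂ) ≠ 0 := by exact_mod_cast hn.ne'
  rw [Complex.cpow_def_of_ne_zero hn0, ← Complex.natCast_log]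
  unfold er
  congr 1
  push_cast
  ring

lemma er_lip (x y : ℝ) : ‖er x - er y‖ ≤ |x - y| := by
  have h1 : er x - er y = er y * (er (x - y) - 1) := by
    rw [mul_sub, ← er_add]
    simp
  rw [h1, norm_mul, er_norm, one_mul]
  apply abs_le_of_sq_le_sq' _ (abs_nonneg _) |>.2
  rw [er_sub_one_sq, sq_abs]
  have := Real.one_sub_sq_div_two_le_cos (x := x - y)
  linarith

lemma exp_poly {c : ℝ} (hc : 0 < c) (K : ℕ) : ∃ D : ℝ, 0 < D ∧ ∀ u : ℝ, 0 < u →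
    Real.exp (-(c * u)) ≤ D / u ^ K := by
  refine ⟨K.factorial / c ^ K, by positivity, fun u hu => ?_⟩
  have h1 := Real.pow_div_factorial_le_exp (c * u) (by positivity) K
  rw [Real.exp_neg, le_div_iff₀ (by positivity), inv_mul_le_iff₀ (Real.exp_pos _)]
  rw [div_le_iff₀ (by positivity)] at h1
  rw [mul_pow] at h1
  rw [← mul_div_assoc, le_div_iff₀ (by positivity)]
  linarith

/-- powers beat powers of the logarithm -/
lemma pow_small {c : ℝ} (hc : 0 < c) (K : ℕ) : ∃ D : ℝ, 0 < D ∧ ∀ N : ℕ, 2 ≤ N →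
    (N : ℝ) ^ (-c) ≤ D / (Real.log N) ^ K := by
  obtain ⟨D, hD, h⟩ := exp_poly hc K
  refine ⟨D, hD, fun N hN => ?_⟩
  have hN0 : (0 : ℝ) < N := by positivity
  have h1 : 0 < Real.log N := Real.log_pos (by exact_mod_cast hN)
  have := h (Real.log N) h1
  rwa [Real.rpow_def_of_pos hN0, show Real.log N * -c = -(c * Real.log N) by ring]

lemma sqrt_small (K : ℕ) : ∃ D : ℝ, 0 < D ∧ ∀ N : ℕ, 2 ≤ N →
    √(N : ℝ) ≤ D * N / (Real.log N) ^ K := by
  obtain ⟨D, hD, h⟩ := pow_small (c := 1 / 2) (by norm_num) K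
  refine ⟨D, hD, fun N hN => ?_⟩
  have hN0 : (0 : ℝ) < N := by positivity
  have h1 : √(N : ℝ) = N * (N : ℝ) ^ (-(1 / 2 : ℝ)) := by
    rw [Real.sqrt_eq_rpow]
    nth_rw 2 [← Real.rpow_one (N : ℝ)]
    rw [← Real.rpow_add hN0]
    norm_num
  rw [h1]
  calc (N : ℝ) * (N : ℝ) ^ (-(1 / 2 : ℝ)) ≤ N * (D / (Real.log N) ^ K) :=
        mul_le_mul_of_nonneg_left (h N hN) hN0.le
    _ = _ := by ring

/-- the step of the comparison with an integral -/
lemma F_step (τ : ℝ) {n : ℕ} (hn : 0 < n) :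
    ‖(((n + 1 : ℕ) : ℝ) : ℂ) * er (τ * Real.log (n + 1 : ℕ)) - ((n : ℝ) : ℂ) * er (τ * Real.log n) -
      (1 + (τ : ℂ) * I) * er (τ * Real.log n)‖ ≤ ‖1 + (τ : ℂ) * I‖ * (|τ| / n) := by
  have hn0 : (0 : ℝ) < n := by exact_mod_cast hn
  set f : ℝ → ℂ := fun x => (x : ℂ) * er (τ * Real.log x) - (1 + (τ : ℂ) * I) * er (τ * Real.log n) * x
    with hf
  have hder : ∀ x ∈ Set.Icc (n : ℝ) (n + 1), HasDerivWithinAt f
      ((1 + (τ : ℂ) * I) * (er (τ * Real.log x) - er (τ * Real.log n))) (Set.Icc (n : ℝ) (n + 1)) x := by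
    intro x hx
    have hx0 : (0 : ℝ) < x := lt_of_lt_of_le hn0 hx.1
    apply HasDerivAt.hasDerivWithinAt
    have h1 : HasDerivAt (fun x : ℝ => ((τ * Real.log x : ℝ) : ℂ) * I)
        (((τ * x⁻¹ : ℝ) : ℂ) * I) x := by
      have h := ((Real.hasDerivAt_log hx0.ne').const_mul τ).ofReal_comp
      exact h.mul_const I
    have h2 : HasDerivAt (fun x : ℝ => er (τ * Real.log x))
        (er (τ * Real.log x) * (((τ * x⁻¹ : ℝ) : ℂ) * I)) x := h1.cexp
    have h3 : HasDerivAt (fun x : ℝ => (x : ℂ)) 1 x := by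
      simpa using (hasDerivAt_id x).ofReal_comp
    have h4 := (h3.mul h2).sub (h3.const_mul ((1 + (τ : ℂ) * I) * er (τ * Real.log n)))
    refine h4.congr_deriv ?_
    have hxc : (x : ℂ) ≠ 0 := by exact_mod_cast hx0.ne'
    push_cast
    field_simp
  have h2 : ∀ x ∈ Set.Icc (n : ℝ) (n + 1),
      ‖(1 + (τ : ℂ) * I) * (er (τ * Real.log x) - er (τ * Real.log n))‖ ≤
        ‖1 + (τ : ℂ) * I‖ * (|τ| / n) := by
    intro x hx
    have hx0 : (0 : ℝ) < x := lt_of_lt_of_le hn0 hx.1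
    rw [norm_mul]
    apply mul_le_mul_of_nonneg_left _ (norm_nonneg _)
    refine (er_lip _ _).trans ?_
    rw [← mul_sub, abs_mul, div_eq_mul_inv]
    apply mul_le_mul_of_nonneg_left _ (abs_nonneg _)
    rw [← Real.log_div hx0.ne' hn0.ne', abs_of_nonneg (Real.log_nonneg ((one_le_div hn0).2 hx.1))]
    have h5 := Real.log_le_sub_one_of_pos (div_pos hx0 hn0)
    refine h5.trans ?_
    rw [div_sub_one hn0.ne', div_le_iff₀ hn0, inv_mul_cancel₀ hn0.ne']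
    linarith [hx.2]
  have h3 := (convex_Icc (n : ℝ) (n + 1)).norm_image_sub_le_of_norm_hasDerivWithin_le hder h2
    (Set.left_mem_Icc.2 (by linarith)) (Set.right_mem_Icc.2 (by linarith))
  have h4 : ‖(n : ℝ) + 1 - n‖ = 1 := by simp
  rw [h4, mul_one] at h3
  refine le_trans (le_of_eq ?_) h3
  congr 1
  simp only [hf]
  push_cast
  ring

lemma F_sum (τ : ℝ) (N : ℕ) :
    ‖(1 + (τ : ℂ) * I) * ∑ n ∈ Finset.Icc 1 N, er (τ * Real.log n) -
      ((((N + 1 : ℕ) : ℝ) : ℂ) * er (τ * Real.log (N + 1 : ℕ)) - 1)‖ ≤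
      ‖1 + (τ : ℂ) * I‖ * (|τ| * ∑ n ∈ Finset.Icc 1 N, (n : ℝ)⁻¹) := by
  induction N with
  | zero => simp [er_zero]
  | succ N ih =>
    rw [Finset.sum_Icc_succ_top (by omega), Finset.sum_Icc_succ_top (by omega)]
    have h1 := F_step τ (n := N + 1) (by omega)
    have h2 : (1 + (τ : ℂ) * I) * (∑ n ∈ Finset.Icc 1 N, er (τ * Real.log n) +
        er (τ * Real.log (N + 1 : ℕ))) -
      ((((N + 1 + 1 : ℕ) : ℝ) : ℂ) * er (τ * Real.log (N + 1 + 1 : ℕ)) - 1) =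
      ((1 + (τ : ℂ) * I) * ∑ n ∈ Finset.Icc 1 N, er (τ * Real.log n) -
        ((((N + 1 : ℕ) : ℝ) : ℂ) * er (τ * Real.log (N + 1 : ℕ)) - 1)) -
      ((((N + 1 + 1 : ℕ) : ℝ) : ℂ) * er (τ * Real.log (N + 1 + 1 : ℕ)) -
        (((N + 1 : ℕ) : ℝ) : ℂ) * er (τ * Real.log (N + 1 : ℕ)) -
      (1 + (τ : ℂ) * I) * er (τ * Real.log (N + 1 : ℕ))) := by
      ring
    rw [h2]
    refine (norm_sub_le _ _).trans ((add_le_add ih h1).trans (le_of_eq ?_))
    rw [div_eq_mul_inv]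
    ring

lemma zeta_small (τ : ℝ) (hτ : 0 < |τ|) (N : ℕ) :
    ‖∑ n ∈ Finset.Icc 1 N, er (τ * Real.log n)‖ ≤ (N + 2) / |τ| + |τ| * (1 + Real.log N) := by
  have h1 := F_sum τ N
  have h2 : |τ| ≤ ‖1 + (τ : ℂ) * I‖ := by
    have := Complex.abs_im_le_norm (1 + (τ : ℂ) * I)
    simpa using this
  set z := 1 + (τ : ℂ) * I with hz
  have hz0 : 0 < ‖z‖ := lt_of_lt_of_le hτ h2
  set S := ∑ n ∈ Finset.Icc 1 N, er (τ * Real.log n) with hS
  have h3 : ‖z * S‖ ≤ (N + 2) + ‖z‖ * (|τ| * ∑ n ∈ Finset.Icc 1 N, (n : ℝ)⁻¹) := by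
    calc ‖z * S‖ = ‖((((N + 1 : ℕ) : ℝ) : ℂ) * er (τ * Real.log (N + 1 : ℕ)) - 1) + (z * S -
        ((((N + 1 : ℕ) : ℝ) : ℂ) * er (τ * Real.log (N + 1 : ℕ)) - 1))‖ := by congr 1; ring
      _ ≤ ‖((((N + 1 : ℕ) : ℝ) : ℂ) * er (τ * Real.log (N + 1 : ℕ)) - 1)‖ + _ := norm_add_le _ _
      _ ≤ (N + 2) + _ := by
        refine add_le_add ?_ h1
        refine (norm_sub_le _ _).trans ?_
        rw [norm_mul, er_norm, Complex.norm_real, norm_one, mul_one, Real.norm_of_nonneg (by positivity)]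
        push_cast
        linarith
  rw [norm_mul] at h3
  have h4 : ∑ n ∈ Finset.Icc 1 N, (n : ℝ)⁻¹ ≤ 1 + Real.log N := by
    have := harmonic_le_one_add_log N
    rw [harmonic_eq_sum_Icc] at this
    push_cast at this
    exact this
  have h5 : ‖S‖ ≤ (N + 2) / ‖z‖ + |τ| * ∑ n ∈ Finset.Icc 1 N, (n : ℝ)⁻¹ := by
    have : ‖S‖ = ‖z‖ * ‖S‖ / ‖z‖ := by field_simp
    rw [this, div_le_iff₀ hz0]
    refine h3.trans (le_of_eq ?_)
    field_simp
  refine h5.trans (add_le_add ?_ ?_)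
  · exact div_le_div_of_nonneg_left (by positivity) hτ h2
  · exact mul_le_mul_of_nonneg_left h4 hτ.le

open Pool.Agent.Y957.VK in
/-- one piece -/
lemma piece (hZ : S_ZS) (A : ℕ) : ∃ E δ : ℝ, 0 < E ∧ 0 < δ ∧ ∀ (m n N : ℕ) (τ : ℝ), 2 ≤ m → m ≤ n → n ≤ 2 * m →
    √(N : ℝ) ≤ n → n ≤ N → √(N : ℝ) ≤ |τ| → |τ| ≤ (N : ℝ) ^ A →
    ‖∑ k ∈ Finset.Ioc m n, er (τ * Real.log k)‖ ≤ E * n * (N : ℝ) ^ (-δ) := by
  obtain ⟨C, c, hc, hc1, h⟩ := hZ
  refine ⟨Real.exp (C * (1 + 4 * A) ^ C), c / (1 + 4 * A) ^ 2 / 4, Real.exp_pos _, by positivity, ?_⟩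
  intro m n N τ hm hmn hn2 hNn hnN hτ1 hτ2
  have hm1 : (1 : ℝ) < m := by exact_mod_cast (by omega : 1 < m)
  have hm0 : (0 : ℝ) < m := by linarith
  have hN1 : (1 : ℝ) ≤ N := by exact_mod_cast (by omega : 1 ≤ N)
  have hN0 : (0 : ℝ) < N := by linarith
  have hmN : (m : ℝ) ≤ N := by exact_mod_cast hmn.trans hnN
  have hlogm : 0 < Real.log m := Real.log_pos hm1
  have hτ0 : 0 < |τ| := lt_of_lt_of_le (Real.sqrt_pos.2 hN0) hτ1
  have hnm : (n : ℝ) ≤ (m : ℝ) ^ 2 := by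
    have : n ≤ m ^ 2 := by nlinarith
    exact_mod_cast this
  have hNm : (N : ℝ) ≤ (m : ℝ) ^ 4 := by
    have h1 : (N : ℝ) = √(N : ℝ) ^ 2 := (Real.sq_sqrt hN0.le).symm
    have h2 : √(N : ℝ) ≤ (m : ℝ) ^ 2 := hNn.trans hnm
    calc (N : ℝ) = √(N : ℝ) ^ 2 := h1
      _ ≤ ((m : ℝ) ^ 2) ^ 2 := by gcongr
      _ = _ := by ring
  set κ : ℝ := Real.log |τ| / Real.log m with hκ
  have e1 : |-τ| = (m : ℝ) ^ κ := by
    rw [abs_neg, hκ, Real.rpow_def_of_pos hm0, mul_div_cancel₀ _ hlogm.ne', Real.exp_log hτ0]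
  have hκ1 : 1 / 2 ≤ κ := by
    rw [hκ, le_div_iff₀ hlogm]
    have h1 : √(m : ℝ) ≤ |τ| := (Real.sqrt_le_sqrt hmN).trans hτ1
    have h2 := Real.log_le_log (Real.sqrt_pos.2 hm0) h1
    rw [Real.log_sqrt hm0.le] at h2
    linarith
  have hκ2 : κ ≤ 4 * A := by
    rw [hκ, div_le_iff₀ hlogm]
    have h1 : |τ| ≤ (m : ℝ) ^ (4 * A) := by
      calc |τ| ≤ (N : ℝ) ^ A := hτ2
        _ ≤ ((m : ℝ) ^ 4) ^ A := by gcongr
        _ = _ := by rw [← pow_mul]
    have h2 := Real.log_le_log hτ0 h1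
    rw [Real.log_pow] at h2
    push_cast at h2
    exact h2
  have h1 := h m n (-τ) κ hm hmn hn2 hκ1 e1
  have e2 : ∑ k ∈ Finset.Ioc m n, (k : ℂ) ^ (-((-τ : ℝ) : ℂ) * I) =
      ∑ k ∈ Finset.Ioc m n, er (τ * Real.log k) := by
    refine Finset.sum_congr rfl fun k hk => ?_
    rw [Finset.mem_Ioc] at hk
    exact er_eq τ (by omega)
  rw [e2] at h1
  refine h1.trans ?_
  have hκ0 : 0 ≤ κ := by linarith
  have h3 : Real.exp (C * (1 + κ) ^ C) ≤ Real.exp (C * (1 + 4 * A) ^ C) := by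
    apply Real.exp_le_exp.2
    gcongr
  set δ : ℝ := c / (1 + 4 * A) ^ 2 with hδ
  have h4 : (m : ℝ) ^ (1 - c / (1 + κ) ^ 2) ≤ n * (N : ℝ) ^ (-(δ / 4)) := by
    calc (m : ℝ) ^ (1 - c / (1 + κ) ^ 2) ≤ (m : ℝ) ^ (1 - δ) := by
          apply Real.rpow_le_rpow_of_exponent_le hm1.le
          have : δ ≤ c / (1 + κ) ^ 2 := by
            rw [hδ]
            gcongr
          linarith
      _ = m * (m : ℝ) ^ (-δ) := by
          rw [sub_eq_add_neg, Real.rpow_add hm0, Real.rpow_one]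
      _ ≤ n * (N : ℝ) ^ (-(δ / 4)) := by
          have h5 : (m : ℝ) ≤ n := by exact_mod_cast hmn
          have h6 : (m : ℝ) ^ (-δ) ≤ (N : ℝ) ^ (-(δ / 4)) := by
            rw [Real.rpow_neg hm0.le, Real.rpow_neg hN0.le]
            apply inv_anti₀ (by positivity)
            calc (N : ℝ) ^ (δ / 4) ≤ ((m : ℝ) ^ 4) ^ (δ / 4) :=
                  Real.rpow_le_rpow hN0.le hNm (by positivity)
              _ = (m : ℝ) ^ δ := by
                  rw [← Real.rpow_natCast (m : ℝ) 4, ← Real.rpow_mul hm0.le]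
                  congr 1
                  push_cast
                  ring
          gcongr
  calc Real.exp (C * (1 + κ) ^ C) * (m : ℝ) ^ (1 - c / (1 + κ) ^ 2) ≤
      Real.exp (C * (1 + 4 * A) ^ C) * (n * (N : ℝ) ^ (-(δ / 4))) := by gcongr
    _ = _ := by ring

open Pool.Agent.Y957.VK in
lemma zeta_large (hZ : S_ZS) (A : ℕ) : ∃ E δ : ℝ, 0 < E ∧ 0 < δ ∧ ∀ (N : ℕ) (τ : ℝ), 
    √(N : ℝ) ≤ |τ| → |τ| ≤ (N : ℝ) ^ A → ∀ n ≤ N,
    ‖∑ k ∈ Finset.Icc 1 n, er (τ * Real.log k)‖ ≤ √(N : ℝ) + 2 + 3 * E * n * (N : ℝ) ^ (-δ) := by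
  obtain ⟨E, δ, hE, hδ, h⟩ := piece hZ A
  refine ⟨E, δ, hE, hδ, fun N τ hτ1 hτ2 n => ?_⟩
  induction n using Nat.strong_induction_on with
  | _ n ih =>
  intro hnN
  have hpos : 0 ≤ 3 * E * n * (N : ℝ) ^ (-δ) := by positivity
  by_cases hc : (n : ℝ) ≤ √(N : ℝ) + 2
  · have h1 : ‖∑ k ∈ Finset.Icc 1 n, er (τ * Real.log k)‖ ≤ n := by
      refine (norm_sum_le _ _).trans ?_
      simp [er_norm]
    linarith
  · push_neg at hc
    have hn3 : 3 ≤ n := by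
      have h1 : (2 : ℝ) < n := by linarith [Real.sqrt_nonneg (N : ℝ)]
      exact_mod_cast h1
    set m := (n + 1) / 2 with hm
    have hm2 : 2 ≤ m := by omega
    have hmn : m < n := by omega
    have h1 := ih m hmn (by omega)
    have h2 := h m n N τ hm2 (by omega) (by omega) (by linarith) hnN hτ1 hτ2
    have h3 : ∑ k ∈ Finset.Icc 1 n, er (τ * Real.log k) =
        ∑ k ∈ Finset.Icc 1 m, er (τ * Real.log k) + ∑ k ∈ Finset.Ioc m n, er (τ * Real.log k) := by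
      rw [show Finset.Icc 1 n = Finset.Ioc 0 n by rfl, show Finset.Icc 1 m = Finset.Ioc 0 m by rfl,
        Finset.sum_Ioc_consecutive _ (by omega) (by omega)]
    rw [h3]
    refine (norm_add_le _ _).trans ?_
    have h4 : 3 * (m : ℝ) ≤ 2 * n := by
      have : 3 * m ≤ 2 * n := by omega
      exact_mod_cast this
    have h5 : 0 ≤ E * (N : ℝ) ^ (-δ) := by positivity
    nlinarith

/-- the twisted sums of `f` are small -/
def VKb (f : ℕ → ℂ) : Prop := ∀ A K : ℕ, ∃ C : ℝ, 0 ≤ C ∧ ∀ (N : ℕ) (τ : ℝ), 2 ≤ N → |τ| ≤ (N : ℝ) ^ A →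
  ‖∑ n ∈ Finset.Icc 1 N, f n * er (τ * Real.log n)‖ ≤ C * N / (Real.log N) ^ K

/-- the twisted sums of one -/
lemma zeta_bound (A K : ℕ) : ∃ C : ℝ, 0 ≤ C ∧ ∀ (N : ℕ) (τ : ℝ), 2 ≤ N → 1 ≤ |τ| → |τ| ≤ (N : ℝ) ^ A →
    ‖∑ n ∈ Finset.Icc 1 N, er (τ * Real.log n)‖ ≤ C * (N / |τ| + N / (Real.log N) ^ K) := by
  obtain ⟨E, δ, hE, hδ, h⟩ := zeta_large Pool.Agent.Y957.VK.zs_all A
  obtain ⟨D1, hD1, h1⟩ := sqrt_small K
  obtain ⟨D2, hD2, h2⟩ := sqrt_small (K + 1)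
  obtain ⟨D3, hD3, h3⟩ := pow_small hδ K
  refine ⟨2 + 3 * D1 + 3 * D2 + 3 * E * D3 + 2 * D1, by positivity, fun N τ hN hτ1 hτ2 => ?_⟩
  have hN0 : (2 : ℝ) ≤ N := by exact_mod_cast hN
  have hl : 0 < Real.log N := Real.log_pos (by linarith)
  have hs1 : 1 ≤ √(N : ℝ) := by
    rw [Real.one_le_sqrt]
    linarith
  have a1 := h1 N hN
  have a2 := h2 N hN
  have a3 := h3 N hN
  have x1 : 0 ≤ (N : ℝ) / |τ| := by positivity
  have x2 : 0 ≤ (N : ℝ) / (Real.log N) ^ K := by positivity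
  have b1 : √(N : ℝ) ≤ D1 * (N / (Real.log N) ^ K) := by
    rw [mul_div_assoc] at a1
    exact a1
  have b2 : √(N : ℝ) * Real.log N ≤ D2 * (N / (Real.log N) ^ K) := by
    have h5 : D2 * (N : ℝ) / (Real.log N) ^ (K + 1) = D2 * (N / (Real.log N) ^ K) / Real.log N := by
      rw [pow_succ]
      field_simp
    rw [h5, le_div_iff₀ hl] at a2
    exact a2
  rcases le_total |τ| (√(N : ℝ)) with hc | hc
  · have c1 := zeta_small τ (by linarith) N
    have c2 : ((N : ℝ) + 2) / |τ| ≤ 2 * (N / |τ|) := by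
      rw [← mul_div_assoc]
      gcongr
      linarith
    have c3 : |τ| * (1 + Real.log N) ≤ √(N : ℝ) + √(N : ℝ) * Real.log N := by nlinarith
    have c4 : 0 ≤ D1 * (N / (Real.log N) ^ K) := by positivity
    have c5 : 0 ≤ D2 * (N / (Real.log N) ^ K) := by positivity
    have c6 : 0 ≤ E * D3 * (N / (Real.log N) ^ K) := by positivity
    have c7 : 0 ≤ D1 * (N / |τ|) := by positivity
    have c8 : 0 ≤ D2 * (N / |τ|) := by positivity
    have c9 : 0 ≤ E * D3 * (N / |τ|) := by positivity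
    nlinarith
  · have c1 := h N τ hc hτ2 N le_rfl
    have c2 : 3 * E * N * (N : ℝ) ^ (-δ) ≤ 3 * E * D3 * (N / (Real.log N) ^ K) := by
      calc 3 * E * N * (N : ℝ) ^ (-δ) ≤ 3 * E * N * (D3 / (Real.log N) ^ K) := by gcongr
        _ = _ := by ring
    have c4 : 0 ≤ D1 * (N / (Real.log N) ^ K) := by positivity
    have c5 : 0 ≤ D2 * (N / (Real.log N) ^ K) := by positivity
    have c6 : 0 ≤ E * D3 * (N / (Real.log N) ^ K) := by positivity
    have c7 : 0 ≤ D1 * (N / |τ|) := by positivity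
    have c8 : 0 ≤ D2 * (N / |τ|) := by positivity
    have c9 : 0 ≤ E * D3 * (N / |τ|) := by positivity
    nlinarith

lemma VKb_zero : VKb (fun _ => 0) := by
  intro A K
  exact ⟨0, le_rfl, fun N τ _ _ => by simp⟩

/-- the logarithmic weight of the primes -/
noncomputable def th (n : ℕ) : ℝ := if n.Prime then Real.log n else 0

lemma th_nonneg (n : ℕ) : 0 ≤ th n := by
  unfold th
  split_ifs
  · exact Real.log_natCast_nonneg n
  · exact le_rfl

lemma th_le_log (n : ℕ) : th n ≤ Real.log n := by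
  unfold th
  split_ifs
  · exact le_rfl
  · exact Real.log_natCast_nonneg n

lemma th_le_lam (n : ℕ) : th n ≤ ArithmeticFunction.vonMangoldt n := by
  unfold th
  split_ifs with h
  · rw [ArithmeticFunction.vonMangoldt_apply_prime h]
  · exact ArithmeticFunction.vonMangoldt_nonneg

lemma psi_sub_theta (N : ℕ) (hN : 1 ≤ N) :
    ∑ n ∈ Finset.Icc 1 N, (ArithmeticFunction.vonMangoldt n - th n) ≤ 2 * √(N : ℝ) * Real.log N := by
  have h1 := Chebyshev.abs_psi_sub_theta_le_sqrt_mul_log (x := (N : ℝ)) (by exact_mod_cast hN)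
  have h2 : Chebyshev.psi N - Chebyshev.theta N =
      ∑ n ∈ Finset.Icc 1 N, (ArithmeticFunction.vonMangoldt n - th n) := by
    rw [Finset.sum_sub_distrib, Chebyshev.psi, Chebyshev.theta, Nat.floor_natCast]
    congr 1
    rw [Finset.sum_filter]
    rfl
  rw [← h2]
  exact (le_abs_self _).trans h1

lemma th_vk : VKb (fun n => (th n : ℂ) - 1) := by
  intro A K
  obtain ⟨C, h⟩ := Pool.Agent.Y751.VK.lam Pool.Agent.Y957.VK.inv_all A K
  obtain ⟨D2, hD2, h2⟩ := sqrt_small (K + 1)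
  refine ⟨|C| + 2 * D2, by positivity, fun N τ hN hτ => ?_⟩
  have hN0 : (2 : ℝ) ≤ N := by exact_mod_cast hN
  have hl : 0 < Real.log N := Real.log_pos (by linarith)
  have h1 := h N (-τ) hN (by rwa [abs_neg])
  have e1 : ∑ n ∈ Finset.Icc 1 N, ((ArithmeticFunction.vonMangoldt n : ℂ) - 1) *
      (n : ℂ) ^ (-((-τ : ℝ) : ℂ) * I) = ∑ n ∈ Finset.Icc 1 N,
        ((ArithmeticFunction.vonMangoldt n : ℂ) - 1) * er (τ * Real.log n) := by
    refine Finset.sum_congr rfl fun k hk => ?_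
    rw [Finset.mem_Icc] at hk
    rw [er_eq τ (by omega)]
  rw [e1] at h1
  have e2 : ∑ n ∈ Finset.Icc 1 N, ((th n : ℂ) - 1) * er (τ * Real.log n) =
      ∑ n ∈ Finset.Icc 1 N, ((ArithmeticFunction.vonMangoldt n : ℂ) - 1) * er (τ * Real.log n) -
      ∑ n ∈ Finset.Icc 1 N, (((ArithmeticFunction.vonMangoldt n - th n : ℝ)) : ℂ) * er (τ * Real.log n) := by
    rw [← Finset.sum_sub_distrib]
    refine Finset.sum_congr rfl fun k _ => ?_
    push_cast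
    ring
  rw [e2]
  have h3 : ‖∑ n ∈ Finset.Icc 1 N, (((ArithmeticFunction.vonMangoldt n - th n : ℝ)) : ℂ) *
      er (τ * Real.log n)‖ ≤ 2 * √(N : ℝ) * Real.log N := by
    refine (norm_sum_le _ _).trans ((Finset.sum_le_sum fun n _ => ?_).trans (psi_sub_theta N (by omega)))
    rw [norm_mul, er_norm, mul_one, Complex.norm_real,
      Real.norm_of_nonneg (by linarith [th_le_lam n])]
  have a2 := h2 N hN
  have b2 : √(N : ℝ) * Real.log N ≤ D2 * N / (Real.log N) ^ K := by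
    have h5 : D2 * (N : ℝ) / (Real.log N) ^ (K + 1) = D2 * N / (Real.log N) ^ K / Real.log N := by
      rw [pow_succ]
      field_simp
    rw [h5, le_div_iff₀ hl] at a2
    exact a2
  calc _ ≤ _ := norm_sub_le _ _
    _ ≤ C * N / (Real.log N) ^ K + 2 * (D2 * N / (Real.log N) ^ K) := by linarith
    _ ≤ |C| * N / (Real.log N) ^ K + 2 * (D2 * N / (Real.log N) ^ K) := by
        gcongr
        exact le_abs_self C
    _ = _ := by ring

end Pool.Agent.V7H21.MP
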