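import Pool.Agent.V7H21.MP.Tr7
import Pool.Agent.Y876.HS.Fin

/-!
# Primes among the shifts of the values of generic power sequences
-/

set_option autoImplicit false

namespace Pool.Agent.V7H21.MP

open MeasureTheory Filter
open scoped Topology ENNReal

/-- at least `d` of the numbers `n + h`, `h ∈ H`, are primes -/
def AtLeast (d : ℕ) (H : Finset ℕ) (n : ℕ) : Prop := d ≤ (H.filter fun h => (n + h).Prime).card

/-- `H` misses a residue class modulo every prime -/
def Adm (H : Finset ℕ) : Prop := ∀ p : ℕ, p.Prime → ∃ n : ℕ, ∀ h ∈ H, ¬ p ∣ n + h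

open Classical in
/-- from real to integral ranges -/
lemma to_nat {P : ℕ → Prop} {C : ℕ}
    (h : ∀ᶠ x : ℝ in atTop, x / Real.log x ^ C ≤ (Set.ncard {n : ℕ | (n : ℝ) ≤ x ∧ P n} : ℝ)) :
    ∀ᶠ y : ℕ in atTop, (y : ℝ) / (Real.log y) ^ (C + 1) ≤
      (((Finset.Ico 0 y).filter fun n => n ∈ {n : ℕ | P n}).card : ℝ) := by
  filter_upwards [tendsto_natCast_atTop_atTop.eventually h, ev_log 2,
    (log_div_inf C).eventually_ge_atTop 2, eventually_ge_atTop 1] with y h1 l1 h2 hy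
  have hy0 : (0 : ℝ) < y := by exact_mod_cast hy
  set L := Real.log y with hL
  have hL0 : 0 < L := by linarith
  have h3 : (Set.ncard {n : ℕ | (n : ℝ) ≤ y ∧ P n} : ℝ) ≤
      (((Finset.Ico 0 y).filter fun n => n ∈ {n : ℕ | P n}).card : ℝ) + 1 := by
    have h4 : {n : ℕ | (n : ℝ) ≤ y ∧ P n} ⊆
        ((insert y ((Finset.Ico 0 y).filter fun n => n ∈ {n : ℕ | P n}) : Finset ℕ) : Set ℕ) := by
      rintro n ⟨hn1, hn2⟩
      have hn1' : n ≤ y := by exact_mod_cast hn1
      rw [Finset.mem_coe, Finset.mem_insert, Finset.mem_filter, Finset.mem_Ico]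
      rcases Nat.lt_or_ge n y with hlt | hge
      · exact Or.inr ⟨⟨Nat.zero_le _, hlt⟩, hn2⟩
      · exact Or.inl (le_antisymm hn1' hge)
    have h5 := Set.ncard_le_ncard h4 (Finset.finite_toSet _)
    rw [Set.ncard_coe_finset] at h5
    have h6 := Finset.card_insert_le y ((Finset.Ico 0 y).filter fun n => n ∈ {n : ℕ | P n})
    exact_mod_cast h5.trans h6
  have e : (y : ℝ) / L ^ C = L * (y / L ^ (C + 1)) := by
    field_simp
    ring
  have h7 : 0 < (y : ℝ) / L ^ (C + 1) := by positivity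
  have h8 : (y : ℝ) / L ^ (C + 1) ≤ y / L ^ C / 2 := by
    rw [e]
    nlinarith
  have h9 : (y : ℝ) / L ^ (C + 1) ≤ (((Finset.Ico 0 y).filter fun n => n ∈ {n : ℕ | P n}).card : ℝ) := by
    linarith
  exact h9

lemma forms_prime (H : Finset ℕ) (i : H) (n : ℕ) :
    ((((1 : ℤ)) * (n : ℤ) + ((i : ℕ) : ℤ)).natAbs.Prime ↔ (n + (i : ℕ)).Prime) := by
  have : (((1 : ℤ)) * (n : ℤ) + ((i : ℕ) : ℤ)).natAbs = n + (i : ℕ) := by omega
  rw [this]

lemma forms_adm {H : Finset ℕ} (hH : Adm H) : ∀ p : ℕ, p.Prime → ∃ n : ℕ,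
    ∀ i ∈ (Finset.univ : Finset H), ¬ (p : ℤ) ∣ (1 : ℤ) * n + ((i : ℕ) : ℤ) := by
  intro p hp
  obtain ⟨n, hn⟩ := hH p hp
  refine ⟨n, fun i _ hd => hn i i.2 ?_⟩
  rw [one_mul] at hd
  exact_mod_cast hd

lemma ncard_le_card {H : Finset ℕ} {n : ℕ} :
    Set.ncard {i : H | i ∈ (Finset.univ : Finset H) ∧ ((1 : ℤ) * (n : ℤ) + ((i : ℕ) : ℤ)).natAbs.Prime} ≤
      (H.filter fun h => (n + h).Prime).card := by
  have h1 : (Subtype.val '' {i : H | i ∈ (Finset.univ : Finset H) ∧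
      ((1 : ℤ) * (n : ℤ) + ((i : ℕ) : ℤ)).natAbs.Prime}) ⊆
      ((H.filter fun h => (n + h).Prime : Finset ℕ) : Set ℕ) := by
    rintro h ⟨i, ⟨_, hi⟩, rfl⟩
    rw [Finset.mem_coe, Finset.mem_filter]
    exact ⟨i.2, (forms_prime H i n).1 hi⟩
  have h2 := Set.ncard_le_ncard h1 (Finset.finite_toSet _)
  rw [Set.ncard_coe_finset, Set.ncard_image_of_injective _ Subtype.val_injective] at h2
  exact h2

open Classical in
/-- `d` primes among many shifts -/
lemma many_shifts (d : ℕ) (hd : 1 ≤ d) : ∃ D : ℕ, ∀ H : Finset ℕ, Adm H →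
    4 * (d : ℝ) + 2 * Real.log d + 13 ≤ Real.log H.card → ∀ᶠ y : ℕ in atTop,
    (y : ℝ) / (Real.log y) ^ D ≤ (((Finset.Ico 0 y).filter fun n => n ∈ {n : ℕ | AtLeast d H n}).card : ℝ) := by
  obtain ⟨C, hC⟩ := Pool.Agent.Y876.HS.hereditary.{0} d hd
  refine ⟨C + 1, fun H hH hc => ?_⟩
  apply to_nat
  have h := (hC (ι := H) (fun _ => 1) (fun i => ((i : ℕ) : ℤ)) (fun _ => one_pos) (fun i j hij he => hij (by
      simp only [one_mul] at he
      exact Subtype.ext (by exact_mod_cast he.symm))) Finset.univ (forms_adm hH) (by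
      rw [Finset.card_univ, Fintype.card_coe]
      exact hc)).1
  have hdH : d ≤ H.card := by
    have hd0 : (1 : ℝ) ≤ d := by exact_mod_cast hd
    have h1 : 0 ≤ Real.log d := Real.log_natCast_nonneg d
    have h2 : (d : ℝ) ≤ Real.log H.card := by linarith
    have h3 : (0 : ℝ) < H.card := by
      by_contra hcon
      have : (H.card : ℝ) = 0 := le_antisymm (not_lt.1 hcon) (by positivity)
      rw [this, Real.log_zero] at h2
      linarith
    have h4 := Real.log_le_sub_one_of_pos h3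
    have h5 : (d : ℝ) ≤ H.card := by linarith
    exact_mod_cast h5
  filter_upwards [h] with x hx
  have hpos : (0 : ℝ) < ((Finset.univ : Finset H).card.choose d : ℕ) := by
    rw [Finset.card_univ, Fintype.card_coe]
    exact_mod_cast Nat.choose_pos hdH
  have hne : {I : Finset H | (I ⊆ Finset.univ ∧ I.card = d) ∧
      Pool.Agent.Y876.HS.Her (ι := H) (fun _ => 1) (fun i => ((i : ℕ) : ℤ)) Finset.univ C x I}.Nonempty := by
    by_contra hcon
    rw [Set.not_nonempty_iff_eq_empty] at hcon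
    rw [hcon, Set.ncard_empty, Nat.cast_zero, mul_zero] at hx
    linarith
  obtain ⟨I, ⟨-, hI⟩, hH'⟩ := hne
  refine (hH' I (Finset.Subset.refl I)).trans (Nat.cast_le.2 (Set.ncard_le_ncard ?_ ?_))
  · rintro n ⟨hn1, hn2⟩
    refine ⟨hn1, ?_⟩
    have h6 : I.map (Function.Embedding.subtype _) ⊆ H.filter fun h => (n + h).Prime := by
      intro h hh
      rw [Finset.mem_map] at hh
      obtain ⟨i, hi, rfl⟩ := hh
      rw [Finset.mem_filter]
      exact ⟨i.2, (forms_prime H i n).1 ((hn2 i (Or.inl hi)).2 hi)⟩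
    have h7 := Finset.card_le_card h6
    rw [Finset.card_map, hI] at h7
    exact h7
  · exact (Set.finite_Iic ⌊x⌋₊).subset fun n hn => Nat.le_floor hn.1

end Pool.Agent.V7H21.MP
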