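import Pool.Agent.V7H21.MP.Par

/-!
# Second moments
-/

set_option autoImplicit false

namespace Pool.Agent.V7H21.MP

open MeasureTheory Complex Filter FourierTransform
open scoped Topology ENNReal

lemma H_cond {c A : ℝ} (hc : 0 < c) (hA : 0 ≤ A) (B0 K : ℕ) : ∀ᶠ N : ℕ in atTop,
    (N : ℝ) ^ B0 + 2 * Real.pi * c * (QQ c A N * (Real.log N) ^ K) ≤ (N : ℝ) ^ (B0 + ⌈c⌉₊ + 3) := by
  filter_upwards [Q_hi hc hA, ev_log 1, ev_log (2 * Real.pi * c), ev_pow (K + 1) (c := 1) one_pos,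
    eventually_ge_atTop 2] with N h1 l1 l2 h2 hN
  have hN2 : (2 : ℝ) ≤ N := by exact_mod_cast hN
  have hN0 : (0 : ℝ) < N := by linarith
  rw [Real.rpow_one] at h2
  have a1 : 2 * Real.pi * c * (QQ c A N * (Real.log N) ^ K) ≤ (N : ℝ) ^ (⌈c⌉₊ + 2) := by
    calc 2 * Real.pi * c * (QQ c A N * (Real.log N) ^ K) ≤
        Real.log N * ((N : ℝ) ^ (⌈c⌉₊ + 1) * (Real.log N) ^ K) := by gcongr
      _ = (N : ℝ) ^ (⌈c⌉₊ + 1) * (Real.log N) ^ (K + 1) := by ring
      _ ≤ (N : ℝ) ^ (⌈c⌉₊ + 1) * N := by gcongr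
      _ = _ := by ring
  have hN1 : (1 : ℝ) ≤ N := by linarith
  have a2 : (N : ℝ) ^ B0 ≤ (N : ℝ) ^ (B0 + ⌈c⌉₊ + 2) := pow_le_pow_right₀ hN1 (by omega)
  have a3 : (N : ℝ) ^ (⌈c⌉₊ + 2) ≤ (N : ℝ) ^ (B0 + ⌈c⌉₊ + 2) := pow_le_pow_right₀ hN1 (by omega)
  calc _ ≤ (N : ℝ) ^ (B0 + ⌈c⌉₊ + 2) + (N : ℝ) ^ (B0 + ⌈c⌉₊ + 2) := add_le_add a2 (a1.trans a3)
    _ = 2 * (N : ℝ) ^ (B0 + ⌈c⌉₊ + 2) := by ring
    _ ≤ N * (N : ℝ) ^ (B0 + ⌈c⌉₊ + 2) := by gcongr
    _ = _ := by ring

lemma enorm_sq_le {z : ℂ} {x : ℝ} (h : ‖z‖ ≤ x) : ‖z‖ₑ ^ 2 ≤ ENNReal.ofReal (x ^ 2) := by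
  have hx : 0 ≤ x := (norm_nonneg z).trans h
  rw [ENNReal.ofReal_pow hx, ← ofReal_norm]
  have := ENNReal.ofReal_le_ofReal h
  gcongr

lemma enorm_sq_add (x y : ℂ) : ‖x + y‖ₑ ^ 2 ≤ 2 * ‖x‖ₑ ^ 2 + 2 * ‖y‖ₑ ^ 2 := by
  have h1 : ‖x + y‖ ^ 2 ≤ 2 * ‖x‖ ^ 2 + 2 * ‖y‖ ^ 2 := by
    have h := norm_add_le x y
    have h2 := norm_nonneg (x + y)
    nlinarith [sq_nonneg (‖x‖ - ‖y‖), norm_nonneg x, norm_nonneg y]
  have h2 : ∀ z : ℂ, ‖z‖ₑ ^ 2 = ENNReal.ofReal (‖z‖ ^ 2) := fun z => by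
    rw [ENNReal.ofReal_pow (norm_nonneg _), ofReal_norm]
  rw [h2, h2, h2, show (2 : ℝ≥0∞) = ENNReal.ofReal 2 by simp, ← ENNReal.ofReal_mul (by norm_num),
    ← ENNReal.ofReal_mul (by norm_num), ← ENNReal.ofReal_add (by positivity) (by positivity)]
  exact ENNReal.ofReal_le_ofReal h1

/-- Lebesgue measure on the cube -/
noncomputable def bx (A : ℝ) (r : ℕ) : Measure (Fin r → ℝ) :=
  Measure.pi fun _ : Fin r => (volume : Measure ℝ).restrict (Set.Icc (-A) A)

noncomputable instance (A : ℝ) (r : ℕ) : IsFiniteMeasure (bx A r) := by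
  have : IsFiniteMeasure ((volume : Measure ℝ).restrict (Set.Icc (-A) A)) := ⟨by simp⟩
  unfold bx
  infer_instance

lemma bx_univ (A : ℝ) (r : ℕ) : bx A r Set.univ = (ENNReal.ofReal (2 * A)) ^ r := by
  unfold bx
  rw [Measure.pi_univ]
  simp only [Measure.restrict_apply_univ, Real.volume_Icc, Finset.prod_const, Finset.card_univ,
    Fintype.card_fin]
  congr 2
  ring

lemma bx_succ (A : ℝ) (r : ℕ) (F : ℝ → (Fin r → ℝ) → ℝ≥0∞) (hF : Measurable (Function.uncurry F)) :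
    ∫⁻ a : Fin (r + 1) → ℝ, F (a 0) (fun i => a i.succ) ∂(bx A (r + 1)) =
      ∫⁻ ω, (∫⁻ x in Set.Icc (-A) A, F x ω) ∂(bx A r) := by
  have mp := measurePreserving_piFinSuccAbove
    (fun _ : Fin (r + 1) => (volume : Measure ℝ).restrict (Set.Icc (-A) A)) 0
  have h1 := mp.lintegral_comp hF
  have h2 := lintegral_prod_symm' (μ := (volume : Measure ℝ).restrict (Set.Icc (-A) A))
    (ν := bx A r) _ hF
  simp only [Function.uncurry] at h1 h2
  rw [← h2]
  unfold bx
  rw [← h1]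
  rfl

/-- the product of the shifted weights -/
noncomputable def U (r : ℕ) (c : Fin r → ℝ) (b : Fin r → ℤ) (A : ℝ) (K1 N m : ℕ) (a : Fin r → ℝ) : ℂ :=
  ∏ i, (1 + hw (b i) (c i) A K1 N (a i + c i * Real.log m))

lemma U_measurable (r : ℕ) (c : Fin r → ℝ) (b : Fin r → ℤ) (A : ℝ) (K1 N m : ℕ) :
    Measurable (U r c b A K1 N m) := by
  unfold U
  refine Finset.measurable_fun_prod _ fun i _ => ?_
  have h1 : Measurable (hw (b i) (c i) A K1 N) := by
    unfold hw st
    have h1 : Measurable (gw (b i) (PP (c i) A K1 N) (QQ (c i) A N)) := measurable_from_nat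
    exact h1.comp (Nat.measurable_floor.comp Real.measurable_exp)
  exact measurable_const.add (h1.comp ((measurable_pi_apply i).add_const _))

/-- the twisted sum -/
noncomputable def SS (w : ℕ → ℝ) (r : ℕ) (c : Fin r → ℝ) (b : Fin r → ℤ) (A : ℝ) (K1 N : ℕ) (τ : ℝ)
    (a : Fin r → ℝ) : ℂ :=
  ∑ m ∈ Finset.Ioc (y0 K1 N) N, U r c b A K1 N m a * (w m : ℂ) * er (τ * Real.log m)

lemma SS_measurable (w : ℕ → ℝ) (r : ℕ) (c : Fin r → ℝ) (b : Fin r → ℤ) (A : ℝ) (K1 N : ℕ) (τ : ℝ) :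
    Measurable (SS w r c b A K1 N τ) := by
  unfold SS
  refine Finset.measurable_fun_sum _ fun m _ => ?_
  exact ((U_measurable r c b A K1 N m).mul_const _).mul_const _

/-- the twisted sum of the weights -/
noncomputable def W (w : ℕ → ℝ) (K1 N : ℕ) (τ : ℝ) : ℂ :=
  ∑ m ∈ Finset.Ioc (y0 K1 N) N, (w m : ℂ) * er (τ * Real.log m)

/-- the new part -/
noncomputable def X (w : ℕ → ℝ) (r : ℕ) (c : Fin (r + 1) → ℝ) (b : Fin (r + 1) → ℤ) (A : ℝ) (K1 N : ℕ)
    (τ : ℝ) (x : ℝ) (ω : Fin r → ℝ) : ℂ :=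
  ∑ m ∈ Finset.Ioc (y0 K1 N) N, (U r (fun i => c i.succ) (fun i => b i.succ) A K1 N m ω * (w m : ℂ)) *
    er (τ * Real.log m) * hw (b 0) (c 0) A K1 N (x + c 0 * Real.log m)

lemma X_measurable (w : ℕ → ℝ) (r : ℕ) (c : Fin (r + 1) → ℝ) (b : Fin (r + 1) → ℤ) (A : ℝ) (K1 N : ℕ)
    (τ : ℝ) : Measurable (Function.uncurry (X w r c b A K1 N τ)) := by
  unfold X Function.uncurry
  refine Finset.measurable_fun_sum _ fun m _ => ?_
  have h1 : Measurable (hw (b 0) (c 0) A K1 N) := by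
    unfold hw st
    have h1 : Measurable (gw (b 0) (PP (c 0) A K1 N) (QQ (c 0) A N)) := measurable_from_nat
    exact h1.comp (Nat.measurable_floor.comp Real.measurable_exp)
  exact ((((U_measurable r _ _ A K1 N m).comp measurable_snd).mul_const _).mul_const _).mul
    (h1.comp (measurable_fst.add_const _))

lemma SS_succ (w : ℕ → ℝ) (r : ℕ) (c : Fin (r + 1) → ℝ) (b : Fin (r + 1) → ℤ) (A : ℝ) (K1 N : ℕ)
    (τ : ℝ) (a : Fin (r + 1) → ℝ) :
    SS w (r + 1) c b A K1 N τ a =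
      SS w r (fun i => c i.succ) (fun i => b i.succ) A K1 N τ (fun i => a i.succ) +
      X w r c b A K1 N τ (a 0) (fun i => a i.succ) := by
  unfold SS X U
  rw [← Finset.sum_add_distrib]
  refine Finset.sum_congr rfl fun m _ => ?_
  rw [Fin.prod_univ_succ]
  ring

/-- the pointwise bound -/
lemma SS_triv {w : ℕ → ℝ} (hw' : Wt w) (r : ℕ) (c : Fin r → ℝ) (hc : ∀ i, 0 < c i) (b : Fin r → ℤ)
    {A : ℝ} (hA : 0 ≤ A) (K1 : ℕ) : ∀ᶠ N : ℕ in atTop, ∀ τ a,
    ‖SS w r c b A K1 N τ a‖ ≤ 2 * N * (Real.log N) ^ (3 * r) := by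
  have h1 : ∀ᶠ N : ℕ in atTop, ∀ i, Bs ((Real.log N) ^ 2) ((Real.log N) ^ 2) (hw (b i) (c i) A K1 N) :=
    eventually_all.2 fun i => hw_bs (b i) (hc i) hA K1
  filter_upwards [h1, ev_log 2, hw'.triv K1] with N h2 l1 h3 τ a
  set L := Real.log N with hL
  have hU : ∀ m, ‖U r c b A K1 N m a‖ ≤ L ^ (3 * r) := by
    intro m
    unfold U
    rw [norm_prod]
    calc ∏ i, ‖1 + hw (b i) (c i) A K1 N (a i + c i * Real.log m)‖ ≤ ∏ _i : Fin r, L ^ 3 := by
          refine Finset.prod_le_prod (fun i _ => norm_nonneg _) fun i _ => ?_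
          refine (norm_add_le _ _).trans ?_
          have h4 := (h2 i).bd (a i + c i * Real.log m)
          rw [norm_one]
          nlinarith [mul_nonneg (by linarith : 0 ≤ L) (by nlinarith : 0 ≤ L ^ 2)]
      _ = _ := by
          rw [Finset.prod_const, Finset.card_univ, Fintype.card_fin, pow_mul]
  have h5 : ∑ m ∈ Finset.Ioc (y0 K1 N) N, w m ≤ 2 * N := by
    have h6 := h3 0
    simp only [zero_mul, er_zero, mul_one] at h6
    rw [← Complex.ofReal_sum, Complex.norm_real] at h6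
    exact (le_abs_self _).trans h6
  unfold SS
  calc _ ≤ ∑ m ∈ Finset.Ioc (y0 K1 N) N, L ^ (3 * r) * w m := by
        refine norm_sum_le_of_le _ fun m _ => ?_
        rw [norm_mul, norm_mul, er_norm, mul_one, Complex.norm_real, Real.norm_of_nonneg (hw'.nn m)]
        exact mul_le_mul_of_nonneg_right (hU m) (hw'.nn m)
    _ = (∑ m ∈ Finset.Ioc (y0 K1 N) N, w m) * L ^ (3 * r) := by
        rw [← Finset.mul_sum]
        ring
    _ ≤ _ := by
        gcongr

/-- **The second moment.** -/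
theorem mom {w : ℕ → ℝ} (hw' : Wt w) {A : ℝ} (hA : 0 ≤ A) (K1 : ℕ) (r : ℕ) :
    ∀ (c : Fin r → ℝ) (_ : ∀ i, 0 < c i) (b : Fin r → ℤ) (B0 K : ℕ), ∀ᶠ N : ℕ in atTop, ∀ τ : ℝ,
    |τ| ≤ (N : ℝ) ^ B0 → ∫⁻ a, ‖SS w r c b A K1 N τ a - W w K1 N τ‖ₑ ^ 2 ∂(bx A r) ≤
      ENNReal.ofReal ((N : ℝ) ^ 2 / (Real.log N) ^ K) := by
  induction r with
  | zero =>
    intro c _ b B0 K
    refine Eventually.of_forall fun N τ _ => ?_
    have h1 : ∀ a, SS w 0 c b A K1 N τ a - W w K1 N τ = 0 := by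
      intro a
      unfold SS W U
      simp
    simp [h1]
  | succ r ih =>
    intro c hc b B0 K
    set c' : Fin r → ℝ := fun i => c i.succ with hc'
    set b' : Fin r → ℤ := fun i => b i.succ with hb'
    have hcp : ∀ i, 0 < c' i := fun i => hc _
    set M : ℕ := K + 12 with hM
    set M2 : ℕ := K + 10 + 6 * r with hM2
    filter_upwards [hw_bs (b 0) (hc 0) hA K1, SS_triv hw' r c' hcp b' hA K1,
      ih c' hcp b' (B0 + ⌈c 0⌉₊ + 3) M, ih c' hcp b' B0 (K + 2),
      hw'.small (B0 + ⌈c 0⌉₊ + 3) M K1, hw_tail (b 0) (hc 0) hA K1 M2,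
      hw_loc (b 0) (hc 0) hA K1 M2 (M + 2), H_cond (hc 0) hA B0 (M2 + 5), ev_log 2,
      ev_log (1 / (2 * Real.pi * c 0)), ev_log (2 * A), ev_log ((2 * A) ^ r), ev_log 100] with
      N hbs h1 h2 h2' h3 h4 h5 h6 l1 l2 l3 l4 l5 τ hτ
    set L := Real.log N with hL
    have hL0 : 0 < L := by linarith
    have hL1 : 1 ≤ L := by linarith
    -- the new part
    have hX : ∫⁻ ω, (∫⁻ x, ‖X w r c b A K1 N τ x ω‖ₑ ^ 2) ∂(bx A r) ≤
        ENNReal.ofReal ((N : ℝ) ^ 2 / L ^ (K + 4)) := by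
      have h7 := step_le (bx A r) hbs (Finset.Ioc (y0 K1 N) N)
        (fun m ω => U r c' b' A K1 N m ω * (w m : ℂ))
        (fun m => (U_measurable r _ _ A K1 N m).mul_const _) (fun m => Real.log m) (c 0) (hc 0)
        (ENNReal.ofReal (4 * ((N : ℝ) ^ 2 / L ^ (K + 11)))) (ENNReal.ofReal (4 * (N : ℝ) ^ 2 * L ^ (6 * r + 1)))
        (ENNReal.ofReal (1 / L ^ M2)) (ENNReal.ofReal (1 / L ^ M2))
        (L ^ (M + 1)) ((N : ℝ) ^ B0) ((N : ℝ) ^ (B0 + ⌈c 0⌉₊ + 3)) (QQ (c 0) A N * L ^ (M2 + 5))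
        (fun t => by
          calc ∫⁻ ω, ‖SS w r c' b' A K1 N t ω‖ₑ ^ 2 ∂(bx A r) ≤
              ∫⁻ _ω, ENNReal.ofReal ((2 * N * L ^ (3 * r)) ^ 2) ∂(bx A r) :=
                lintegral_mono fun ω => enorm_sq_le (h1 t ω)
            _ = ENNReal.ofReal ((2 * N * L ^ (3 * r)) ^ 2 * (2 * A) ^ r) := by
                rw [lintegral_const, bx_univ, ← ENNReal.ofReal_pow (by positivity),
                  ← ENNReal.ofReal_mul (by positivity)]
            _ ≤ _ := by
                apply ENNReal.ofReal_le_ofReal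
                calc (2 * N * L ^ (3 * r)) ^ 2 * (2 * A) ^ r ≤ (2 * N * L ^ (3 * r)) ^ 2 * L := by gcongr
                  _ = _ := by ring)
        (fun t ht1 ht2 => by
          have h8 := h2 t ht2
          have h9 := h3 t ht1 ht2
          calc ∫⁻ ω, ‖SS w r c' b' A K1 N t ω‖ₑ ^ 2 ∂(bx A r) ≤
              ∫⁻ ω, (2 * ‖SS w r c' b' A K1 N t ω - W w K1 N t‖ₑ ^ 2 +
                2 * ENNReal.ofReal ((N / L ^ M) ^ 2)) ∂(bx A r) := by
                refine lintegral_mono fun ω => ?_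
                have h10 := enorm_sq_add (SS w r c' b' A K1 N t ω - W w K1 N t) (W w K1 N t)
                rw [sub_add_cancel] at h10
                refine h10.trans ?_
                gcongr
                exact enorm_sq_le h9
            _ = 2 * (∫⁻ ω, ‖SS w r c' b' A K1 N t ω - W w K1 N t‖ₑ ^ 2 ∂(bx A r)) +
                2 * ENNReal.ofReal ((N / L ^ M) ^ 2) * ENNReal.ofReal ((2 * A) ^ r) := by
                rw [lintegral_add_right _ measurable_const, lintegral_const_mul, lintegral_const, bx_univ,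
                  ← ENNReal.ofReal_pow (by positivity)]
                exact ((SS_measurable w r c' b' A K1 N t).sub_const _).enorm.pow_const 2
            _ ≤ 2 * ENNReal.ofReal ((N : ℝ) ^ 2 / L ^ M) +
                2 * ENNReal.ofReal ((N / L ^ M) ^ 2) * ENNReal.ofReal L := by gcongr
            _ = ENNReal.ofReal (2 * ((N : ℝ) ^ 2 / L ^ M) + 2 * (N / L ^ M) ^ 2 * L) := by
                rw [ENNReal.ofReal_add (by positivity) (by positivity),
                  ENNReal.ofReal_mul (by norm_num), ENNReal.ofReal_mul (by positivity),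
                  ENNReal.ofReal_mul (by norm_num)]
                simp
            _ ≤ _ := by
                apply ENNReal.ofReal_le_ofReal
                have e1 : 2 * (N / L ^ M) ^ 2 * L ≤ 2 * ((N : ℝ) ^ 2 / L ^ (K + 11)) := by
                  rw [div_pow, ← pow_mul, mul_assoc, div_mul_eq_mul_div]
                  have : (N : ℝ) ^ 2 * L / L ^ (M * 2) ≤ (N : ℝ) ^ 2 / L ^ (K + 11) := by
                    rw [div_le_div_iff₀ (by positivity) (by positivity)]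
                    have : L * L ^ (K + 11) ≤ L ^ (M * 2) := by
                      rw [← pow_succ']
                      exact pow_le_pow_right₀ hL1 (by omega)
                    nlinarith [sq_nonneg (N : ℝ)]
                  linarith
                have e2 : 2 * ((N : ℝ) ^ 2 / L ^ M) ≤ 2 * ((N : ℝ) ^ 2 / L ^ (K + 11)) := by
                  gcongr 2 * ((N : ℝ) ^ 2 / ?_)
                  exact pow_le_pow_right₀ hL1 (by omega)
                linarith)
        (fun η => by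
          refine le_trans (lintegral_mono_set ?_) (h5 η)
          intro x hx
          have hx' : |x - η| < L ^ (M + 1) / (2 * Real.pi * c 0) := hx
          refine lt_of_lt_of_le hx' ?_
          have hc0 := hc 0
          rw [div_le_iff₀ (by positivity)]
          rw [div_le_iff₀ (by positivity)] at l2
          calc L ^ (M + 1) = L ^ (M + 1) * 1 := by ring
            _ ≤ L ^ (M + 1) * (L * (2 * Real.pi * c 0)) := by gcongr
            _ = _ := by ring)
        h4 h6 τ hτ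
      refine h7.trans ?_
      rw [← ENNReal.ofReal_mul (by positivity), ← ENNReal.ofReal_add (by positivity) (by positivity),
        ← ENNReal.ofReal_mul (by positivity), ← ENNReal.ofReal_add (by positivity) (by positivity)]
      apply ENNReal.ofReal_le_ofReal
      have e1 : 4 * ((N : ℝ) ^ 2 / L ^ (K + 11)) * ((L ^ 2) ^ 2 * (2 * L ^ 2)) =
          8 * ((N : ℝ) ^ 2 / L ^ (K + 5)) := by
        field_simp
        ring
      have e2 : 4 * (N : ℝ) ^ 2 * L ^ (6 * r + 1) * (1 / L ^ M2 + 1 / L ^ M2) =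
          8 * ((N : ℝ) ^ 2 / L ^ (K + 9)) := by
        rw [hM2]
        field_simp
        ring
      have e3 : 8 * ((N : ℝ) ^ 2 / L ^ (K + 9)) ≤ 8 * ((N : ℝ) ^ 2 / L ^ (K + 5)) := by
        gcongr 8 * ((N : ℝ) ^ 2 / ?_)
        exact pow_le_pow_right₀ hL1 (by omega)
      have e4 : (N : ℝ) ^ 2 / L ^ (K + 4) = L * ((N : ℝ) ^ 2 / L ^ (K + 5)) := by
        field_simp
        ring
      have e5 : 0 ≤ (N : ℝ) ^ 2 / L ^ (K + 5) := by positivity
      rw [e1, e2, e4]
      nlinarith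
    -- the whole
    have hXm := X_measurable w r c b A K1 N τ
    have hDm := (SS_measurable w r c' b' A K1 N τ).sub_const (W w K1 N τ)
    set F : ℝ → (Fin r → ℝ) → ℝ≥0∞ := fun x ω => 2 * ‖SS w r c' b' A K1 N τ ω - W w K1 N τ‖ₑ ^ 2 +
      2 * ‖X w r c b A K1 N τ x ω‖ₑ ^ 2 with hF
    have hFm : Measurable (Function.uncurry F) := by
      unfold Function.uncurry
      exact (((hDm.comp measurable_snd).enorm.pow_const 2).const_mul 2).add
        ((hXm.enorm.pow_const 2).const_mul 2)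
    calc ∫⁻ a, ‖SS w (r + 1) c b A K1 N τ a - W w K1 N τ‖ₑ ^ 2 ∂(bx A (r + 1)) ≤
        ∫⁻ a : Fin (r + 1) → ℝ, F (a 0) (fun i => a i.succ) ∂(bx A (r + 1)) := by
          refine lintegral_mono fun a => ?_
          rw [SS_succ]
          have h10 := enorm_sq_add (SS w r c' b' A K1 N τ (fun i => a i.succ) - W w K1 N τ)
            (X w r c b A K1 N τ (a 0) (fun i => a i.succ))
          refine le_trans (le_of_eq ?_) h10
          congr 2
          ring
      _ = ∫⁻ ω, (∫⁻ x in Set.Icc (-A) A, F x ω) ∂(bx A r) := bx_succ A r F hFm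
      _ ≤ ∫⁻ ω, (2 * ‖SS w r c' b' A K1 N τ ω - W w K1 N τ‖ₑ ^ 2 * ENNReal.ofReal (2 * A) +
          2 * ∫⁻ x, ‖X w r c b A K1 N τ x ω‖ₑ ^ 2) ∂(bx A r) := by
          refine lintegral_mono fun ω => ?_
          simp only [hF]
          rw [lintegral_add_left measurable_const, setLIntegral_const, Real.volume_Icc]
          have hm : Measurable fun x => ‖X w r c b A K1 N τ x ω‖ₑ ^ 2 :=
            (hXm.comp (measurable_id.prodMk measurable_const)).enorm.pow_const 2
          rw [lintegral_const_mul _ hm]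
          gcongr
          · linarith
          · exact Measure.restrict_le_self
      _ = 2 * (∫⁻ ω, ‖SS w r c' b' A K1 N τ ω - W w K1 N τ‖ₑ ^ 2 ∂(bx A r)) * ENNReal.ofReal (2 * A) +
          2 * ∫⁻ ω, (∫⁻ x, ‖X w r c b A K1 N τ x ω‖ₑ ^ 2) ∂(bx A r) := by
          have hm : Measurable fun ω => ∫⁻ x, ‖X w r c b A K1 N τ x ω‖ₑ ^ 2 := by
            have h11 : Measurable (Function.uncurry fun ω x => ‖X w r c b A K1 N τ x ω‖ₑ ^ 2) :=
              (hXm.comp measurable_swap).enorm.pow_const 2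
            exact h11.lintegral_prod_right'
          rw [lintegral_add_right _ (hm.const_mul 2), lintegral_mul_const _
            ((hDm.enorm.pow_const 2).const_mul 2), lintegral_const_mul _ (hDm.enorm.pow_const 2),
            lintegral_const_mul _ hm]
      _ ≤ 2 * ENNReal.ofReal ((N : ℝ) ^ 2 / L ^ (K + 2)) * ENNReal.ofReal L +
          2 * ENNReal.ofReal ((N : ℝ) ^ 2 / L ^ (K + 4)) := by
          have h12 := h2' τ hτ
          gcongr
      _ = ENNReal.ofReal (2 * ((N : ℝ) ^ 2 / L ^ (K + 2)) * L + 2 * ((N : ℝ) ^ 2 / L ^ (K + 4))) := by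
          rw [ENNReal.ofReal_add (by positivity) (by positivity), ENNReal.ofReal_mul (by positivity),
            ENNReal.ofReal_mul (by positivity), ENNReal.ofReal_mul (by norm_num)]
          simp
      _ ≤ _ := by
          apply ENNReal.ofReal_le_ofReal
          have e3 : (N : ℝ) ^ 2 / L ^ (K + 4) ≤ (N : ℝ) ^ 2 / L ^ (K + 2) := by
            gcongr (N : ℝ) ^ 2 / ?_
            exact pow_le_pow_right₀ hL1 (by omega)
          have e4 : (N : ℝ) ^ 2 / L ^ K = L ^ 2 * ((N : ℝ) ^ 2 / L ^ (K + 2)) := by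
            field_simp
            ring
          have e5 : 0 ≤ (N : ℝ) ^ 2 / L ^ (K + 2) := by positivity
          rw [e4]
          have e6 : 2 * L + 2 ≤ L ^ 2 := by nlinarith
          nlinarith

end Pool.Agent.V7H21.MP
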