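import Pool.Agent.V7H21.MP.Mom
import Pool.Agent.V7H21.MP.HS

/-!
# Second moments with arbitrary weights
-/

set_option autoImplicit false

namespace Pool.Agent.V7H21.MP

open MeasureTheory Complex Filter FourierTransform
open scoped Topology ENNReal ComplexConjugate

lemma ofReal_norm_sq (z : ℂ) : ENNReal.ofReal (‖z‖ ^ 2) = ‖z‖ₑ ^ 2 := by
  rw [ENNReal.ofReal_pow (norm_nonneg _), ofReal_norm]

/-- the second moment with one factor and a twist -/
lemma one {w : ℕ → ℝ} (hw' : Wt w) (b : ℤ) {c A : ℝ} (hc : 0 < c) (hA : 0 ≤ A) (B0 K K1 : ℕ) :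
    ∀ᶠ N : ℕ in atTop, ∀ τ : ℝ, |τ| ≤ (N : ℝ) ^ B0 →
    ∫⁻ a : ℝ, ‖∑ m ∈ Finset.Ioc (y0 K1 N) N, (w m : ℂ) * er (τ * Real.log m) *
      hw b c A K1 N (a + c * Real.log m)‖ₑ ^ 2 ≤ ENNReal.ofReal ((N : ℝ) ^ 2 / (Real.log N) ^ K) := by
  filter_upwards [hw_bs b hc hA K1, hw'.small (B0 + ⌈c⌉₊ + 3) (K + 4) K1, hw'.triv K1,
    hw_tail b hc hA K1 (K + 2), hw_loc b hc hA K1 (K + 2) (K + 4 + 2), H_cond hc hA B0 (K + 2 + 5),
    ev_log 10, ev_log (1 / (2 * Real.pi * c))] with N hbs h1 h2 h3 h4 h5 l1 l2 τ hτ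
  set L := Real.log N with hL
  have hL0 : 0 < L := by linarith
  have h6 := step_le (Measure.dirac ()) hbs (Finset.Ioc (y0 K1 N) N) (fun m _ => (w m : ℂ))
    (fun _ => measurable_const) (fun m => Real.log m) c hc
    (ENNReal.ofReal ((N / L ^ (K + 4)) ^ 2)) (ENNReal.ofReal ((2 * N : ℝ) ^ 2))
    (ENNReal.ofReal (1 / L ^ (K + 2))) (ENNReal.ofReal (1 / L ^ (K + 2)))
    (L ^ (K + 4 + 1)) ((N : ℝ) ^ B0) ((N : ℝ) ^ (B0 + ⌈c⌉₊ + 3)) (QQ c A N * L ^ (K + 2 + 5))
    (fun t => by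
      rw [lintegral_dirac]
      exact enorm_sq_le (h2 t))
    (fun t ht1 ht2 => by
      rw [lintegral_dirac]
      exact enorm_sq_le (h1 t ht1 ht2))
    (fun η => by
      refine le_trans (lintegral_mono_set ?_) (h4 η)
      intro x hx
      have hx' : |x - η| < L ^ (K + 4 + 1) / (2 * Real.pi * c) := hx
      refine lt_of_lt_of_le hx' ?_
      rw [div_le_iff₀ (by positivity)]
      rw [div_le_iff₀ (by positivity)] at l2
      calc L ^ (K + 4 + 1) = L ^ (K + 4 + 1) * 1 := by ring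
        _ ≤ L ^ (K + 4 + 1) * (L * (2 * Real.pi * c)) := by gcongr
        _ = _ := by ring)
    h3 h5 τ hτ
  rw [lintegral_dirac] at h6
  refine h6.trans ?_
  rw [← ENNReal.ofReal_mul (by positivity), ← ENNReal.ofReal_add (by positivity) (by positivity),
    ← ENNReal.ofReal_mul (by positivity), ← ENNReal.ofReal_add (by positivity) (by positivity)]
  apply ENNReal.ofReal_le_ofReal
  have e1 : (N / L ^ (K + 4)) ^ 2 * ((L ^ 2) ^ 2 * (2 * L ^ 2)) = 2 * (N : ℝ) ^ 2 / L ^ (2 * K + 2) := by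
    field_simp
    ring
  have e2 : (2 * N : ℝ) ^ 2 * (1 / L ^ (K + 2) + 1 / L ^ (K + 2)) = 8 * (N : ℝ) ^ 2 / L ^ (K + 2) := by
    ring
  rw [e1, e2]
  calc 2 * (N : ℝ) ^ 2 / L ^ (2 * K + 2) + 8 * (N : ℝ) ^ 2 / L ^ (K + 2) ≤
      2 * (N : ℝ) ^ 2 / L ^ (K + 2) + 8 * (N : ℝ) ^ 2 / L ^ (K + 2) := by
        gcongr 2 * (N : ℝ) ^ 2 / ?_ + _
        exact pow_le_pow_right₀ (by linarith) (by omega)
    _ = 10 * ((N : ℝ) ^ 2 / L ^ (K + 2)) := by ring
    _ ≤ L ^ 2 * ((N : ℝ) ^ 2 / L ^ (K + 2)) := by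
        gcongr
        nlinarith
    _ = _ := by
        field_simp
        ring

/-- the second moment with two factors -/
lemma two {w : ℕ → ℝ} (hw' : Wt w) (b1 b2 : ℤ) {c1 c2 A : ℝ} (hc1 : 0 < c1) (hc2 : 0 < c2) (hA : 0 ≤ A)
    (K K1 : ℕ) : ∀ᶠ N : ℕ in atTop,
    ∫⁻ a1 : ℝ, ∫⁻ a2 : ℝ, ‖∑ m ∈ Finset.Ioc (y0 K1 N) N, (w m : ℂ) *
      hw b1 c1 A K1 N (a1 + c1 * Real.log m) * hw b2 c2 A K1 N (a2 + c2 * Real.log m)‖ₑ ^ 2 ≤
      ENNReal.ofReal ((N : ℝ) ^ 2 / (Real.log N) ^ K) := by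
  filter_upwards [hw_bs b1 hc1 hA K1, hw_bs b2 hc2 hA K1, hw'.triv K1,
    hw_tail b2 hc2 hA K1 (K + 8), one hw' b1 hc1 hA (0 + ⌈c2⌉₊ + 3) (K + 8) K1,
    H_cond hc2 hA 0 (K + 8 + 5), ev_log 10] with N hbs1 hbs2 h2 h3 h4 h5 l1
  set L := Real.log N with hL
  have hL0 : 0 < L := by linarith
  have hcomm : ∀ (t a : ℝ) (m : ℕ), (w m : ℂ) * hw b1 c1 A K1 N (a + c1 * Real.log m) *
      er (t * Real.log m) = (w m : ℂ) * er (t * Real.log m) * hw b1 c1 A K1 N (a + c1 * Real.log m) := by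
    intro t a m
    ring
  have h6 := step_le volume hbs2 (Finset.Ioc (y0 K1 N) N)
    (fun m a => (w m : ℂ) * hw b1 c1 A K1 N (a + c1 * Real.log m))
    (fun m => (hbs1.meas.comp (measurable_id.add_const _)).const_mul _) (fun m => Real.log m) c2 hc2
    (ENNReal.ofReal ((N : ℝ) ^ 2 / L ^ (K + 8)))
    (ENNReal.ofReal (8 * (N : ℝ) ^ 2 * L ^ 6))
    0 (ENNReal.ofReal (1 / L ^ (K + 8)))
    0 0 ((N : ℝ) ^ (0 + ⌈c2⌉₊ + 3)) (QQ c2 A N * L ^ (K + 8 + 5))
    (fun t => by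
      simp only [hcomm]
      have e1 : ∀ a : ℝ, ∑ m ∈ Finset.Ioc (y0 K1 N) N, (w m : ℂ) * er (t * Real.log m) *
          hw b1 c1 A K1 N (a + c1 * Real.log m) = ∑ m ∈ Finset.Ioc (y0 K1 N) N,
          ((w m : ℂ) * er (t * Real.log m)) * hw b1 c1 A K1 N (a + (fun m : ℕ => c1 * Real.log m) m) :=
        fun a => rfl
      simp only [e1]
      rw [planch_sum _ hbs1.int (hbs1.memLp 2)]
      calc _ ≤ ∫⁻ ξ : ℝ, ‖𝓕 (hw b1 c1 A K1 N) ξ‖ₑ ^ 2 * ENNReal.ofReal ((2 * N : ℝ) ^ 2) := by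
            refine lintegral_mono fun ξ => ?_
            apply mul_le_mul_right
            apply enorm_sq_le
            refine le_trans (le_of_eq ?_) (h2 (t + 2 * Real.pi * ξ * c1))
            congr 1
            refine Finset.sum_congr rfl fun m _ => ?_
            rw [mul_assoc, ← er_add]
            congr 2
            ring
        _ = (∫⁻ v, ‖hw b1 c1 A K1 N v‖ₑ ^ 2) * ENNReal.ofReal ((2 * N : ℝ) ^ 2) := by
            rw [lintegral_mul_const _ ((four_measurable hbs1).enorm.pow_const 2),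
              planch _ hbs1.int (hbs1.memLp 2)]
        _ ≤ ENNReal.ofReal ((L ^ 2) ^ 2 * (2 * L ^ 2)) * ENNReal.ofReal ((2 * N : ℝ) ^ 2) := by
            gcongr
            exact hbs1.l2
        _ = _ := by
            rw [← ENNReal.ofReal_mul (by positivity)]
            congr 1
            ring)
    (fun t _ ht2 => by
      simp only [hcomm]
      exact h4 t ht2)
    (fun η => by
      have : {ξ : ℝ | |ξ - η| < 0 / (2 * Real.pi * c2)} = ∅ := by
        ext x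
        simp
      rw [this]
      simp)
    h3 (by
      rw [pow_zero] at h5
      linarith) 0 (by simp)
  simp only [zero_mul, er_zero, mul_one] at h6
  refine h6.trans ?_
  rw [zero_add, ← ENNReal.ofReal_mul (by positivity), ← ENNReal.ofReal_mul (by positivity),
    ← ENNReal.ofReal_add (by positivity) (by positivity)]
  apply ENNReal.ofReal_le_ofReal
  have e1 : (N : ℝ) ^ 2 / L ^ (K + 8) * ((L ^ 2) ^ 2 * (2 * L ^ 2)) +
      8 * (N : ℝ) ^ 2 * L ^ 6 * (1 / L ^ (K + 8)) = 10 * ((N : ℝ) ^ 2 / L ^ (K + 2)) := by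
    field_simp
    ring
  rw [e1]
  calc 10 * ((N : ℝ) ^ 2 / L ^ (K + 2)) ≤ L ^ 2 * ((N : ℝ) ^ 2 / L ^ (K + 2)) := by
        gcongr
        nlinarith
    _ = _ := by
        field_simp
        ring

lemma hw_conj (b : ℤ) (c A : ℝ) (K N : ℕ) (v : ℝ) : conj (hw b c A K N v) = hw b c A K N v := by
  unfold hw st gw
  split_ifs
  · rw [map_sub, Complex.conj_ofReal, map_one]
  · exact map_zero _

/-- **The second moment with arbitrary weights.** -/
theorem onew (b : ℤ) {c A : ℝ} (hc : 0 < c) (hA : 0 ≤ A) (K K1 : ℕ) :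
    ∀ᶠ N : ℕ in atTop, ∀ u : ℕ → ℂ,
    ∫⁻ a : ℝ, ‖∑ m ∈ Finset.Ioc (y0 K1 N) N, u m * hw b c A K1 N (a + c * Real.log m)‖ₑ ^ 2 ≤
      ENNReal.ofReal ((∑ m ∈ Finset.Ioc (y0 K1 N) N, ‖u m‖ ^ 2) * (N / (Real.log N) ^ K)) := by
  filter_upwards [hw_bs b hc hA K1, two Wt.one b b hc hc hA (2 * K) K1, ev_log 1] with N hbs h2 l1 u
  set L := Real.log N with hL
  have hL0 : 0 < L := by linarith
  set s := Finset.Ioc (y0 K1 N) N with hs'
  set f : ℕ → ℝ → ℂ := fun m a => hw b c A K1 N (a + c * Real.log m) with hf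
  have hmem : ∀ m, MemLp (f m) 2 volume := fun m =>
    (hbs.memLp 2).comp_measurePreserving (measurePreserving_add_right volume _)
  have hfm : ∀ m, Measurable (f m) := fun m => hbs.meas.comp (measurable_id.add_const _)
  have h3 := hs volume s f hmem u
  have hFm : Measurable fun z : ℝ × ℝ => ∑ m ∈ s, f m z.1 * conj (f m z.2) := by
    refine Finset.measurable_fun_sum _ fun m _ => ?_
    exact ((hfm m).comp measurable_fst).mul (Complex.continuous_conj.measurable.comp ((hfm m).comp measurable_snd))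
  have hGm : Measurable fun a : ℝ => ∑ m ∈ s, u m * f m a :=
    Finset.measurable_fun_sum _ fun m _ => (hfm m).const_mul _
  have h4 : ∫⁻ z, ‖∑ m ∈ s, f m z.1 * conj (f m z.2)‖ₑ ^ 2 ∂((volume : Measure ℝ).prod volume) ≤
      ENNReal.ofReal ((N : ℝ) ^ 2 / L ^ (2 * K)) := by
    rw [lintegral_prod _ (hFm.enorm.pow_const 2).aemeasurable]
    refine le_trans (le_of_eq ?_) h2
    refine lintegral_congr fun a1 => lintegral_congr fun a2 => ?_
    congr 2
    refine Finset.sum_congr rfl fun m _ => ?_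
    simp only [hf]
    rw [hw_conj]
    simp
  have h5 : ∫ z, ‖∑ m ∈ s, f m z.1 * conj (f m z.2)‖ ^ 2 ∂((volume : Measure ℝ).prod volume) ≤
      (N : ℝ) ^ 2 / L ^ (2 * K) := by
    rw [integral_eq_lintegral_of_nonneg_ae (Eventually.of_forall fun _ => by positivity)
      (hFm.norm.pow_const 2).aestronglyMeasurable]
    apply ENNReal.toReal_le_of_le_ofReal (by positivity)
    simp only [ofReal_norm_sq]
    exact h4
  have h6 : ∫ a, ‖∑ m ∈ s, u m * f m a‖ ^ 2 ≤ (∑ m ∈ s, ‖u m‖ ^ 2) * (N / L ^ K) := by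
    have h7 : (∫ a, ‖∑ m ∈ s, u m * f m a‖ ^ 2) ^ 2 ≤ ((∑ m ∈ s, ‖u m‖ ^ 2) * (N / L ^ K)) ^ 2 := by
      refine h3.trans ?_
      rw [mul_pow, div_pow, ← pow_mul, mul_comm K 2]
      gcongr
    have h8 : 0 ≤ ∑ m ∈ s, ‖u m‖ ^ 2 := Finset.sum_nonneg fun _ _ => by positivity
    exact le_of_sq_le_sq h7 (by positivity)
  have hint : Integrable (fun a => ‖∑ m ∈ s, u m * f m a‖ ^ 2) := by
    have h9 : MemLp (fun a => ∑ m ∈ s, u m * f m a) 2 volume :=
      memLp_finsetSum _ fun m _ => (hmem m).const_mul _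
    exact h9.integrable_norm_pow (by norm_num)
  have h10 := ofReal_integral_eq_lintegral_ofReal hint (Eventually.of_forall fun _ => by positivity)
  simp only [ofReal_norm_sq] at h10
  rw [← h10]
  exact ENNReal.ofReal_le_ofReal h6

lemma U_bd (r : ℕ) (c : Fin r → ℝ) (hc : ∀ i, 0 < c i) (b : Fin r → ℤ) {A : ℝ} (hA : 0 ≤ A) (K1 : ℕ) :
    ∀ᶠ N : ℕ in atTop, ∀ m a, ‖U r c b A K1 N m a‖ ≤ (Real.log N) ^ (3 * r) := by
  have h1 : ∀ᶠ N : ℕ in atTop, ∀ i, Bs ((Real.log N) ^ 2) ((Real.log N) ^ 2) (hw (b i) (c i) A K1 N) :=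
    eventually_all.2 fun i => hw_bs (b i) (hc i) hA K1
  filter_upwards [h1, ev_log 2] with N h2 l1 m a
  set L := Real.log N with hL
  unfold U
  rw [norm_prod]
  calc ∏ i, ‖1 + hw (b i) (c i) A K1 N (a i + c i * Real.log m)‖ ≤ ∏ _i : Fin r, L ^ 3 := by
        refine Finset.prod_le_prod (fun i _ => norm_nonneg _) fun i _ => ?_
        refine (norm_add_le _ _).trans ?_
        have h4 := (h2 i).bd (a i + c i * Real.log m)
        rw [norm_one]
        nlinarith [mul_nonneg (by linarith : 0 ≤ L) (by nlinarith : 0 ≤ L ^ 2)]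
    _ = _ := by
        rw [Finset.prod_const, Finset.card_univ, Fintype.card_fin, pow_mul]

/-- the weighted sum -/
noncomputable def SU (u : ℕ → ℂ) (r : ℕ) (c : Fin r → ℝ) (b : Fin r → ℤ) (A : ℝ) (K1 N : ℕ)
    (a : Fin r → ℝ) : ℂ :=
  ∑ m ∈ Finset.Ioc (y0 K1 N) N, u m * U r c b A K1 N m a

lemma SU_measurable (u : ℕ → ℂ) (r : ℕ) (c : Fin r → ℝ) (b : Fin r → ℤ) (A : ℝ) (K1 N : ℕ) :
    Measurable (SU u r c b A K1 N) := by
  unfold SU
  exact Finset.measurable_fun_sum _ fun m _ => (U_measurable r c b A K1 N m).const_mul _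

/-- the new part -/
noncomputable def XU (u : ℕ → ℂ) (r : ℕ) (c : Fin (r + 1) → ℝ) (b : Fin (r + 1) → ℤ) (A : ℝ) (K1 N : ℕ)
    (x : ℝ) (ω : Fin r → ℝ) : ℂ :=
  ∑ m ∈ Finset.Ioc (y0 K1 N) N, (u m * U r (fun i => c i.succ) (fun i => b i.succ) A K1 N m ω) *
    hw (b 0) (c 0) A K1 N (x + c 0 * Real.log m)

lemma XU_measurable (u : ℕ → ℂ) (r : ℕ) (c : Fin (r + 1) → ℝ) (b : Fin (r + 1) → ℤ) (A : ℝ)
    (K1 N : ℕ) : Measurable (Function.uncurry (XU u r c b A K1 N)) := by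
  unfold XU Function.uncurry
  refine Finset.measurable_fun_sum _ fun m _ => ?_
  have h1 : Measurable (hw (b 0) (c 0) A K1 N) := by
    unfold hw st
    have h1 : Measurable (gw (b 0) (PP (c 0) A K1 N) (QQ (c 0) A N)) := measurable_from_nat
    exact h1.comp (Nat.measurable_floor.comp Real.measurable_exp)
  exact (((U_measurable r _ _ A K1 N m).comp measurable_snd).const_mul _).mul
    (h1.comp (measurable_fst.add_const _))

lemma SU_succ (u : ℕ → ℂ) (r : ℕ) (c : Fin (r + 1) → ℝ) (b : Fin (r + 1) → ℤ) (A : ℝ) (K1 N : ℕ)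
    (a : Fin (r + 1) → ℝ) :
    SU u (r + 1) c b A K1 N a =
      SU u r (fun i => c i.succ) (fun i => b i.succ) A K1 N (fun i => a i.succ) +
      XU u r c b A K1 N (a 0) (fun i => a i.succ) := by
  unfold SU XU U
  rw [← Finset.sum_add_distrib]
  refine Finset.sum_congr rfl fun m _ => ?_
  rw [Fin.prod_univ_succ]
  ring

/-- **The second moment**, several factors and arbitrary weights. -/
theorem mom2 {A : ℝ} (hA : 0 ≤ A) (K1 : ℕ) (r : ℕ) :
    ∀ (c : Fin r → ℝ) (_ : ∀ i, 0 < c i) (b : Fin r → ℤ) (B K : ℕ), ∀ᶠ N : ℕ in atTop, ∀ u : ℕ → ℂ,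
    (∀ m ∈ Finset.Ioc (y0 K1 N) N, ‖u m‖ ≤ (Real.log N) ^ B) →
    ∫⁻ a, ‖SU u r c b A K1 N a - ∑ m ∈ Finset.Ioc (y0 K1 N) N, u m‖ₑ ^ 2 ∂(bx A r) ≤
      ENNReal.ofReal ((N : ℝ) ^ 2 / (Real.log N) ^ K) := by
  induction r with
  | zero =>
    intro c _ b B K
    refine Eventually.of_forall fun N u _ => ?_
    have h1 : ∀ a, SU u 0 c b A K1 N a - ∑ m ∈ Finset.Ioc (y0 K1 N) N, u m = 0 := by
      intro a
      unfold SU U
      simp
    simp [h1]
  | succ r ih =>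
    intro c hc b B K
    set c' : Fin r → ℝ := fun i => c i.succ with hc'
    set b' : Fin r → ℤ := fun i => b i.succ with hb'
    have hcp : ∀ i, 0 < c' i := fun i => hc _
    filter_upwards [U_bd r c' hcp b' hA K1, ih c' hcp b' B (K + 2),
      onew (b 0) (hc 0) hA (2 * (B + 3 * r) + K + 6) K1, y0_le K1,
      ev_log (2 * A), ev_log ((2 * A) ^ r), ev_log 100] with N h1 h2 h3 h4 l3 l4 l5 u hu
    set L := Real.log N with hL
    have hL0 : 0 < L := by linarith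
    have hL1 : 1 ≤ L := by linarith
    set s := Finset.Ioc (y0 K1 N) N with hs'
    have hX : ∀ ω, ∫⁻ x, ‖XU u r c b A K1 N x ω‖ₑ ^ 2 ≤ ENNReal.ofReal ((N : ℝ) ^ 2 / L ^ (K + 6)) := by
      intro ω
      have h5 := h3 (fun m => u m * U r c' b' A K1 N m ω)
      refine h5.trans (ENNReal.ofReal_le_ofReal ?_)
      have h6 : ∑ m ∈ s, ‖u m * U r c' b' A K1 N m ω‖ ^ 2 ≤ N * (L ^ (B + 3 * r)) ^ 2 := by
        calc ∑ m ∈ s, ‖u m * U r c' b' A K1 N m ω‖ ^ 2 ≤ ∑ m ∈ s, (L ^ (B + 3 * r)) ^ 2 := by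
              refine Finset.sum_le_sum fun m hm => ?_
              have h7 : ‖u m * U r c' b' A K1 N m ω‖ ≤ L ^ (B + 3 * r) := by
                rw [norm_mul, pow_add]
                exact mul_le_mul (hu m hm) (h1 m ω) (norm_nonneg _) (by positivity)
              gcongr
          _ = (N - y0 K1 N : ℕ) * (L ^ (B + 3 * r)) ^ 2 := by
              rw [Finset.sum_const, Nat.card_Ioc, nsmul_eq_mul]
          _ ≤ _ := by
              gcongr
              omega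
      calc (∑ m ∈ s, ‖u m * U r c' b' A K1 N m ω‖ ^ 2) * (N / L ^ (2 * (B + 3 * r) + K + 6)) ≤
          (N * (L ^ (B + 3 * r)) ^ 2) * (N / L ^ (2 * (B + 3 * r) + K + 6)) := by gcongr
        _ = _ := by
          field_simp
          ring
    have hXm := XU_measurable u r c b A K1 N
    have hDm := (SU_measurable u r c' b' A K1 N).sub_const (∑ m ∈ s, u m)
    set F : ℝ → (Fin r → ℝ) → ℝ≥0∞ := fun x ω => 2 * ‖SU u r c' b' A K1 N ω - ∑ m ∈ s, u m‖ₑ ^ 2 +
      2 * ‖XU u r c b A K1 N x ω‖ₑ ^ 2 with hF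
    have hFm : Measurable (Function.uncurry F) := by
      unfold Function.uncurry
      exact (((hDm.comp measurable_snd).enorm.pow_const 2).const_mul 2).add
        ((hXm.enorm.pow_const 2).const_mul 2)
    calc ∫⁻ a, ‖SU u (r + 1) c b A K1 N a - ∑ m ∈ s, u m‖ₑ ^ 2 ∂(bx A (r + 1)) ≤
        ∫⁻ a : Fin (r + 1) → ℝ, F (a 0) (fun i => a i.succ) ∂(bx A (r + 1)) := by
          refine lintegral_mono fun a => ?_
          rw [SU_succ]
          have h10 := enorm_sq_add (SU u r c' b' A K1 N (fun i => a i.succ) - ∑ m ∈ s, u m)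
            (XU u r c b A K1 N (a 0) (fun i => a i.succ))
          refine le_trans (le_of_eq ?_) h10
          congr 2
          ring
      _ = ∫⁻ ω, (∫⁻ x in Set.Icc (-A) A, F x ω) ∂(bx A r) := bx_succ A r F hFm
      _ ≤ ∫⁻ ω, (2 * ‖SU u r c' b' A K1 N ω - ∑ m ∈ s, u m‖ₑ ^ 2 * ENNReal.ofReal (2 * A) +
          2 * ENNReal.ofReal ((N : ℝ) ^ 2 / L ^ (K + 6))) ∂(bx A r) := by
          refine lintegral_mono fun ω => ?_
          simp only [hF]
          rw [lintegral_add_left measurable_const, setLIntegral_const, Real.volume_Icc]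
          have hm : Measurable fun x => ‖XU u r c b A K1 N x ω‖ₑ ^ 2 :=
            (hXm.comp (measurable_id.prodMk measurable_const)).enorm.pow_const 2
          rw [lintegral_const_mul _ hm]
          gcongr
          · linarith
          · exact (lintegral_mono' Measure.restrict_le_self le_rfl).trans (hX ω)
      _ = 2 * (∫⁻ ω, ‖SU u r c' b' A K1 N ω - ∑ m ∈ s, u m‖ₑ ^ 2 ∂(bx A r)) * ENNReal.ofReal (2 * A) +
          2 * ENNReal.ofReal ((N : ℝ) ^ 2 / L ^ (K + 6)) * ENNReal.ofReal ((2 * A) ^ r) := by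
          rw [lintegral_add_right _ measurable_const, lintegral_mul_const _
            ((hDm.enorm.pow_const 2).const_mul 2), lintegral_const_mul _ (hDm.enorm.pow_const 2),
            lintegral_const, bx_univ, ← ENNReal.ofReal_pow (by positivity)]
      _ ≤ 2 * ENNReal.ofReal ((N : ℝ) ^ 2 / L ^ (K + 2)) * ENNReal.ofReal L +
          2 * ENNReal.ofReal ((N : ℝ) ^ 2 / L ^ (K + 6)) * ENNReal.ofReal L := by
          have h12 := h2 u hu
          gcongr
      _ = ENNReal.ofReal (2 * ((N : ℝ) ^ 2 / L ^ (K + 2)) * L + 2 * ((N : ℝ) ^ 2 / L ^ (K + 6)) * L) := by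
          rw [ENNReal.ofReal_add (by positivity) (by positivity), ENNReal.ofReal_mul (by positivity),
            ENNReal.ofReal_mul (by positivity), ENNReal.ofReal_mul (by positivity),
            ENNReal.ofReal_mul (by norm_num)]
          simp
      _ ≤ _ := by
          apply ENNReal.ofReal_le_ofReal
          have e3 : (N : ℝ) ^ 2 / L ^ (K + 6) ≤ (N : ℝ) ^ 2 / L ^ (K + 2) := by
            gcongr (N : ℝ) ^ 2 / ?_
            exact pow_le_pow_right₀ hL1 (by omega)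
          have e4 : (N : ℝ) ^ 2 / L ^ K = L ^ 2 * ((N : ℝ) ^ 2 / L ^ (K + 2)) := by
            field_simp
            ring
          have e5 : 0 ≤ (N : ℝ) ^ 2 / L ^ (K + 2) := by positivity
          rw [e4]
          have e6 : 4 * L ≤ L ^ 2 := by nlinarith
          have e7 : (N : ℝ) ^ 2 / L ^ (K + 6) * L ≤ (N : ℝ) ^ 2 / L ^ (K + 2) * L := by gcongr
          nlinarith

end Pool.Agent.V7H21.MP
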