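import Pool.Agent.V7H21.MP.Sup

/-!
# The choice of the parameters
-/

set_option autoImplicit false

namespace Pool.Agent.V7H21.MP

open MeasureTheory Complex Filter FourierTransform
open scoped Topology ENNReal

/-- the window -/
noncomputable def PP (c A : ℝ) (K N : ℕ) : ℕ := ⌊Real.exp (-A) * (y0 K N : ℝ) ^ c⌋₊

/-- the window -/
noncomputable def QQ (c A : ℝ) (N : ℕ) : ℕ := ⌊Real.exp A * (N : ℝ) ^ c⌋₊ + 1

lemma Q_lo {c A : ℝ} (hA : 0 ≤ A) (N : ℕ) : (N : ℝ) ^ c ≤ QQ c A N := by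
  unfold QQ
  have h1 := Nat.lt_floor_add_one (Real.exp A * (N : ℝ) ^ c)
  have h2 : (N : ℝ) ^ c ≤ Real.exp A * (N : ℝ) ^ c :=
    le_mul_of_one_le_left (by positivity) (Real.one_le_exp hA)
  push_cast
  linarith

lemma Q_hi' {c A : ℝ} (hc : 0 < c) (hA : 0 ≤ A) {N : ℕ} (hN : 1 ≤ N) :
    (QQ c A N : ℝ) ≤ 2 * Real.exp A * (N : ℝ) ^ c := by
  unfold QQ
  have hN1 : (1 : ℝ) ≤ N := by exact_mod_cast hN
  have h1 := Nat.floor_le (a := Real.exp A * (N : ℝ) ^ c) (by positivity)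
  have h2 : 1 ≤ Real.exp A * (N : ℝ) ^ c := by
    have a1 := Real.one_le_exp hA
    have a2 := Real.one_le_rpow hN1 hc.le
    nlinarith
  push_cast
  linarith

lemma Q_hi {c A : ℝ} (hc : 0 < c) (hA : 0 ≤ A) : ∀ᶠ N : ℕ in atTop,
    (QQ c A N : ℝ) ≤ (N : ℝ) ^ (⌈c⌉₊ + 1) := by
  filter_upwards [eventually_ge_atTop 1,
    tendsto_natCast_atTop_atTop.eventually_ge_atTop (2 * Real.exp A)] with N h1 h2
  have hN1 : (1 : ℝ) ≤ N := by exact_mod_cast h1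
  refine (Q_hi' hc hA h1).trans ?_
  calc 2 * Real.exp A * (N : ℝ) ^ c ≤ N * (N : ℝ) ^ (⌈c⌉₊ : ℝ) := by
        gcongr
        exact Nat.le_ceil c
    _ = _ := by
        rw [Real.rpow_natCast]
        ring

lemma P_arg {c A : ℝ} (hc : 0 < c) (K1 K3 : ℕ) : ∀ᶠ N : ℕ in atTop,
    2 * (Real.log N) ^ K3 ≤ Real.exp (-A) * (y0 K1 N : ℝ) ^ c := by
  filter_upwards [ev_log 1, ev_log (2 * Real.exp A), ev_pow (K3 + 1) (c := c / 2) (by positivity),
    y0_ge K1, eventually_ge_atTop 2] with N l1 l2 h1 h2 hN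
  have hN0 : (0 : ℝ) < N := by positivity
  have h3 : (N : ℝ) ^ (c / 2) ≤ (y0 K1 N : ℝ) ^ c := by
    calc (N : ℝ) ^ (c / 2) = √(N : ℝ) ^ c := by
          rw [Real.sqrt_eq_rpow, ← Real.rpow_mul hN0.le]
          congr 1
          ring
      _ ≤ _ := Real.rpow_le_rpow (Real.sqrt_nonneg _) h2 hc.le
  rw [Real.exp_neg, inv_mul_eq_div, le_div_iff₀ (Real.exp_pos _)]
  calc 2 * (Real.log N) ^ K3 * Real.exp A = (Real.log N) ^ K3 * (2 * Real.exp A) := by ring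
    _ ≤ (Real.log N) ^ K3 * Real.log N := by gcongr
    _ = (Real.log N) ^ (K3 + 1) := by ring
    _ ≤ _ := h1.trans h3

lemma P_half {c A : ℝ} (hc : 0 < c) (K1 : ℕ) : ∀ᶠ N : ℕ in atTop,
    Real.exp (-A) * (y0 K1 N : ℝ) ^ c ≤ 2 * PP c A K1 N := by
  filter_upwards [P_arg (A := A) hc K1 0] with N h1
  rw [pow_zero, mul_one] at h1
  unfold PP
  have h2 := Nat.lt_floor_add_one (Real.exp (-A) * (y0 K1 N : ℝ) ^ c)
  linarith

lemma P_lo {c A : ℝ} (hc : 0 < c) (K1 K3 : ℕ) : ∀ᶠ N : ℕ in atTop,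
    (Real.log N) ^ K3 ≤ PP c A K1 N := by
  filter_upwards [P_arg (A := A) hc K1 K3, P_half (A := A) hc K1] with N h1 h2
  linarith

lemma PQ {c A : ℝ} (hc : 0 < c) (hA : 0 ≤ A) (K1 : ℕ) : ∀ᶠ N : ℕ in atTop,
    PP c A K1 N ≤ QQ c A N := by
  filter_upwards [y0_le K1] with N h1
  unfold PP QQ
  apply (Nat.floor_le_floor _).trans (Nat.le_succ _)
  have : Real.exp (-A) ≤ Real.exp A := Real.exp_le_exp.2 (by linarith)
  gcongr

lemma ratio {c A : ℝ} (hc : 0 < c) (hA : 0 ≤ A) (K1 : ℕ) : ∀ᶠ N : ℕ in atTop,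
    (QQ c A N : ℝ) ≤ (Real.log N) ^ (K1 * ⌈c⌉₊ + 1) * PP c A K1 N := by
  filter_upwards [ev_log 1, ev_log (4 * Real.exp A * Real.exp A * 2 ^ c), y0_ge K1, P_half (A := A) hc K1,
    eventually_ge_atTop 4] with N l1 l2 h2 h3 hN
  have hN4 : (4 : ℝ) ≤ N := by exact_mod_cast hN
  have hN0 : (0 : ℝ) < N := by linarith
  have hl : 0 < Real.log N := by linarith
  have hy2 : (2 : ℝ) ≤ y0 K1 N := by
    have h1 : √(4 : ℝ) ≤ √(N : ℝ) := Real.sqrt_le_sqrt hN4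
    have h2' : √(4 : ℝ) = 2 := by
      rw [show (4 : ℝ) = 2 ^ 2 by norm_num, Real.sqrt_sq (by norm_num)]
    linarith
  have hy3 : (N : ℝ) / (Real.log N) ^ K1 ≤ 2 * y0 K1 N := by
    have : (N : ℝ) / (Real.log N) ^ K1 < y0 K1 N + 1 := Nat.lt_floor_add_one _
    linarith
  have hy4 : (N : ℝ) ≤ 2 * (Real.log N) ^ K1 * y0 K1 N := by
    rw [div_le_iff₀ (by positivity)] at hy3
    linarith
  have hy5 : (N : ℝ) ^ c ≤ 2 ^ c * (Real.log N) ^ (K1 * ⌈c⌉₊) * (y0 K1 N : ℝ) ^ c := by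
    calc (N : ℝ) ^ c ≤ (2 * (Real.log N) ^ K1 * y0 K1 N) ^ c := Real.rpow_le_rpow hN0.le hy4 hc.le
      _ = 2 ^ c * ((Real.log N) ^ K1) ^ c * (y0 K1 N : ℝ) ^ c := by
          rw [Real.mul_rpow (by positivity) (by positivity), Real.mul_rpow (by norm_num) (by positivity)]
      _ ≤ 2 ^ c * ((Real.log N) ^ K1) ^ (⌈c⌉₊ : ℝ) * (y0 K1 N : ℝ) ^ c := by
          gcongr
          · exact one_le_pow₀ l1
          · exact Nat.le_ceil c
      _ = _ := by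
          rw [Real.rpow_natCast, ← pow_mul]
  have hP : (y0 K1 N : ℝ) ^ c ≤ 2 * Real.exp A * PP c A K1 N := by
    rw [Real.exp_neg, inv_mul_eq_div, div_le_iff₀ (Real.exp_pos _)] at h3
    linarith
  calc (QQ c A N : ℝ) ≤ 2 * Real.exp A * (N : ℝ) ^ c := Q_hi' hc hA (by omega)
    _ ≤ 2 * Real.exp A * (2 ^ c * (Real.log N) ^ (K1 * ⌈c⌉₊) * (2 * Real.exp A * PP c A K1 N)) := by
        gcongr
        exact hy5.trans (by gcongr)
    _ = (Real.log N) ^ (K1 * ⌈c⌉₊) * (4 * Real.exp A * Real.exp A * 2 ^ c) * PP c A K1 N := by ring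
    _ ≤ (Real.log N) ^ (K1 * ⌈c⌉₊) * Real.log N * PP c A K1 N := by gcongr
    _ = _ := by ring

lemma sq_cond {c A : ℝ} (hc : 0 < c) (hA : 0 ≤ A) (K1 : ℕ) : ∀ᶠ N : ℕ in atTop,
    √((2 * QQ c A N : ℕ) : ℝ) ≤ (PP c A K1 N : ℝ) / 4 := by
  filter_upwards [ratio hc hA K1, P_lo (A := A) hc K1 (K1 * ⌈c⌉₊ + 1 + 1), ev_log 32] with N h1 h2 l1
  rw [Real.sqrt_le_left (by positivity)]
  push_cast
  have hl : 0 < Real.log N := by linarith
  calc 2 * (QQ c A N : ℝ) ≤ 2 * ((Real.log N) ^ (K1 * ⌈c⌉₊ + 1) * PP c A K1 N) := by gcongr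
    _ = (32 * (Real.log N) ^ (K1 * ⌈c⌉₊ + 1)) * PP c A K1 N / 16 := by ring
    _ ≤ (Real.log N * (Real.log N) ^ (K1 * ⌈c⌉₊ + 1)) * PP c A K1 N / 16 := by gcongr
    _ = (Real.log N) ^ (K1 * ⌈c⌉₊ + 1 + 1) * PP c A K1 N / 16 := by ring
    _ ≤ PP c A K1 N * PP c A K1 N / 16 := by gcongr
    _ = _ := by ring

/-- the step function of the primes minus one in the window -/
noncomputable def hw (b : ℤ) (c A : ℝ) (K N : ℕ) : ℝ → ℂ := st (gw b (PP c A K N) (QQ c A N))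

lemma logQ {c A : ℝ} (hc : 0 < c) (hA : 0 ≤ A) : ∀ᶠ N : ℕ in atTop,
    1 + Real.log (2 * QQ c A N : ℕ) ≤ (Real.log N) ^ 2 := by
  filter_upwards [Q_hi hc hA, ev_log 1, ev_log (⌈c⌉₊ + 4), eventually_ge_atTop 2] with N h1 l1 l2 hN
  have hN0 : (0 : ℝ) < N := by positivity
  have hN2 : (2 : ℝ) ≤ N := by exact_mod_cast hN
  have h2 : ((2 * QQ c A N : ℕ) : ℝ) ≤ (N : ℝ) ^ (⌈c⌉₊ + 2) := by
    push_cast
    calc 2 * (QQ c A N : ℝ) ≤ N * (N : ℝ) ^ (⌈c⌉₊ + 1) := by gcongr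
      _ = _ := by ring
  have h3 : 0 < 2 * QQ c A N := by
    unfold QQ
    omega
  have h4 := Real.log_le_log (by exact_mod_cast h3) h2
  rw [Real.log_pow] at h4
  push_cast at h4
  have h5 : ((⌈c⌉₊ : ℝ) + 4) * Real.log N ≤ Real.log N * Real.log N := by gcongr
  push_cast
  nlinarith

lemma gw_norm (b : ℤ) {P Q : ℕ} (hb : b.natAbs ≤ Q) (hP : 1 ≤ P) (n : ℕ) :
    ‖gw b P Q n‖ ≤ 1 + Real.log (2 * Q : ℕ) := by
  unfold gw
  split_ifs with h
  · have hk : ((n : ℤ) + b).toNat ≤ 2 * Q := by omega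
    have h1 : th ((n : ℤ) + b).toNat ≤ Real.log (2 * Q : ℕ) := by
      refine (th_le_log _).trans ?_
      rcases Nat.eq_zero_or_pos ((n : ℤ) + b).toNat with h0 | h0
      · rw [h0]
        simpa using Real.log_natCast_nonneg (2 * Q)
      · apply Real.log_le_log (by exact_mod_cast h0)
        exact_mod_cast hk
    have h2 := th_nonneg ((n : ℤ) + b).toNat
    calc ‖((th ((n : ℤ) + b).toNat : ℝ) : ℂ) - 1‖ ≤ ‖((th ((n : ℤ) + b).toNat : ℝ) : ℂ)‖ + ‖(1 : ℂ)‖ :=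
          norm_sub_le _ _
      _ = th ((n : ℤ) + b).toNat + 1 := by
          rw [Complex.norm_real, Real.norm_of_nonneg h2, norm_one]
      _ ≤ _ := by linarith
  · rw [norm_zero]
    linarith [Real.log_natCast_nonneg (2 * Q)]

lemma ev_P {c A : ℝ} (hc : 0 < c) (K1 : ℕ) (B : ℕ) : ∀ᶠ N : ℕ in atTop, B ≤ PP c A K1 N := by
  filter_upwards [P_lo (A := A) hc K1 1, ev_log B] with N h1 h2
  rw [pow_one] at h1
  exact_mod_cast h2.trans h1

lemma hw_bs (b : ℤ) {c A : ℝ} (hc : 0 < c) (hA : 0 ≤ A) (K1 : ℕ) : ∀ᶠ N : ℕ in atTop,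
    Bs ((Real.log N) ^ 2) ((Real.log N) ^ 2) (hw b c A K1 N) := by
  filter_upwards [logQ hc hA, ev_P (A := A) hc K1 (b.natAbs + 1), PQ hc hA K1] with N h1 h2 h3
  unfold hw
  refine st_bs (P := PP c A K1 N) (Q := QQ c A N) (fun n => ?_) (by omega) (gw_zero _ _ _) (by omega) ?_
  · exact (gw_norm b (by omega) (by omega) n).trans h1
  · have h4 : Real.log (QQ c A N) ≤ Real.log (2 * QQ c A N : ℕ) := by
      apply Real.log_le_log
      · exact_mod_cast (by omega : 0 < QQ c A N)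
      · exact_mod_cast (by omega : QQ c A N ≤ 2 * QQ c A N)
    linarith

lemma hw_sup (b : ℤ) {c A : ℝ} (hc : 0 < c) (hA : 0 ≤ A) (K1 K5 K6 : ℕ) : ∀ᶠ N : ℕ in atTop,
    ∀ ξ : ℝ, |ξ| ≤ QQ c A N * (Real.log N) ^ K6 →
    ‖𝓕 (hw b c A K1 N) ξ‖ ≤ 1 / (Real.log N) ^ K5 := by
  set K3 := K1 * ⌈c⌉₊ + 1 with hK3
  set K := K5 + 2 * K3 + K6 + 1 with hK
  obtain ⟨C, hC, h⟩ := sup0 b 2 K
  set D : ℝ := C * (1 / c ^ K) * (3 + 8 * Real.pi * |(b : ℝ)|) with hD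
  filter_upwards [ev_log 1, ev_log D, ev_P (A := A) hc K1 (2 * b.natAbs + 4), PQ hc hA K1,
    sq_cond hc hA K1, ratio hc hA K1, eventually_ge_atTop 2, P_lo (A := A) hc K1 (K6 + 2),
    ev_log (2 * Real.pi)] with
    N l1 l2 h1 h2 h3 h4 hN hPlo l3 ξ hξ
  have hN0 : (0 : ℝ) < N := by positivity
  set L := Real.log N with hL
  have hL0 : 0 < L := by linarith
  set P := PP c A K1 N with hP
  set Q := QQ c A N with hQ
  have hP0 : (0 : ℝ) < P := by exact_mod_cast (by omega : 0 < P)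
  have hQ0 : (0 : ℝ) < Q := by exact_mod_cast (by omega : 0 < Q)
  have hPQ : (P : ℝ) ≤ Q := by exact_mod_cast h2
  have hτ : |2 * Real.pi * ξ| ≤ ((2 * Q : ℕ) : ℝ) ^ 2 := by
    rw [abs_mul, abs_of_pos (by positivity : 0 < 2 * Real.pi)]
    calc 2 * Real.pi * |ξ| ≤ L * (Q * L ^ K6) := by gcongr
      _ = Q * L ^ (K6 + 1) := by ring
      _ ≤ Q * L ^ (K6 + 2) := by
          gcongr
          norm_num
      _ ≤ Q * Q := by
          gcongr
          exact hPlo.trans hPQ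
      _ ≤ _ := by
          push_cast
          nlinarith
  have hs := h P Q h1 h2 h3 ξ hτ
  unfold hw
  refine hs.trans ?_
  have hlogQ : c * L ≤ Real.log (2 * Q : ℕ) := by
    have a1 : (N : ℝ) ^ c ≤ (2 * Q : ℕ) := by
      refine (Q_lo hA N).trans ?_
      exact_mod_cast (by omega : QQ c A N ≤ 2 * Q)
    have a2 := Real.log_le_log (by positivity) a1
    rwa [Real.log_rpow hN0] at a2
  have hτ2 : 4 * |2 * Real.pi * ξ| * |(b : ℝ)| / P ≤ 8 * Real.pi * |(b : ℝ)| * L ^ (K3 + K6) := by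
    rw [abs_mul, abs_of_pos (by positivity : 0 < 2 * Real.pi), div_le_iff₀ hP0]
    calc 4 * (2 * Real.pi * |ξ|) * |(b : ℝ)| ≤ 4 * (2 * Real.pi * (Q * L ^ K6)) * |(b : ℝ)| := by gcongr
      _ ≤ 4 * (2 * Real.pi * ((L ^ K3 * P) * L ^ K6)) * |(b : ℝ)| := by gcongr
      _ = _ := by ring
  have hone : (1 : ℝ) ≤ L ^ (K3 + K6) := one_le_pow₀ l1
  have hτ3 : (3 + 4 * |2 * Real.pi * ξ| * |(b : ℝ)| / P) ≤ (3 + 8 * Real.pi * |(b : ℝ)|) * L ^ (K3 + K6) := by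
    nlinarith
  calc C * Q / (Real.log (2 * Q : ℕ)) ^ K * ((3 + 4 * |2 * Real.pi * ξ| * |(b : ℝ)| / P) / P) ≤
      C * (L ^ K3 * P) / (c * L) ^ K * (((3 + 8 * Real.pi * |(b : ℝ)|) * L ^ (K3 + K6)) / P) := by gcongr
    _ = D * (L ^ (2 * K3 + K6) / L ^ K) := by
        rw [hD, mul_pow]
        field_simp
        ring
    _ ≤ L * (L ^ (2 * K3 + K6) / L ^ K) := by gcongr
    _ = 1 / L ^ K5 := by
        rw [hK]
        field_simp
        ring

lemma hw_tail (b : ℤ) {c A : ℝ} (hc : 0 < c) (hA : 0 ≤ A) (K1 K : ℕ) : ∀ᶠ N : ℕ in atTop,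
    ∫⁻ ξ in {ξ : ℝ | QQ c A N * (Real.log N) ^ (K + 5) ≤ |ξ|}, ‖𝓕 (hw b c A K1 N) ξ‖ₑ ^ 2 ≤
      ENNReal.ofReal (1 / (Real.log N) ^ K) := by
  filter_upwards [hw_bs b hc hA K1, ev_log 4, logQ hc hA, ev_P (A := A) hc K1 (b.natAbs + 1),
    PQ hc hA K1] with N hbs l1 hlQ h2 h3
  set L := Real.log N with hL
  have hL0 : 0 < L := by linarith
  set Q := QQ c A N with hQ
  have hQ0 : (0 : ℝ) < Q := by exact_mod_cast (by omega : 0 < Q)
  have hS : 0 < 1 / ((Q : ℝ) * L ^ (K + 5)) := by positivity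
  have h1 := tail_le hbs hS (ENNReal.ofReal (1 / L ^ K)) (by
    intro s hs
    refine (st_mod (P := PP c A K1 N) (Q := QQ c A N) (G := L ^ 2)
      (fun n => (gw_norm b (by omega) (by omega) n).trans hlQ) (gw_zero _ _ _) hs.1).trans ?_
    apply ENNReal.ofReal_le_ofReal
    calc 4 * (L ^ 2) ^ 2 * (QQ c A N) * s ≤ 4 * (L ^ 2) ^ 2 * Q * (1 / ((Q : ℝ) * L ^ (K + 5))) := by
          gcongr
          exact hs.2
      _ = 4 * (1 / (L ^ (K + 1))) := by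
          field_simp
          ring
      _ ≤ L * (1 / (L ^ (K + 1))) := by gcongr
      _ = _ := by
          field_simp
          ring)
  rw [one_div_one_div] at h1
  exact h1

lemma hw_loc (b : ℤ) {c A : ℝ} (hc : 0 < c) (hA : 0 ≤ A) (K1 K K2 : ℕ) : ∀ᶠ N : ℕ in atTop,
    ∀ η : ℝ, ∫⁻ ξ in {ξ : ℝ | |ξ - η| < (Real.log N) ^ K2}, ‖𝓕 (hw b c A K1 N) ξ‖ₑ ^ 2 ≤
      ENNReal.ofReal (1 / (Real.log N) ^ K) := by
  filter_upwards [hw_tail b hc hA K1 (K + 1), hw_sup b hc hA K1 (K2 + K + 1) (K + 1 + 5), ev_log 4]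
    with N h1 h2 l1 η
  set L := Real.log N with hL
  have hL0 : 0 < L := by linarith
  set Q := QQ c A N with hQ
  set f : ℝ → ℝ≥0∞ := fun ξ => ‖𝓕 (hw b c A K1 N) ξ‖ₑ ^ 2 with hf
  set U : Set ℝ := {ξ : ℝ | |ξ - η| < L ^ K2} with hU
  set V : Set ℝ := {ξ : ℝ | (Q : ℝ) * L ^ (K + 1 + 5) ≤ |ξ|} with hV
  have hUm : MeasurableSet U := measurableSet_lt (by fun_prop) measurable_const
  have hVm : MeasurableSet V := measurableSet_le measurable_const (by fun_prop)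
  have hUV : U ⊆ (U \ V) ∪ V := by
    intro x hx
    by_cases hxV : x ∈ V
    · exact Or.inr hxV
    · exact Or.inl ⟨hx, hxV⟩
  have hvol : volume U ≤ ENNReal.ofReal (2 * L ^ K2) := by
    have : U ⊆ Set.Ioo (η - L ^ K2) (η + L ^ K2) := by
      intro x hx
      have hx' : |x - η| < L ^ K2 := hx
      rw [abs_lt] at hx'
      exact ⟨by linarith [hx'.1], by linarith [hx'.2]⟩
    refine (measure_mono this).trans (le_of_eq ?_)
    rw [Real.volume_Ioo]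
    congr 1
    ring
  calc ∫⁻ ξ in U, f ξ ≤ ∫⁻ ξ in (U \ V) ∪ V, f ξ := lintegral_mono_set hUV
    _ ≤ (∫⁻ ξ in U \ V, f ξ) + ∫⁻ ξ in V, f ξ := lintegral_union_le _ _ _
    _ ≤ ENNReal.ofReal (1 / L ^ (K2 + K + 1)) * ENNReal.ofReal (2 * L ^ K2) +
        ENNReal.ofReal (1 / L ^ (K + 1)) := by
        refine add_le_add ?_ h1
        calc ∫⁻ ξ in U \ V, f ξ ≤ ∫⁻ _ξ in U \ V, ENNReal.ofReal (1 / L ^ (K2 + K + 1)) := by
              refine setLIntegral_mono measurable_const fun ξ hξ => ?_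
              have h3 : |ξ| ≤ Q * L ^ (K + 1 + 5) := (not_le.1 hξ.2).le
              have h4 := h2 ξ h3
              simp only [hf]
              rw [← ofReal_norm, ← ENNReal.ofReal_pow (norm_nonneg _)]
              apply ENNReal.ofReal_le_ofReal
              have h5 : (1 : ℝ) / L ^ (K2 + K + 1) ≤ 1 := by
                rw [div_le_one (by positivity)]
                exact one_le_pow₀ (by linarith)
              have h6 : 0 ≤ ‖𝓕 (hw b c A K1 N) ξ‖ := norm_nonneg _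
              nlinarith
          _ = ENNReal.ofReal (1 / L ^ (K2 + K + 1)) * volume (U \ V) := setLIntegral_const _ _
          _ ≤ _ := by
              gcongr
              exact (measure_mono Set.diff_subset).trans hvol
    _ = ENNReal.ofReal (3 * (1 / L ^ (K + 1))) := by
        rw [← ENNReal.ofReal_mul (by positivity), ← ENNReal.ofReal_add (by positivity) (by positivity)]
        congr 1
        field_simp
        ring
    _ ≤ _ := by
        apply ENNReal.ofReal_le_ofReal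
        calc 3 * (1 / L ^ (K + 1)) ≤ L * (1 / L ^ (K + 1)) := by
              gcongr
              linarith
          _ = _ := by
              field_simp
              ring

end Pool.Agent.V7H21.MP
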