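import Pool.Agent.H153R4.Pl

/-!
# Plancherel's theorem for sums of translates, tails of the Fourier transform
-/

set_option autoImplicit false

namespace Pool.Agent.V7H21.MP

open MeasureTheory Complex FourierTransform
open scoped ENNReal

/-- `exp (i x)` -/
noncomputable def er (x : ℝ) : ℂ := cexp ((x : ℂ) * I)

lemma er_norm (x : ℝ) : ‖er x‖ = 1 := by
  unfold er
  exact Complex.norm_exp_ofReal_mul_I x

lemma er_add (x y : ℝ) : er (x + y) = er x * er y := by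
  unfold er
  rw [← Complex.exp_add]
  congr 1
  push_cast
  ring

lemma er_zero : er 0 = 1 := by
  unfold er
  simp

lemma er_continuous : Continuous er := by
  unfold er
  fun_prop

lemma er_measurable : Measurable er := er_continuous.measurable

lemma er_enorm (x : ℝ) : ‖er x‖ₑ = 1 := by
  rw [← ofReal_norm, er_norm]
  simp

lemma four_eq (h : ℝ → ℂ) (ξ : ℝ) : 𝓕 h ξ = ∫ v : ℝ, h v * er (-(2 * Real.pi * ξ * v)) := by
  rw [Real.fourier_real_eq_integral_exp_smul]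
  refine integral_congr_ae (Filter.Eventually.of_forall fun s => ?_)
  simp only [er, smul_eq_mul]
  rw [mul_comm]
  congr 2
  push_cast
  ring

/-- bounded measurable functions supported in `[-R, R]` -/
structure Bs (G R : ℝ) (h : ℝ → ℂ) : Prop where
  meas : Measurable h
  bd : ∀ v, ‖h v‖ ≤ G
  supp : ∀ v, R < |v| → h v = 0

lemma Bs.G0 {G R : ℝ} {h : ℝ → ℂ} (hh : Bs G R h) : 0 ≤ G := (norm_nonneg _).trans (hh.bd 0)

lemma Bs.ind {G R : ℝ} {h : ℝ → ℂ} (hh : Bs G R h) : (Set.Icc (-R) R).indicator h = h := by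
  ext v
  by_cases hv : v ∈ Set.Icc (-R) R
  · rw [Set.indicator_of_mem hv]
  · rw [Set.indicator_of_notMem hv, hh.supp v]
    by_contra hc
    exact hv (abs_le.1 (not_lt.1 hc))

lemma Bs.memLp {G R : ℝ} {h : ℝ → ℂ} (hh : Bs G R h) (p : ℝ≥0∞) : MemLp h p volume := by
  rw [← hh.ind, memLp_indicator_iff_restrict measurableSet_Icc]
  have : IsFiniteMeasure (volume.restrict (Set.Icc (-R) R)) := ⟨by simp⟩
  exact MemLp.of_bound hh.meas.aestronglyMeasurable G (ae_of_all _ hh.bd)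

lemma Bs.int {G R : ℝ} {h : ℝ → ℂ} (hh : Bs G R h) : Integrable h := memLp_one_iff_integrable.1 (hh.memLp 1)

lemma Bs.l2 {G R : ℝ} {h : ℝ → ℂ} (hh : Bs G R h) :
    ∫⁻ v, ‖h v‖ₑ ^ 2 ≤ ENNReal.ofReal (G ^ 2 * (2 * R)) := by
  have h1 : ∀ v, ‖h v‖ₑ ^ 2 ≤ (Set.Icc (-R) R).indicator (fun _ => ENNReal.ofReal (G ^ 2)) v := by
    intro v
    by_cases hv : v ∈ Set.Icc (-R) R
    · rw [Set.indicator_of_mem hv, ENNReal.ofReal_pow hh.G0]
      have h2 : ‖h v‖ₑ ≤ ENNReal.ofReal G := by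
        rw [← ofReal_norm]
        exact ENNReal.ofReal_le_ofReal (hh.bd v)
      gcongr
    · rw [hh.supp v]
      · simp
      · by_contra hc
        exact hv (abs_le.1 (not_lt.1 hc))
  calc ∫⁻ v, ‖h v‖ₑ ^ 2 ≤ ∫⁻ v, (Set.Icc (-R) R).indicator (fun _ => ENNReal.ofReal (G ^ 2)) v :=
        lintegral_mono h1
    _ = ENNReal.ofReal (G ^ 2) * volume (Set.Icc (-R) R) := by
        rw [lintegral_indicator measurableSet_Icc, setLIntegral_const]
    _ = ENNReal.ofReal (G ^ 2 * (2 * R)) := by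
        rw [Real.volume_Icc, ENNReal.ofReal_mul (by positivity)]
        congr 2
        ring

/-- **Plancherel's theorem for a sum of translates.** -/
lemma planch_sum (h : ℝ → ℂ) (h1 : Integrable h) (h2 : MemLp h 2) (s : Finset ℕ) (w : ℕ → ℂ)
    (lam : ℕ → ℝ) :
    ∫⁻ a : ℝ, ‖∑ m ∈ s, w m * h (a + lam m)‖ₑ ^ 2 =
      ∫⁻ ξ : ℝ, ‖𝓕 h ξ‖ₑ ^ 2 * ‖∑ m ∈ s, w m * er (2 * Real.pi * ξ * lam m)‖ₑ ^ 2 := by
  have hint : ∀ a : ℝ, Integrable (fun v => h (v + a)) := fun a => h1.comp_add_right a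
  have hmem : ∀ a : ℝ, MemLp (fun v => h (v + a)) 2 volume := fun a =>
    h2.comp_measurePreserving (measurePreserving_add_right volume a)
  have hG1 : Integrable (fun a => ∑ m ∈ s, w m * h (a + lam m)) :=
    integrable_finsetSum _ fun m _ => (hint _).const_mul _
  have hG2 : MemLp (fun a => ∑ m ∈ s, w m * h (a + lam m)) 2 volume :=
    memLp_finsetSum _ fun m _ => (hmem _).const_mul _
  rw [← Pool.Agent.H153R4.plancherel _ hG1 hG2]
  refine lintegral_congr fun ξ => ?_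
  rw [← mul_pow, ← enorm_mul]
  congr 2
  have hb : ∀ x : ℝ, Integrable (fun v => h (v + x) * er (-(2 * Real.pi * ξ * v))) := by
    intro x
    refine (hint x).mul_bdd (c := 1) ?_ ?_
    · exact (er_measurable.comp (by fun_prop)).aestronglyMeasurable
    · exact ae_of_all _ fun v => (er_norm _).le
  have h3 : ∀ x : ℝ, ∫ v : ℝ, h (v + x) * er (-(2 * Real.pi * ξ * v)) =
      𝓕 h ξ * er (2 * Real.pi * ξ * x) := by
    intro x
    rw [four_eq, ← integral_add_right_eq_self (fun v => h v * er (-(2 * Real.pi * ξ * v))) x,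
      ← integral_mul_const]
    refine integral_congr_ae (Filter.Eventually.of_forall fun v => ?_)
    simp only
    rw [mul_assoc (h (v + x)) (er _) (er _), ← er_add]
    congr 2
    ring
  rw [four_eq]
  simp only [Finset.sum_mul, mul_assoc (w _)]
  rw [integral_finsetSum]
  · rw [Finset.mul_sum]
    refine Finset.sum_congr rfl fun m _ => ?_
    rw [integral_const_mul, h3]
    ring
  · intro m _
    exact (hb _).const_mul _

lemma planch (h : ℝ → ℂ) (h1 : Integrable h) (h2 : MemLp h 2) :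
    ∫⁻ ξ, ‖𝓕 h ξ‖ₑ ^ 2 = ∫⁻ v, ‖h v‖ₑ ^ 2 := Pool.Agent.H153R4.plancherel h h1 h2

lemma four_measurable {G R : ℝ} {h : ℝ → ℂ} (hh : Bs G R h) : Measurable (𝓕 h) := by
  have h1 : Continuous (𝓕 h) := by
    have := VectorFourier.fourierIntegral_continuous (L := innerₗ ℝ) Real.continuous_fourierChar
      continuous_inner hh.int
    exact this
  exact h1.measurable

lemma er_sub_one_sq (x : ℝ) : ‖er x - 1‖ ^ 2 = 2 - 2 * Real.cos x := by
  have h1 : er x = ((Real.cos x : ℝ) : ℂ) + ((Real.sin x : ℝ) : ℂ) * I := by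
    unfold er
    rw [Complex.exp_mul_I]
    push_cast
    rfl
  have h2 : ‖er x - 1‖ ^ 2 = (Real.cos x - 1) ^ 2 + Real.sin x ^ 2 := by
    rw [h1, ← Complex.normSq_eq_norm_sq, Complex.normSq_apply]
    simp [Complex.cos_ofReal_re, Complex.sin_ofReal_re]
    ring
  rw [h2]
  nlinarith [Real.sin_sq_add_cos_sq x]

/-- the average of `|e^{isx} - 1|²` over `0 ≤ s ≤ S` is at least one if `S |x| ≥ 2` -/
lemma avg_ge {S x : ℝ} (hS : 0 < S) (hx : 2 ≤ S * |x|) :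
    ENNReal.ofReal S ≤ ∫⁻ s in Set.Icc 0 S, ‖er (x * s) - 1‖ₑ ^ 2 := by
  have hx0 : x ≠ 0 := by
    rintro rfl
    simp at hx
    linarith
  have e1 : ∀ s : ℝ, ‖er (x * s) - 1‖ₑ ^ 2 = ENNReal.ofReal (2 - 2 * Real.cos (x * s)) := by
    intro s
    rw [← er_sub_one_sq, ENNReal.ofReal_pow (norm_nonneg _), ofReal_norm]
  simp only [e1]
  have hcont : Continuous fun s : ℝ => 2 - 2 * Real.cos (x * s) := by fun_prop
  rw [← ofReal_integral_eq_lintegral_ofReal]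
  · apply ENNReal.ofReal_le_ofReal
    rw [integral_Icc_eq_integral_Ioc, ← intervalIntegral.integral_of_le hS.le,
      intervalIntegral.integral_sub (by simp) ((by fun_prop : Continuous fun s : ℝ =>
        2 * Real.cos (x * s)).intervalIntegrable _ _), intervalIntegral.integral_const,
      intervalIntegral.integral_const_mul]
    have h3 : ∫ s in (0 : ℝ)..S, Real.cos (x * s) = x⁻¹ * Real.sin (x * S) := by
      rw [intervalIntegral.integral_comp_mul_left (fun s => Real.cos s) hx0, integral_cos]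
      simp
    rw [h3]
    have h4 : x⁻¹ * Real.sin (x * S) ≤ |x|⁻¹ := by
      calc x⁻¹ * Real.sin (x * S) ≤ |x⁻¹ * Real.sin (x * S)| := le_abs_self _
        _ = |x|⁻¹ * |Real.sin (x * S)| := by rw [abs_mul, abs_inv]
        _ ≤ |x|⁻¹ * 1 := by
            apply mul_le_mul_of_nonneg_left (Real.abs_sin_le_one _) (by positivity)
        _ = |x|⁻¹ := mul_one _
    have h5 : |x|⁻¹ ≤ S / 2 := by
      rw [inv_le_comm₀ (abs_pos.2 hx0) (by positivity), inv_div, div_le_iff₀ hS]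
      linarith
    simp only [smul_eq_mul]
    linarith
  · exact (hcont.integrableOn_Icc)
  · exact ae_of_all _ fun s => by
      have := Real.cos_le_one (x * s)
      simp only [Pi.zero_apply]
      linarith

/-- the tail of the Fourier transform is controlled by the modulus of continuity in `L²` -/
lemma tail_le {G R : ℝ} {h : ℝ → ℂ} (hh : Bs G R h) {S : ℝ} (hS : 0 < S) (D : ℝ≥0∞)
    (hD : ∀ s ∈ Set.Icc 0 S, ∫⁻ v, ‖h (v + s) - h v‖ₑ ^ 2 ≤ D) :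
    ∫⁻ ξ in {ξ : ℝ | 1 / S ≤ |ξ|}, ‖𝓕 h ξ‖ₑ ^ 2 ≤ D := by
  have hfm := four_measurable hh
  have h1 : ∀ s ∈ Set.Icc 0 S,
      ∫⁻ ξ : ℝ, ‖𝓕 h ξ‖ₑ ^ 2 * ‖er (2 * Real.pi * ξ * s) - 1‖ₑ ^ 2 ≤ D := by
    intro s hs
    have h2 := planch_sum h hh.int (hh.memLp 2) (Finset.range 2) (fun m => if m = 0 then -1 else 1)
      (fun m => if m = 0 then 0 else s)
    simp only [Finset.sum_range_succ, Finset.sum_range_zero, zero_add, if_true, one_ne_zero,
      if_false, add_zero, mul_zero, er_zero, neg_mul, one_mul, mul_one] at h2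
    have e1 : ∀ a, -h a + h (a + s) = h (a + s) - h a := fun a => by ring
    have e2 : ∀ ξ : ℝ, -1 + er (2 * Real.pi * ξ * s) = er (2 * Real.pi * ξ * s) - 1 :=
      fun ξ => by ring
    simp only [e1, e2] at h2
    rw [← h2]
    exact hD s hs
  have h3 : ∫⁻ s in Set.Icc 0 S, ∫⁻ ξ : ℝ, ‖𝓕 h ξ‖ₑ ^ 2 * ‖er (2 * Real.pi * ξ * s) - 1‖ₑ ^ 2 ≤
      ENNReal.ofReal S * D := by
    calc _ ≤ ∫⁻ _s in Set.Icc 0 S, D := setLIntegral_mono measurable_const h1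
      _ = _ := by rw [setLIntegral_const, Real.volume_Icc, sub_zero, mul_comm]
  have hm : Measurable (Function.uncurry fun s ξ : ℝ =>
      ‖𝓕 h ξ‖ₑ ^ 2 * ‖er (2 * Real.pi * ξ * s) - 1‖ₑ ^ 2) := by
    exact ((hfm.comp measurable_snd).enorm.pow_const 2).mul
      (((er_measurable.comp (by fun_prop)).sub measurable_const).enorm.pow_const 2)
  rw [lintegral_lintegral_swap hm.aemeasurable] at h3
  have h4 : ∫⁻ ξ in {ξ : ℝ | 1 / S ≤ |ξ|}, ‖𝓕 h ξ‖ₑ ^ 2 * ENNReal.ofReal S ≤ ENNReal.ofReal S * D := by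
    refine le_trans ?_ h3
    refine le_trans ?_ (setLIntegral_le_lintegral {ξ : ℝ | 1 / S ≤ |ξ|} _)
    refine setLIntegral_mono' (measurableSet_le measurable_const (by fun_prop)) fun ξ hξ => ?_
    rw [lintegral_const_mul]
    · apply mul_le_mul_right
      have h5 : (1 : ℝ) / S ≤ |ξ| := hξ
      rw [div_le_iff₀ hS] at h5
      apply avg_ge hS
      rw [abs_mul, abs_of_pos (by positivity : (0 : ℝ) < 2 * Real.pi)]
      nlinarith [Real.pi_gt_three]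
    · exact (((er_measurable.comp (by fun_prop)).sub measurable_const).enorm.pow_const 2)
  rw [lintegral_mul_const _ (hfm.enorm.pow_const 2), mul_comm] at h4
  have hS0 : ENNReal.ofReal S ≠ 0 := by simpa using hS
  exact (ENNReal.mul_le_mul_iff_right hS0 ENNReal.ofReal_ne_top).1 h4

/-- **One more factor.** -/
lemma step_eq {Ω : Type*} [MeasurableSpace Ω] (μ : Measure Ω) [SFinite μ] {G R : ℝ} {h : ℝ → ℂ}
    (hh : Bs G R h) (s : Finset ℕ) (u : ℕ → Ω → ℂ) (hu : ∀ m, Measurable (u m)) (l : ℕ → ℝ)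
    (c τ : ℝ) :
    ∫⁻ ω, ∫⁻ a : ℝ, ‖∑ m ∈ s, u m ω * er (τ * l m) * h (a + c * l m)‖ₑ ^ 2 ∂volume ∂μ =
      ∫⁻ ξ : ℝ, ‖𝓕 h ξ‖ₑ ^ 2 * ∫⁻ ω, ‖∑ m ∈ s, u m ω * er ((τ + 2 * Real.pi * c * ξ) * l m)‖ₑ ^ 2 ∂μ := by
  have h1 : ∀ ω, ∫⁻ a : ℝ, ‖∑ m ∈ s, u m ω * er (τ * l m) * h (a + c * l m)‖ₑ ^ 2 =
      ∫⁻ ξ : ℝ, ‖𝓕 h ξ‖ₑ ^ 2 * ‖∑ m ∈ s, u m ω * er ((τ + 2 * Real.pi * c * ξ) * l m)‖ₑ ^ 2 := by
    intro ω
    rw [planch_sum h hh.int (hh.memLp 2) s (fun m => u m ω * er (τ * l m)) (fun m => c * l m)]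
    refine lintegral_congr fun ξ => ?_
    congr 3
    refine Finset.sum_congr rfl fun m _ => ?_
    rw [mul_assoc, ← er_add]
    congr 2
    ring
  simp only [h1]
  have hfm := four_measurable hh
  have hsum : Measurable (Function.uncurry fun (ω : Ω) (ξ : ℝ) =>
      ∑ m ∈ s, u m ω * er ((τ + 2 * Real.pi * c * ξ) * l m)) := by
    refine Finset.measurable_fun_sum s fun m _ => ?_
    exact ((hu m).comp measurable_fst).mul (er_measurable.comp (by fun_prop))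
  rw [lintegral_lintegral_swap]
  · refine lintegral_congr fun ξ => ?_
    rw [lintegral_const_mul]
    exact (Finset.measurable_fun_sum s fun m _ => (hu m).mul_const _).enorm.pow_const 2
  · exact (((hfm.comp measurable_snd).enorm.pow_const 2).mul (hsum.enorm.pow_const 2)).aemeasurable

/-- **One more factor**, the estimate. -/
lemma step_le {Ω : Type*} [MeasurableSpace Ω] (μ : Measure Ω) [SFinite μ] {G R : ℝ} {h : ℝ → ℂ}
    (hh : Bs G R h) (s : Finset ℕ) (u : ℕ → Ω → ℂ) (hu : ∀ m, Measurable (u m)) (l : ℕ → ℝ)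
    (c : ℝ) (hc : 0 < c) (q1 q2 μ0 μ1 : ℝ≥0∞) (T0 H H1 Ξ : ℝ)
    (hq2 : ∀ τ : ℝ, ∫⁻ ω, ‖∑ m ∈ s, u m ω * er (τ * l m)‖ₑ ^ 2 ∂μ ≤ q2)
    (hq1 : ∀ τ : ℝ, T0 ≤ |τ| → |τ| ≤ H1 → ∫⁻ ω, ‖∑ m ∈ s, u m ω * er (τ * l m)‖ₑ ^ 2 ∂μ ≤ q1)
    (hμ0 : ∀ η : ℝ, ∫⁻ ξ in {ξ : ℝ | |ξ - η| < T0 / (2 * Real.pi * c)}, ‖𝓕 h ξ‖ₑ ^ 2 ≤ μ0)
    (hμ1 : ∫⁻ ξ in {ξ : ℝ | Ξ ≤ |ξ|}, ‖𝓕 h ξ‖ₑ ^ 2 ≤ μ1)
    (hH : H + 2 * Real.pi * c * Ξ ≤ H1) (τ : ℝ) (hτ : |τ| ≤ H) :
    ∫⁻ ω, ∫⁻ a : ℝ, ‖∑ m ∈ s, u m ω * er (τ * l m) * h (a + c * l m)‖ₑ ^ 2 ∂volume ∂μ ≤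
      q1 * ENNReal.ofReal (G ^ 2 * (2 * R)) + q2 * (μ0 + μ1) := by
  rw [step_eq μ hh s u hu l c τ]
  have hfm := four_measurable hh
  have hp : (0 : ℝ) < 2 * Real.pi * c := by positivity
  set A : Set ℝ := {ξ : ℝ | |ξ - (-τ / (2 * Real.pi * c))| < T0 / (2 * Real.pi * c)} with hA
  set B : Set ℝ := {ξ : ℝ | Ξ ≤ |ξ|} with hB
  have hAm : MeasurableSet A := measurableSet_lt (by fun_prop) measurable_const
  have hBm : MeasurableSet B := measurableSet_le measurable_const (by fun_prop)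
  have h1 : ∀ ξ : ℝ, ‖𝓕 h ξ‖ₑ ^ 2 *
      ∫⁻ ω, ‖∑ m ∈ s, u m ω * er ((τ + 2 * Real.pi * c * ξ) * l m)‖ₑ ^ 2 ∂μ ≤
      q1 * ‖𝓕 h ξ‖ₑ ^ 2 + (q2 * A.indicator (fun ξ => ‖𝓕 h ξ‖ₑ ^ 2) ξ +
        q2 * B.indicator (fun ξ => ‖𝓕 h ξ‖ₑ ^ 2) ξ) := by
    intro ξ
    by_cases hξA : ξ ∈ A
    · rw [Set.indicator_of_mem hξA, mul_comm q2 (‖𝓕 h ξ‖ₑ ^ 2)]
      calc _ ≤ ‖𝓕 h ξ‖ₑ ^ 2 * q2 := mul_le_mul_right (hq2 _) _
        _ ≤ ‖𝓕 h ξ‖ₑ ^ 2 * q2 + q2 * B.indicator (fun ξ => ‖𝓕 h ξ‖ₑ ^ 2) ξ := le_self_add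
        _ ≤ _ := le_add_self
    · by_cases hξB : ξ ∈ B
      · rw [Set.indicator_of_mem hξB, mul_comm q2 (‖𝓕 h ξ‖ₑ ^ 2)]
        calc _ ≤ ‖𝓕 h ξ‖ₑ ^ 2 * q2 := mul_le_mul_right (hq2 _) _
          _ ≤ _ := by
            rw [← add_assoc]
            exact le_add_self
      · rw [mul_comm q1]
        refine le_trans (mul_le_mul_right (hq1 _ ?_ ?_) _) le_self_add
        · have h2 : T0 / (2 * Real.pi * c) ≤ |ξ - (-τ / (2 * Real.pi * c))| := not_lt.1 hξA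
          have h3 : τ + 2 * Real.pi * c * ξ = (2 * Real.pi * c) * (ξ - (-τ / (2 * Real.pi * c))) := by
            field_simp
            ring
          rw [h3, abs_mul, abs_of_pos hp]
          rw [div_le_iff₀ hp] at h2
          linarith
        · have h2 : |ξ| < Ξ := not_le.1 hξB
          calc |τ + 2 * Real.pi * c * ξ| ≤ |τ| + |2 * Real.pi * c * ξ| := abs_add_le _ _
            _ = |τ| + 2 * Real.pi * c * |ξ| := by rw [abs_mul (2 * Real.pi * c), abs_of_pos hp]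
            _ ≤ H1 := by nlinarith
  refine (lintegral_mono h1).trans ?_
  have hm2 : Measurable fun ξ => ‖𝓕 h ξ‖ₑ ^ 2 := hfm.enorm.pow_const 2
  rw [lintegral_add_left (hm2.const_mul _), lintegral_add_left ((hm2.indicator hAm).const_mul _),
    lintegral_const_mul _ hm2, lintegral_const_mul _ (hm2.indicator hAm),
    lintegral_const_mul _ (hm2.indicator hBm), lintegral_indicator hAm, lintegral_indicator hBm,
    mul_add, planch h hh.int (hh.memLp 2)]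
  gcongr
  · exact hh.l2
  · exact hμ0 _

end Pool.Agent.V7H21.MP
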