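import Pool.Agent.V7H21.MP.Cnt2
import Pool.Agent.TH977.PW.Inst

/-!
# Final forms
-/

set_option autoImplicit false

namespace Pool.Agent.V7H21.MP

open MeasureTheory Filter
open scoped Topology

/-- `log n` if `n` is prime and `0` otherwise -/
noncomputable def theta (n : ℕ) : ℝ := if n.Prime then Real.log n else 0

/-- `⌊α m ^ c⌋ + b`, and `0` if this is negative -/
noncomputable def value (α c : ℝ) (b : ℤ) (m : ℕ) : ℕ := ((⌊α * (m : ℝ) ^ c⌋₊ : ℤ) + b).toNat

open Classical in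
/-- the number of the elements `m` of `S` with `1 ≤ m ≤ x` -/
noncomputable def count (S : Set ℕ) (x : ℕ) : ℕ := ((Finset.Icc 1 x).filter fun m => m ∈ S).card

/-- all weights -/
theorem weights (u : ℕ → ℝ) (B : ℕ) (hu : ∀ m, |u m| ≤ (1 + Real.log m) ^ B) {s : ℕ} (c : Fin s → ℝ)
    (hc : ∀ i, 0 < c i) :
    ∀ᵐ α : Fin s → ℝ, (∀ i, 0 < α i) → ∀ (b : Fin s → ℤ) (K : ℕ), ∃ C : ℝ, ∀ᶠ x : ℕ in atTop,
    |∑ m ∈ Finset.Icc 1 x, u m * ∏ i, theta (value (α i) (c i) (b i) m) - ∑ m ∈ Finset.Icc 1 x, u m| ≤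
      C * (x / (Real.log x) ^ K) := main_ae2 u B hu c hc

lemma count_eq' (S : Set ℕ) (p : ℕ → Prop) [DecidablePred p] (h : ∀ m, m ∈ S ↔ p m) (x : ℕ) :
    count S x = ((Finset.Icc 1 x).filter p).card := by
  unfold count
  congr 1
  ext m
  simp only [Finset.mem_filter, h m]

/-- all sets -/
theorem sets (M : Set ℕ) (B : ℕ) (hM : ∀ᶠ x : ℕ in atTop, x / (Real.log x) ^ B ≤ (count M x : ℝ))
    {s : ℕ} (c : Fin s → ℝ) (hc : ∀ i, 0 < c i) :
    ∀ᵐ α : Fin s → ℝ, (∀ i, 0 < α i) → ∀ b : Fin s → ℤ,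
    Tendsto (fun x : ℕ => (count {m | m ∈ M ∧ ∀ i, (value (α i) (c i) (b i) m).Prime} x : ℝ) *
      (Real.log x) ^ s / count M x) atTop (𝓝 (1 / ∏ i, c i)) := by
  classical
  have e1 : ∀ x, count M x = ((Finset.Icc 1 x).filter fun m => m ∈ M).card := fun x =>
    count_eq' M (fun m => m ∈ M) (fun _ => Iff.rfl) x
  have h1 := cnt_ae (fun m => m ∈ M) B (by
    filter_upwards [hM] with x hx
    rw [e1] at hx
    exact hx) c hc
  filter_upwards [h1] with α h2 hα b
  have h3 := h2 hα b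
  refine h3.congr fun x => ?_
  rw [e1 x, count_eq' {m | m ∈ M ∧ ∀ i, (value (α i) (c i) (b i) m).Prime}
    (fun m => m ∈ M ∧ ∀ i, (vl (α i) (c i) (b i) m).Prime) (fun _ => Iff.rfl) x]

lemma count_mono (S : Set ℕ) {x y : ℕ} (h : x ≤ y) : count S x ≤ count S y := by
  classical
  rw [count_eq' S (fun m => m ∈ S) (fun _ => Iff.rfl), count_eq' S (fun m => m ∈ S) (fun _ => Iff.rfl)]
  apply Finset.card_le_card
  apply Finset.filter_subset_filter
  exact Finset.Icc_subset_Icc_right h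

lemma N_le_count (S : Set ℕ) (a b : ℕ) : Pool.Agent.TH977.PW.N S a b ≤ count S b := by
  unfold Pool.Agent.TH977.PW.N count
  apply Finset.card_le_card
  intro m hm
  simp only [Finset.mem_filter, Finset.mem_Ioc, Finset.mem_Icc] at hm ⊢
  exact ⟨⟨by omega, hm.1.2⟩, hm.2⟩

/-- a lower bound in dyadic intervals gives a lower bound for the counting function -/
lemma dyadic (S : Set ℕ) {κ : ℝ} (hκ : 0 < κ)
    (h : ∀ᶠ X : ℕ in atTop, κ * X / Real.log X ^ 2 ≤ Pool.Agent.TH977.PW.N S X (2 * X)) :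
    ∀ᶠ x : ℕ in atTop, κ / 4 * x / Real.log x ^ 2 ≤ count S x := by
  have hdiv : Tendsto (fun x : ℕ => x / 2) atTop atTop := by
    refine tendsto_atTop.2 fun b => ?_
    filter_upwards [eventually_ge_atTop (2 * b)] with x hx
    omega
  filter_upwards [hdiv.eventually h, eventually_ge_atTop 4] with x h1 h2
  have h3 : (Pool.Agent.TH977.PW.N S (x / 2) (2 * (x / 2)) : ℝ) ≤ count S x := by
    exact_mod_cast (N_le_count S _ _).trans (count_mono S (by omega))
  refine le_trans ?_ (h1.trans h3)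
  have h4 : (x : ℝ) / 4 ≤ (x / 2 : ℕ) := by
    have : x ≤ 4 * (x / 2) := by omega
    have : (x : ℝ) ≤ 4 * (x / 2 : ℕ) := by exact_mod_cast this
    linarith
  have h5 : (2 : ℝ) ≤ (x / 2 : ℕ) := by exact_mod_cast (by omega : 2 ≤ x / 2)
  have h6 : 0 < Real.log ((x / 2 : ℕ) : ℝ) := Real.log_pos (by linarith)
  have h7 : Real.log ((x / 2 : ℕ) : ℝ) ≤ Real.log x :=
    Real.log_le_log (by linarith) (by exact_mod_cast (by omega : x / 2 ≤ x))
  calc κ / 4 * x / Real.log x ^ 2 = κ * (x / 4) / Real.log x ^ 2 := by ring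
    _ ≤ κ * (x / 2 : ℕ) / Real.log ((x / 2 : ℕ) : ℝ) ^ 2 := by gcongr

/-- such a set has at least `x / (log x) ^ 3` elements up to `x` -/
lemma dense3 (S : Set ℕ) {κ : ℝ} (hκ : 0 < κ)
    (h : ∀ᶠ x : ℕ in atTop, κ * x / Real.log x ^ 2 ≤ count S x) :
    ∀ᶠ x : ℕ in atTop, x / (Real.log x) ^ 3 ≤ (count S x : ℝ) := by
  filter_upwards [h, ev_log (1 / κ), ev_log 1] with x h1 h2 h3
  refine le_trans ?_ h1
  have hl : 0 < Real.log x := by linarith
  rw [div_le_iff₀ hκ] at h2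
  rw [div_le_div_iff₀ (by positivity) (by positivity)]
  calc (x : ℝ) * Real.log x ^ 2 = 1 * (x * Real.log x ^ 2) := by ring
    _ ≤ (Real.log x * κ) * (x * Real.log x ^ 2) := by gcongr
    _ = _ := by ring

lemma theta_nonneg (n : ℕ) : 0 ≤ theta n := th_nonneg n

lemma theta_le (n : ℕ) : theta n ≤ Real.log n := th_le_log n

/-- values of a quadratic polynomial -/
lemma theta_quad {m n : ℕ} (h : n ≤ 16 * m ^ 2) (hm : 2 ≤ m) : theta n ≤ (1 + Real.log m) ^ 3 := by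
  have hm0 : (2 : ℝ) ≤ m := by exact_mod_cast hm
  have hl2 := Real.log_two_lt_d9
  have hg2 := Real.log_two_gt_d9
  have hlm : Real.log 2 ≤ Real.log m := Real.log_le_log (by norm_num) hm0
  have h1 : Real.log n ≤ 4 * Real.log 2 + 2 * Real.log m := by
    rcases Nat.eq_zero_or_pos n with h0 | h0
    · rw [h0, Nat.cast_zero, Real.log_zero]
      linarith
    · have h2 : (n : ℝ) ≤ 16 * (m : ℝ) ^ 2 := by exact_mod_cast h
      have h3 := Real.log_le_log (by exact_mod_cast h0) h2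
      rw [Real.log_mul (by norm_num) (by positivity), Real.log_pow,
        show (16 : ℝ) = 2 ^ 4 by norm_num, Real.log_pow] at h3
      push_cast at h3
      exact h3
  have h3 := theta_le n
  set l := Real.log m with hl
  have h4 : 0.69 ≤ l := by linarith
  have h5 : 4 * Real.log 2 ≤ 2.78 := by linarith
  have h6 : (0.69 : ℝ) ^ 2 ≤ l ^ 2 := by gcongr
  have h7 : (0.69 : ℝ) ^ 3 ≤ l ^ 3 := by gcongr
  have h8 : (1 + l) ^ 3 = 1 + 3 * l + 3 * l ^ 2 + l ^ 3 := by ring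
  rw [h8]
  norm_num at h6 h7
  linarith

end Pool.Agent.V7H21.MP
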