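import Pool.Agent.V7H21.MP.Win

/-!
# The Fourier transform of the step function of the primes is small
-/

set_option autoImplicit false

namespace Pool.Agent.V7H21.MP

open MeasureTheory Complex Filter FourierTransform
open scoped Topology ENNReal

lemma abel_eq (a φ : ℕ → ℂ) {P Q : ℕ} (h : P ≤ Q) :
    ∑ n ∈ Finset.Ico P Q, a n * φ n = (∑ n ∈ Finset.Ico P Q, a n) * φ Q -
      ∑ n ∈ Finset.Ico P Q, (∑ k ∈ Finset.Ico P (n + 1), a k) * (φ (n + 1) - φ n) := by
  induction Q, h using Nat.le_induction with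
  | base => simp
  | succ Q h ih =>
    rw [Finset.sum_Ico_succ_top h, Finset.sum_Ico_succ_top h, Finset.sum_Ico_succ_top h,
      Finset.sum_Ico_succ_top h, ih]
    ring

lemma abel (a φ : ℕ → ℂ) {P Q : ℕ} (h : P ≤ Q) {M : ℝ}
    (hM : ∀ q, P ≤ q → q ≤ Q → ‖∑ n ∈ Finset.Ico P q, a n‖ ≤ M) :
    ‖∑ n ∈ Finset.Ico P Q, a n * φ n‖ ≤
      M * (‖φ Q‖ + ∑ n ∈ Finset.Ico P Q, ‖φ (n + 1) - φ n‖) := by
  rw [abel_eq a φ h]
  refine (norm_sub_le _ _).trans ?_
  rw [mul_add, Finset.mul_sum]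
  apply add_le_add
  · rw [norm_mul]
    exact mul_le_mul_of_nonneg_right (hM Q h le_rfl) (norm_nonneg _)
  · refine norm_sum_le_of_le _ fun n hn => ?_
    rw [Finset.mem_Ico] at hn
    rw [norm_mul]
    exact mul_le_mul_of_nonneg_right (hM (n + 1) (by omega) (by omega)) (norm_nonneg _)

lemma shift_sum (f : ℕ → ℂ) (b : ℤ) {P q : ℕ} (h : P ≤ q) (hb : 1 ≤ (P : ℤ) + b) :
    ∑ n ∈ Finset.Ico P q, f ((n : ℤ) + b).toNat =
      ∑ k ∈ Finset.Icc 1 ((q : ℤ) + b - 1).toNat, f k - ∑ k ∈ Finset.Icc 1 ((P : ℤ) + b - 1).toNat, f k := by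
  induction q, h using Nat.le_induction with
  | base => simp
  | succ q h ih =>
    rw [Finset.sum_Ico_succ_top h, ih]
    have e1 : (((q + 1 : ℕ) : ℤ) + b - 1).toNat = ((q : ℤ) + b - 1).toNat + 1 := by
      push_cast
      omega
    have e2 : ((q : ℤ) + b).toNat = ((q : ℤ) + b - 1).toNat + 1 := by omega
    rw [e1, e2, Finset.sum_Icc_succ_top (by omega)]
    ring

/-- the weights of the step function -/
noncomputable def gw (b : ℤ) (P Q : ℕ) (n : ℕ) : ℂ :=
  if P ≤ n ∧ n < Q then ((th ((n : ℤ) + b).toNat : ℝ) : ℂ) - 1 else 0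

lemma gw_zero (b : ℤ) (P Q : ℕ) : ∀ n, ¬ (P ≤ n ∧ n < Q) → gw b P Q n = 0 := fun n h => if_neg h

/-- the smooth factor -/
noncomputable def ph (b τ : ℝ) (n : ℕ) : ℂ :=
  er (τ * (Real.log (n + b) - Real.log n)) * J τ (Real.log (n + 1 : ℕ) - Real.log n)

lemma y_le {n : ℕ} (hn : 0 < n) : |Real.log (n + 1 : ℕ) - Real.log n| ≤ 1 / n := by
  have hn0 : (0 : ℝ) < n := by exact_mod_cast hn
  have h1 : (0 : ℝ) < (n + 1 : ℕ) := by positivity
  rw [← Real.log_div h1.ne' hn0.ne', abs_of_nonneg]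
  · refine (Real.log_le_sub_one_of_pos (by positivity)).trans (le_of_eq ?_)
    push_cast
    field_simp
    ring
  · apply Real.log_nonneg
    rw [le_div_iff₀ hn0]
    push_cast
    linarith

lemma y_diff {n : ℕ} (hn : 0 < n) :
    |(Real.log (n + 1 + 1 : ℕ) - Real.log (n + 1 : ℕ)) - (Real.log (n + 1 : ℕ) - Real.log n)| ≤
      1 / (n : ℝ) ^ 2 := by
  have hn0 : (0 : ℝ) < n := by exact_mod_cast hn
  have h1 : (0 : ℝ) < (n : ℝ) + 1 := by positivity
  have h2 : (0 : ℝ) < (n : ℝ) + 2 := by positivity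
  have e : (Real.log (n + 1 + 1 : ℕ) - Real.log (n + 1 : ℕ)) - (Real.log (n + 1 : ℕ) - Real.log n) =
      -Real.log (((n : ℝ) + 1) ^ 2 / (n * (n + 2))) := by
    rw [Real.log_div (by positivity) (by positivity), Real.log_mul (by positivity) (by positivity),
      Real.log_pow]
    push_cast
    rw [show (n : ℝ) + 1 + 1 = n + 2 by ring]
    ring
  rw [e, abs_neg, abs_of_nonneg]
  · refine (Real.log_le_sub_one_of_pos (by positivity)).trans ?_
    have : ((n : ℝ) + 1) ^ 2 / (n * (n + 2)) - 1 = 1 / (n * (n + 2)) := by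
      field_simp
      ring
    rw [this]
    apply one_div_le_one_div_of_le (by positivity)
    nlinarith
  · apply Real.log_nonneg
    rw [le_div_iff₀ (by positivity)]
    nlinarith

lemma z_diff {n : ℕ} {b : ℝ} (hn : 0 < n) (hb : 2 * |b| ≤ n) :
    |(Real.log ((n + 1 : ℕ) + b) - Real.log (n + 1 : ℕ)) - (Real.log (n + b) - Real.log n)| ≤
      2 * |b| / (n : ℝ) ^ 2 := by
  have hn0 : (0 : ℝ) < n := by exact_mod_cast hn
  have hb1 := neg_abs_le b
  have hb2 := le_abs_self b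
  set x : ℝ := n + b with hx
  have hxn : (n : ℝ) / 2 ≤ x := by
    rw [hx]
    linarith
  have hx0 : 0 < x := lt_of_lt_of_le (by positivity) hxn
  have e0 : ((n + 1 : ℕ) : ℝ) + b = x + 1 := by
    push_cast
    rw [hx]
    ring
  rw [e0]
  push_cast
  have key : |b| / (x * n) ≤ 2 * |b| / (n : ℝ) ^ 2 := by
    rw [div_le_div_iff₀ (by positivity) (by positivity)]
    have : (n : ℝ) ^ 2 ≤ 2 * (x * n) := by nlinarith
    nlinarith [abs_nonneg b]
  refine le_trans ?_ key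
  rw [abs_le]
  have hn1 : (0 : ℝ) < n + 1 := by positivity
  have hx1 : 0 < x + 1 := by positivity
  constructor
  · have e : -((Real.log (x + 1) - Real.log (n + 1)) - (Real.log x - Real.log n)) =
        Real.log (x * (n + 1) / ((x + 1) * n)) := by
      rw [Real.log_div (by positivity) (by positivity), Real.log_mul hx0.ne' hn1.ne',
        Real.log_mul hx1.ne' hn0.ne']
      ring
    have h1 := Real.log_le_sub_one_of_pos (x := x * (n + 1) / ((x + 1) * n)) (by positivity)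
    have h2 : x * (n + 1) / ((x + 1) * n) - 1 = b / ((x + 1) * n) := by
      field_simp
      rw [hx]
      ring
    have h3 : b / ((x + 1) * n) ≤ |b| / (x * n) := by
      calc b / ((x + 1) * n) ≤ |b| / ((x + 1) * n) := by gcongr
        _ ≤ |b| / (x * n) := by
          gcongr
          linarith
    linarith
  · have e : (Real.log (x + 1) - Real.log (n + 1)) - (Real.log x - Real.log n) =
        Real.log ((x + 1) * n / (x * (n + 1))) := by
      rw [Real.log_div (by positivity) (by positivity), Real.log_mul hx0.ne' hn1.ne',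
        Real.log_mul hx1.ne' hn0.ne']
      ring
    have h1 := Real.log_le_sub_one_of_pos (x := (x + 1) * n / (x * (n + 1))) (by positivity)
    have h2 : (x + 1) * n / (x * (n + 1)) - 1 = -b / (x * (n + 1)) := by
      field_simp
      rw [hx]
      ring
    have h3 : -b / (x * (n + 1)) ≤ |b| / (x * n) := by
      calc -b / (x * (n + 1)) ≤ |b| / (x * (n + 1)) := by
            gcongr
            linarith
        _ ≤ |b| / (x * n) := by
          gcongr
          linarith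
    linarith

lemma ph_norm (b τ : ℝ) {n : ℕ} (hn : 0 < n) : ‖ph b τ n‖ ≤ 1 / n := by
  unfold ph
  rw [norm_mul, er_norm, one_mul]
  exact (J_norm τ).trans (y_le hn)

lemma ph_diff (b τ : ℝ) {n : ℕ} (hn : 0 < n) (hb : 2 * |b| ≤ n) :
    ‖ph b τ (n + 1) - ph b τ n‖ ≤ (1 + 2 * |τ| * |b| / n) / (n : ℝ) ^ 2 := by
  have hn0 : (0 : ℝ) < n := by exact_mod_cast hn
  unfold ph
  set u := er (τ * (Real.log (n + b) - Real.log n)) with hu
  set u' := er (τ * (Real.log ((n + 1 : ℕ) + b) - Real.log (n + 1 : ℕ))) with hu'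
  set j := J τ (Real.log (n + 1 : ℕ) - Real.log n) with hj
  set j' := J τ (Real.log (n + 1 + 1 : ℕ) - Real.log (n + 1 : ℕ)) with hj'
  have h1 : u' * j' - u * j = u' * (j' - j) + (u' - u) * j := by ring
  rw [h1]
  refine (norm_add_le _ _).trans ?_
  rw [norm_mul, norm_mul, hu', er_norm, one_mul]
  have a1 : ‖j' - j‖ ≤ 1 / (n : ℝ) ^ 2 := (J_sub _ _ _).trans (y_diff hn)
  have a2 : ‖j‖ ≤ 1 / n := (J_norm τ).trans (y_le hn)
  have a3 : ‖er (τ * (Real.log ((n + 1 : ℕ) + b) - Real.log (n + 1 : ℕ))) - u‖ ≤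
      |τ| * (2 * |b| / (n : ℝ) ^ 2) := by
    rw [hu]
    refine (er_lip _ _).trans ?_
    rw [← mul_sub, abs_mul]
    exact mul_le_mul_of_nonneg_left (z_diff hn hb) (abs_nonneg _)
  calc _ ≤ 1 / (n : ℝ) ^ 2 + |τ| * (2 * |b| / (n : ℝ) ^ 2) * (1 / n) := by gcongr
    _ = _ := by
      field_simp

lemma sup0 (b : ℤ) (A K : ℕ) : ∃ C : ℝ, 0 ≤ C ∧ ∀ P Q : ℕ, 2 * b.natAbs + 4 ≤ P → P ≤ Q →
    √((2 * Q : ℕ) : ℝ) ≤ (P : ℝ) / 4 → ∀ ξ : ℝ, |2 * Real.pi * ξ| ≤ ((2 * Q : ℕ) : ℝ) ^ A →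
    ‖𝓕 (st (gw b P Q)) ξ‖ ≤
      C * Q / (Real.log (2 * Q : ℕ)) ^ K * ((3 + 4 * |2 * Real.pi * ξ| * |(b : ℝ)| / P) / P) := by
  obtain ⟨C, hC, h⟩ := th_vk.ext A K
  refine ⟨4 * C, by positivity, fun P Q hP hPQ hsq ξ hξ => ?_⟩
  set τ : ℝ := 2 * Real.pi * ξ with hτ
  have hPpos : (0 : ℝ) < P := by exact_mod_cast (by omega : 0 < P)
  have hQpos : (0 : ℝ) < Q := by exact_mod_cast (by omega : 0 < Q)
  rw [st_four (by omega) (gw_zero b P Q)]
  have hbabs : |(b : ℝ)| = (b.natAbs : ℝ) := by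
    rw [Nat.cast_natAbs, Int.cast_abs]
  have e1 : ∀ n ∈ Finset.Ico P Q, gw b P Q n * (er (-(2 * Real.pi * ξ * Real.log n)) *
      J (2 * Real.pi * ξ) (Real.log (n + 1 : ℕ) - Real.log n)) =
      (fun k : ℕ => (((th k : ℝ) : ℂ) - 1) * er (-τ * Real.log k)) ((n : ℤ) + b).toNat * ph b τ n := by
    intro n hn
    rw [Finset.mem_Ico] at hn
    have hg : gw b P Q n = ((th ((n : ℤ) + b).toNat : ℝ) : ℂ) - 1 := if_pos hn
    have hk : ((((n : ℤ) + b).toNat : ℕ) : ℝ) = (n : ℝ) + b := by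
      have : ((((n : ℤ) + b).toNat : ℕ) : ℤ) = (n : ℤ) + b := by omega
      exact_mod_cast this
    rw [hg]
    unfold ph
    simp only
    rw [hk, mul_assoc (((th ((n : ℤ) + b).toNat : ℝ) : ℂ) - 1), ← mul_assoc (er _) (er _), ← er_add]
    congr 3
    · congr 1
      ring
  rw [Finset.sum_congr rfl e1]
  have hM : ∀ q, P ≤ q → q ≤ Q → ‖∑ n ∈ Finset.Ico P q,
      (fun k : ℕ => (((th k : ℝ) : ℂ) - 1) * er (-τ * Real.log k)) ((n : ℤ) + b).toNat‖ ≤
      4 * C * Q / (Real.log (2 * Q : ℕ)) ^ K := by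
    intro q hq1 hq2
    rw [shift_sum (fun k : ℕ => (((th k : ℝ) : ℂ) - 1) * er (-τ * Real.log k)) b hq1 (by omega)]
    have hm : ∀ q, P ≤ q → q ≤ Q → ‖∑ k ∈ Finset.Icc 1 ((q : ℤ) + b - 1).toNat,
        (((th k : ℝ) : ℂ) - 1) * er (-τ * Real.log k)‖ ≤ C * (2 * Q : ℕ) / (Real.log (2 * Q : ℕ)) ^ K := by
      intro q hq1 hq2
      apply h (2 * Q) (by omega) _ (by omega) _ (-τ) (by rwa [abs_neg])
      refine hsq.trans ?_
      have h1 : P ≤ 4 * ((q : ℤ) + b - 1).toNat := by omega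
      have h2 : (P : ℝ) ≤ 4 * (((q : ℤ) + b - 1).toNat : ℝ) := by exact_mod_cast h1
      linarith
    refine (norm_sub_le _ _).trans ?_
    have h1 := hm q hq1 hq2
    have h2 := hm P le_rfl hPQ
    refine (add_le_add h1 h2).trans (le_of_eq ?_)
    push_cast
    ring
  refine (abel _ _ hPQ hM).trans ?_
  have hl : 0 ≤ (Real.log (2 * Q : ℕ)) ^ K := pow_nonneg (Real.log_natCast_nonneg _) _
  apply mul_le_mul_of_nonneg_left _ (by positivity)
  have a1 : ‖ph b τ Q‖ ≤ 1 / P := by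
    refine (ph_norm _ _ (by omega)).trans ?_
    apply one_div_le_one_div_of_le hPpos
    exact_mod_cast hPQ
  have a2 : ∑ n ∈ Finset.Ico P Q, ‖ph b τ (n + 1) - ph b τ n‖ ≤
      (1 + 2 * |τ| * |(b : ℝ)| / P) * (2 / P) := by
    calc ∑ n ∈ Finset.Ico P Q, ‖ph b τ (n + 1) - ph b τ n‖ ≤
        ∑ n ∈ Finset.Ico P Q, (1 + 2 * |τ| * |(b : ℝ)| / P) * ((n : ℝ) ^ 2)⁻¹ := by
          refine Finset.sum_le_sum fun n hn => ?_
          rw [Finset.mem_Ico] at hn
          have hnP : (P : ℝ) ≤ n := by exact_mod_cast hn.1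
          have hn0 : (0 : ℝ) < n := by linarith
          have h1 := ph_diff b τ (n := n) (by omega) (by
            rw [hbabs]
            exact_mod_cast (by omega : 2 * b.natAbs ≤ n))
          refine h1.trans ?_
          rw [div_eq_mul_inv]
          gcongr
      _ = (1 + 2 * |τ| * |(b : ℝ)| / P) * ∑ n ∈ Finset.Ico P Q, ((n : ℝ) ^ 2)⁻¹ := by
          rw [Finset.mul_sum]
      _ ≤ _ := by
          apply mul_le_mul_of_nonneg_left _ (by positivity)
          have h1 := sum_Ioo_inv_sq_le (α := ℝ) (P - 1) Q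
          have h2 : Finset.Ioo (P - 1) Q = Finset.Ico P Q := by
            ext n
            simp only [Finset.mem_Ioo, Finset.mem_Ico]
            omega
          rw [h2] at h1
          refine h1.trans (le_of_eq ?_)
          rw [Nat.cast_sub (by omega)]
          push_cast
          congr 1
          ring
  refine (add_le_add a1 a2).trans (le_of_eq ?_)
  field_simp
  ring

end Pool.Agent.V7H21.MP
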