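import Pool.Agent.V7H21.MP.Mom2

/-!
# Sums along a sequence compared with integrals: Plancherel's theorem
-/

set_option autoImplicit false

namespace Pool.Agent.V7H21.MP

open MeasureTheory Complex Filter FourierTransform
open scoped Topology ENNReal

/-- the integral in place of the sum -/
noncomputable def II (h : ℝ → ℂ) (c x y a : ℝ) : ℂ := ∫ v in x..y, (Real.exp v : ℂ) * h (a + c * v)

lemma II_bs {G R : ℝ} {h : ℝ → ℂ} (hh : Bs G R h) {c x y : ℝ} (hc : 0 < c) (hx : 0 ≤ x) (hxy : x ≤ y) :
    Bs (Real.exp y * G * (y - x)) (R + c * y) (II h c x y) where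
  meas := by
    unfold II
    simp only [intervalIntegral.integral_of_le hxy]
    have hm : StronglyMeasurable (Function.uncurry fun a v : ℝ => (Real.exp v : ℂ) * h (a + c * v)) := by
      apply Measurable.stronglyMeasurable
      exact (by fun_prop : Measurable fun p : ℝ × ℝ => (Real.exp p.2 : ℂ)).mul (hh.meas.comp (by fun_prop))
    exact hm.integral_prod_right.measurable
  bd := by
    intro a
    unfold II
    have h1 : ∀ v ∈ Set.uIoc x y, ‖(Real.exp v : ℂ) * h (a + c * v)‖ ≤ Real.exp y * G := by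
      intro v hv
      rw [Set.uIoc_of_le hxy] at hv
      rw [norm_mul, Complex.norm_real, Real.norm_of_nonneg (Real.exp_pos v).le]
      exact mul_le_mul (Real.exp_le_exp.2 hv.2) (hh.bd _) (norm_nonneg _) (Real.exp_pos _).le
    have h2 := intervalIntegral.norm_integral_le_of_norm_le_const h1
    rwa [abs_of_nonneg (by linarith)] at h2
  supp := by
    intro a ha
    unfold II
    have h1 : ∀ v ∈ Set.uIoc x y, ‖(Real.exp v : ℂ) * h (a + c * v)‖ ≤ 0 := by
      intro v hv
      rw [Set.uIoc_of_le hxy] at hv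
      rw [hh.supp (a + c * v), mul_zero, norm_zero]
      have h3 : |a| ≤ |a + c * v| + |c * v| := by
        calc |a| = |(a + c * v) - c * v| := by ring_nf
          _ ≤ _ := abs_sub _ _
      have h4 : |c * v| ≤ c * y := by
        rw [abs_of_nonneg (by nlinarith [hv.1])]
        exact mul_le_mul_of_nonneg_left hv.2 hc.le
      linarith
    have h2 := intervalIntegral.norm_integral_le_of_norm_le_const h1
    rw [zero_mul] at h2
    exact norm_le_zero_iff.1 h2

lemma shift_four {G R : ℝ} {h : ℝ → ℂ} (_hh : Bs G R h) (ξ x : ℝ) :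
    ∫ v : ℝ, h (v + x) * er (-(2 * Real.pi * ξ * v)) = 𝓕 h ξ * er (2 * Real.pi * ξ * x) := by
  rw [four_eq, ← integral_add_right_eq_self (fun v => h v * er (-(2 * Real.pi * ξ * v))) x,
    ← integral_mul_const]
  refine integral_congr_ae (Filter.Eventually.of_forall fun v => ?_)
  simp only
  rw [mul_assoc (h (v + x)) (er _) (er _), ← er_add]
  congr 2
  ring

lemma II_four {G R : ℝ} {h : ℝ → ℂ} (hh : Bs G R h) {c x y : ℝ} (hc : 0 < c) (hx : 0 ≤ x) (hxy : x ≤ y)
    (ξ : ℝ) : ∫ a : ℝ, II h c x y a * er (-(2 * Real.pi * ξ * a)) =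
      𝓕 h ξ * ∫ v in x..y, (Real.exp v : ℂ) * er (2 * Real.pi * c * ξ * v) := by
  have hG0 := hh.G0
  unfold II
  simp only [intervalIntegral.integral_of_le hxy]
  have e1 : ∀ a : ℝ, (∫ v in Set.Ioc x y, (Real.exp v : ℂ) * h (a + c * v)) * er (-(2 * Real.pi * ξ * a)) =
      ∫ v in Set.Ioc x y, (Real.exp v : ℂ) * (h (a + c * v) * er (-(2 * Real.pi * ξ * a))) := by
    intro a
    rw [← integral_mul_const]
    refine integral_congr_ae (Eventually.of_forall fun v => ?_)
    simp only
    ring
  simp only [e1]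
  have hm : Measurable (Function.uncurry fun a v : ℝ =>
      (Real.exp v : ℂ) * (h (a + c * v) * er (-(2 * Real.pi * ξ * a)))) := by
    exact (by fun_prop : Measurable fun p : ℝ × ℝ => (Real.exp p.2 : ℂ)).mul
      ((hh.meas.comp (by fun_prop)).mul (er_measurable.comp (by fun_prop)))
  have hint : Integrable (Function.uncurry fun a v : ℝ =>
      (Real.exp v : ℂ) * (h (a + c * v) * er (-(2 * Real.pi * ξ * a))))
      ((volume : Measure ℝ).prod (volume.restrict (Set.Ioc x y))) := by
    have hfin : IsFiniteMeasure ((volume : Measure ℝ).restrict (Set.Ioc x y)) := ⟨by simp⟩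
    have hb : Integrable (fun a : ℝ => (Set.Icc (-(R + c * y)) (R + c * y)).indicator
        (fun _ => Real.exp y * G) a) := by
      rw [integrable_indicator_iff measurableSet_Icc]
      exact integrableOn_const (by simp)
    refine (hb.comp_fst ((volume : Measure ℝ).restrict (Set.Ioc x y))).mono' hm.aestronglyMeasurable ?_
    have e : (volume : Measure ℝ).prod (volume.restrict (Set.Ioc x y)) =
        ((volume : Measure ℝ).prod volume).restrict (Set.univ ×ˢ Set.Ioc x y) := by
      rw [← Measure.prod_restrict, Measure.restrict_univ]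
    rw [e]
    refine ae_restrict_of_forall_mem (MeasurableSet.univ.prod measurableSet_Ioc) fun p hp => ?_
    obtain ⟨-, hv⟩ := hp
    obtain ⟨a, v⟩ := p
    simp only [Function.uncurry] at hv ⊢
    by_cases ha : a ∈ Set.Icc (-(R + c * y)) (R + c * y)
    · rw [Set.indicator_of_mem ha, norm_mul, norm_mul, er_norm, mul_one, Complex.norm_real,
        Real.norm_of_nonneg (Real.exp_pos v).le]
      exact mul_le_mul (Real.exp_le_exp.2 hv.2) (hh.bd _) (norm_nonneg _) (Real.exp_pos _).le
    · rw [Set.indicator_of_notMem ha, hh.supp (a + c * v), zero_mul, mul_zero, norm_zero]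
      have h3 : |a| ≤ |a + c * v| + |c * v| := by
        calc |a| = |(a + c * v) - c * v| := by ring_nf
          _ ≤ _ := abs_sub _ _
      have h4 : |c * v| ≤ c * y := by
        rw [abs_of_nonneg (by nlinarith [hv.1])]
        exact mul_le_mul_of_nonneg_left hv.2 hc.le
      have h5 : R + c * y < |a| := by
        by_contra hcon
        exact ha (abs_le.1 (not_lt.1 hcon))
      linarith
  rw [integral_integral_swap hint, ← integral_const_mul]
  refine integral_congr_ae (Eventually.of_forall fun v => ?_)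
  simp only
  rw [integral_const_mul, shift_four hh]
  have e2 : 2 * Real.pi * ξ * (c * v) = 2 * Real.pi * c * ξ * v := by ring
  rw [e2]
  ring

/-- Plancherel's theorem for the difference of the sum and the integral -/
lemma planch_D {G R : ℝ} {h : ℝ → ℂ} (hh : Bs G R h) {c x y : ℝ} (hc : 0 < c) (hx : 0 ≤ x) (hxy : x ≤ y)
    (s : Finset ℕ) (w : ℕ → ℂ) (l : ℕ → ℝ) :
    ∫⁻ a : ℝ, ‖∑ m ∈ s, w m * h (a + c * l m) - II h c x y a‖ₑ ^ 2 =
      ∫⁻ ξ : ℝ, ‖𝓕 h ξ‖ₑ ^ 2 * ‖∑ m ∈ s, w m * er (2 * Real.pi * c * ξ * l m) -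
        ∫ v in x..y, (Real.exp v : ℂ) * er (2 * Real.pi * c * ξ * v)‖ₑ ^ 2 := by
  have hI := II_bs hh hc hx hxy
  have hint : ∀ a : ℝ, Integrable (fun v => h (v + a)) := fun a => hh.int.comp_add_right a
  have hmem : ∀ a : ℝ, MemLp (fun v => h (v + a)) 2 volume := fun a =>
    (hh.memLp 2).comp_measurePreserving (measurePreserving_add_right volume a)
  have hG1 : Integrable (fun a => ∑ m ∈ s, w m * h (a + c * l m)) :=
    integrable_finsetSum _ fun m _ => (hint _).const_mul _
  have hG2 : MemLp (fun a => ∑ m ∈ s, w m * h (a + c * l m)) 2 volume :=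
    memLp_finsetSum _ fun m _ => (hmem _).const_mul _
  have hF1 : Integrable (fun a => ∑ m ∈ s, w m * h (a + c * l m) - II h c x y a) := hG1.sub hI.int
  have hF2 : MemLp (fun a => ∑ m ∈ s, w m * h (a + c * l m) - II h c x y a) 2 volume :=
    hG2.sub (hI.memLp 2)
  rw [← Pool.Agent.H153R4.plancherel _ hF1 hF2]
  refine lintegral_congr fun ξ => ?_
  rw [← mul_pow, ← enorm_mul]
  congr 2
  have hb : ∀ {f : ℝ → ℂ}, Integrable f → Integrable (fun v => f v * er (-(2 * Real.pi * ξ * v))) := by
    intro f hf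
    refine hf.mul_bdd (c := 1) ?_ ?_
    · exact (er_measurable.comp (by fun_prop)).aestronglyMeasurable
    · exact ae_of_all _ fun v => (er_norm _).le
  rw [four_eq]
  simp only [sub_mul]
  rw [integral_sub (hb hG1) (hb hI.int), II_four hh hc hx hxy, mul_sub]
  congr 1
  simp only [Finset.sum_mul, mul_assoc (w _)]
  rw [integral_finsetSum]
  · rw [Finset.mul_sum]
    refine Finset.sum_congr rfl fun m _ => ?_
    rw [integral_const_mul, shift_four hh]
    have e2 : 2 * Real.pi * ξ * (c * l m) = 2 * Real.pi * c * ξ * l m := by ring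
    rw [e2]
    ring
  · intro m _
    exact (hb (hint _)).const_mul _

end Pool.Agent.V7H21.MP
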