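import Pool.Agent.V7H21.MP.Tr1

/-!
# The kernel: twisted sums minus twisted integrals
-/

set_option autoImplicit false

namespace Pool.Agent.V7H21.MP

open MeasureTheory Complex Filter FourierTransform
open scoped Topology ENNReal

/-- the twisted sum minus the twisted integral -/
noncomputable def Ker (w : ℕ → ℝ) (K1 N : ℕ) (t : ℝ) : ℂ :=
  ∑ m ∈ Finset.Ioc (y0 K1 N) N, (w m : ℂ) * er (t * Real.log m) -
    ∫ v in (Real.log (y0 K1 N))..(Real.log N), (Real.exp v : ℂ) * er (t * v)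

lemma int_exp (t x y : ℝ) : (1 + (t : ℂ) * I) * ∫ v in x..y, (Real.exp v : ℂ) * er (t * v) =
    (Real.exp y : ℂ) * er (t * y) - (Real.exp x : ℂ) * er (t * x) := by
  rw [← intervalIntegral.integral_const_mul]
  have h1 : ∀ v ∈ Set.uIcc x y, HasDerivAt (fun v : ℝ => (Real.exp v : ℂ) * er (t * v))
      ((1 + (t : ℂ) * I) * ((Real.exp v : ℂ) * er (t * v))) v := by
    intro v _
    have h2 : HasDerivAt (fun v : ℝ => (Real.exp v : ℂ)) (Real.exp v : ℂ) v :=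
      (Real.hasDerivAt_exp v).ofReal_comp
    have h3 : HasDerivAt (fun v : ℝ => ((t * v : ℝ) : ℂ) * I) (((t * 1 : ℝ) : ℂ) * I) v :=
      (((hasDerivAt_id v).const_mul t).ofReal_comp).mul_const I
    have h4 : HasDerivAt (fun v : ℝ => er (t * v)) (er (t * v) * (((t * 1 : ℝ) : ℂ) * I)) v := h3.cexp
    refine (h2.mul h4).congr_deriv ?_
    push_cast
    ring
  have hcont : Continuous fun v : ℝ => (1 + (t : ℂ) * I) * ((Real.exp v : ℂ) * er (t * v)) := by
    refine continuous_const.mul ((by fun_prop : Continuous fun v : ℝ => (Real.exp v : ℂ)).mul ?_)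
    exact er_continuous.comp (by fun_prop)
  exact intervalIntegral.integral_eq_sub_of_hasDerivAt h1 (hcont.intervalIntegrable _ _)

lemma z_ge (t : ℝ) : 1 ≤ ‖1 + (t : ℂ) * I‖ ∧ |t| ≤ ‖1 + (t : ℂ) * I‖ := by
  constructor
  · have := Complex.abs_re_le_norm (1 + (t : ℂ) * I)
    simpa using this
  · have := Complex.abs_im_le_norm (1 + (t : ℂ) * I)
    simpa using this

/-- a short range of twists -/
lemma one_part (t : ℝ) {M : ℕ} (hM : 1 ≤ M) :
    ‖(1 + (t : ℂ) * I) * ∑ n ∈ Finset.Icc 1 M, er (t * Real.log n) -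
      ((M : ℂ) * er (t * Real.log M) - 1)‖ ≤ ‖1 + (t : ℂ) * I‖ * (|t| * (1 + Real.log M) + 2) := by
  have h1 := F_sum t M
  obtain ⟨hz1, hz2⟩ := z_ge t
  have h4 : ∑ n ∈ Finset.Icc 1 M, (n : ℝ)⁻¹ ≤ 1 + Real.log M := by
    have := harmonic_le_one_add_log M
    rw [harmonic_eq_sum_Icc] at this
    push_cast at this
    exact this
  set z := 1 + (t : ℂ) * I with hz
  set S := ∑ n ∈ Finset.Icc 1 M, er (t * Real.log n) with hS
  have hM0 : (0 : ℝ) < M := by exact_mod_cast hM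
  have h5 : ‖((((M + 1 : ℕ) : ℝ) : ℂ) * er (t * Real.log (M + 1 : ℕ)) - 1) -
      ((M : ℂ) * er (t * Real.log M) - 1)‖ ≤ 1 + |t| := by
    have e : ((((M + 1 : ℕ) : ℝ) : ℂ) * er (t * Real.log (M + 1 : ℕ)) - 1) -
      ((M : ℂ) * er (t * Real.log M) - 1) = er (t * Real.log (M + 1 : ℕ)) +
        ((M : ℝ) : ℂ) * (er (t * Real.log (M + 1 : ℕ)) - er (t * Real.log M)) := by
      push_cast
      ring
    rw [e]
    refine (norm_add_le _ _).trans ?_
    rw [er_norm, norm_mul, Complex.norm_real, Real.norm_of_nonneg hM0.le]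
    have h6 := er_lip (t * Real.log (M + 1 : ℕ)) (t * Real.log M)
    rw [← mul_sub, abs_mul] at h6
    have h7 := y_le (n := M) hM
    have h8 : (M : ℝ) * ‖er (t * Real.log (M + 1 : ℕ)) - er (t * Real.log M)‖ ≤ |t| := by
      calc (M : ℝ) * ‖er (t * Real.log (M + 1 : ℕ)) - er (t * Real.log M)‖ ≤
          M * (|t| * (1 / M)) := by
            refine mul_le_mul_of_nonneg_left (h6.trans ?_) hM0.le
            exact mul_le_mul_of_nonneg_left h7 (abs_nonneg _)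
        _ = |t| := by field_simp
    linarith
  have e : z * S - ((M : ℂ) * er (t * Real.log M) - 1) =
      (z * S - ((((M + 1 : ℕ) : ℝ) : ℂ) * er (t * Real.log (M + 1 : ℕ)) - 1)) +
      (((((M + 1 : ℕ) : ℝ) : ℂ) * er (t * Real.log (M + 1 : ℕ)) - 1) -
        ((M : ℂ) * er (t * Real.log M) - 1)) := by ring
  rw [e]
  refine (norm_add_le _ _).trans ((add_le_add h1 h5).trans ?_)
  have h9 : |t| * ∑ n ∈ Finset.Icc 1 M, (n : ℝ)⁻¹ ≤ |t| * (1 + Real.log M) :=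
    mul_le_mul_of_nonneg_left h4 (abs_nonneg _)
  have h10 : ‖z‖ * (|t| * ∑ n ∈ Finset.Icc 1 M, (n : ℝ)⁻¹) ≤ ‖z‖ * (|t| * (1 + Real.log M)) :=
    mul_le_mul_of_nonneg_left h9 (norm_nonneg _)
  nlinarith

lemma y0_pos (K1 : ℕ) : ∀ᶠ N : ℕ in atTop, 1 ≤ y0 K1 N := by
  filter_upwards [y0_ge K1, eventually_ge_atTop 1] with N h1 hN
  have h2 : (1 : ℝ) ≤ √(N : ℝ) := Real.one_le_sqrt.2 (by exact_mod_cast hN)
  exact_mod_cast h2.trans h1

/-- the kernel for the weight one -/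
lemma ker_one (A K K1 : ℕ) : ∀ᶠ N : ℕ in atTop, ∀ t : ℝ, |t| ≤ (N : ℝ) ^ A →
    ‖∑ m ∈ Finset.Ioc (y0 K1 N) N, er (t * Real.log m) -
      ∫ v in (Real.log (y0 K1 N))..(Real.log N), (Real.exp v : ℂ) * er (t * v)‖ ≤
      N / (Real.log N) ^ K := by
  obtain ⟨C, hC, hz⟩ := zeta_ext A (K + 1)
  filter_upwards [y0_le K1, y0_ge K1, y0_pos K1, eventually_ge_atTop 4, ev_log 8, ev_log (8 * C),
    ev_pow (K + 2) (c := 1 / 2) (by norm_num)] with N h1 h2 h3 hN l1 l2 hp t ht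
  have hN4 : (4 : ℝ) ≤ N := by exact_mod_cast hN
  have hN0 : (0 : ℝ) < N := by linarith
  set L := Real.log N with hL
  have hL0 : 0 < L := by linarith
  set y := y0 K1 N with hy
  have hy0 : (0 : ℝ) < y := by exact_mod_cast h3
  have hyN : (y : ℝ) ≤ N := by exact_mod_cast h1
  have hsq : √(N : ℝ) ≤ N := by
    rw [Real.sqrt_le_left (by linarith)]
    nlinarith
  have hsq0 : 0 < √(N : ℝ) := Real.sqrt_pos.2 hN0
  have hsqL : √(N : ℝ) * L ^ (K + 2) ≤ N := by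
    rw [← Real.sqrt_eq_rpow] at hp
    calc √(N : ℝ) * L ^ (K + 2) ≤ √(N : ℝ) * √(N : ℝ) := by gcongr
      _ = N := Real.mul_self_sqrt hN0.le
  have hsqL' : √(N : ℝ) * L * L ≤ N / L ^ K := by
    rw [le_div_iff₀ (by positivity)]
    calc √(N : ℝ) * L * L * L ^ K = √(N : ℝ) * L ^ (K + 2) := by ring
      _ ≤ N := hsqL
  have hsqL'' : √(N : ℝ) ≤ N / L ^ (K + 1) := by
    rw [le_div_iff₀ (by positivity)]
    calc √(N : ℝ) * L ^ (K + 1) ≤ √(N : ℝ) * L ^ (K + 2) := by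
          gcongr √(N : ℝ) * ?_
          exact pow_le_pow_right₀ (by linarith) (by omega)
      _ ≤ N := hsqL
  obtain ⟨hz1, hz2⟩ := z_ge t
  set z := 1 + (t : ℂ) * I with hzdef
  have hz0 : 0 < ‖z‖ := by linarith
  have hint := int_exp t (Real.log y) (Real.log N)
  rw [Real.exp_log hy0, Real.exp_log hN0] at hint
  set J := ∫ v in (Real.log y)..(Real.log N), (Real.exp v : ℂ) * er (t * v) with hJ
  rw [Ioc_sub (fun n => er (t * Real.log n)) h1]
  set S1 := ∑ n ∈ Finset.Icc 1 N, er (t * Real.log n) with hS1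
  set S2 := ∑ n ∈ Finset.Icc 1 y, er (t * Real.log n) with hS2
  rcases le_total |t| (√(N : ℝ)) with hc | hc
  · have a1 := one_part t (M := N) (by omega)
    have a2 := one_part t (M := y) h3
    rw [← hzdef] at a1 a2
    rw [← hS1] at a1
    rw [← hS2] at a2
    have hly : Real.log y ≤ L := Real.log_le_log hy0 hyN
    have e : z * (S1 - S2 - J) = (z * S1 - ((N : ℂ) * er (t * Real.log N) - 1)) -
        (z * S2 - ((y : ℂ) * er (t * Real.log y) - 1)) := by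
      rw [mul_sub, hint]
      push_cast
      ring
    have a3 : ‖z‖ * ‖S1 - S2 - J‖ ≤ ‖z‖ * (2 * (√(N : ℝ) * (1 + L) + 2)) := by
      rw [← norm_mul, e]
      refine (norm_sub_le _ _).trans ((add_le_add a1 a2).trans ?_)
      have b1 : |t| * (1 + Real.log N) ≤ √(N : ℝ) * (1 + L) := by
        have : 0 ≤ 1 + L := by linarith
        exact mul_le_mul_of_nonneg_right hc this
      have b2 : |t| * (1 + Real.log y) ≤ √(N : ℝ) * (1 + L) := by
        have h0 : 0 ≤ Real.log y := Real.log_nonneg (by exact_mod_cast h3)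
        have : 0 ≤ 1 + Real.log y := by linarith
        calc |t| * (1 + Real.log y) ≤ √(N : ℝ) * (1 + Real.log y) := mul_le_mul_of_nonneg_right hc this
          _ ≤ _ := by gcongr
      nlinarith
    have a4 := le_of_mul_le_mul_left a3 hz0
    refine a4.trans ?_
    have hs2 : (2 : ℝ) ≤ √(N : ℝ) := by
      rw [show (2 : ℝ) = √(4 : ℝ) by
        rw [show (4 : ℝ) = 2 ^ 2 by norm_num, Real.sqrt_sq (by norm_num)]]
      exact Real.sqrt_le_sqrt hN4
    have hfin : 2 * (√(N : ℝ) * (1 + L) + 2) ≤ 4 * (√(N : ℝ) * L) := by nlinarith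
    have hp2 : 4 * (√(N : ℝ) * L) ≤ √(N : ℝ) * L * L := by nlinarith [mul_pos hsq0 hL0]
    linarith
  · have ht1 : 1 ≤ |t| := by
      have : (1 : ℝ) ≤ √(N : ℝ) := Real.one_le_sqrt.2 (by linarith)
      linarith
    have b1 := hz N hN N le_rfl hsq t ht1 ht
    have b2 := hz N hN y h1 h2 t ht1 ht
    rw [← hS1] at b1
    rw [← hS2] at b2
    have b3 : ‖z‖ * ‖J‖ ≤ 2 * N := by
      rw [← norm_mul, hint]
      refine (norm_sub_le _ _).trans ?_
      rw [norm_mul, norm_mul, er_norm, er_norm, mul_one, mul_one, Complex.norm_real, Complex.norm_real,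
        Real.norm_of_nonneg hN0.le, Real.norm_of_nonneg hy0.le]
      linarith
    have b4 : ‖J‖ ≤ 2 * (N / |t|) := by
      have ht0 : 0 < |t| := by linarith
      rw [← mul_div_assoc, le_div_iff₀ ht0]
      calc ‖J‖ * |t| ≤ ‖J‖ * ‖z‖ := by gcongr
        _ = ‖z‖ * ‖J‖ := mul_comm _ _
        _ ≤ _ := b3
    have b5 : (N : ℝ) / |t| ≤ √(N : ℝ) := by
      rw [div_le_iff₀ (by linarith)]
      calc (N : ℝ) = √(N : ℝ) * √(N : ℝ) := (Real.mul_self_sqrt hN0.le).symm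
        _ ≤ _ := by gcongr
    have b6 : ‖S1 - S2 - J‖ ≤ 2 * (C * (N / |t| + N / L ^ (K + 1))) + 2 * (N / |t|) := by
      calc ‖S1 - S2 - J‖ ≤ ‖S1 - S2‖ + ‖J‖ := norm_sub_le _ _
        _ ≤ (‖S1‖ + ‖S2‖) + ‖J‖ := by
            gcongr
            exact norm_sub_le _ _
        _ ≤ _ := by linarith
    have b7 : (N : ℝ) / |t| ≤ N / L ^ (K + 1) := b5.trans hsqL''
    have b8 : 0 ≤ (N : ℝ) / L ^ (K + 1) := by positivity
    calc ‖S1 - S2 - J‖ ≤ 2 * (C * (N / |t| + N / L ^ (K + 1))) + 2 * (N / |t|) := b6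
      _ ≤ 2 * (C * (N / L ^ (K + 1) + N / L ^ (K + 1))) + 2 * (N / L ^ (K + 1)) := by gcongr
      _ = (4 * C + 2) * (N / L ^ (K + 1)) := by ring
      _ ≤ L * (N / L ^ (K + 1)) := by
          gcongr
          linarith
      _ = _ := by
          rw [pow_succ]
          field_simp

/-- the kernel is small -/
lemma ker_small {w : ℕ → ℝ} (hw : Wt w) (A K K1 : ℕ) : ∀ᶠ N : ℕ in atTop, ∀ t : ℝ, |t| ≤ (N : ℝ) ^ A →
    ‖Ker w K1 N t‖ ≤ N / (Real.log N) ^ K := by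
  obtain ⟨C, hC, hv⟩ := hw.vk.ext A (K + 1)
  filter_upwards [ker_one A (K + 1) K1, y0_le K1, y0_ge K1, eventually_ge_atTop 4, ev_log 2,
    ev_log (4 * C)] with N h0 h1 h2 hN l1 l2 t ht
  have hN4 : (4 : ℝ) ≤ N := by exact_mod_cast hN
  have hN0 : (0 : ℝ) < N := by linarith
  set L := Real.log N with hL
  have hL0 : 0 < L := by linarith
  have hsq : √(N : ℝ) ≤ N := by
    rw [Real.sqrt_le_left (by linarith)]
    nlinarith
  have b0 := h0 t ht
  have b1 := hv N hN N le_rfl hsq t ht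
  have b2 := hv N hN _ h1 h2 t ht
  have e : Ker w K1 N t = (∑ n ∈ Finset.Icc 1 N, ((w n : ℂ) - 1) * er (t * Real.log n) -
      ∑ n ∈ Finset.Icc 1 (y0 K1 N), ((w n : ℂ) - 1) * er (t * Real.log n)) +
      (∑ m ∈ Finset.Ioc (y0 K1 N) N, er (t * Real.log m) -
        ∫ v in (Real.log (y0 K1 N))..(Real.log N), (Real.exp v : ℂ) * er (t * v)) := by
    unfold Ker
    rw [← Ioc_sub (fun n => ((w n : ℂ) - 1) * er (t * Real.log n)) h1]
    simp only [sub_mul, one_mul, Finset.sum_sub_distrib]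
    ring
  rw [e]
  calc _ ≤ (C * N / L ^ (K + 1) + C * N / L ^ (K + 1)) + N / L ^ (K + 1) := by
        refine (norm_add_le _ _).trans (add_le_add ((norm_sub_le _ _).trans (add_le_add b1 b2)) b0)
    _ = (2 * C + 1) * (N / L ^ (K + 1)) := by ring
    _ ≤ L * (N / L ^ (K + 1)) := by
        gcongr
        linarith
    _ = _ := by
        rw [pow_succ]
        field_simp

lemma ker_triv {w : ℕ → ℝ} (hw : Wt w) (K1 : ℕ) : ∀ᶠ N : ℕ in atTop, ∀ t : ℝ, ‖Ker w K1 N t‖ ≤ 4 * N := by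
  filter_upwards [hw.triv K1, y0_le K1, y0_pos K1, eventually_ge_atTop 4] with N h1 h2 h3 hN t
  have hN0 : (0 : ℝ) < N := by positivity
  have hy0 : (0 : ℝ) < y0 K1 N := by exact_mod_cast h3
  have hyN : (y0 K1 N : ℝ) ≤ N := by exact_mod_cast h2
  unfold Ker
  refine (norm_sub_le _ _).trans ?_
  obtain ⟨hz1, hz2⟩ := z_ge t
  have hint := int_exp t (Real.log (y0 K1 N)) (Real.log N)
  rw [Real.exp_log hy0, Real.exp_log hN0] at hint
  have b3 : ‖1 + (t : ℂ) * I‖ * ‖∫ v in (Real.log (y0 K1 N))..(Real.log N), (Real.exp v : ℂ) * er (t * v)‖ ≤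
      2 * N := by
    rw [← norm_mul, hint]
    refine (norm_sub_le _ _).trans ?_
    rw [norm_mul, norm_mul, er_norm, er_norm, mul_one, mul_one, Complex.norm_real, Complex.norm_real,
      Real.norm_of_nonneg hN0.le, Real.norm_of_nonneg hy0.le]
    linarith
  have b4 := norm_nonneg (∫ v in (Real.log (y0 K1 N))..(Real.log N), (Real.exp v : ℂ) * er (t * v))
  have b5 := h1 t
  nlinarith

/-- a function cut off outside `[P, Q)` -/
noncomputable def cut (g : ℕ → ℂ) (P Q : ℕ) (n : ℕ) : ℂ := if P ≤ n ∧ n < Q then g n else 0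

lemma cut_zero (g : ℕ → ℂ) (P Q : ℕ) : ∀ n, ¬ (P ≤ n ∧ n < Q) → cut g P Q n = 0 := fun _ h => if_neg h

/-- the step function of `g` in the window -/
noncomputable def gs (g : ℕ → ℂ) (c A : ℝ) (K N : ℕ) : ℝ → ℂ := st (cut g (PP c A K N) (QQ c A N))

lemma cut_norm {g : ℕ → ℂ} {B : ℕ} (hg : ∀ n, ‖g n‖ ≤ (1 + Real.log n) ^ B) {P Q : ℕ} (n : ℕ) :
    ‖cut g P Q n‖ ≤ (1 + Real.log (2 * Q : ℕ)) ^ B := by
  unfold cut
  have h0 : 0 ≤ Real.log (2 * Q : ℕ) := Real.log_natCast_nonneg _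
  split_ifs with h
  · refine (hg n).trans ?_
    have h1 := Real.log_natCast_nonneg n
    have h2 : Real.log n ≤ Real.log (2 * Q : ℕ) := by
      rcases Nat.eq_zero_or_pos n with hn | hn
      · rw [hn]
        simpa using h0
      · apply Real.log_le_log (by exact_mod_cast hn)
        exact_mod_cast (by omega : n ≤ 2 * Q)
    gcongr
  · rw [norm_zero]
    positivity

lemma gs_bs {g : ℕ → ℂ} {B : ℕ} (hg : ∀ n, ‖g n‖ ≤ (1 + Real.log n) ^ B) {c A : ℝ} (hc : 0 < c)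
    (hA : 0 ≤ A) (K1 : ℕ) : ∀ᶠ N : ℕ in atTop,
    Bs ((Real.log N) ^ (2 * B)) ((Real.log N) ^ 2) (gs g c A K1 N) := by
  filter_upwards [logQ hc hA, ev_P (A := A) hc K1 1, PQ hc hA K1] with N h1 h2 h3
  unfold gs
  refine st_bs (P := PP c A K1 N) (Q := QQ c A N) (fun n => ?_) (by omega) (cut_zero _ _ _) (by omega) ?_
  · refine (cut_norm hg n).trans ?_
    rw [pow_mul]
    have h0 : 0 ≤ Real.log (2 * QQ c A N : ℕ) := Real.log_natCast_nonneg _
    gcongr
  · have h4 : Real.log (QQ c A N) ≤ Real.log (2 * QQ c A N : ℕ) := by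
      apply Real.log_le_log
      · exact_mod_cast (by omega : 0 < QQ c A N)
      · exact_mod_cast (by omega : QQ c A N ≤ 2 * QQ c A N)
    linarith

lemma gs_tail {g : ℕ → ℂ} {B : ℕ} (hg : ∀ n, ‖g n‖ ≤ (1 + Real.log n) ^ B) {c A : ℝ} (hc : 0 < c)
    (hA : 0 ≤ A) (K1 K : ℕ) : ∀ᶠ N : ℕ in atTop,
    ∫⁻ ξ in {ξ : ℝ | QQ c A N * (Real.log N) ^ (K + 4 * B + 1) ≤ |ξ|}, ‖𝓕 (gs g c A K1 N) ξ‖ₑ ^ 2 ≤
      ENNReal.ofReal (1 / (Real.log N) ^ K) := by
  filter_upwards [gs_bs hg hc hA K1, ev_log 4, logQ hc hA, ev_P (A := A) hc K1 1,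
    PQ hc hA K1] with N hbs l1 hlQ h2 h3
  set L := Real.log N with hL
  have hL0 : 0 < L := by linarith
  set Q := QQ c A N with hQ
  have hQ0 : (0 : ℝ) < Q := by exact_mod_cast (by omega : 0 < Q)
  have hS : 0 < 1 / ((Q : ℝ) * L ^ (K + 4 * B + 1)) := by positivity
  have h1 := tail_le hbs hS (ENNReal.ofReal (1 / L ^ K)) (by
    intro s hs
    refine (st_mod (P := PP c A K1 N) (Q := QQ c A N) (G := L ^ (2 * B)) (fun n => ?_)
      (cut_zero _ _ _) hs.1).trans ?_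
    · refine (cut_norm hg n).trans ?_
      rw [pow_mul]
      have h0 : 0 ≤ Real.log (2 * QQ c A N : ℕ) := Real.log_natCast_nonneg _
      gcongr
    apply ENNReal.ofReal_le_ofReal
    calc 4 * (L ^ (2 * B)) ^ 2 * (QQ c A N) * s ≤
        4 * (L ^ (2 * B)) ^ 2 * Q * (1 / ((Q : ℝ) * L ^ (K + 4 * B + 1))) := by
          gcongr
          exact hs.2
      _ = 4 * (1 / (L ^ (K + 1))) := by
          field_simp
          ring
      _ ≤ L * (1 / (L ^ (K + 1))) := by gcongr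
      _ = _ := by
          field_simp
          ring)
  rw [one_div_one_div] at h1
  exact h1

/-- the difference of the sum and the integral -/
noncomputable def DD (w : ℕ → ℝ) (g : ℕ → ℂ) (c A : ℝ) (K1 N : ℕ) (a : ℝ) : ℂ :=
  ∑ m ∈ Finset.Ioc (y0 K1 N) N, (w m : ℂ) * gs g c A K1 N (a + c * Real.log m) -
    II (gs g c A K1 N) c (Real.log (y0 K1 N)) (Real.log N) a

/-- **The second moment.** -/
theorem tr_mom {w : ℕ → ℝ} (hw : Wt w) {g : ℕ → ℂ} {B : ℕ} (hg : ∀ n, ‖g n‖ ≤ (1 + Real.log n) ^ B)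
    {c A : ℝ} (hc : 0 < c) (hA : 0 ≤ A) (K K1 : ℕ) : ∀ᶠ N : ℕ in atTop,
    ∫⁻ a : ℝ, ‖DD w g c A K1 N a‖ₑ ^ 2 ≤ ENNReal.ofReal ((N : ℝ) ^ 2 / (Real.log N) ^ K) := by
  filter_upwards [gs_bs hg hc hA K1, gs_tail hg hc hA K1 (K + 2), ker_triv hw K1,
    ker_small hw (0 + ⌈c⌉₊ + 3) (K + 2 * B + 2) K1, H_cond hc hA 0 (K + 2 + 4 * B + 1), ev_log 5,
    y0_le K1, y0_pos K1] with N hbs h1 h2 h3 h4 l1 h5 h6
  set L := Real.log N with hL
  have hL0 : 0 < L := by linarith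
  have hy0 : (0 : ℝ) < y0 K1 N := by exact_mod_cast h6
  have hyN : (y0 K1 N : ℝ) ≤ N := by exact_mod_cast h5
  have hly : 0 ≤ Real.log (y0 K1 N) := Real.log_natCast_nonneg _
  have hlyN : Real.log (y0 K1 N) ≤ Real.log N := Real.log_le_log hy0 hyN
  unfold DD
  rw [planch_D hbs hc hly hlyN]
  have hfm := four_measurable hbs
  set V : Set ℝ := {ξ : ℝ | QQ c A N * L ^ (K + 2 + 4 * B + 1) ≤ |ξ|} with hV
  have hVm : MeasurableSet V := measurableSet_le measurable_const (by fun_prop)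
  have hpt : ∀ ξ : ℝ, ‖𝓕 (gs g c A K1 N) ξ‖ₑ ^ 2 *
      ‖∑ m ∈ Finset.Ioc (y0 K1 N) N, (w m : ℂ) * er (2 * Real.pi * c * ξ * Real.log m) -
        ∫ v in (Real.log (y0 K1 N))..(Real.log N), (Real.exp v : ℂ) * er (2 * Real.pi * c * ξ * v)‖ₑ ^ 2 ≤
      ENNReal.ofReal ((N / L ^ (K + 2 * B + 2)) ^ 2) * ‖𝓕 (gs g c A K1 N) ξ‖ₑ ^ 2 +
      ENNReal.ofReal ((4 * N : ℝ) ^ 2) * V.indicator (fun ξ => ‖𝓕 (gs g c A K1 N) ξ‖ₑ ^ 2) ξ := by
    intro ξ
    by_cases hξ : ξ ∈ V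
    · rw [Set.indicator_of_mem hξ, mul_comm (ENNReal.ofReal ((4 * N : ℝ) ^ 2))]
      refine le_trans (mul_le_mul_right (enorm_sq_le (h2 (2 * Real.pi * c * ξ))) _) ?_
      exact le_add_self
    · have hξ' : |ξ| < QQ c A N * L ^ (K + 2 + 4 * B + 1) := not_le.1 hξ
      rw [mul_comm (ENNReal.ofReal ((N / L ^ (K + 2 * B + 2)) ^ 2))]
      refine le_trans (mul_le_mul_right (enorm_sq_le (h3 (2 * Real.pi * c * ξ) ?_)) _) le_self_add
      refine le_trans ?_ h4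
      rw [pow_zero, abs_mul, abs_of_pos (by positivity : (0 : ℝ) < 2 * Real.pi * c)]
      have : 2 * Real.pi * c * |ξ| ≤ 2 * Real.pi * c * (QQ c A N * L ^ (K + 2 + 4 * B + 1)) := by
        gcongr
      linarith
  refine (lintegral_mono hpt).trans ?_
  have hm2 : Measurable fun ξ => ‖𝓕 (gs g c A K1 N) ξ‖ₑ ^ 2 := hfm.enorm.pow_const 2
  rw [lintegral_add_left (hm2.const_mul _), lintegral_const_mul _ hm2,
    lintegral_const_mul _ (hm2.indicator hVm), lintegral_indicator hVm, planch _ hbs.int (hbs.memLp 2)]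
  calc _ ≤ ENNReal.ofReal ((N / L ^ (K + 2 * B + 2)) ^ 2) *
        ENNReal.ofReal ((L ^ (2 * B)) ^ 2 * (2 * L ^ 2)) +
        ENNReal.ofReal ((4 * N : ℝ) ^ 2) * ENNReal.ofReal (1 / L ^ (K + 2)) := by
        gcongr
        exact hbs.l2
    _ = ENNReal.ofReal ((N / L ^ (K + 2 * B + 2)) ^ 2 * ((L ^ (2 * B)) ^ 2 * (2 * L ^ 2)) +
        (4 * N : ℝ) ^ 2 * (1 / L ^ (K + 2))) := by
        rw [← ENNReal.ofReal_mul (by positivity), ← ENNReal.ofReal_mul (by positivity),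
          ← ENNReal.ofReal_add (by positivity) (by positivity)]
    _ ≤ _ := by
        apply ENNReal.ofReal_le_ofReal
        have e1 : (N / L ^ (K + 2 * B + 2)) ^ 2 * ((L ^ (2 * B)) ^ 2 * (2 * L ^ 2)) =
            2 * ((N : ℝ) ^ 2 / L ^ (2 * K + 2)) := by
          field_simp
          ring
        have e2 : (N : ℝ) ^ 2 / L ^ (2 * K + 2) ≤ (N : ℝ) ^ 2 / L ^ (K + 2) := by
          gcongr (N : ℝ) ^ 2 / ?_
          exact pow_le_pow_right₀ (by linarith) (by omega)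
        calc _ ≤ 18 * ((N : ℝ) ^ 2 / L ^ (K + 2)) := by
              rw [e1]
              have e3 : (4 * N : ℝ) ^ 2 * (1 / L ^ (K + 2)) = 16 * ((N : ℝ) ^ 2 / L ^ (K + 2)) := by ring
              rw [e3]
              linarith
          _ ≤ L ^ 2 * ((N : ℝ) ^ 2 / L ^ (K + 2)) := by
              gcongr
              nlinarith
          _ = _ := by
              field_simp
              ring

end Pool.Agent.V7H21.MP
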