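import Pool.Agent.V7H21.MP.Tr2
import Pool.Agent.V7H21.MP.Main2

/-!
# The transference theorem
-/

set_option autoImplicit false

namespace Pool.Agent.V7H21.MP

open MeasureTheory Complex Filter FourierTransform
open scoped Topology ENNReal

/-- the sum over the integers (or primes) -/
noncomputable def TS (w g : ℕ → ℝ) (c α : ℝ) (x : ℕ) : ℝ :=
  ∑ m ∈ Finset.Icc 1 x, w m * g ⌊α * (m : ℝ) ^ c⌋₊

/-- the integral -/
noncomputable def TI (g : ℕ → ℝ) (c α : ℝ) (x : ℕ) : ℝ := ∫ t in (0 : ℝ)..x, g ⌊α * t ^ c⌋₊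

lemma subst_exp (G : ℝ → ℝ) {y N : ℝ} (hy : 0 < y) (hyN : y ≤ N) :
    ∫ t in y..N, G t = ∫ v in (Real.log y)..(Real.log N), Real.exp v * G (Real.exp v) := by
  have hN : 0 < N := by linarith
  have hl : Real.log y ≤ Real.log N := Real.log_le_log hy hyN
  have himg : Real.exp '' Set.Icc (Real.log y) (Real.log N) = Set.Icc y N := by
    ext t
    constructor
    · rintro ⟨v, hv, rfl⟩
      exact ⟨(Real.log_le_iff_le_exp hy).1 hv.1, (Real.le_log_iff_exp_le hN).1 hv.2⟩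
    · intro ht
      have ht0 : 0 < t := lt_of_lt_of_le hy ht.1
      exact ⟨Real.log t, ⟨Real.log_le_log hy ht.1, Real.log_le_log ht0 ht.2⟩, Real.exp_log ht0⟩
  rw [intervalIntegral.integral_of_le hyN, intervalIntegral.integral_of_le hl,
    ← integral_Icc_eq_integral_Ioc, ← integral_Icc_eq_integral_Ioc, ← himg,
    integral_image_eq_integral_abs_deriv_smul measurableSet_Icc
      (fun x _ => (Real.hasDerivAt_exp x).hasDerivWithinAt) Real.exp_injective.injOn]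
  refine setIntegral_congr_fun measurableSet_Icc fun v _ => ?_
  simp [abs_of_pos (Real.exp_pos v)]

lemma gs_val (g : ℕ → ℝ) {c A : ℝ} (hc : 0 < c) (K1 N : ℕ) {a : ℝ} (ha : a ∈ Set.Icc (-A) A) {t : ℝ}
    (ht : 0 < t) (h1 : (y0 K1 N : ℝ) ≤ t) (h2 : t ≤ N) :
    gs (fun n => (g n : ℂ)) c A K1 N (a + c * Real.log t) = ((g ⌊Real.exp a * t ^ c⌋₊ : ℝ) : ℂ) := by
  have e1 : Real.exp (a + c * Real.log t) = Real.exp a * t ^ c := by
    rw [Real.exp_add, Real.rpow_def_of_pos ht]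
    congr 2
    ring
  unfold gs st cut
  rw [e1]
  have h3 : PP c A K1 N ≤ ⌊Real.exp a * t ^ c⌋₊ := by
    unfold PP
    apply Nat.floor_le_floor
    have h3 := ha.1
    gcongr
  have h4 : ⌊Real.exp a * t ^ c⌋₊ < QQ c A N := by
    unfold QQ
    apply Nat.lt_succ_of_le
    apply Nat.floor_le_floor
    have h3 := ha.2
    gcongr
  rw [if_pos ⟨h3, h4⟩]

lemma DD_val (w g : ℕ → ℝ) {c A : ℝ} (hc : 0 < c) (K1 N : ℕ) (hy : 1 ≤ y0 K1 N) (hyN : y0 K1 N ≤ N)
    {a : ℝ} (ha : a ∈ Set.Icc (-A) A) :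
    DD w (fun n => (g n : ℂ)) c A K1 N a = ((∑ m ∈ Finset.Ioc (y0 K1 N) N,
      w m * g ⌊Real.exp a * (m : ℝ) ^ c⌋₊ -
      ∫ t in (y0 K1 N : ℝ)..N, g ⌊Real.exp a * t ^ c⌋₊ : ℝ) : ℂ) := by
  have hy0 : (0 : ℝ) < y0 K1 N := by exact_mod_cast hy
  have hyN' : (y0 K1 N : ℝ) ≤ N := by exact_mod_cast hyN
  unfold DD
  rw [Complex.ofReal_sub]
  congr 1
  · rw [Complex.ofReal_sum]
    refine Finset.sum_congr rfl fun m hm => ?_
    rw [Finset.mem_Ioc] at hm
    rw [Complex.ofReal_mul, gs_val g hc K1 N ha (by exact_mod_cast (by omega : 0 < m))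
      (by exact_mod_cast hm.1.le) (by exact_mod_cast hm.2)]
  · rw [subst_exp _ hy0 hyN', ← intervalIntegral.integral_ofReal]
    unfold II
    refine intervalIntegral.integral_congr fun v hv => ?_
    rw [Set.uIcc_of_le (Real.log_le_log hy0 hyN')] at hv
    have h1 : (y0 K1 N : ℝ) ≤ Real.exp v := (Real.log_le_iff_le_exp hy0).1 hv.1
    have h2 : Real.exp v ≤ N := (Real.le_log_iff_exp_le (by linarith)).1 hv.2
    rw [Complex.ofReal_mul, ← gs_val g hc K1 N ha (Real.exp_pos v) h1 h2, Real.log_exp]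

lemma II_meas {h : ℝ → ℂ} (hh : Measurable h) (c x y : ℝ) : Measurable (II h c x y) := by
  have hm : StronglyMeasurable (Function.uncurry fun a v : ℝ => (Real.exp v : ℂ) * h (a + c * v)) := by
    apply Measurable.stronglyMeasurable
    exact (by fun_prop : Measurable fun p : ℝ × ℝ => (Real.exp p.2 : ℂ)).mul (hh.comp (by fun_prop))
  unfold II intervalIntegral
  exact (hm.integral_prod_right).measurable.sub (hm.integral_prod_right).measurable

lemma DD_meas (w : ℕ → ℝ) (g : ℕ → ℂ) (c A : ℝ) (K1 N : ℕ) : Measurable (DD w g c A K1 N) := by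
  have h0 : Measurable (gs g c A K1 N) := by
    unfold gs st
    have h1 : Measurable (cut g (PP c A K1 N) (QQ c A N)) := measurable_from_nat
    exact h1.comp (Nat.measurable_floor.comp Real.measurable_exp)
  unfold DD
  refine Measurable.sub ?_ (II_meas h0 _ _ _)
  exact Finset.measurable_fun_sum _ fun m _ => (h0.comp (by fun_prop)).const_mul _

lemma g_mono_bd {B : ℕ} {g : ℕ → ℝ} (hg : Wu B g) {n M : ℕ} (h : n ≤ M) :
    |g n| ≤ (1 + Real.log M) ^ B := by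
  rw [abs_of_nonneg (hg.nn n)]
  refine (hg.le n).trans ?_
  have h1 := Real.log_natCast_nonneg n
  have h2 : Real.log n ≤ Real.log M := by
    rcases Nat.eq_zero_or_pos n with hn | hn
    · rw [hn]
      simpa using Real.log_natCast_nonneg M
    · exact Real.log_le_log (by exact_mod_cast hn) (by exact_mod_cast h)
  gcongr

lemma gfun_meas (g : ℕ → ℝ) (c α : ℝ) : Measurable fun t : ℝ => g ⌊α * t ^ c⌋₊ := by
  have h1 : Measurable g := measurable_from_nat
  refine h1.comp (Nat.measurable_floor.comp ?_)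
  exact (measurable_id.pow_const c).const_mul α

lemma gfun_bd {B : ℕ} {g : ℕ → ℝ} (hg : Wu B g) {c α : ℝ} (hc : 0 < c) (hα : 0 < α) {t x : ℝ}
    (h0 : 0 ≤ t) (h1 : t ≤ x) : |g ⌊α * t ^ c⌋₊| ≤ (1 + Real.log (⌊α * x ^ c⌋₊ : ℕ)) ^ B := by
  apply g_mono_bd hg
  apply Nat.floor_le_floor
  gcongr

lemma gfun_int {B : ℕ} {g : ℕ → ℝ} (hg : Wu B g) {c α : ℝ} (hc : 0 < c) (hα : 0 < α) {x y : ℝ}
    (h0 : 0 ≤ x) (h1 : 0 ≤ y) : IntervalIntegrable (fun t : ℝ => g ⌊α * t ^ c⌋₊) volume x y := by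
  rw [intervalIntegrable_iff]
  refine Measure.integrableOn_of_bounded (M := (1 + Real.log (⌊α * (max x y) ^ c⌋₊ : ℕ)) ^ B) ?_
    (gfun_meas g c α).aestronglyMeasurable ?_
  · rw [Set.uIoc, Real.volume_Ioc]
    exact ENNReal.ofReal_ne_top
  · refine ae_restrict_of_forall_mem measurableSet_uIoc fun t ht => ?_
    rw [Real.norm_eq_abs]
    exact gfun_bd hg hc hα ((le_min h0 h1).trans ht.1.le) ht.2

lemma TI_sub {B : ℕ} {g : ℕ → ℝ} (hg : Wu B g) {c α : ℝ} (hc : 0 < c) (hα : 0 < α) {x y : ℕ} :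
    TI g c α y - TI g c α x = ∫ t in (x : ℝ)..y, g ⌊α * t ^ c⌋₊ := by
  unfold TI
  rw [intervalIntegral.integral_interval_sub_left]
  · exact gfun_int hg hc hα le_rfl (by positivity)
  · exact gfun_int hg hc hα le_rfl (by positivity)

lemma TI_mono {B : ℕ} {g : ℕ → ℝ} (hg : Wu B g) {c α : ℝ} (hc : 0 < c) (hα : 0 < α) :
    Monotone (TI g c α) := by
  intro x y hxy
  have h1 := TI_sub hg hc hα (x := x) (y := y)
  have h2 : 0 ≤ ∫ t in (x : ℝ)..y, g ⌊α * t ^ c⌋₊ :=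
    intervalIntegral.integral_nonneg (by exact_mod_cast hxy) fun t _ => hg.nn _
  linarith

lemma TI_diff {B : ℕ} {g : ℕ → ℝ} (hg : Wu B g) {c α : ℝ} (hc : 0 < c) (hα : 0 < α) {x y : ℕ}
    (hxy : x ≤ y) : TI g c α y - TI g c α x ≤ (y - x) * (1 + Real.log (⌊α * (y : ℝ) ^ c⌋₊ : ℕ)) ^ B := by
  have hxy' : (x : ℝ) ≤ y := by exact_mod_cast hxy
  rw [TI_sub hg hc hα]
  have h1 : ∀ t ∈ Set.uIoc (x : ℝ) y, ‖g ⌊α * t ^ c⌋₊‖ ≤
      (1 + Real.log (⌊α * (y : ℝ) ^ c⌋₊ : ℕ)) ^ B := by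
    intro t ht
    rw [Set.uIoc_of_le hxy'] at ht
    rw [Real.norm_eq_abs]
    exact gfun_bd hg hc hα ((Nat.cast_nonneg x).trans ht.1.le) ht.2
  have h2 := intervalIntegral.norm_integral_le_of_norm_le_const h1
  rw [abs_of_nonneg (by linarith : (0 : ℝ) ≤ y - x)] at h2
  rw [mul_comm]
  exact (le_abs_self _).trans h2

lemma floor_log {c α : ℝ} (hc : 0 < c) (hα : 0 < α) {y : ℕ} (hy : 1 ≤ y) :
    1 + Real.log (⌊α * (y : ℝ) ^ c⌋₊ : ℕ) ≤ (1 + |Real.log α| + c) * (1 + Real.log y) := by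
  have hy0 : (0 : ℝ) < y := by exact_mod_cast hy
  have hl : 0 ≤ Real.log y := Real.log_natCast_nonneg y
  have ha := abs_nonneg (Real.log α)
  have key : Real.log (⌊α * (y : ℝ) ^ c⌋₊ : ℕ) ≤ |Real.log α| + c * Real.log y := by
    rcases Nat.eq_zero_or_pos ⌊α * (y : ℝ) ^ c⌋₊ with h | h
    · rw [h]
      simp only [Nat.cast_zero, Real.log_zero]
      positivity
    · have h1 : ((⌊α * (y : ℝ) ^ c⌋₊ : ℕ) : ℝ) ≤ α * (y : ℝ) ^ c := Nat.floor_le (by positivity)
      have h2 := Real.log_le_log (by exact_mod_cast h) h1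
      rw [Real.log_mul hα.ne' (by positivity), Real.log_rpow hy0] at h2
      linarith [le_abs_self (Real.log α)]
  nlinarith [mul_nonneg ha hl]

lemma TS_mono {w : ℕ → ℝ} (hw : Wt w) {B : ℕ} {g : ℕ → ℝ} (hg : Wu B g) (c α : ℝ) :
    Monotone (TS w g c α) := by
  intro x y hxy
  unfold TS
  exact Finset.sum_le_sum_of_subset_of_nonneg (Finset.Icc_subset_Icc_right hxy)
    fun m _ _ => mul_nonneg (hw.nn m) (hg.nn _)

lemma TS_split (w g : ℕ → ℝ) (c α : ℝ) {y x : ℕ} (h : y ≤ x) :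
    TS w g c α x = TS w g c α y + ∑ m ∈ Finset.Ioc y x, w m * g ⌊α * (m : ℝ) ^ c⌋₊ := by
  unfold TS
  rw [show Finset.Icc 1 x = Finset.Ioc 0 x by rfl, show Finset.Icc 1 y = Finset.Ioc 0 y by rfl,
    Finset.sum_Ioc_consecutive _ (Nat.zero_le _) h]

/-- the small part -/
lemma T_small {w : ℕ → ℝ} (hw : Wt w) {B : ℕ} {g : ℕ → ℝ} (hg : Wu B g) {c A : ℝ} (hc : 0 < c)
    (hA : 0 ≤ A) (K : ℕ) : ∀ᶠ N : ℕ in atTop, ∀ a ∈ Set.Icc (-A) A,
    TS w g c (Real.exp a) (y0 (K + 2 * B + 2) N) ≤ N / (Real.log N) ^ K ∧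
    TI g c (Real.exp a) (y0 (K + 2 * B + 2) N) ≤ N / (Real.log N) ^ K := by
  filter_upwards [logQ hc hA, ev_log 2, y0_le (K + 2 * B + 2), eventually_ge_atTop 1] with
    N h2 l1 h3 hN a ha
  set L := Real.log N with hL
  have hL0 : 0 < L := by linarith
  have hL1 : 1 ≤ L := by linarith
  set y := y0 (K + 2 * B + 2) N with hy
  have hfl : ⌊Real.exp a * (y : ℝ) ^ c⌋₊ ≤ 2 * QQ c A N := by
    have h4 : ⌊Real.exp a * (y : ℝ) ^ c⌋₊ < QQ c A N := by
      unfold QQ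
      apply Nat.lt_succ_of_le
      apply Nat.floor_le_floor
      have h5 : (y : ℝ) ≤ N := by exact_mod_cast h3
      have h6 := ha.2
      gcongr
    omega
  have hbd : (1 + Real.log (⌊Real.exp a * (y : ℝ) ^ c⌋₊ : ℕ)) ^ B ≤ L ^ (2 * B) := by
    rw [pow_mul]
    have h4 := Real.log_natCast_nonneg ⌊Real.exp a * (y : ℝ) ^ c⌋₊
    have h5 : Real.log (⌊Real.exp a * (y : ℝ) ^ c⌋₊ : ℕ) ≤ Real.log (2 * QQ c A N : ℕ) := by
      rcases Nat.eq_zero_or_pos ⌊Real.exp a * (y : ℝ) ^ c⌋₊ with hn | hn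
      · rw [hn]
        simpa using Real.log_natCast_nonneg (2 * QQ c A N)
      · exact Real.log_le_log (by exact_mod_cast hn) (by exact_mod_cast hfl)
    have h6 : 1 + Real.log (⌊Real.exp a * (y : ℝ) ^ c⌋₊ : ℕ) ≤ L ^ 2 := by linarith
    gcongr
  have hy' := y0_le' (K + 2 * B + 2) N
  have hfin : (y : ℝ) * (L ^ 2 * L ^ (2 * B)) ≤ N / L ^ K := by
    calc (y : ℝ) * (L ^ 2 * L ^ (2 * B)) ≤ (N / L ^ (K + 2 * B + 2)) * (L ^ 2 * L ^ (2 * B)) := by
          gcongr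
      _ = _ := by
          field_simp
          ring
  constructor
  · refine le_trans ?_ hfin
    unfold TS
    calc ∑ m ∈ Finset.Icc 1 y, w m * g ⌊Real.exp a * (m : ℝ) ^ c⌋₊ ≤
        ∑ m ∈ Finset.Icc 1 y, L ^ 2 * L ^ (2 * B) := by
          refine Finset.sum_le_sum fun m hm => ?_
          rw [Finset.mem_Icc] at hm
          have hm0 : (0 : ℝ) < m := by exact_mod_cast hm.1
          have h5 : Real.log m ≤ L := Real.log_le_log hm0 (by exact_mod_cast hm.2.trans h3)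
          have h6 : w m ≤ L ^ 2 := by
            have := hw.le m
            nlinarith
          have h7 := gfun_bd hg hc (Real.exp_pos a) hm0.le (by exact_mod_cast hm.2 : (m : ℝ) ≤ y)
          exact mul_le_mul h6 ((le_abs_self _).trans (h7.trans hbd)) (hg.nn _) (by positivity)
      _ = _ := by
          rw [Finset.sum_const, Nat.card_Icc, add_tsub_cancel_right, nsmul_eq_mul]
  · have h8 := TI_diff hg hc (Real.exp_pos a) (x := 0) (y := y) (Nat.zero_le _)
    have h9 : TI g c (Real.exp a) 0 = 0 := by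
      unfold TI
      simp
    rw [h9, sub_zero, Nat.cast_zero, sub_zero] at h8
    refine h8.trans (le_trans ?_ hfin)
    have h10 : (1 : ℝ) ≤ L ^ 2 := one_le_pow₀ hL1
    have h11 : 0 ≤ L ^ (2 * B) := by positivity
    gcongr
    calc _ ≤ L ^ (2 * B) := hbd
      _ ≤ L ^ 2 * L ^ (2 * B) := le_mul_of_one_le_left h11 h10

/-- the theorem on an interval, nonnegative functions -/
theorem tr_box {w : ℕ → ℝ} (hw : Wt w) {B : ℕ} {g : ℕ → ℝ} (hg : Wu B g) {c A : ℝ} (hc : 0 < c)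
    (hA : 0 ≤ A) (K : ℕ) : ∀ᵐ a ∂(volume.restrict (Set.Icc (-A) A)), ∃ C : ℝ, ∀ᶠ x : ℕ in atTop,
    |TS w g c (Real.exp a) x - TI g c (Real.exp a) x| ≤ C * (x / (Real.log x) ^ K) := by
  set K' := K + B with hK'
  set K1 := K' + 2 * B + 2 with hK1
  have hgn : ∀ n, ‖((g n : ℝ) : ℂ)‖ ≤ (1 + Real.log n) ^ B := by
    intro n
    rw [Complex.norm_real, Real.norm_of_nonneg (hg.nn n)]
    exact hg.le n
  have h1 := sample (volume.restrict (Set.Icc (-A) A))
    (fun N a => DD w (fun n => (g n : ℂ)) c A K1 N a) (fun N => DD_meas _ _ _ _ _ _) K' (by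
      filter_upwards [tr_mom hw (g := fun n => (g n : ℂ)) hgn hc hA (2 * K' + 2 * (K' + 1)) K1] with N hN
      exact (setLIntegral_le_lintegral _ _).trans hN)
  filter_upwards [h1, ae_restrict_mem measurableSet_Icc] with a h2 ha
  have hα := Real.exp_pos a
  set D : ℝ := (1 + |Real.log (Real.exp a)| + c) ^ B with hD
  have hD0 : 0 < D := by
    have := abs_nonneg (Real.log (Real.exp a))
    positivity
  have h4 := interp2 (fun x => TS w g c (Real.exp a) x / D) (fun x => TI g c (Real.exp a) x / D)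
    (fun x y hxy => by
      have := TS_mono hw hg c (Real.exp a) hxy
      simp only
      gcongr)
    (fun x y hxy => by
      have := TI_mono hg hc hα hxy
      simp only
      gcongr) B
    (fun x y hxy => by
      rw [← sub_div, div_le_iff₀ hD0]
      have h5 := TI_diff hg hc hα hxy
      rcases Nat.eq_zero_or_pos y with hy | hy
      · subst hy
        have : x = 0 := by omega
        subst this
        simp
      · refine h5.trans ?_
        have h6 := floor_log hc hα hy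
        have h7 : 0 ≤ 1 + Real.log (⌊Real.exp a * (y : ℝ) ^ c⌋₊ : ℕ) := by
          have := Real.log_natCast_nonneg ⌊Real.exp a * (y : ℝ) ^ c⌋₊
          linarith
        have h8 : (0 : ℝ) ≤ y - x := by
          have : (x : ℝ) ≤ y := by exact_mod_cast hxy
          linarith
        calc _ ≤ ((y : ℝ) - x) * ((1 + |Real.log (Real.exp a)| + c) * (1 + Real.log y)) ^ B := by
              gcongr
          _ = _ := by
              rw [mul_pow, hD]
              ring) K (C := 3 / D) (by positivity) (by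
    have h3 : ∀ᶠ N : ℕ in atTop, TS w g c (Real.exp a) (y0 K1 N) ≤ N / (Real.log N) ^ K' ∧
        TI g c (Real.exp a) (y0 K1 N) ≤ N / (Real.log N) ^ K' := by
      filter_upwards [T_small hw hg hc hA K'] with N hN
      exact hN a ha
    filter_upwards [h2, (nj_tendsto K').eventually h3, (nj_tendsto K').eventually (y0_le K1),
      (nj_tendsto K').eventually (y0_pos K1)] with j g1 g2 g5 g6
    set N := nj K' j with hN
    rw [DD_val w g hc K1 N g6 g5 ha, Complex.norm_real, Real.norm_eq_abs] at g1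
    rw [← TI_sub hg hc hα] at g1
    rw [← sub_div, abs_div, abs_of_pos hD0, div_mul_eq_mul_div]
    gcongr
    rw [TS_split w g c _ g5]
    have hT0 : 0 ≤ TS w g c (Real.exp a) (y0 K1 N) := Finset.sum_nonneg fun m _ =>
      mul_nonneg (hw.nn m) (hg.nn _)
    have hI0 : 0 ≤ TI g c (Real.exp a) (y0 K1 N) :=
      intervalIntegral.integral_nonneg (by positivity) fun t _ => hg.nn _
    have k1 := abs_le.1 g1
    rw [abs_le]
    constructor
    · linarith [k1.1, g2.2]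
    · linarith [k1.2, g2.1])
  obtain ⟨C', hC'⟩ := h4
  refine ⟨C' * D, ?_⟩
  filter_upwards [hC'] with x hx
  rw [← sub_div, abs_div, abs_of_pos hD0, div_le_iff₀ hD0] at hx
  linarith

theorem tr_log {w : ℕ → ℝ} (hw : Wt w) {B : ℕ} {g : ℕ → ℝ} (hg : Wu B g) {c : ℝ} (hc : 0 < c) :
    ∀ᵐ a : ℝ, ∀ K : ℕ, ∃ C : ℝ, ∀ᶠ x : ℕ in atTop,
    |TS w g c (Real.exp a) x - TI g c (Real.exp a) x| ≤ C * (x / (Real.log x) ^ K) := by
  rw [ae_all_iff]
  intro K
  have h1 : ∀ᵐ a : ℝ, ∀ A : ℕ, a ∈ Set.Icc (-(A : ℝ)) A → ∃ C : ℝ, ∀ᶠ x : ℕ in atTop,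
      |TS w g c (Real.exp a) x - TI g c (Real.exp a) x| ≤ C * (x / (Real.log x) ^ K) := by
    rw [ae_all_iff]
    intro A
    have h2 := tr_box hw hg hc (A := (A : ℝ)) (by positivity) K
    rwa [ae_restrict_iff' measurableSet_Icc] at h2
  filter_upwards [h1] with a ha
  apply ha ⌈|a|⌉₊
  exact abs_le.1 (Nat.le_ceil _)

theorem tr_pos {w : ℕ → ℝ} (hw : Wt w) {B : ℕ} {g : ℕ → ℝ} (hg : Wu B g) {c : ℝ} (hc : 0 < c) :
    ∀ᵐ α : ℝ, 0 < α → ∀ K : ℕ, ∃ C : ℝ, ∀ᶠ x : ℕ in atTop,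
    |TS w g c α x - TI g c α x| ≤ C * (x / (Real.log x) ^ K) := by
  have h1 := tr_log hw hg hc
  rw [ae_iff] at h1 ⊢
  refine measure_mono_null ?_ (addHaar_image_eq_zero_of_differentiableOn_of_addHaar_eq_zero volume
    Real.differentiable_exp.differentiableOn h1)
  intro α hα
  simp only [Set.mem_ofPred_eq, Classical.not_imp] at hα
  refine ⟨Real.log α, ?_, Real.exp_log hα.1⟩
  simp only [Set.mem_ofPred_eq]
  rw [Real.exp_log hα.1]
  exact hα.2

/-- **The transference theorem.** -/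
theorem transfer {w : ℕ → ℝ} (hw : Wt w) (g : ℕ → ℝ) (B : ℕ) (hg : ∀ n, |g n| ≤ (1 + Real.log n) ^ B)
    {c : ℝ} (hc : 0 < c) :
    ∀ᵐ α : ℝ, 0 < α → ∀ K : ℕ, ∃ C : ℝ, ∀ᶠ x : ℕ in atTop,
    |∑ m ∈ Finset.Icc 1 x, w m * g ⌊α * (m : ℝ) ^ c⌋₊ - ∫ t in (0 : ℝ)..x, g ⌊α * t ^ c⌋₊| ≤
      C * (x / (Real.log x) ^ K) := by
  have hp : Wu B (fun m => max (g m) 0) :=
    ⟨fun m => le_max_right _ _, fun m => max_le ((le_abs_self _).trans (hg m))
      ((abs_nonneg _).trans (hg m))⟩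
  have hn : Wu B (fun m => max (-g m) 0) :=
    ⟨fun m => le_max_right _ _, fun m => max_le ((neg_le_abs _).trans (hg m))
      ((abs_nonneg _).trans (hg m))⟩
  have hsub : ∀ m, g m = max (g m) 0 - max (-g m) 0 := by
    intro m
    rcases le_total 0 (g m) with h | h
    · rw [max_eq_left h, max_eq_right (by linarith)]
      ring
    · rw [max_eq_right h, max_eq_left (by linarith)]
      ring
  filter_upwards [tr_pos hw hp hc, tr_pos hw hn hc] with α h1 h2 hα K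
  obtain ⟨C1, h3⟩ := h1 hα K
  obtain ⟨C2, h4⟩ := h2 hα K
  refine ⟨C1 + C2, ?_⟩
  filter_upwards [h3, h4] with x h5 h6
  have e : ∑ m ∈ Finset.Icc 1 x, w m * g ⌊α * (m : ℝ) ^ c⌋₊ - ∫ t in (0 : ℝ)..x, g ⌊α * t ^ c⌋₊ =
      (TS w (fun m => max (g m) 0) c α x - TI (fun m => max (g m) 0) c α x) -
      (TS w (fun m => max (-g m) 0) c α x - TI (fun m => max (-g m) 0) c α x) := by
    unfold TS TI
    have e1 : ∑ m ∈ Finset.Icc 1 x, w m * g ⌊α * (m : ℝ) ^ c⌋₊ =
        ∑ m ∈ Finset.Icc 1 x, w m * max (g ⌊α * (m : ℝ) ^ c⌋₊) 0 -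
        ∑ m ∈ Finset.Icc 1 x, w m * max (-g ⌊α * (m : ℝ) ^ c⌋₊) 0 := by
      rw [← Finset.sum_sub_distrib]
      refine Finset.sum_congr rfl fun m _ => ?_
      rw [← mul_sub, ← hsub]
    have e2 : ∫ t in (0 : ℝ)..x, g ⌊α * t ^ c⌋₊ = (∫ t in (0 : ℝ)..x, max (g ⌊α * t ^ c⌋₊) 0) -
        ∫ t in (0 : ℝ)..x, max (-g ⌊α * t ^ c⌋₊) 0 := by
      rw [← intervalIntegral.integral_sub (gfun_int hp hc hα le_rfl (by positivity))
        (gfun_int hn hc hα le_rfl (by positivity))]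
      exact intervalIntegral.integral_congr fun t _ => hsub _
    rw [e1, e2]
    ring
  rw [e]
  refine (abs_sub _ _).trans ?_
  rw [add_mul]
  exact add_le_add h5 h6

end Pool.Agent.V7H21.MP
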