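import Pool.Agent.V7H21.MP.Tr3

/-!
# Lower bounds for the integrals
-/

set_option autoImplicit false

namespace Pool.Agent.V7H21.MP

open MeasureTheory Filter
open scoped Topology ENNReal

lemma floor_int {B : ℕ} {g : ℕ → ℝ} (hg : Wu B g) {x y : ℝ} (h0 : 0 ≤ x) (h1 : 0 ≤ y) :
    IntervalIntegrable (fun u : ℝ => g ⌊u⌋₊) volume x y := by
  have h := gfun_int hg (c := 1) (α := 1) one_pos one_pos h0 h1
  simpa using h

lemma floor_one (g : ℕ → ℝ) (n : ℕ) : ∫ u in (n : ℝ)..((n + 1 : ℕ) : ℝ), g ⌊u⌋₊ = g n := by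
  have hle : (n : ℝ) ≤ ((n + 1 : ℕ) : ℝ) := by
    push_cast
    linarith
  rw [intervalIntegral.integral_of_le hle, integral_Ioc_eq_integral_Ioo]
  have h1 : ∫ u in Set.Ioo (n : ℝ) ((n + 1 : ℕ) : ℝ), g ⌊u⌋₊ = ∫ _u in Set.Ioo (n : ℝ) ((n + 1 : ℕ) : ℝ), g n := by
    refine setIntegral_congr_fun measurableSet_Ioo fun u hu => ?_
    have h2 : ⌊u⌋₊ = n := by
      rw [Nat.floor_eq_iff ((Nat.cast_nonneg n).trans hu.1.le)]
      have h3 := hu.2
      push_cast at h3
      exact ⟨hu.1.le, h3⟩
    simp only [h2]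
  rw [h1]
  simp

lemma floor_sum {B : ℕ} {g : ℕ → ℝ} (hg : Wu B g) (a b : ℕ) (h : a ≤ b) :
    ∫ u in (a : ℝ)..b, g ⌊u⌋₊ = ∑ n ∈ Finset.Ico a b, g n := by
  induction b, h using Nat.le_induction with
  | base => simp
  | succ b hb ih =>
    rw [Finset.sum_Ico_succ_top hb, ← ih, ← floor_one g b,
      intervalIntegral.integral_add_adjacent_intervals]
    · exact floor_int hg (by positivity) (by positivity)
    · exact floor_int hg (by positivity) (by positivity)

/-- the change of variables, as an inequality -/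
lemma change {B : ℕ} {g : ℕ → ℝ} (hg : Wu B g) {c α : ℝ} (hc : 0 < c) (hα : 0 < α) {s x M : ℝ}
    (hs : 0 < s) (hsx : s ≤ x) (hM : ∀ t ∈ Set.Icc s x, α * (c * t ^ (c - 1)) ≤ M) :
    ∫ u in (α * s ^ c)..(α * x ^ c), g ⌊u⌋₊ ≤ M * ∫ t in (0 : ℝ)..x, g ⌊α * t ^ c⌋₊ := by
  have hx : 0 < x := by linarith
  have hmono : StrictMonoOn (fun t : ℝ => α * t ^ c) (Set.Ici 0) := by
    intro a ha b _ hab
    simp only
    have := Real.rpow_lt_rpow ha hab hc
    gcongr
  have hle : α * s ^ c ≤ α * x ^ c := by gcongr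
  have himg : (fun t : ℝ => α * t ^ c) '' Set.Icc s x = Set.Icc (α * s ^ c) (α * x ^ c) := by
    ext u
    constructor
    · rintro ⟨t, ht, rfl⟩
      have ht0 : 0 < t := lt_of_lt_of_le hs ht.1
      simp only
      constructor
      · have := ht.1
        gcongr
      · have := ht.2
        gcongr
    · intro hu
      have hu0 : 0 < u := lt_of_lt_of_le (by positivity) hu.1
      refine ⟨(u / α) ^ (1 / c), ⟨?_, ?_⟩, ?_⟩
      · calc s = (s ^ c) ^ (1 / c) := by
              rw [← Real.rpow_mul hs.le, mul_one_div_cancel hc.ne', Real.rpow_one]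
          _ ≤ (u / α) ^ (1 / c) := by
              apply Real.rpow_le_rpow (by positivity) _ (by positivity)
              rw [le_div_iff₀ hα]
              linarith [hu.1]
      · calc (u / α) ^ (1 / c) ≤ (x ^ c) ^ (1 / c) := by
              apply Real.rpow_le_rpow (by positivity) _ (by positivity)
              rw [div_le_iff₀ hα]
              linarith [hu.2]
          _ = x := by
              rw [← Real.rpow_mul hx.le, mul_one_div_cancel hc.ne', Real.rpow_one]
      · simp only
        rw [← Real.rpow_mul (by positivity), one_div_mul_cancel hc.ne', Real.rpow_one]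
        field_simp
  have hder : ∀ t ∈ Set.Icc s x, HasDerivWithinAt (fun t : ℝ => α * t ^ c) (α * (c * t ^ (c - 1)))
      (Set.Icc s x) t := by
    intro t ht
    have ht0 : 0 < t := lt_of_lt_of_le hs ht.1
    exact ((Real.hasDerivAt_rpow_const (Or.inl ht0.ne')).const_mul α).hasDerivWithinAt
  have hinj : Set.InjOn (fun t : ℝ => α * t ^ c) (Set.Icc s x) :=
    hmono.injOn.mono fun t ht => hs.le.trans ht.1
  rw [intervalIntegral.integral_of_le hle, ← integral_Icc_eq_integral_Ioc, ← himg,
    integral_image_eq_integral_abs_deriv_smul measurableSet_Icc hder hinj]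
  have hint : IntegrableOn (fun t : ℝ => g ⌊α * t ^ c⌋₊) (Set.Icc s x) := by
    rw [← intervalIntegrable_iff_integrableOn_Icc_of_le hsx]
    exact gfun_int hg hc hα hs.le hx.le
  have hM0 : 0 ≤ M := le_trans (by positivity) (hM x ⟨hsx, le_rfl⟩)
  calc ∫ t in Set.Icc s x, |α * (c * t ^ (c - 1))| • g ⌊(fun t : ℝ => α * t ^ c) t⌋₊ ≤
      ∫ t in Set.Icc s x, M * g ⌊α * t ^ c⌋₊ := by
        refine integral_mono_of_nonneg ?_ (hint.const_mul M) ?_
        · exact Eventually.of_forall fun t => smul_nonneg (abs_nonneg _) (hg.nn _)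
        · refine ae_restrict_of_forall_mem measurableSet_Icc fun t ht => ?_
          have ht0 : 0 < t := lt_of_lt_of_le hs ht.1
          simp only [smul_eq_mul]
          rw [abs_of_nonneg (by positivity)]
          exact mul_le_mul_of_nonneg_right (hM t ht) (hg.nn _)
    _ = M * ∫ t in Set.Icc s x, g ⌊α * t ^ c⌋₊ := integral_const_mul _ _
    _ ≤ M * ∫ t in (0 : ℝ)..x, g ⌊α * t ^ c⌋₊ := by
        apply mul_le_mul_of_nonneg_left _ hM0
        rw [integral_Icc_eq_integral_Ioc, ← intervalIntegral.integral_of_le hsx,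
          ← intervalIntegral.integral_add_adjacent_intervals (gfun_int hg hc hα le_rfl hs.le)
            (gfun_int hg hc hα hs.le hx.le)]
        have : 0 ≤ ∫ t in (0 : ℝ)..s, g ⌊α * t ^ c⌋₊ :=
          intervalIntegral.integral_nonneg hs.le fun t _ => hg.nn _
        linarith

end Pool.Agent.V7H21.MP
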