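import Pool.Agent.V7H21.MP.Tr4
import Pool.Agent.V7H21.MP.Sets

/-!
# Sets with at least `y / log ^ D y` elements
-/

set_option autoImplicit false

namespace Pool.Agent.V7H21.MP

open MeasureTheory Filter
open scoped Topology ENNReal

lemma log_div_inf (D : ℕ) : Tendsto (fun y : ℕ => (y : ℝ) / (Real.log y) ^ D) atTop atTop := by
  rw [tendsto_atTop]
  intro b
  filter_upwards [ev_pow (D + 1) (c := 1) one_pos, ev_log 1, ev_log b] with y h1 l1 l2
  rw [Real.rpow_one] at h1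
  rw [le_div_iff₀ (by positivity)]
  calc b * (Real.log y) ^ D ≤ Real.log y * (Real.log y) ^ D := by gcongr
    _ = (Real.log y) ^ (D + 1) := by ring
    _ ≤ y := h1

lemma low {B : ℕ} {g : ℕ → ℝ} (hg : Wu B g) (D : ℕ)
    (h : ∀ᶠ y : ℕ in atTop, (y : ℝ) / (Real.log y) ^ D ≤ ∑ n ∈ Finset.Ico 0 y, g n) {c α : ℝ} (hc : 1 ≤ c)
    (hα : 0 < α) : ∀ᶠ x : ℕ in atTop, (x : ℝ) / (Real.log x) ^ (D + 1) ≤
      ∫ t in (0 : ℝ)..x, g ⌊α * t ^ c⌋₊ := by
  have hc0 : 0 < c := by linarith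
  set a : ℕ := ⌈α⌉₊ with ha
  set S0 : ℝ := ∑ n ∈ Finset.Ico 0 a, g n with hS0
  have hXt : Tendsto (fun x : ℕ => α * (x : ℝ) ^ c) atTop atTop :=
    ((tendsto_rpow_atTop hc0).comp tendsto_natCast_atTop_atTop).const_mul_atTop hα
  have hyt : Tendsto (fun x : ℕ => ⌊α * (x : ℝ) ^ c⌋₊) atTop atTop := tendsto_nat_floor_atTop.comp hXt
  filter_upwards [hyt.eventually h, hyt.eventually ((log_div_inf D).eventually_ge_atTop (2 * S0)),
    hyt.eventually_ge_atTop a, hyt.eventually_ge_atTop 2, eventually_ge_atTop 1,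
    ev_log (|Real.log α|), ev_log 1, ev_log (4 * c * (2 * c) ^ D)] with x h1 h2 h3 h4 hx l1 l2 l3
  set y : ℕ := ⌊α * (x : ℝ) ^ c⌋₊ with hy
  have hx0 : (0 : ℝ) < x := by exact_mod_cast hx
  have hx1 : (1 : ℝ) ≤ x := by exact_mod_cast hx
  set L := Real.log x with hL
  have hL0 : 0 < L := by linarith
  have hX0 : 0 < α * (x : ℝ) ^ c := by positivity
  have hyX : (y : ℝ) ≤ α * (x : ℝ) ^ c := Nat.floor_le hX0.le
  have hXy : α * (x : ℝ) ^ c ≤ 2 * y := by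
    have h5 : α * (x : ℝ) ^ c < y + 1 := Nat.lt_floor_add_one _
    have h6 : (2 : ℝ) ≤ y := by exact_mod_cast h4
    linarith
  have hy2 : (2 : ℝ) ≤ y := by exact_mod_cast h4
  have hy0 : (0 : ℝ) < y := by linarith
  have hlogy0 : 0 < Real.log y := Real.log_pos (by linarith)
  have hlogy : Real.log y ≤ 2 * c * L := by
    have h5 := Real.log_le_log hy0 hyX
    rw [Real.log_mul hα.ne' (by positivity), Real.log_rpow hx0] at h5
    have h6 := le_abs_self (Real.log α)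
    nlinarith
  have e1 : ∑ n ∈ Finset.Ico 0 y, g n = S0 + ∑ n ∈ Finset.Ico a y, g n :=
    (Finset.sum_Ico_consecutive g (Nat.zero_le a) h3).symm
  have k1 : (y : ℝ) / (Real.log y) ^ D / 2 ≤ ∑ n ∈ Finset.Ico a y, g n := by
    rw [e1] at h1
    linarith
  have haα : α ≤ a := Nat.le_ceil α
  have hay : (a : ℝ) ≤ y := by exact_mod_cast h3
  have k2 : ∑ n ∈ Finset.Ico a y, g n ≤ ∫ u in α..(α * (x : ℝ) ^ c), g ⌊u⌋₊ := by
    rw [← floor_sum hg a y h3]
    have i1 : ∫ u in α..(α * (x : ℝ) ^ c), g ⌊u⌋₊ = (∫ u in α..(a : ℝ), g ⌊u⌋₊) +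
        (∫ u in (a : ℝ)..y, g ⌊u⌋₊) + ∫ u in (y : ℝ)..(α * (x : ℝ) ^ c), g ⌊u⌋₊ := by
      rw [intervalIntegral.integral_add_adjacent_intervals, intervalIntegral.integral_add_adjacent_intervals]
      all_goals exact floor_int hg (by positivity) (by positivity)
    rw [i1]
    have i2 : 0 ≤ ∫ u in α..(a : ℝ), g ⌊u⌋₊ := intervalIntegral.integral_nonneg haα fun t _ => hg.nn _
    have i3 : 0 ≤ ∫ u in (y : ℝ)..(α * (x : ℝ) ^ c), g ⌊u⌋₊ :=
      intervalIntegral.integral_nonneg hyX fun t _ => hg.nn _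
    linarith
  have k3 := change hg hc0 hα (s := 1) (x := x) (M := α * (c * (x : ℝ) ^ (c - 1))) one_pos hx1 (fun t ht => by
    have h5 : t ^ (c - 1) ≤ (x : ℝ) ^ (c - 1) :=
      Real.rpow_le_rpow (by linarith [ht.1]) ht.2 (by linarith)
    gcongr)
  rw [Real.one_rpow, mul_one] at k3
  have hM0 : 0 < α * (c * (x : ℝ) ^ (c - 1)) := by positivity
  have k4 : (y : ℝ) / (Real.log y) ^ D / 2 ≤ α * (c * (x : ℝ) ^ (c - 1)) *
      ∫ t in (0 : ℝ)..x, g ⌊α * t ^ c⌋₊ := k1.trans (k2.trans k3)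
  have k5 : α * (c * (x : ℝ) ^ (c - 1)) * (x / L ^ (D + 1)) ≤ (y : ℝ) / (Real.log y) ^ D / 2 := by
    have e2 : (x : ℝ) ^ (c - 1) * x = (x : ℝ) ^ c := by
      rw [← Real.rpow_add_one hx0.ne']
      congr 1
      ring
    calc α * (c * (x : ℝ) ^ (c - 1)) * (x / L ^ (D + 1)) =
        c * (α * ((x : ℝ) ^ (c - 1) * x)) / L ^ (D + 1) := by ring
      _ = c * (α * (x : ℝ) ^ c) / L ^ (D + 1) := by rw [e2]
      _ ≤ c * (2 * y) / L ^ (D + 1) := by gcongr
      _ = (y : ℝ) * (4 * c * (2 * c) ^ D) / (2 * ((2 * c) ^ D * L ^ (D + 1))) := by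
          field_simp
          ring
      _ ≤ (y : ℝ) * L / (2 * ((2 * c) ^ D * L ^ (D + 1))) := by gcongr
      _ = (y : ℝ) / (2 * c * L) ^ D / 2 := by
          rw [mul_pow (2 * c) L D]
          field_simp
          ring
      _ ≤ (y : ℝ) / (Real.log y) ^ D / 2 := by gcongr
  exact le_of_mul_le_mul_left (k5.trans k4) hM0

/-- both forms of the transference theorem at the same time -/
theorem transfer2 (g : ℕ → ℝ) (B : ℕ) (hg : ∀ n, |g n| ≤ (1 + Real.log n) ^ B) {c : ℝ} (hc : 0 < c) :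
    ∀ᵐ α : ℝ, 0 < α → ∀ K : ℕ, ∃ C : ℝ, ∀ᶠ x : ℕ in atTop,
    |∑ m ∈ Finset.Icc 1 x, g ⌊α * (m : ℝ) ^ c⌋₊ - ∫ t in (0 : ℝ)..x, g ⌊α * t ^ c⌋₊| ≤
      C * (x / (Real.log x) ^ K) ∧
    |∑ m ∈ Finset.Icc 1 x, theta m * g ⌊α * (m : ℝ) ^ c⌋₊ - ∫ t in (0 : ℝ)..x, g ⌊α * t ^ c⌋₊| ≤
      C * (x / (Real.log x) ^ K) := by
  filter_upwards [transfer Wt.one g B hg hc, transfer Wt.th g B hg hc] with α h1 h2 hα K
  obtain ⟨C1, h3⟩ := h1 hα K
  obtain ⟨C2, h4⟩ := h2 hα K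
  refine ⟨max C1 C2, ?_⟩
  filter_upwards [h3, h4, ev_log 1] with x h5 h6 l1
  have h7 : 0 ≤ (x : ℝ) / (Real.log x) ^ K := by positivity
  refine ⟨?_, ?_⟩
  · refine le_trans ?_ (h5.trans (mul_le_mul_of_nonneg_right (le_max_left _ _) h7))
    simp
  · exact h6.trans (mul_le_mul_of_nonneg_right (le_max_right _ _) h7)

open Classical in
/-- **Sets with many elements.** -/
theorem transfer_set (E : Set ℕ) (D : ℕ)
    (hE : ∀ᶠ y : ℕ in atTop, (y : ℝ) / (Real.log y) ^ D ≤ (((Finset.Ico 0 y).filter fun n => n ∈ E).card : ℝ))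
    {c : ℝ} (hc : 1 ≤ c) :
    ∀ᵐ α : ℝ, 0 < α → ∀ᶠ x : ℕ in atTop,
      (x : ℝ) / (Real.log x) ^ (D + 3) ≤ count {m | ⌊α * (m : ℝ) ^ c⌋₊ ∈ E} x ∧
      (x : ℝ) / (Real.log x) ^ (D + 3) ≤ count {m | m.Prime ∧ ⌊α * (m : ℝ) ^ c⌋₊ ∈ E} x := by
  have hc0 : 0 < c := by linarith
  set g : ℕ → ℝ := fun n => if n ∈ E then 1 else 0 with hg
  have hW : Wu 0 g := ⟨fun m => by
      simp only [hg]
      split_ifs <;> norm_num, fun m => by
      simp only [hg]
      split_ifs <;> norm_num⟩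
  have habs : ∀ n, |g n| ≤ (1 + Real.log n) ^ 0 := fun n => by
    rw [abs_of_nonneg (hW.nn n)]
    exact hW.le n
  have hsum : ∀ᶠ y : ℕ in atTop, (y : ℝ) / (Real.log y) ^ D ≤ ∑ n ∈ Finset.Ico 0 y, g n := by
    filter_upwards [hE] with y hy
    refine hy.trans (le_of_eq ?_)
    simp only [hg]
    rw [Finset.sum_ite, Finset.sum_const_zero, add_zero, Finset.sum_const, nsmul_eq_mul, mul_one]
  filter_upwards [transfer2 g 0 habs hc0] with α h1 hα
  obtain ⟨C, h2⟩ := h1 hα (D + 2)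
  filter_upwards [h2, low hW D hsum hc hα, ev_log 2, ev_log (2 * C), eventually_ge_atTop 1] with
    x h3 h4 l1 l2 hx
  obtain ⟨h5, h6⟩ := h3
  have hx0 : (0 : ℝ) < x := by exact_mod_cast hx
  set L := Real.log x with hL
  have hL0 : 0 < L := by linarith
  set J := ∫ t in (0 : ℝ)..x, g ⌊α * t ^ c⌋₊ with hJ
  have k1 : C * (x / L ^ (D + 2)) ≤ x / L ^ (D + 1) / 2 := by
    calc C * (x / L ^ (D + 2)) = (2 * C) * (x / L ^ (D + 2)) / 2 := by ring
      _ ≤ L * (x / L ^ (D + 2)) / 2 := by gcongr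
      _ = _ := by
          field_simp
          ring
  have k2 : (x : ℝ) / L ^ (D + 3) ≤ x / L ^ (D + 2) / 2 := by
    have e : (x : ℝ) / L ^ (D + 2) = L * (x / L ^ (D + 3)) := by
      field_simp
      ring
    rw [e]
    have : 0 < (x : ℝ) / L ^ (D + 3) := by positivity
    nlinarith
  have k3 : (x : ℝ) / L ^ (D + 2) / 2 ≤ x / L ^ (D + 1) / 2 := by
    gcongr (x : ℝ) / ?_ / 2
    exact pow_le_pow_right₀ (by linarith) (by omega)
  constructor
  · have e1 : (count {m | ⌊α * (m : ℝ) ^ c⌋₊ ∈ E} x : ℝ) =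
        ∑ m ∈ Finset.Icc 1 x, g ⌊α * (m : ℝ) ^ c⌋₊ := by
      unfold count
      simp only [hg, Set.mem_setOf_eq]
      rw [Finset.sum_ite, Finset.sum_const_zero, add_zero, Finset.sum_const, nsmul_eq_mul, mul_one]
    rw [e1]
    have := (abs_le.1 h5).1
    linarith
  · have e1 : ∑ m ∈ Finset.Icc 1 x, theta m * g ⌊α * (m : ℝ) ^ c⌋₊ ≤
        L * (count {m | m.Prime ∧ ⌊α * (m : ℝ) ^ c⌋₊ ∈ E} x : ℝ) := by
      have e2 : (count {m | m.Prime ∧ ⌊α * (m : ℝ) ^ c⌋₊ ∈ E} x : ℝ) =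
          ∑ m ∈ Finset.Icc 1 x, if m.Prime ∧ ⌊α * (m : ℝ) ^ c⌋₊ ∈ E then (1 : ℝ) else 0 := by
        unfold count
        simp only [Set.mem_setOf_eq]
        rw [Finset.sum_ite, Finset.sum_const_zero, add_zero, Finset.sum_const, nsmul_eq_mul, mul_one]
      rw [e2, Finset.mul_sum]
      refine Finset.sum_le_sum fun m hm => ?_
      rw [Finset.mem_Icc] at hm
      have h7 : Real.log m ≤ L :=
        Real.log_le_log (by exact_mod_cast hm.1) (by exact_mod_cast hm.2)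
      by_cases hp : m.Prime
      · by_cases hmE : ⌊α * (m : ℝ) ^ c⌋₊ ∈ E
        · rw [if_pos ⟨hp, hmE⟩]
          simp only [hg, if_pos hmE, mul_one]
          exact (theta_le m).trans h7
        · rw [if_neg (fun h => hmE h.2)]
          simp only [hg, if_neg hmE, mul_zero]
          exact le_rfl
      · rw [if_neg (fun h => hp h.1)]
        have : theta m = 0 := if_neg hp
        rw [this]
        simp
    have h8 := (abs_le.1 h6).1
    have h9 : (x : ℝ) / L ^ (D + 1) / 2 ≤ L * (count {m | m.Prime ∧ ⌊α * (m : ℝ) ^ c⌋₊ ∈ E} x : ℝ) := by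
      linarith
    have h10 : L * ((x : ℝ) / L ^ (D + 3)) ≤ x / L ^ (D + 1) / 2 := by
      have e3 : L * ((x : ℝ) / L ^ (D + 3)) = x / L ^ (D + 2) := by
        field_simp
        ring
      have e4 : (x : ℝ) / L ^ (D + 1) = L * (x / L ^ (D + 2)) := by
        field_simp
        ring
      rw [e3, e4]
      have : 0 < (x : ℝ) / L ^ (D + 2) := by positivity
      nlinarith
    exact le_of_mul_le_mul_left (h10.trans h9) hL0

end Pool.Agent.V7H21.MP
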