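import Pool.Agent.V7H21.MP.Eq

/-!
# Means along generic power sequences
-/

set_option autoImplicit false

namespace Pool.Agent.V7H21.MP

open MeasureTheory Filter
open scoped Topology ENNReal

lemma sum_int {B : ℕ} {g : ℕ → ℝ} (hg : Wu B g) (y : ℕ) :
    ∑ n ∈ Finset.range y, g n = ∫ v in (0 : ℝ)..y, g ⌊v⌋₊ := by
  have h := floor_sum hg 0 y (Nat.zero_le _)
  rw [Nat.cast_zero] at h
  rw [h, Finset.range_eq_Ico]

/-- real and integral variables -/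
lemma nat_iff {F : ℝ → ℝ} (hF : MonotoneOn F (Set.Ici 0)) (S : ℝ) :
    Tendsto (fun n : ℕ => F n / n) atTop (𝓝 S) ↔ Tendsto (fun s : ℝ => F s / s) atTop (𝓝 S) :=
  ⟨nat_real hF, fun h => h.comp tendsto_natCast_atTop_atTop⟩

lemma close {T V : ℕ → ℝ} (h : ∃ C : ℝ, ∀ᶠ x : ℕ in atTop, |T x - V x| ≤ C * (x / (Real.log x) ^ 1)) (S : ℝ) :
    Tendsto (fun x : ℕ => T x / x) atTop (𝓝 S) ↔ Tendsto (fun x : ℕ => V x / x) atTop (𝓝 S) := by
  obtain ⟨C, hC⟩ := h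
  have h1 : Tendsto (fun x : ℕ => T x / x - V x / x) atTop (𝓝 0) := by
    have h2 : Tendsto (fun x : ℕ => C * (Real.log x)⁻¹) atTop (𝓝 (C * 0)) :=
      (tendsto_inv_atTop_zero.comp (Real.tendsto_log_atTop.comp tendsto_natCast_atTop_atTop)).const_mul C
    rw [mul_zero] at h2
    apply squeeze_zero_norm' _ h2
    filter_upwards [hC, eventually_ge_atTop 1, ev_log 1] with x hx hx1 l1
    have hx0 : (0 : ℝ) < x := by exact_mod_cast hx1
    rw [pow_one] at hx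
    rw [← sub_div, Real.norm_eq_abs, abs_div, abs_of_pos hx0, div_le_iff₀ hx0]
    refine hx.trans (le_of_eq ?_)
    field_simp
  constructor
  · intro h2
    have := h2.sub h1
    rw [sub_zero] at this
    refine this.congr fun x => ?_
    ring
  · intro h2
    have := h2.add h1
    rw [add_zero] at this
    refine this.congr fun x => ?_
    ring

/-- **Means along generic power sequences.** -/
theorem mean_ae {B : ℕ} {g : ℕ → ℝ} (hg : Wu B g) {c : ℝ} (hc : 1 ≤ c) : ∀ᵐ α : ℝ, 0 < α → ∀ S : ℝ,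
    (Tendsto (fun x : ℕ => (∑ m ∈ Finset.Icc 1 x, g ⌊α * (m : ℝ) ^ c⌋₊) / x) atTop (𝓝 S) ↔
      Tendsto (fun y : ℕ => (∑ n ∈ Finset.range y, g n) / y) atTop (𝓝 S)) ∧
    (Tendsto (fun x : ℕ => (∑ m ∈ Finset.Icc 1 x, theta m * g ⌊α * (m : ℝ) ^ c⌋₊) / x) atTop (𝓝 S) ↔
      Tendsto (fun y : ℕ => (∑ n ∈ Finset.range y, g n) / y) atTop (𝓝 S)) := by
  have hc0 : 0 < c := by linarith
  filter_upwards [transfer2 g B (fun n => by
    rw [abs_of_nonneg (hg.nn n)]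
    exact hg.le n) hc0] with α h1 hα S
  have hm1 : MonotoneOn (fun s : ℝ => ∫ t in (0 : ℝ)..s, g ⌊α * t ^ c⌋₊) (Set.Ici 0) :=
    prim_mono (fun t => hg.nn _) fun x y hx hy => gfun_int hg hc0 hα hx hy
  have hm2 : MonotoneOn (fun s : ℝ => ∫ t in (0 : ℝ)..s, g ⌊t⌋₊) (Set.Ici 0) :=
    prim_mono (fun t => hg.nn _) fun x y hx hy => floor_int hg hx hy
  obtain ⟨C, h2⟩ := h1 hα 1
  have e1 : Tendsto (fun y : ℕ => (∑ n ∈ Finset.range y, g n) / y) atTop (𝓝 S) ↔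
      Tendsto (fun x : ℕ => (∫ t in (0 : ℝ)..x, g ⌊α * t ^ c⌋₊) / x) atTop (𝓝 S) := by
    have a1 := nat_iff hm1 S
    have a2 := nat_iff hm2 S
    rw [a1, ← mean_iff hg hc hα S, ← a2]
    simp only [sum_int hg]
  rw [e1]
  exact ⟨close ⟨C, h2.mono fun x hx => hx.1⟩ S, close ⟨C, h2.mono fun x hx => hx.2⟩ S⟩

end Pool.Agent.V7H21.MP
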