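import Pool.Agent.V7H21.MP.Wt

/-!
# Step functions on the logarithmic scale
-/

set_option autoImplicit false

namespace Pool.Agent.V7H21.MP

open MeasureTheory Complex Filter FourierTransform
open scoped Topology ENNReal

/-- the step function `v ↦ g (⌊exp v⌋)` -/
noncomputable def st (g : ℕ → ℂ) (v : ℝ) : ℂ := g ⌊Real.exp v⌋₊

lemma floor_exp_eq {n : ℕ} (hn : 0 < n) (v : ℝ) :
    ⌊Real.exp v⌋₊ = n ↔ v ∈ Set.Ico (Real.log n) (Real.log (n + 1 : ℕ)) := by
  have hn0 : (0 : ℝ) < n := by exact_mod_cast hn
  rw [Nat.floor_eq_iff (Real.exp_pos v).le, Set.mem_Ico, Real.log_le_iff_le_exp hn0,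
    Real.lt_log_iff_exp_lt (by positivity)]
  push_cast
  rfl

lemma st_bs {g : ℕ → ℂ} {G : ℝ} {P Q : ℕ} (hG : ∀ n, ‖g n‖ ≤ G) (hP : 1 ≤ P)
    (hg : ∀ n, ¬ (P ≤ n ∧ n < Q) → g n = 0) (hQ : 1 ≤ Q) {R : ℝ} (hR : Real.log Q ≤ R) : Bs G R (st g) where
  meas := by
    unfold st
    have h1 : Measurable g := measurable_from_nat
    exact h1.comp (Nat.measurable_floor.comp Real.measurable_exp)
  bd := fun v => hG _
  supp := by
    intro v hv
    unfold st
    apply hg
    rintro ⟨h1, h2⟩
    have hR0 : 0 ≤ Real.log Q := Real.log_natCast_nonneg Q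
    rw [lt_abs] at hv
    rcases hv with hv | hv
    · have h3 : Real.exp v < Q := by
        by_contra hc
        push Not at hc
        have := Nat.le_floor hc
        omega
      have h4 : v < Real.log Q := by
        rw [Real.lt_log_iff_exp_lt (by exact_mod_cast hQ)]
        exact h3
      linarith
    · have h3 : (1 : ℝ) ≤ Real.exp v := by
        have : 1 ≤ ⌊Real.exp v⌋₊ := by omega
        exact (Nat.one_le_floor_iff _).1 this
      have : Real.exp v < 1 := by
        rw [Real.exp_lt_one_iff]
        linarith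
      linarith

/-- the modulus of continuity -/
lemma st_mod {g : ℕ → ℂ} {G : ℝ} {P Q : ℕ} (hG : ∀ n, ‖g n‖ ≤ G)
    (hg : ∀ n, ¬ (P ≤ n ∧ n < Q) → g n = 0) {s : ℝ} (hs : 0 ≤ s) :
    ∫⁻ v, ‖st g (v + s) - st g v‖ₑ ^ 2 ≤ ENNReal.ofReal (4 * G ^ 2 * Q * s) := by
  have hG0 : 0 ≤ G := (norm_nonneg _).trans (hG 0)
  have h1 : ∀ v, ‖st g (v + s) - st g v‖ₑ ^ 2 ≤ ∑ n ∈ Finset.Icc 1 Q,
      (Set.Ico (Real.log n - s) (Real.log n)).indicator (fun _ => ENNReal.ofReal (4 * G ^ 2)) v := by
    intro v
    have hb : ‖st g (v + s) - st g v‖ₑ ^ 2 ≤ ENNReal.ofReal (4 * G ^ 2) := by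
      rw [← ofReal_norm, ← ENNReal.ofReal_pow (norm_nonneg _)]
      apply ENNReal.ofReal_le_ofReal
      have : ‖st g (v + s) - st g v‖ ≤ 2 * G := by
        refine (norm_sub_le _ _).trans ?_
        have a1 : ‖st g (v + s)‖ ≤ G := hG _
        have a2 : ‖st g v‖ ≤ G := hG _
        linarith
      calc ‖st g (v + s) - st g v‖ ^ 2 ≤ (2 * G) ^ 2 := by gcongr
        _ = _ := by ring
    by_cases hex : ∃ n ∈ Finset.Icc 1 Q, v ∈ Set.Ico (Real.log n - s) (Real.log n)
    · obtain ⟨n, hn, hv⟩ := hex
      refine le_trans ?_ (Finset.single_le_sum (f := fun n : ℕ =>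
        (Set.Ico (Real.log n - s) (Real.log n)).indicator (fun _ => ENNReal.ofReal (4 * G ^ 2)) v)
        (fun _ _ => bot_le) hn)
      rw [Set.indicator_of_mem hv]
      exact hb
    · have hz : st g (v + s) = st g v := by
        by_contra hne
        apply hex
        unfold st at hne
        set k := ⌊Real.exp v⌋₊ with hk
        set k' := ⌊Real.exp (v + s)⌋₊ with hk'
        have hkk : k ≤ k' := Nat.floor_le_floor (Real.exp_le_exp.2 (by linarith))
        have hkk2 : k ≠ k' := fun h => hne (by rw [h])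
        have hkk3 : k < k' := lt_of_le_of_ne hkk hkk2
        have main : ∀ n : ℕ, k < n → n ≤ k' → n ≤ Q →
            ∃ n ∈ Finset.Icc 1 Q, v ∈ Set.Ico (Real.log n - s) (Real.log n) := by
          intro n hn1 hn2 hn3
          have hn0 : (0 : ℝ) < n := by exact_mod_cast (by omega : 0 < n)
          refine ⟨n, Finset.mem_Icc.2 ⟨by omega, hn3⟩, ?_, ?_⟩
          · have : (n : ℝ) ≤ Real.exp (v + s) :=
              (by exact_mod_cast hn2 : (n : ℝ) ≤ k').trans (Nat.floor_le (Real.exp_pos _).le)
            have := (Real.log_le_iff_le_exp hn0).2 this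
            linarith
          · rw [Real.lt_log_iff_exp_lt hn0]
            exact (Nat.floor_lt (Real.exp_pos _).le).1 hn1
        by_cases hg1 : g k = 0
        · have hg2 : g k' ≠ 0 := by
            intro h
            exact hne (by rw [h, hg1])
          have h3 : k' < Q := by
            by_contra hc
            exact hg2 (hg _ (fun h => hc h.2))
          exact main k' hkk3 le_rfl h3.le
        · have h3 : k < Q := by
            by_contra hc
            exact hg1 (hg _ (fun h => hc h.2))
          exact main (k + 1) (by omega) (by omega) (by omega)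
      rw [hz, sub_self]
      simp
  calc ∫⁻ v, ‖st g (v + s) - st g v‖ₑ ^ 2 ≤ ∫⁻ v, ∑ n ∈ Finset.Icc 1 Q,
      (Set.Ico (Real.log n - s) (Real.log n)).indicator (fun _ => ENNReal.ofReal (4 * G ^ 2)) v :=
        lintegral_mono h1
    _ = ∑ n ∈ Finset.Icc 1 Q, ENNReal.ofReal (4 * G ^ 2) * ENNReal.ofReal s := by
        rw [lintegral_finsetSum _ (fun n _ => measurable_const.indicator measurableSet_Ico)]
        refine Finset.sum_congr rfl fun n _ => ?_
        rw [lintegral_indicator measurableSet_Ico, setLIntegral_const, Real.volume_Ico]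
        congr 2
        ring
    _ = ENNReal.ofReal (4 * G ^ 2 * Q * s) := by
        rw [Finset.sum_const, Nat.card_Icc, add_tsub_cancel_right, ← ENNReal.ofReal_mul (by positivity),
          ← ENNReal.ofReal_nsmul, nsmul_eq_mul]
        congr 1
        ring

/-- the integral of the oscillating function over a cell -/
noncomputable def J (τ y : ℝ) : ℂ := ∫ v in (0 : ℝ)..y, er (-(τ * v))

lemma J_norm (τ : ℝ) {y : ℝ} : ‖J τ y‖ ≤ |y| := by
  unfold J
  have := intervalIntegral.norm_integral_le_of_norm_le_const (a := 0) (b := y) (C := 1)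
    (f := fun v => er (-(τ * v))) (fun v _ => (er_norm _).le)
  simpa using this

lemma J_sub (τ y y' : ℝ) : ‖J τ y - J τ y'‖ ≤ |y - y'| := by
  unfold J
  have hi : ∀ a b : ℝ, IntervalIntegrable (fun v => er (-(τ * v))) volume a b := fun a b =>
    (er_continuous.comp (by fun_prop)).intervalIntegrable _ _
  rw [intervalIntegral.integral_interval_sub_left (hi _ _) (hi _ _)]
  have := intervalIntegral.norm_integral_le_of_norm_le_const (a := y') (b := y) (C := 1)
    (f := fun v => er (-(τ * v))) (fun v _ => (er_norm _).le)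
  simpa using this

/-- the Fourier transform of a step function -/
lemma st_four {g : ℕ → ℂ} {P Q : ℕ} (hP : 1 ≤ P)
    (hg : ∀ n, ¬ (P ≤ n ∧ n < Q) → g n = 0) (ξ : ℝ) :
    𝓕 (st g) ξ = ∑ n ∈ Finset.Ico P Q, g n * (er (-(2 * Real.pi * ξ * Real.log n)) *
      J (2 * Real.pi * ξ) (Real.log (n + 1 : ℕ) - Real.log n)) := by
  rw [four_eq]
  have h1 : ∀ v : ℝ, st g v * er (-(2 * Real.pi * ξ * v)) = ∑ n ∈ Finset.Ico P Q,
      g n * (Set.Ico (Real.log n) (Real.log (n + 1 : ℕ))).indicator
        (fun v => er (-(2 * Real.pi * ξ * v))) v := by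
    intro v
    unfold st
    set k := ⌊Real.exp v⌋₊ with hk
    by_cases hkP : P ≤ k ∧ k < Q
    · rw [Finset.sum_eq_single k]
      · rw [Set.indicator_of_mem ((floor_exp_eq (by omega) v).1 rfl)]
      · intro n hn hnk
        rw [Finset.mem_Ico] at hn
        rw [Set.indicator_of_notMem, mul_zero]
        intro h
        exact hnk ((floor_exp_eq (by omega) v).2 h).symm
      · intro h
        exact absurd (Finset.mem_Ico.2 hkP) h
    · rw [hg k hkP, zero_mul]
      symm
      apply Finset.sum_eq_zero
      intro n hn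
      rw [Finset.mem_Ico] at hn
      rw [Set.indicator_of_notMem, mul_zero]
      intro h
      have := (floor_exp_eq (by omega) v).2 h
      apply hkP
      rw [hk, this]
      exact hn
  simp only [h1]
  rw [integral_finsetSum]
  · refine Finset.sum_congr rfl fun n hn => ?_
    rw [Finset.mem_Ico] at hn
    have hn0 : (0 : ℝ) < n := by exact_mod_cast (by omega : 0 < n)
    have hle : Real.log n ≤ Real.log (n + 1 : ℕ) := by
      apply Real.log_le_log hn0
      push_cast
      linarith
    rw [integral_const_mul, integral_indicator measurableSet_Ico, integral_Ico_eq_integral_Ioc,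
      ← intervalIntegral.integral_of_le hle]
    congr 1
    unfold J
    rw [← intervalIntegral.integral_const_mul]
    have h3 := intervalIntegral.integral_comp_add_right (a := 0)
      (b := Real.log (n + 1 : ℕ) - Real.log n) (fun v => er (-(2 * Real.pi * ξ * v))) (Real.log n)
    rw [zero_add, sub_add_cancel] at h3
    rw [← h3]
    refine intervalIntegral.integral_congr fun v _ => ?_
    rw [← er_add]
    congr 1
    ring
  · intro n _
    apply Integrable.const_mul
    rw [integrable_indicator_iff measurableSet_Ico]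
    have : IsFiniteMeasure (volume.restrict (Set.Ico (Real.log n) (Real.log (n + 1 : ℕ)))) := ⟨by simp⟩
    refine Integrable.of_bound (C := 1) ?_ (ae_of_all _ fun v => (er_norm _).le)
    exact (er_measurable.comp (by fun_prop)).aestronglyMeasurable

end Pool.Agent.V7H21.MP
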