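import Pool.Agent.V7H21.MP.Lam

/-!
# Weights
-/

set_option autoImplicit false

namespace Pool.Agent.V7H21.MP

open MeasureTheory Complex Filter
open scoped Topology

/-- weights with small twisted sums -/
structure Wt (w : ℕ → ℝ) : Prop where
  nn : ∀ n, 0 ≤ w n
  le : ∀ n, w n ≤ 1 + Real.log n
  vk : VKb (fun n => (w n : ℂ) - 1)

lemma Wt.one : Wt (fun _ => 1) where
  nn := fun _ => zero_le_one
  le := fun n => by linarith [Real.log_natCast_nonneg n]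
  vk := by
    have : (fun n : ℕ => (((fun _ => 1 : ℕ → ℝ) n : ℝ) : ℂ) - 1) = fun _ => 0 := by
      ext n
      simp
    rw [this]
    exact VKb_zero

lemma Wt.th : Wt th where
  nn := th_nonneg
  le := fun n => by linarith [th_le_log n]
  vk := th_vk

lemma ev_log (C : ℝ) : ∀ᶠ N : ℕ in atTop, C ≤ Real.log N :=
  (Real.tendsto_log_atTop.comp tendsto_natCast_atTop_atTop).eventually_ge_atTop C

lemma ev_pow (K : ℕ) {c : ℝ} (hc : 0 < c) : ∀ᶠ N : ℕ in atTop, (Real.log N) ^ K ≤ (N : ℝ) ^ c := by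
  obtain ⟨D, hD, h⟩ := pow_small hc (K + 1)
  filter_upwards [ev_log D, ev_log 1, eventually_ge_atTop 2] with N h1 h2 h3
  have hN : (0 : ℝ) < N := by positivity
  have h4 := h N h3
  rw [Real.rpow_neg hN.le, le_div_iff₀ (by positivity), inv_mul_le_iff₀ (by positivity)] at h4
  have h5 : (Real.log N) ^ K * D ≤ (N : ℝ) ^ c * D := by
    calc (Real.log N) ^ K * D ≤ (Real.log N) ^ K * Real.log N := by gcongr
      _ = (Real.log N) ^ (K + 1) := by ring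
      _ ≤ _ := h4
  exact le_of_mul_le_mul_right h5 hD

/-- the start of the main range -/
noncomputable def y0 (K N : ℕ) : ℕ := ⌊(N : ℝ) / (Real.log N) ^ K⌋₊

lemma y0_le (K : ℕ) : ∀ᶠ N : ℕ in atTop, y0 K N ≤ N := by
  filter_upwards [ev_log 1] with N h1
  unfold y0
  apply Nat.floor_le_of_le
  exact div_le_self (by positivity) (one_le_pow₀ h1)

lemma y0_le' (K : ℕ) : ∀ N : ℕ, (y0 K N : ℝ) ≤ N / (Real.log N) ^ K := by
  intro N
  exact Nat.floor_le (div_nonneg (by positivity) (pow_nonneg (Real.log_natCast_nonneg N) _))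

lemma y0_ge (K : ℕ) : ∀ᶠ N : ℕ in atTop, √(N : ℝ) ≤ y0 K N := by
  filter_upwards [ev_pow K (c := 1 / 4) (by norm_num), eventually_ge_atTop 256, ev_log 1] with N h1 h2 h3
  have hN : (256 : ℝ) ≤ N := by exact_mod_cast h2
  have hN0 : (0 : ℝ) < N := by linarith
  unfold y0
  have h4 : √(N : ℝ) + 1 ≤ (N : ℝ) / (Real.log N) ^ K := by
    rw [le_div_iff₀ (by positivity)]
    set x : ℝ := (N : ℝ) ^ (1 / 4 : ℝ) with hx
    have hx0 : 0 < x := by positivity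
    have e1 : x ^ 4 = N := by
      rw [hx, ← Real.rpow_natCast, ← Real.rpow_mul hN0.le]
      norm_num
    have e2 : √(N : ℝ) = x ^ 2 := by
      rw [← e1, show x ^ 4 = (x ^ 2) ^ 2 by ring, Real.sqrt_sq (by positivity)]
    have e3 : 4 ≤ x := by
      by_contra hc
      push Not at hc
      have : x ^ 4 < 4 ^ 4 := by gcongr
      linarith
    rw [e2]
    calc (x ^ 2 + 1) * (Real.log N) ^ K ≤ (x ^ 2 + 1) * x := by gcongr
      _ ≤ x ^ 4 := by nlinarith [mul_pos hx0 hx0, mul_pos (mul_pos hx0 hx0) hx0]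
      _ = N := e1
  have h5 := Nat.lt_floor_add_one ((N : ℝ) / (Real.log N) ^ K)
  linarith

lemma half_log {N M : ℕ} (hN : 2 ≤ N) (hM : √(N : ℝ) ≤ M) : Real.log N / 2 ≤ Real.log M := by
  have hN0 : (0 : ℝ) < N := by positivity
  rw [← Real.log_sqrt hN0.le]
  exact Real.log_le_log (Real.sqrt_pos.2 hN0) hM

/-- a bound for all `N ≥ 2` and twists up to a power extends to `√N ≤ M ≤ N` -/
lemma VKb.ext {f : ℕ → ℂ} (hf : VKb f) (A K : ℕ) : ∃ C : ℝ, 0 ≤ C ∧ ∀ N : ℕ, 4 ≤ N → ∀ M ≤ N,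
    √(N : ℝ) ≤ M → ∀ t : ℝ, |t| ≤ (N : ℝ) ^ A →
    ‖∑ n ∈ Finset.Icc 1 M, f n * er (t * Real.log n)‖ ≤ C * N / (Real.log N) ^ K := by
  obtain ⟨C, hC, h⟩ := hf (2 * A) K
  refine ⟨C * 2 ^ K, by positivity, fun N hN M hMN hM t ht => ?_⟩
  have hN4 : (4 : ℝ) ≤ N := by exact_mod_cast hN
  have hM2 : 2 ≤ M := by
    have h1 : √(4 : ℝ) ≤ √(N : ℝ) := Real.sqrt_le_sqrt hN4
    have h2 : √(4 : ℝ) = 2 := by
      rw [show (4 : ℝ) = 2 ^ 2 by norm_num, Real.sqrt_sq (by norm_num)]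
    have h3 : (2 : ℝ) ≤ M := by linarith
    exact_mod_cast h3
  have hNM : (N : ℝ) ≤ (M : ℝ) ^ 2 := by
    calc (N : ℝ) = √(N : ℝ) ^ 2 := (Real.sq_sqrt (by linarith)).symm
      _ ≤ (M : ℝ) ^ 2 := by gcongr
  have h1 := h M t hM2 (by
    calc |t| ≤ (N : ℝ) ^ A := ht
      _ ≤ ((M : ℝ) ^ 2) ^ A := by gcongr
      _ = _ := by rw [← pow_mul])
  refine h1.trans ?_
  have hl : 0 < Real.log N := Real.log_pos (by linarith)
  have h2 := half_log (by omega) hM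
  have h3 : (M : ℝ) ≤ N := by exact_mod_cast hMN
  calc C * M / (Real.log M) ^ K ≤ C * N / (Real.log N / 2) ^ K := by gcongr
    _ = _ := by
      rw [div_pow]
      field_simp

lemma zeta_ext (A K : ℕ) : ∃ C : ℝ, 0 ≤ C ∧ ∀ N : ℕ, 4 ≤ N → ∀ M ≤ N,
    √(N : ℝ) ≤ M → ∀ t : ℝ, 1 ≤ |t| → |t| ≤ (N : ℝ) ^ A →
    ‖∑ n ∈ Finset.Icc 1 M, er (t * Real.log n)‖ ≤ C * (N / |t| + N / (Real.log N) ^ K) := by
  obtain ⟨C, hC, h⟩ := zeta_bound (2 * A) K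
  refine ⟨C * 2 ^ K, by positivity, fun N hN M hMN hM t ht1 ht => ?_⟩
  have hN4 : (4 : ℝ) ≤ N := by exact_mod_cast hN
  have hM2 : 2 ≤ M := by
    have h1 : √(4 : ℝ) ≤ √(N : ℝ) := Real.sqrt_le_sqrt hN4
    have h2 : √(4 : ℝ) = 2 := by
      rw [show (4 : ℝ) = 2 ^ 2 by norm_num, Real.sqrt_sq (by norm_num)]
    have h3 : (2 : ℝ) ≤ M := by linarith
    exact_mod_cast h3
  have hNM : (N : ℝ) ≤ (M : ℝ) ^ 2 := by
    calc (N : ℝ) = √(N : ℝ) ^ 2 := (Real.sq_sqrt (by linarith)).symm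
      _ ≤ (M : ℝ) ^ 2 := by gcongr
  have h1 := h M t hM2 ht1 (by
    calc |t| ≤ (N : ℝ) ^ A := ht
      _ ≤ ((M : ℝ) ^ 2) ^ A := by gcongr
      _ = _ := by rw [← pow_mul])
  refine h1.trans ?_
  have hl : 0 < Real.log N := Real.log_pos (by linarith)
  have h2 := half_log (by omega) hM
  have h3 : (M : ℝ) ≤ N := by exact_mod_cast hMN
  have h4 : (1 : ℝ) ≤ 2 ^ K := one_le_pow₀ (by norm_num)
  calc C * (M / |t| + M / (Real.log M) ^ K) ≤ C * (N / |t| + N / (Real.log N / 2) ^ K) := by gcongr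
    _ = C * (N / |t| + 2 ^ K * (N / (Real.log N) ^ K)) := by
      rw [div_pow]
      field_simp
    _ ≤ C * (2 ^ K * (N / |t|) + 2 ^ K * (N / (Real.log N) ^ K)) := by
      gcongr
      exact le_mul_of_one_le_left (by positivity) h4
    _ = _ := by ring

lemma Ioc_sub (f : ℕ → ℂ) {a b : ℕ} (h : a ≤ b) :
    ∑ n ∈ Finset.Ioc a b, f n = ∑ n ∈ Finset.Icc 1 b, f n - ∑ n ∈ Finset.Icc 1 a, f n := by
  rw [show Finset.Icc 1 b = Finset.Ioc 0 b by rfl, show Finset.Icc 1 a = Finset.Ioc 0 a by rfl,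
    ← Finset.sum_Ioc_consecutive f (Nat.zero_le a) h]
  ring

lemma Wt.small {w : ℕ → ℝ} (hw : Wt w) (A K K1 : ℕ) : ∀ᶠ N : ℕ in atTop, ∀ t : ℝ,
    (Real.log N) ^ (K + 1) ≤ |t| → |t| ≤ (N : ℝ) ^ A →
    ‖∑ m ∈ Finset.Ioc (y0 K1 N) N, (w m : ℂ) * er (t * Real.log m)‖ ≤ N / (Real.log N) ^ K := by
  obtain ⟨C1, hC1, h1⟩ := hw.vk.ext A (K + 1)
  obtain ⟨C2, hC2, h2⟩ := zeta_ext A (K + 1)
  filter_upwards [ev_log 1, ev_log (2 * (C1 + 2 * C2)), y0_le K1, y0_ge K1, eventually_ge_atTop 4]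
    with N l1 l2 y1 y2 hN t ht1 ht2
  have hN4 : (4 : ℝ) ≤ N := by exact_mod_cast hN
  have hl : 0 < Real.log N := by linarith
  have hs : √(N : ℝ) ≤ N := by
    rw [Real.sqrt_le_left (by linarith)]
    nlinarith
  have ht : 1 ≤ |t| := (one_le_pow₀ l1).trans ht1
  have key : ∀ M ≤ N, √(N : ℝ) ≤ M → ‖∑ n ∈ Finset.Icc 1 M, (w n : ℂ) * er (t * Real.log n)‖ ≤
      (C1 + 2 * C2) * (N / (Real.log N) ^ (K + 1)) := by
    intro M hM1 hM2
    have e : ∑ n ∈ Finset.Icc 1 M, (w n : ℂ) * er (t * Real.log n) =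
        ∑ n ∈ Finset.Icc 1 M, ((w n : ℂ) - 1) * er (t * Real.log n) +
        ∑ n ∈ Finset.Icc 1 M, er (t * Real.log n) := by
      rw [← Finset.sum_add_distrib]
      refine Finset.sum_congr rfl fun k _ => ?_
      ring
    rw [e]
    have a1 := h1 N hN M hM1 hM2 t ht2
    have a2 := h2 N hN M hM1 hM2 t ht ht2
    have a3 : (N : ℝ) / |t| ≤ N / (Real.log N) ^ (K + 1) := by gcongr
    calc _ ≤ _ := norm_add_le _ _
      _ ≤ C1 * N / (Real.log N) ^ (K + 1) + C2 * (N / |t| + N / (Real.log N) ^ (K + 1)) :=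
          add_le_add a1 a2
      _ ≤ C1 * N / (Real.log N) ^ (K + 1) +
          C2 * (N / (Real.log N) ^ (K + 1) + N / (Real.log N) ^ (K + 1)) := by gcongr
      _ = _ := by ring
  rw [Ioc_sub _ y1]
  refine (norm_sub_le _ _).trans ?_
  have b1 := key N le_rfl hs
  have b2 := key _ y1 y2
  calc _ ≤ (C1 + 2 * C2) * (N / (Real.log N) ^ (K + 1)) +
      (C1 + 2 * C2) * (N / (Real.log N) ^ (K + 1)) := add_le_add b1 b2
    _ = 2 * (C1 + 2 * C2) * (N / (Real.log N) ^ (K + 1)) := by ring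
    _ ≤ Real.log N * (N / (Real.log N) ^ (K + 1)) := by gcongr
    _ = N / (Real.log N) ^ K := by
      rw [pow_succ]
      field_simp

lemma Wt.total {w : ℕ → ℝ} (hw : Wt w) (K : ℕ) : ∃ C : ℝ, 0 ≤ C ∧ ∀ N : ℕ, 4 ≤ N → ∀ M ≤ N,
    √(N : ℝ) ≤ M → |∑ n ∈ Finset.Icc 1 M, w n - M| ≤ C * N / (Real.log N) ^ K := by
  obtain ⟨C, hC, h⟩ := hw.vk.ext 0 K
  refine ⟨C, hC, fun N hN M hM1 hM2 => ?_⟩
  have h1 := h N hN M hM1 hM2 0 (by simp)
  simp only [zero_mul, er_zero, mul_one] at h1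
  have e : ∑ n ∈ Finset.Icc 1 M, ((w n : ℂ) - 1) = ((∑ n ∈ Finset.Icc 1 M, w n - M : ℝ) : ℂ) := by
    push_cast
    rw [Finset.sum_sub_distrib]
    simp
  rw [e, Complex.norm_real] at h1
  exact h1

lemma Wt.sum {w : ℕ → ℝ} (hw : Wt w) (K K1 : ℕ) : ∀ᶠ N : ℕ in atTop,
    |∑ m ∈ Finset.Ioc (y0 K1 N) N, w m - (N - y0 K1 N)| ≤ N / (Real.log N) ^ K := by
  obtain ⟨C, hC, h⟩ := hw.total (K + 1)
  filter_upwards [ev_log 1, ev_log (2 * C), y0_le K1, y0_ge K1, eventually_ge_atTop 4]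
    with N l1 l2 y1 y2 hN
  have hN4 : (4 : ℝ) ≤ N := by exact_mod_cast hN
  have hl : 0 < Real.log N := by linarith
  have hs : √(N : ℝ) ≤ N := by
    rw [Real.sqrt_le_left (by linarith)]
    nlinarith
  have b1 := h N hN N le_rfl hs
  have b2 := h N hN _ y1 y2
  have e : ∑ m ∈ Finset.Ioc (y0 K1 N) N, w m = ∑ n ∈ Finset.Icc 1 N, w n - ∑ n ∈ Finset.Icc 1 (y0 K1 N), w n := by
    rw [show Finset.Icc 1 N = Finset.Ioc 0 N by rfl, show Finset.Icc 1 (y0 K1 N) = Finset.Ioc 0 (y0 K1 N) by rfl,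
      ← Finset.sum_Ioc_consecutive w (Nat.zero_le _) y1]
    ring
  rw [e]
  calc |∑ n ∈ Finset.Icc 1 N, w n - ∑ n ∈ Finset.Icc 1 (y0 K1 N), w n - (N - y0 K1 N)| =
      |(∑ n ∈ Finset.Icc 1 N, w n - N) - (∑ n ∈ Finset.Icc 1 (y0 K1 N), w n - y0 K1 N)| := by
        congr 1
        ring
    _ ≤ |∑ n ∈ Finset.Icc 1 N, w n - N| + |∑ n ∈ Finset.Icc 1 (y0 K1 N), w n - y0 K1 N| := abs_sub _ _
    _ ≤ C * N / (Real.log N) ^ (K + 1) + C * N / (Real.log N) ^ (K + 1) := add_le_add b1 b2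
    _ = 2 * C * (N / (Real.log N) ^ (K + 1)) := by ring
    _ ≤ Real.log N * (N / (Real.log N) ^ (K + 1)) := by gcongr
    _ = N / (Real.log N) ^ K := by
      rw [pow_succ]
      field_simp

/-- the trivial bound -/
lemma Wt.triv {w : ℕ → ℝ} (hw : Wt w) (K1 : ℕ) : ∀ᶠ N : ℕ in atTop, ∀ t : ℝ,
    ‖∑ m ∈ Finset.Ioc (y0 K1 N) N, (w m : ℂ) * er (t * Real.log m)‖ ≤ 2 * N := by
  filter_upwards [ev_log 1, hw.sum 0 K1] with N l1 h1 t
  rw [pow_zero, div_one] at h1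
  calc _ ≤ ∑ m ∈ Finset.Ioc (y0 K1 N) N, w m := by
        refine norm_sum_le_of_le _ fun m _ => ?_
        rw [norm_mul, er_norm, mul_one, Complex.norm_real, Real.norm_of_nonneg (hw.nn m)]
    _ ≤ 2 * N := by
        have := (abs_le.1 h1).2
        have h2 : (0 : ℝ) ≤ y0 K1 N := by positivity
        linarith

end Pool.Agent.V7H21.MP
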